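import Pool.Agent.NPC.Dec
import Pool.Agent.NPC.Num

/-!
# Adaptive recursion in polynomial time
-/

namespace Pool.Agent.Helper944_HC

open Pool.Agent.NPC

variable {I : Type}

/-- `Hist f P rs js`: the procedure `f` asks the questions `js` one after the other, and `rs` are the
true answers (`P`). -/
inductive Hist (f : List Bool → Bool ⊕ I) (P : I → Prop) : List Bool → List I → Prop
  | nil : Hist f P [] []
  | snoc {rs : List Bool} {js : List I} {j : I} {b : Bool} (h : Hist f P rs js)
      (hj : f rs = Sum.inr j) (hb : b = true ↔ P j) : Hist f P (rs ++ [b]) (js ++ [j])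

/-! ### The stack machine -/

/-- Report the answer `b` to the procedure on top of the stack. -/
def ar_pop (b : Bool) (st : List (I × List Bool)) : List (I × List Bool) × Bool :=
  match st with
  | [] => ([], b)
  | a :: st => ((a.1, a.2 ++ [b]) :: st, false)

/-- One step of the stack machine. -/
def ar_step (next : I × List Bool → Bool ⊕ I) (s : List (I × List Bool) × Bool) :
    List (I × List Bool) × Bool :=
  match s.1 with
  | [] => s
  | a :: st =>
    match next a with
    | Sum.inl b => ar_pop b st
    | Sum.inr j => ((j, []) :: a :: st, false)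

theorem ar_step_nil (next : I × List Bool → Bool ⊕ I) (b : Bool) :
    ar_step next ([], b) = ([], b) := rfl

theorem ar_step_inl {next : I × List Bool → Bool ⊕ I} {a : I × List Bool} {b : Bool}
    (h : next a = Sum.inl b) (st : List (I × List Bool)) (c : Bool) :
    ar_step next (a :: st, c) = ar_pop b st := by
  simp only [ar_step, h]

theorem ar_step_inr {next : I × List Bool → Bool ⊕ I} {a : I × List Bool} {j : I}
    (h : next a = Sum.inr j) (st : List (I × List Bool)) (c : Bool) :
    ar_step next (a :: st, c) = ((j, []) :: a :: st, false) := by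
  simp only [ar_step, h]

theorem ar_iter_nil (next : I × List Bool → Bool ⊕ I) (b : Bool) (n : ℕ) :
    (ar_step next)^[n] ([], b) = ([], b) := by
  induction n with
  | zero => rfl
  | succ n ih => rw [Function.iterate_succ_apply, ar_step_nil, ih]

section Poly

variable [TEnc I]

theorem ar_poly_pop : Poly (fun p : Bool × List (I × List Bool) => ar_pop p.1 p.2) := by
  refine (Poly.listCases (l := fun p : Bool × List (I × List Bool) => p.2)
    (g := fun p => (([], p.1) : List (I × List Bool) × Bool))
    (h := fun p a st => ((a.1, a.2 ++ [p.1]) :: st, false)) (Poly.snd Poly.id)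
    (Poly.pair (NPC.Poly.const _) (NPC.Poly.fst Poly.id)) ?_).congr ?_
  · exact Poly.pair (Poly.cons (Poly.pair (NPC.Poly.fst (NPC.Poly.fst (Poly.snd Poly.id)))
      (Poly.append (Poly.snd (NPC.Poly.fst (Poly.snd Poly.id)))
        (Poly.cons (NPC.Poly.fst (NPC.Poly.fst Poly.id)) (NPC.Poly.const []))))
      (Poly.snd (Poly.snd Poly.id))) (NPC.Poly.const false)
  · rintro ⟨b, _ | ⟨a, st⟩⟩ <;> rfl

theorem ar_poly_step {next : I × List Bool → Bool ⊕ I} (hnext : Poly next) :
    Poly (ar_step next) := by
  refine (Poly.listCases (l := fun s : List (I × List Bool) × Bool => s.1)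
    (g := fun s => s)
    (h := fun _ a st => match next a with
      | Sum.inl b => ar_pop b st
      | Sum.inr j => ((j, []) :: a :: st, false)) (NPC.Poly.fst Poly.id) Poly.id ?_).congr ?_
  · refine (Poly.sumCases
      (o := fun p : (List (I × List Bool) × Bool) × (I × List Bool) × List (I × List Bool) =>
        next p.2.1) (g := fun p b => ar_pop b p.2.2)
      (h := fun p j => ((j, []) :: p.2.1 :: p.2.2, false))
      (hnext.comp (NPC.Poly.fst (Poly.snd Poly.id))) ?_ ?_).congr ?_
    · exact ar_poly_pop.comp (Poly.pair (Poly.snd Poly.id) (Poly.snd (Poly.snd (NPC.Poly.fst Poly.id))))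
    · exact Poly.pair (Poly.cons (Poly.pair (Poly.snd Poly.id) (NPC.Poly.const []))
        (Poly.cons (NPC.Poly.fst (Poly.snd (NPC.Poly.fst Poly.id)))
          (Poly.snd (Poly.snd (NPC.Poly.fst Poly.id))))) (NPC.Poly.const false)
    · rintro ⟨s, a, st⟩
      dsimp only
      cases next a <;> rfl
  · rintro ⟨_ | ⟨a, st⟩, c⟩ <;> rfl

/-- The size of the code is computable in unary. -/
theorem ar_usz : UPoly (fun i : I => sz i) := by
  have hit : ∀ n : ℕ, (fun l : List Unit => () :: l)^[n] [] = List.replicate n () := by
    intro n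
    induction n with
    | zero => rfl
    | succ n ih => rw [Function.iterate_succ_apply', ih, List.replicate_succ]
  have hsz : ∀ n : ℕ, sz (List.replicate n ()) = 2 * n + 1 := by
    intro n
    induction n with
    | zero => rfl
    | succ n ih => rw [List.replicate_succ, sz_list_cons, ih, sz_unit]; ring
  have h : Poly (fun i : I => (fun l : List Unit => () :: l)^[(toT i).size] ([] : List Unit)) :=
    PC.iterate (ea := (bits : I → List Bool)) (tb := (toT : List Unit → T))
      (n := fun i : I => toT i) (x := fun _ => ([] : List Unit)) (f := fun l => () :: l)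
      (Poly.toT' Poly.id) (NPC.Poly.const []) (Poly.cons (NPC.Poly.const ()) Poly.id)
      (Polynomial.C 2 * Polynomial.X + 1) (by
        intro i k hk
        rw [hit]
        have h1 := hsz k
        have h2 : (bits i).length = (toT i).size := rfl
        rw [h2]
        have h3 : (toT (List.replicate k ())).size = sz (List.replicate k ()) := rfl
        rw [h3, h1]
        simp only [Polynomial.eval_add, Polynomial.eval_mul, Polynomial.eval_C, Polynomial.eval_X,
          Polynomial.eval_one]
        omega)
  exact h.congr fun i => by rw [hit]; rfl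

end Poly

/-! ### Running time and correctness -/

section Run

variable {next : I × List Bool → Bool ⊕ I} {wf : I → Bool} {P : I → Prop} {φ m : I → ℕ}

theorem ar_hist_sum
    (h2 : ∀ i, wf i = true → ∀ rs js j, Hist (fun rs => next (i, rs)) P rs js →
      next (i, rs) = Sum.inr j →
      wf j = true ∧ m j ≤ m i ∧ (js.map φ).sum + φ j + 1 ≤ φ i)
    (h6 : ∀ i, wf i = true → 1 ≤ φ i) {i : I} (hi : wf i = true) {rs : List Bool} {js : List I}
    (h : Hist (fun rs => next (i, rs)) P rs js) : (js.map φ).sum + 1 ≤ φ i := by
  cases h with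
  | nil => simpa using h6 i hi
  | snoc h hj hb =>
    have := (h2 i hi _ _ _ h hj).2.2
    simp only [List.map_append, List.map_cons, List.map_nil, List.sum_append, List.sum_cons,
      List.sum_nil]
    omega

theorem ar_run
    (h1 : ∀ i, wf i = true → ∀ rs js b, Hist (fun rs => next (i, rs)) P rs js →
      next (i, rs) = Sum.inl b → (b = true ↔ P i))
    (h2 : ∀ i, wf i = true → ∀ rs js j, Hist (fun rs => next (i, rs)) P rs js →
      next (i, rs) = Sum.inr j →
      wf j = true ∧ m j ≤ m i ∧ (js.map φ).sum + φ j + 1 ≤ φ i)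
    (h6 : ∀ i, wf i = true → 1 ≤ φ i) :
    ∀ n : ℕ, ∀ i, wf i = true → φ i ≤ n → ∀ k : ℕ, ∀ rs js,
      Hist (fun rs => next (i, rs)) P rs js → φ i - (js.map φ).sum ≤ k →
      ∀ (st : List (I × List Bool)) (c : Bool), ∃ (t : ℕ) (b : Bool),
        t + 1 + 2 * (js.map φ).sum ≤ 2 * φ i ∧ (b = true ↔ P i) ∧
          (ar_step next)^[t] ((i, rs) :: st, c) = ar_pop b st := by
  intro n
  induction n with
  | zero =>
    intro i hi hn
    have := h6 i hi
    omega
  | succ n ihn =>
    intro i hi hn k
    induction k with
    | zero =>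
      intro rs js hh hk
      have := ar_hist_sum h2 h6 hi hh
      omega
    | succ k ihk =>
      intro rs js hh hk st c
      have hsum := ar_hist_sum h2 h6 hi hh
      cases hx : next (i, rs) with
      | inl b =>
        refine ⟨1, b, by omega, h1 i hi rs js b hh hx, ?_⟩
        rw [Function.iterate_one, ar_step_inl hx]
      | inr j =>
        obtain ⟨hwj, -, hφ⟩ := h2 i hi rs js j hh hx
        have hj1 := h6 j hwj
        obtain ⟨t1, b1, ht1, hb1, he1⟩ := ihn j hwj (by omega) (φ j) [] [] Hist.nil (by simp)
          ((i, rs) :: st) false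
        have hh' : Hist (fun rs => next (i, rs)) P (rs ++ [b1]) (js ++ [j]) :=
          Hist.snoc hh hx hb1
        obtain ⟨t2, b2, ht2, hb2, he2⟩ := ihk (rs ++ [b1]) (js ++ [j]) hh' (by
          simp only [List.map_append, List.map_cons, List.map_nil, List.sum_append, List.sum_cons,
            List.sum_nil]
          omega) st false
        refine ⟨t2 + (t1 + 1), b2, ?_, hb2, ?_⟩
        · simp only [List.map_append, List.map_cons, List.map_nil, List.sum_append, List.sum_cons,
            List.sum_nil] at ht1 ht2
          omega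
        · rw [Function.iterate_add_apply, Function.iterate_add_apply, Function.iterate_one,
            ar_step_inr hx, he1]
          exact he2

/-- The invariant of the stack: every procedure on the stack is well-formed, its history is
truthful, and it waits for the answer of the procedure above it. -/
inductive ar_Good (next : I × List Bool → Bool ⊕ I) (wf : I → Bool) (P : I → Prop) (m : I → ℕ)
    (M : ℕ) : List (I × List Bool) → Prop
  | nil : ar_Good next wf P m M []
  | one {i : I} {rs : List Bool} {js : List I} (hw : wf i = true) (hm : m i ≤ M)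
      (h : Hist (fun rs => next (i, rs)) P rs js) : ar_Good next wf P m M [(i, rs)]
  | cons {j : I} {rs' : List Bool} {js' : List I} {a : I × List Bool} {st : List (I × List Bool)}
      (hw : wf j = true) (hm : m j ≤ M) (h : Hist (fun rs => next (j, rs)) P rs' js')
      (hn : next a = Sum.inr j) (hst : ar_Good next wf P m M (a :: st)) :
      ar_Good next wf P m M ((j, rs') :: a :: st)

theorem ar_good_head {M : ℕ} {a : I × List Bool} {st : List (I × List Bool)}
    (h : ar_Good next wf P m M (a :: st)) : wf a.1 = true ∧ m a.1 ≤ M ∧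
      (∃ js, Hist (fun rs => next (a.1, rs)) P a.2 js) ∧ ar_Good next wf P m M st := by
  cases h with
  | one hw hm h => exact ⟨hw, hm, ⟨_, h⟩, ar_Good.nil⟩
  | cons hw hm h hn hst => exact ⟨hw, hm, ⟨_, h⟩, hst⟩

theorem ar_good_mem {M : ℕ} {st : List (I × List Bool)}
    (h : ar_Good next wf P m M st) : ∀ a ∈ st, wf a.1 = true ∧ m a.1 ≤ M := by
  induction st with
  | nil => simp
  | cons b st ih =>
    obtain ⟨h1, h2, -, h3⟩ := ar_good_head h
    intro a ha
    rcases List.mem_cons.1 ha with rfl | ha
    · exact ⟨h1, h2⟩
    · exact ih h3 a ha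

theorem ar_good_replace {M : ℕ} {i : I} {rs rs' : List Bool} {js' : List I}
    {st : List (I × List Bool)} (h : ar_Good next wf P m M ((i, rs) :: st))
    (h' : Hist (fun rs => next (i, rs)) P rs' js') : ar_Good next wf P m M ((i, rs') :: st) := by
  cases h with
  | one hw hm h => exact ar_Good.one hw hm h'
  | cons hw hm h hn hst => exact ar_Good.cons hw hm h' hn hst

theorem ar_good_step
    (h1 : ∀ i, wf i = true → ∀ rs js b, Hist (fun rs => next (i, rs)) P rs js →
      next (i, rs) = Sum.inl b → (b = true ↔ P i))
    (h2 : ∀ i, wf i = true → ∀ rs js j, Hist (fun rs => next (i, rs)) P rs js →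
      next (i, rs) = Sum.inr j →
      wf j = true ∧ m j ≤ m i ∧ (js.map φ).sum + φ j + 1 ≤ φ i) {M : ℕ}
    {s : List (I × List Bool) × Bool} (h : ar_Good next wf P m M s.1) :
    ar_Good next wf P m M (ar_step next s).1 := by
  obtain ⟨st, c⟩ := s
  cases st with
  | nil => exact h
  | cons a st =>
    cases hx : next a with
    | inl b =>
      rw [ar_step_inl hx]
      obtain ⟨hw, -, ⟨js, hh⟩, -⟩ := ar_good_head h
      have hb := h1 a.1 hw a.2 js b hh hx
      cases h with
      | one => exact ar_Good.nil
      | cons hw hm hh' hn hst =>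
        obtain ⟨-, -, ⟨js0, hh0⟩, -⟩ := ar_good_head hst
        exact ar_good_replace (rs' := _ ++ [b]) hst (Hist.snoc hh0 hn hb)
    | inr j =>
      rw [ar_step_inr hx]
      obtain ⟨hw, hm, ⟨js, hh⟩, -⟩ := ar_good_head h
      obtain ⟨hwj, hmj, -⟩ := h2 a.1 hw a.2 js j hh hx
      exact ar_Good.cons hwj (hmj.trans hm) Hist.nil hx h

theorem ar_good_iter
    (h1 : ∀ i, wf i = true → ∀ rs js b, Hist (fun rs => next (i, rs)) P rs js →
      next (i, rs) = Sum.inl b → (b = true ↔ P i))
    (h2 : ∀ i, wf i = true → ∀ rs js j, Hist (fun rs => next (i, rs)) P rs js →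
      next (i, rs) = Sum.inr j →
      wf j = true ∧ m j ≤ m i ∧ (js.map φ).sum + φ j + 1 ≤ φ i) {M : ℕ}
    {s : List (I × List Bool) × Bool} (h : ar_Good next wf P m M s.1) (k : ℕ) :
    ar_Good next wf P m M ((ar_step next)^[k] s).1 := by
  induction k with
  | zero => exact h
  | succ k ih =>
    rw [Function.iterate_succ_apply']
    exact ar_good_step h1 h2 ih

/-- The growth of the stack. -/
theorem ar_len_step {s : List (I × List Bool) × Bool} {k : ℕ}
    (h : s.1.length ≤ k + 1 ∧ ∀ a ∈ s.1, a.2.length ≤ k) :
    (ar_step next s).1.length ≤ k + 1 + 1 ∧ ∀ a ∈ (ar_step next s).1, a.2.length ≤ k + 1 := by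
  obtain ⟨st, c⟩ := s
  obtain ⟨hl, ha⟩ := h
  simp only at hl ha
  cases st with
  | nil =>
    rw [ar_step_nil]
    simp
  | cons a st =>
    cases hx : next a with
    | inl b =>
      rw [ar_step_inl hx]
      cases st with
      | nil => simp [ar_pop]
      | cons a' st =>
        simp only [ar_pop, List.length_cons] at hl ⊢
        refine ⟨by omega, ?_⟩
        intro d hd
        rcases List.mem_cons.1 hd with rfl | hd
        · have := ha a' (by simp)
          simp only [List.length_append, List.length_cons, List.length_nil]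
          omega
        · have := ha d (by simp [hd])
          omega
    | inr j =>
      rw [ar_step_inr hx]
      simp only [List.length_cons] at hl ⊢
      refine ⟨by omega, ?_⟩
      intro d hd
      rcases List.mem_cons.1 hd with rfl | hd
      · simp
      · have := ha d hd
        omega

theorem ar_len_iter {s : List (I × List Bool) × Bool}
    (h : s.1.length ≤ 1 ∧ ∀ a ∈ s.1, a.2.length ≤ 0) (k : ℕ) :
    ((ar_step next)^[k] s).1.length ≤ k + 1 ∧
      ∀ a ∈ ((ar_step next)^[k] s).1, a.2.length ≤ k := by
  induction k with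
  | zero => exact h
  | succ k ih =>
    rw [Function.iterate_succ_apply']
    exact ar_len_step ih

end Run

/-- The size of the state. -/
theorem ar_sz [TEnc I] {st : List (I × List Bool)} {c : Bool} {k B : ℕ}
    (hl : st.length ≤ k + 1) (ha : ∀ a ∈ st, a.2.length ≤ k) (hB : ∀ a ∈ st, sz a.1 ≤ B) :
    sz (st, c) ≤ (k + 1) * (B + 4 * k + 3) + 5 := by
  have h1 : sz st ≤ st.length * ((B + 4 * k + 2) + 1) + 1 := by
    refine sz_le_length_mul st _ fun a h => ?_
    obtain ⟨i, rs⟩ := a
    have h2 := hB _ h
    have h3 := ha _ h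
    have h4 := sz_listBool_le rs
    simp only at h2 h3
    simp only [sz_pair]
    omega
  have h2 : st.length * ((B + 4 * k + 2) + 1) ≤ (k + 1) * ((B + 4 * k + 2) + 1) :=
    Nat.mul_le_mul_right _ hl
  have h3 := sz_bool_le c
  rw [sz_pair]
  have h4 : (k + 1) * ((B + 4 * k + 2) + 1) = (k + 1) * (B + 4 * k + 3) := by ring
  omega

/-- A recursive procedure given by a polynomial-time function `next` (the next question or the final
answer, depending on the instance and the answers so far) can be evaluated in polynomial time,
if its recursion tree has polynomial size. -/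
theorem adaptive [TEnc I] {next : I × List Bool → Bool ⊕ I} (hnext : Poly next) {wf : I → Bool}
    (hwf : Poly wf) {P : I → Prop} {φ m : I → ℕ} {p q : Polynomial ℕ}
    (h1 : ∀ i, wf i = true → ∀ rs js b, Hist (fun rs => next (i, rs)) P rs js →
      next (i, rs) = Sum.inl b → (b = true ↔ P i))
    (h2 : ∀ i, wf i = true → ∀ rs js j, Hist (fun rs => next (i, rs)) P rs js →
      next (i, rs) = Sum.inr j →
      wf j = true ∧ m j ≤ m i ∧ (js.map φ).sum + φ j + 1 ≤ φ i)
    (h3 : ∀ i, wf i = true → sz i ≤ q.eval (m i)) (h4 : ∀ i, m i ≤ sz i)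
    (h5 : ∀ i, wf i = true → φ i ≤ p.eval (m i)) (h6 : ∀ i, wf i = true → 1 ≤ φ i) :
    ∃ F : I → Bool, Poly F ∧ ∀ i, wf i = true → (F i = true ↔ P i) := by
  have hlen : ∀ i : I, (List.replicate (2 * p.eval (sz i)) ()).length = 2 * p.eval (sz i) :=
    fun i => List.length_replicate
  have hU : UPoly (fun i : I => 2 * p.eval (sz i)) :=
    UPoly.mul (UPoly.const 2) (UPoly.eval ar_usz p)
  have hstart : Poly (fun i : I => if wf i = true then
      (([(i, [])], false) : List (I × List Bool) × Bool) else ([], false)) :=
    Poly.ite (Poly.decide_bool hwf)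
      (Poly.pair (Poly.cons (Poly.pair Poly.id (NPC.Poly.const [])) (NPC.Poly.const []))
        (NPC.Poly.const false)) (NPC.Poly.const _)
  have hmain : Poly (fun i : I => (ar_step next)^[(List.replicate (2 * p.eval (sz i)) ()).length]
      (if wf i = true then (([(i, [])], false) : List (I × List Bool) × Bool)
        else ([], false))) := by
    refine Poly.iterLen (F := fun _ s => ar_step next s) hU hstart
      ((ar_poly_step hnext).comp (Poly.snd Poly.id))
      ((2 * p + 1) * (q + 8 * p + 3) + 5) ?_
    intro i k hk
    rw [hlen] at hk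
    change sz ((ar_step next)^[k] _) ≤ _
    have hev : Polynomial.eval (sz i) ((2 * p + 1) * (q + 8 * p + 3) + 5) =
        (2 * p.eval (sz i) + 1) * (q.eval (sz i) + 8 * p.eval (sz i) + 3) + 5 := by
      simp
    rw [hev]
    by_cases hw : wf i = true
    · rw [if_pos hw]
      have hg := ar_good_iter (next := next) (φ := φ) (M := m i) (s := ([(i, [])], false)) h1 h2
        (ar_Good.one hw le_rfl Hist.nil) k
      obtain ⟨hl1, hl2⟩ := ar_len_iter (next := next) (s := ([(i, [])], false)) (by simp) k
      have hB : ∀ a ∈ ((ar_step next)^[k] ([(i, [])], false)).1, sz a.1 ≤ q.eval (sz i) := by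
        intro a ha
        obtain ⟨h7, h8⟩ := ar_good_mem hg a ha
        exact (h3 a.1 h7).trans (eval_mono q (h8.trans (h4 i)))
      have := ar_sz (c := ((ar_step next)^[k] ([(i, [])], false)).2) hl1 hl2 hB
      refine this.trans ?_
      refine Nat.add_le_add_right (Nat.mul_le_mul (by omega) (by omega)) _
    · rw [if_neg hw, ar_iter_nil]
      simp only [sz_pair, sz_list_nil, sz_false]
      omega
  refine ⟨_, Poly.snd hmain, ?_⟩
  intro i hi
  rw [if_pos hi, hlen]
  obtain ⟨t, b, ht, hb, he⟩ := ar_run (next := next) (wf := wf) (P := P) (φ := φ) (m := m) h1 h2 h6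
    (φ i) i hi le_rfl (φ i) [] [] Hist.nil (by simp) [] false
  have hφ : φ i ≤ p.eval (sz i) := (h5 i hi).trans (eval_mono p (h4 i))
  simp only [List.map_nil, List.sum_nil, mul_zero, add_zero] at ht
  obtain ⟨d, hd⟩ := Nat.exists_eq_add_of_le (show t ≤ 2 * p.eval (sz i) by omega)
  rw [hd, Nat.add_comm, Function.iterate_add_apply, he]
  rw [show ar_pop b ([] : List (I × List Bool)) = ([], b) from rfl, ar_iter_nil]
  exact hb

end Pool.Agent.Helper944_HC

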