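import Mathlib

/-!
# The algorithm for the Hamiltonian `(X,Y)`-path problem in semicomplete digraphs

An instance is a quadruple `(V, E, X, Y)` of lists: vertices, arcs, allowed start vertices, allowed
end vertices.
-/

namespace Pool.Agent.Helper944_HC

/-- Instances `(V, E, X, Y)`. -/
abbrev Inst := List ℕ × List (ℕ × ℕ) × List ℕ × List ℕ

/-- The arc relation given by a list of arcs. -/
def ar (E : List (ℕ × ℕ)) (a b : ℕ) : Bool := decide ((a, b) ∈ E)

/-- All pairs of elements of `V`. -/
def prs (V : List ℕ) : List (ℕ × ℕ) := V.flatMap (fun a => V.map (fun b => (a, b)))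

/-- Arcs of `E` inside `V`. -/
def inE (V : List ℕ) (E : List (ℕ × ℕ)) : List (ℕ × ℕ) := (prs V).filter (fun e => decide (e ∈ E))

/-- The instance with vertices `V`, the arcs of `E` inside `V`, `X ∩ V`, `Y ∩ V`. -/
def mk (V : List ℕ) (E : List (ℕ × ℕ)) (X Y : List ℕ) : Inst :=
  (V, inE V E, V.filter (fun v => decide (v ∈ X)), V.filter (fun v => decide (v ∈ Y)))

/-- Out-neighbours and in-neighbours of `v` in `V`. -/
def outs (V : List ℕ) (E : List (ℕ × ℕ)) (v : ℕ) : List ℕ := V.filter (fun w => ar E v w)
/-- In-neighbours. -/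
def ins (V : List ℕ) (E : List (ℕ × ℕ)) (v : ℕ) : List ℕ := V.filter (fun w => ar E w v)

/-- `V` without `v`. -/
def del (V : List ℕ) (v : ℕ) : List ℕ := V.filter (fun w => decide (w ≠ v))

/-- `V` without the elements of `A`. -/
def sdf (V A : List ℕ) : List ℕ := V.filter (fun w => decide (w ∉ A))

/-- One step of the computation of reachable vertices. -/
def rstep (E : List (ℕ × ℕ)) (W R : List ℕ) : List ℕ :=
  W.filter (fun v => decide (v ∈ R) || R.any (fun u => ar E u v))

/-- Vertices of `W` reachable inside `W` from `S`. -/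
def reach (E : List (ℕ × ℕ)) (W S : List ℕ) : List ℕ :=
  (rstep E W)^[W.length] (W.filter (fun v => decide (v ∈ S)))

/-- `v` reaches all vertices of `W`. -/
def src (E : List (ℕ × ℕ)) (W : List ℕ) (v : ℕ) : Bool :=
  W.all (fun w => decide (w ∈ reach E W [v]))

/-- Strongness of the digraph induced by `W`. -/
def strongB (E : List (ℕ × ℕ)) (W : List ℕ) : Bool := W.all (fun v => src E W v)

/-- The first strong component of `W`: the vertices reaching everything. -/
def firstC (E : List (ℕ × ℕ)) (W : List ℕ) : List ℕ := W.filter (fun v => src E W v)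

/-- The reversed arcs. -/
def revE (E : List (ℕ × ℕ)) : List (ℕ × ℕ) := E.map (fun e => (e.2, e.1))

/-- The reversed instance. -/
def revI (I : Inst) : Inst := (I.1, revE I.2.1, I.2.2.2, I.2.2.1)

/-! ### Brute force for at most six vertices -/

/-- Extend all the partial paths (written backwards) by one vertex. -/
def ext (V : List ℕ) (E : List (ℕ × ℕ)) (L : List (List ℕ)) : List (List ℕ) :=
  L.flatMap (fun l => (V.filter (fun v => decide (v ∉ l) && ar E (l.headD 0) v)).map
    (fun v => v :: l))

/-- Partial paths with `1, …, 6` vertices. -/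
def small (I : Inst) : List (List ℕ) :=
  let L1 := (I.1.filter (fun v => decide (v ∈ I.2.2.1))).map (fun v => [v])
  let L2 := ext I.1 I.2.1 L1
  let L3 := ext I.1 I.2.1 L2
  let L4 := ext I.1 I.2.1 L3
  let L5 := ext I.1 I.2.1 L4
  let L6 := ext I.1 I.2.1 L5
  L1 ++ (L2 ++ (L3 ++ (L4 ++ (L5 ++ L6))))

/-- Brute force. -/
def brute (I : Inst) : Bool :=
  (small I).any (fun l => decide (l.length = I.1.length) && decide (l.headD 0 ∈ I.2.2.2))

/-! ### The rules. Each rule returns `none` if it is not applicable; otherwise, depending on the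
answers `rs` to the questions asked so far, either the answer or the next question. -/

/-- Rule R1: not strong. -/
def alg1 (I : Inst) : Option (Bool ⊕ Inst) :=
  if strongB I.2.1 I.1 then none
  else some (Sum.inl (I.1.any (fun v => decide (v ∈ I.2.2.1) && src I.2.1 I.1 v) &&
    I.1.any (fun v => decide (v ∈ I.2.2.2) && src (revE I.2.1) I.1 v)))

/-- Condition of rule R2: `s` separates `X` from `Y`. -/
def cond2 (I : Inst) (s : ℕ) : Bool :=
  (reach I.2.1 (del I.1 s) I.2.2.1).all (fun v => decide (v ∉ I.2.2.2))

/-- Rule R2. -/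
def alg2 (I : Inst) (rs : List Bool) : Option (Bool ⊕ Inst) :=
  match (I.1.filter (cond2 I)).head? with
  | none => none
  | some s =>
    let A := reach I.2.1 (del I.1 s) I.2.2.1
    let B := sdf (del I.1 s) A
    let qA := mk A I.2.1 I.2.2.1 (ins I.1 I.2.1 s)
    let qB := mk B I.2.1 (outs I.1 I.2.1 s) I.2.2.2
    some (if A.isEmpty then
        (if s ∉ I.2.2.1 then Sum.inl false
        else if B.isEmpty then Sum.inl (decide (s ∈ I.2.2.2))
        else match rs with
          | [] => Sum.inr qB
          | b :: _ => Sum.inl b)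
      else match rs with
        | [] => Sum.inr qA
        | a :: rs' =>
          if !a then Sum.inl false
          else if B.isEmpty then Sum.inl (decide (s ∈ I.2.2.2))
          else match rs' with
            | [] => Sum.inr qB
            | b :: _ => Sum.inl b)

/-- Condition of rule R3: `z` is a cut vertex and the first component of `V - z` avoids `X`. -/
def cond3 (I : Inst) (z : ℕ) : Bool :=
  !(strongB I.2.1 (del I.1 z)) &&
    (firstC I.2.1 (del I.1 z)).all (fun v => decide (v ∉ I.2.2.1))

/-- Rule R3. -/
def alg3 (I : Inst) (rs : List Bool) : Option (Bool ⊕ Inst) :=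
  match (I.1.filter (cond3 I)).head? with
  | none => none
  | some z =>
    let C := firstC I.2.1 (del I.1 z)
    let V' := sdf I.1 C
    some (match rs with
      | [] => Sum.inr (mk C I.2.1 (outs I.1 I.2.1 z) I.2.2.2)
      | h :: rs' => match rs' with
        | [] => Sum.inr (mk V' (I.2.1 ++ V'.map (fun v => (z, v))) I.2.2.1
            (if h then z :: I.2.2.2 else del I.2.2.2 z))
        | b :: _ => Sum.inl b)

/-- Rule R4. -/
def alg4 (I : Inst) : Option (Bool ⊕ Inst) :=
  if I.1.all (fun z => strongB I.2.1 (del I.1 z)) then none else some (Sum.inl true)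

/-- Left side of the separator `{s,t}`. -/
def sideA (I : Inst) (p : ℕ × ℕ) : List ℕ := reach I.2.1 (del (del I.1 p.1) p.2) I.2.2.1

/-- Right side of the separator `{s,t}`. -/
def sideB (I : Inst) (p : ℕ × ℕ) : List ℕ := sdf (del (del I.1 p.1) p.2) (sideA I p)

/-- Condition of rule R5 for the pair `(s,t)`. -/
def cond5 (I : Inst) (p : ℕ × ℕ) : Bool :=
  decide (p.1 ≠ p.2) && (sideA I p).all (fun v => decide (v ∉ I.2.2.2)) &&
    !(sideA I p).isEmpty &&
    (del (del I.1 p.1) p.2).any (fun v => decide (v ∈ I.2.2.2)) &&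
    decide ((sideA I p).length ≤ (sideB I p).length)

/-- The question `Lam u f`. -/
def qLam (I : Inst) (A : List ℕ) (u f : ℕ) : Inst :=
  mk (u :: A) (I.2.1 ++ A.map (fun v => (u, v))) I.2.2.1 (A.filter (fun v => ar I.2.1 v f))

/-- The last question of rule R5. -/
def qLast (I : Inst) (B : List ℕ) (u f : ℕ) (p q : Bool) : Inst :=
  let E' := I.2.1.filter (fun e => decide (e.2 ≠ u)) ++ B.map (fun v => (v, u)) ++
    (if p && q then [(f, u)] else [])
  if p then mk (u :: f :: B) E' [u, f] I.2.2.2
  else mk (u :: B) E' (outs B I.2.1 f ++ (if q then [u] else [])) I.2.2.2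

/-- Rule R5, after the two labels `Lam s t`, `Lam t s` have been determined; `u` is the pivot. -/
def alg5' (I : Inst) (A B : List ℕ) (u f : ℕ) (rs : List Bool) : Bool ⊕ Inst :=
  match rs with
  | [] => Sum.inr (mk A I.2.1 I.2.2.1 (ins I.1 I.2.1 u))
  | p :: rs1 => match rs1 with
    | [] => Sum.inr (mk (f :: A) I.2.1 I.2.2.1 (ins I.1 I.2.1 u))
    | q :: rs2 => match rs2 with
      | [] => Sum.inr (qLast I B u f p q)
      | b :: _ => Sum.inl b

/-- Rule R5. -/
def alg5 (I : Inst) (rs : List Bool) : Option (Bool ⊕ Inst) :=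
  match ((prs I.1).filter (cond5 I)).head? with
  | none => none
  | some p =>
    let A := sideA I p
    let B := sideB I p
    some (match rs with
      | [] => Sum.inr (qLam I A p.1 p.2)
      | l1 :: rs1 => match rs1 with
        | [] => Sum.inr (qLam I A p.2 p.1)
        | l2 :: rs2 =>
          if l1 && l2 then Sum.inl true
          else if l1 then alg5' I A B p.2 p.1 rs2
          else alg5' I A B p.1 p.2 rs2)

/-- The first rule that is applicable. -/
def orElse (a b : Option (Bool ⊕ Inst)) : Option (Bool ⊕ Inst) :=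
  match a with
  | none => b
  | some c => some c

/-- The algorithm: the instance together with the answers to the questions asked so far. -/
def next (c : Inst × List Bool) : Bool ⊕ Inst :=
  if c.1.1.length ≤ 6 then Sum.inl (brute c.1)
  else match orElse (alg1 c.1) (orElse (alg2 c.1 c.2) (orElse (alg3 c.1 c.2)
      (orElse (alg3 (revI c.1) c.2) (orElse (alg4 c.1) (orElse (alg5 c.1 c.2)
      (alg5 (revI c.1) c.2)))))) with
  | none => Sum.inl true
  | some x => x

end Pool.Agent.Helper944_HC
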