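import Pool.Agent.Helper944_HC.Defs

/-!
# Hamiltonian paths in semicomplete digraphs: basic facts
-/

namespace Pool.Agent.Helper944_HC

variable {α : Type*} [DecidableEq α] {r : α → α → Prop} {W V : Finset α} {S T S' T' X Y : Set α}

/-! ### Trivialities -/

theorem Semi.mono (h : Semi r V) (hW : W ⊆ V) : Semi r W := fun u hu v hv huv =>
  h u (hW hu) v (hW hv) huv

theorem Semi.rev (h : Semi r V) : Semi (fun a b => r b a) V := fun u hu v hv huv =>
  (h u hu v hv huv).symm

theorem HP.nonempty (h : HP r W S T) : W.Nonempty := by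
  obtain ⟨l, hl, ⟨x, hx, _⟩, _⟩ := h
  exact ⟨x, (hl.mem x).1 (List.mem_of_mem_head? hx)⟩

theorem HP.mono (h : HP r W S T) (hS : ∀ x ∈ W, x ∈ S → x ∈ S') (hT : ∀ y ∈ W, y ∈ T → y ∈ T') :
    HP r W S' T' := by
  obtain ⟨l, hl, ⟨x, hx, hxS⟩, ⟨y, hy, hyT⟩⟩ := h
  exact ⟨l, hl, ⟨x, hx, hS x ((hl.mem x).1 (List.mem_of_mem_head? hx)) hxS⟩,
    ⟨y, hy, hT y ((hl.mem y).1 (List.mem_of_mem_getLast? hy)) hyT⟩⟩

/-- The relation matters only on `W`. -/
theorem HP.congr {r' : α → α → Prop} (h : HP r W S T)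
    (hr : ∀ a ∈ W, ∀ b ∈ W, a ≠ b → r a b → r' a b) : HP r' W S T := by
  obtain ⟨l, hl, hx, hy⟩ := h
  refine ⟨l, ⟨hl.nodup, ?_, hl.mem⟩, hx, hy⟩
  have hm : ∀ v ∈ l, v ∈ W := fun v hv => (hl.mem v).1 hv
  have hn := hl.nodup
  have hc := hl.chain
  clear hx hy hl
  induction l with
  | nil => exact List.isChain_nil
  | cons a l ih =>
    cases l with
    | nil => exact List.isChain_singleton a
    | cons b l =>
      obtain ⟨h1, h2⟩ := List.isChain_cons_cons.1 hc
      refine List.isChain_cons_cons.2 ⟨hr a (hm a (by simp)) b (hm b (by simp)) ?_ h1,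
        ih (fun v hv => hm v (List.mem_cons_of_mem _ hv)) (List.nodup_cons.1 hn).2 h2⟩
      rintro rfl
      exact (List.nodup_cons.1 hn).1 (by simp)

theorem HP_rev : HP (fun a b => r b a) W T S ↔ HP r W S T := by
  have key : ∀ (r : α → α → Prop) (S T : Set α), HP r W S T → HP (fun a b => r b a) W T S := by
    rintro r S T ⟨l, hl, ⟨x, hx, hxS⟩, ⟨y, hy, hyT⟩⟩
    refine ⟨l.reverse, ⟨List.nodup_reverse.2 hl.nodup, ?_, fun v => by
      rw [List.mem_reverse]; exact hl.mem v⟩, ⟨y, by simpa using hy, hyT⟩, ⟨x, by simpa using hx, hxS⟩⟩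
    rw [List.isChain_reverse]
    exact hl.chain
  exact ⟨fun h => key _ _ _ h, fun h => key _ _ _ h⟩

theorem HP_singleton {a : α} (hS : a ∈ S) (hT : a ∈ T) : HP r {a} S T :=
  ⟨[a], ⟨by simp, by simp, by simp⟩, ⟨a, rfl, hS⟩, ⟨a, rfl, hT⟩⟩

theorem Strong.rev : Strong (fun a b => r b a) W ↔ Strong r W := by
  have key : ∀ r : α → α → Prop, Strong r W → Strong (fun a b => r b a) W := by
    intro r h U hU hne hUW
    have h1 : (W \ U).Nonempty := by
      rw [Finset.sdiff_nonempty]
      intro h2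
      exact hUW (Finset.Subset.antisymm hU h2)
    obtain ⟨a, ha, b, hb, hab⟩ := h (W \ U) Finset.sdiff_subset h1 (by
      intro h2
      obtain ⟨u, hu⟩ := hne
      have := hU hu
      rw [← h2] at this
      exact (Finset.mem_sdiff.1 this).2 hu)
    rw [Finset.sdiff_sdiff_eq_self hU] at hb
    exact ⟨b, hb, a, ha, hab⟩
  exact ⟨fun h => key _ h, fun h => key _ h⟩

theorem TwoStrong.rev (h : TwoStrong r V) : TwoStrong (fun a b => r b a) V :=
  ⟨Strong.rev.2 h.1, fun v hv => Strong.rev.2 (h.2 v hv)⟩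

theorem From.rev (h : From r W S) : To (fun a b => r b a) W S := by
  intro U hU hne hS
  obtain ⟨a, ha, b, hb, hab⟩ := h U hU hne hS
  exact ⟨b, hb, a, ha, hab⟩

theorem To.rev (h : To r W S) : From (fun a b => r b a) W S := by
  intro U hU hne hS
  obtain ⟨a, ha, b, hb, hab⟩ := h U hU hne hS
  exact ⟨b, hb, a, ha, hab⟩

theorem Strong.from (h : Strong r W) (hS : ∃ s ∈ W, s ∈ S) : From r W S := by
  intro U hU hne hUS
  obtain ⟨s, hs, hsS⟩ := hS
  obtain ⟨a, ha, b, hb, hab⟩ := h (W \ U) Finset.sdiff_subset ⟨s, Finset.mem_sdiff.2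
    ⟨hs, fun h => hUS s h hsS⟩⟩ (by
      intro h2
      obtain ⟨u, hu⟩ := hne
      have := hU hu
      rw [← h2] at this
      exact (Finset.mem_sdiff.1 this).2 hu)
  rw [Finset.sdiff_sdiff_eq_self hU] at hb
  exact ⟨a, ha, b, hb, hab⟩

theorem Strong.to (h : Strong r W) (hS : ∃ s ∈ W, s ∈ S) : To r W S := by
  have := (Strong.from (r := fun a b => r b a) (Strong.rev.2 h) hS).rev
  exact this

/-! ### Joining and merging -/

/-- Concatenation of Hamiltonian paths of two disjoint sets. -/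
theorem HP.join {W1 W2 : Finset α} {S1 T1 S2 T2 : Set α} (h1 : HP r W1 S1 T1) (h2 : HP r W2 S2 T2)
    (hd : Disjoint W1 W2) (h : ∀ t ∈ W1, t ∈ T1 → ∀ s ∈ W2, s ∈ S2 → r t s) :
    HP r (W1 ∪ W2) S1 T2 := by
  obtain ⟨l1, hl1, ⟨x1, hx1, hx1'⟩, ⟨y1, hy1, hy1'⟩⟩ := h1
  obtain ⟨l2, hl2, ⟨x2, hx2, hx2'⟩, ⟨y2, hy2, hy2'⟩⟩ := h2
  have hm1 := (hl1.mem y1).1 (List.mem_of_mem_getLast? hy1)
  have hm2 := (hl2.mem x2).1 (List.mem_of_mem_head? hx2)
  refine ⟨l1 ++ l2, ⟨?_, ?_, ?_⟩, ⟨x1, ?_, hx1'⟩, ⟨y2, ?_, hy2'⟩⟩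
  · rw [List.nodup_append]
    refine ⟨hl1.nodup, hl2.nodup, ?_⟩
    rintro a ha b hb rfl
    exact Finset.disjoint_left.1 hd ((hl1.mem a).1 ha) ((hl2.mem a).1 hb)
  · rw [List.isChain_append]
    refine ⟨hl1.chain, hl2.chain, ?_⟩
    intro x hx y hy
    rw [Option.mem_def] at hx hy
    rw [hy1] at hx
    rw [hx2] at hy
    cases hx
    cases hy
    exact h y1 hm1 hy1' x2 hm2 hx2'
  · intro v
    rw [List.mem_append, Finset.mem_union, hl1.mem, hl2.mem]
  · cases l1 with
    | nil => simp at hx1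
    | cons a l => simpa using hx1
  · rw [List.getLast?_append, hy2]
    rfl

/-- The claim of `merge_lists`. -/
def b1_Claim (r : α → α → Prop) (P Q : List α) : Prop :=
  ∃ Z : List α, Z.Perm (P ++ Q) ∧ Z.IsChain r ∧ P.Sublist Z ∧ Q.Sublist Z ∧
      (Z.head? = P.head? ∨ Z.head? = Q.head?) ∧
      (Z.getLast? = P.getLast? ∨ Z.getLast? = Q.getLast?)

theorem b1_Claim_symm {P Q : List α} (h : b1_Claim r P Q) : b1_Claim r Q P := by
  obtain ⟨Z, h1, h2, h3, h4, h5, h6⟩ := h
  exact ⟨Z, h1.trans List.perm_append_comm, h2, h4, h3, h5.symm, h6.symm⟩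

theorem b1_merge_step {p q : α} {P Q : List α} (hpq : r p q) (hPc : (p :: P).IsChain r)
    (hQc : (q :: Q).IsChain r) (ih : P ≠ [] → b1_Claim r P (q :: Q)) : b1_Claim r (p :: P) (q :: Q) := by
  cases P with
  | nil =>
    refine ⟨p :: q :: Q, List.Perm.refl _, List.isChain_cons_cons.2 ⟨hpq, hQc⟩, by simp, by simp, Or.inl rfl, Or.inr ?_⟩
    rw [List.getLast?_cons_cons]
  | cons p' P =>
    obtain ⟨Z, h1, h2, h3, h4, h5, h6⟩ := ih (by simp)
    cases Z with
    | nil => simp at h3
    | cons z Z =>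
      refine ⟨p :: z :: Z, ?_, ?_, ?_, ?_, Or.inl rfl, ?_⟩
      · simpa using h1.cons p
      · rw [List.isChain_cons_cons] at hPc ⊢
        refine ⟨?_, h2⟩
        rcases h5 with h5 | h5
        · simp only [List.head?_cons, Option.some.injEq] at h5
          rw [h5]
          exact hPc.1
        · simp only [List.head?_cons, Option.some.injEq] at h5
          rw [h5]
          exact hpq
      · exact h3.cons_cons p
      · exact h4.cons p
      · rw [List.getLast?_cons_cons, List.getLast?_cons_cons]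
        exact h6

theorem b1_merge (n : ℕ) : ∀ P Q : List α, P.length + Q.length ≤ n → P ≠ [] → Q ≠ [] → P.IsChain r →
    Q.IsChain r → (∀ p ∈ P, ∀ q ∈ Q, r p q ∨ r q p) → b1_Claim r P Q := by
  induction n with
  | zero =>
    intro P Q hn hP
    cases P with
    | nil => exact absurd rfl hP
    | cons p P => simp at hn
  | succ n ih =>
    intro P Q hn hP hQ hPc hQc hs
    cases P with
    | nil => exact absurd rfl hP
    | cons p P =>
      cases Q with
      | nil => exact absurd rfl hQ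
      | cons q Q =>
        simp only [List.length_cons] at hn
        rcases hs p (by simp) q (by simp) with h | h
        · apply b1_merge_step h hPc hQc
          intro hP'
          exact ih P (q :: Q) (by simp only [List.length_cons]; omega) hP' (by simp) hPc.tail hQc
            (fun a ha b hb => hs a (List.mem_cons_of_mem _ ha) b hb)
        · apply b1_Claim_symm
          apply b1_merge_step h hQc hPc
          intro hQ'
          exact ih Q (p :: P) (by simp only [List.length_cons]; omega) hQ' (by simp) hQc.tail hPc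
            (fun a ha b hb => (hs b hb a (List.mem_cons_of_mem _ ha)).symm)

/-- Merging of two disjoint paths. -/
theorem merge_lists {P Q : List α} (hP : P ≠ []) (hQ : Q ≠ []) (hPc : P.IsChain r)
    (hQc : Q.IsChain r) (hs : ∀ p ∈ P, ∀ q ∈ Q, r p q ∨ r q p) :
    ∃ Z : List α, Z.Perm (P ++ Q) ∧ Z.IsChain r ∧ P.Sublist Z ∧ Q.Sublist Z ∧
      (Z.head? = P.head? ∨ Z.head? = Q.head?) ∧
      (Z.getLast? = P.getLast? ∨ Z.getLast? = Q.getLast?) :=
  b1_merge _ P Q le_rfl hP hQ hPc hQc hs

/-- Merging of Hamiltonian paths of two disjoint sets. -/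
theorem HP.merge {W1 W2 : Finset α} {S1 T1 S2 T2 : Set α} (h1 : HP r W1 S1 T1) (h2 : HP r W2 S2 T2)
    (hd : Disjoint W1 W2) (hs : Semi r (W1 ∪ W2)) : HP r (W1 ∪ W2) (S1 ∪ S2) (T1 ∪ T2) := by
  obtain ⟨l1, hl1, ⟨x1, hx1, hx1'⟩, ⟨y1, hy1, hy1'⟩⟩ := h1
  obtain ⟨l2, hl2, ⟨x2, hx2, hx2'⟩, ⟨y2, hy2, hy2'⟩⟩ := h2
  have hn1 : l1 ≠ [] := by rintro rfl; simp at hx1
  have hn2 : l2 ≠ [] := by rintro rfl; simp at hx2
  have hne : ∀ p ∈ l1, ∀ q ∈ l2, p ≠ q := by
    rintro p hp q hq rfl
    exact Finset.disjoint_left.1 hd ((hl1.mem p).1 hp) ((hl2.mem p).1 hq)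
  obtain ⟨Z, h1, h2, -, -, h5, h6⟩ := merge_lists hn1 hn2 hl1.chain hl2.chain (fun p hp q hq =>
    hs p (Finset.mem_union_left _ ((hl1.mem p).1 hp)) q (Finset.mem_union_right _ ((hl2.mem q).1 hq))
      (hne p hp q hq))
  refine ⟨Z, ⟨?_, h2, ?_⟩, ?_, ?_⟩
  · rw [h1.nodup_iff, List.nodup_append]
    exact ⟨hl1.nodup, hl2.nodup, hne⟩
  · intro v
    rw [h1.mem_iff, List.mem_append, Finset.mem_union, hl1.mem, hl2.mem]
  · rcases h5 with h5 | h5
    · exact ⟨x1, h5.trans hx1, Or.inl hx1'⟩
    · exact ⟨x2, h5.trans hx2, Or.inr hx2'⟩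
  · rcases h6 with h6 | h6
    · exact ⟨y1, h6.trans hy1, Or.inl hy1'⟩
    · exact ⟨y2, h6.trans hy2, Or.inr hy2'⟩

/-! ### Hamiltonian paths and cycles in semicomplete digraphs -/

/-- Insertion of a vertex with an in-neighbour on the path. -/
theorem b1_insert {w : α} (l : List α) (hc : l.IsChain r) (hx : ∃ x ∈ l, r x w)
    (hs : ∀ y ∈ l, r w y ∨ r y w) : ∃ l' : List α, l'.Perm (w :: l) ∧ l'.IsChain r ∧ l'.head? = l.head? := by
  induction l with
  | nil =>
    obtain ⟨x, hx, _⟩ := hx
    simp at hx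
  | cons a l ih =>
    cases l with
    | nil =>
      obtain ⟨x, hx, hxw⟩ := hx
      rw [List.mem_singleton] at hx
      subst hx
      exact ⟨[x, w], List.Perm.swap _ _ _, List.isChain_cons_cons.2 ⟨hxw, List.isChain_singleton _⟩, rfl⟩
    | cons b l =>
      rw [List.isChain_cons_cons] at hc
      by_cases hx' : ∃ x ∈ b :: l, r x w
      · obtain ⟨l', h1, h2, h3⟩ := ih hc.2 hx' (fun y hy => hs y (List.mem_cons_of_mem _ hy))
        refine ⟨a :: l', (h1.cons a).trans (List.Perm.swap _ _ _), ?_, rfl⟩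
        cases l' with
        | nil => exact List.isChain_singleton a
        | cons c l' =>
          simp only [List.head?_cons, Option.some.injEq] at h3
          subst h3
          exact List.isChain_cons_cons.2 ⟨hc.1, h2⟩
      · have haw : r a w := by
          obtain ⟨x, hx, hxw⟩ := hx
          rcases List.mem_cons.1 hx with rfl | hx
          · exact hxw
          · exact absurd ⟨x, hx, hxw⟩ hx'
        have hwb : r w b := by
          rcases hs b (by simp) with h | h
          · exact h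
          · exact absurd ⟨b, by simp, h⟩ hx'
        exact ⟨a :: w :: b :: l, List.Perm.swap _ _ _,
          List.isChain_cons_cons.2 ⟨haw, List.isChain_cons_cons.2 ⟨hwb, hc.2⟩⟩, rfl⟩

theorem b1_extend (hs : Semi r W) (h : From r W S) (n : ℕ) : ∀ l : List α, l.Nodup → l.IsChain r →
    (∀ v ∈ l, v ∈ W) → (∃ x, l.head? = some x ∧ x ∈ S) → W.card ≤ l.length + n → HP r W S Set.univ := by
  have hfull : ∀ l : List α, l.Nodup → l.IsChain r → (∀ v ∈ l, v ∈ W) → (∃ x, l.head? = some x ∧ x ∈ S) →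
      (∀ v ∈ W, v ∈ l) → HP r W S Set.univ := by
    intro l hn hc hl hx hW
    refine ⟨l, ⟨hn, hc, fun v => ⟨hl v, hW v⟩⟩, hx, ?_⟩
    obtain ⟨x, hx, _⟩ := hx
    cases l with
    | nil => simp at hx
    | cons a l => exact ⟨(a :: l).getLast (by simp), List.getLast?_eq_getLast_of_ne_nil (by simp), trivial⟩
  induction n with
  | zero =>
    intro l hn hc hl hx hcard
    apply hfull l hn hc hl hx
    intro v hv
    have h1 : l.toFinset ⊆ W := fun v hv => hl v (List.mem_toFinset.1 hv)
    have h2 : l.toFinset = W := Finset.eq_of_subset_of_card_le h1 (by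
      rw [List.toFinset_card_of_nodup hn]; omega)
    rw [← h2] at hv
    exact List.mem_toFinset.1 hv
  | succ n ih =>
    intro l hn hc hl hx hcard
    by_cases hW : ∀ v ∈ W, v ∈ l
    · exact hfull l hn hc hl hx hW
    · rw [not_forall] at hW
      obtain ⟨u, hu⟩ := hW
      rw [Classical.not_imp] at hu
      by_cases hin : ∃ w ∈ W, w ∉ l ∧ ∃ x ∈ l, r x w
      · obtain ⟨w, hwW, hwl, hxw⟩ := hin
        obtain ⟨l', h1, h2, h3⟩ := b1_insert l hc hxw (fun y hy => hs w hwW y (hl y hy) (by
          rintro rfl; exact hwl hy))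
        refine ih l' ?_ h2 ?_ (h3 ▸ hx) ?_
        · rw [h1.nodup_iff, List.nodup_cons]
          exact ⟨hwl, hn⟩
        · intro v hv
          rw [h1.mem_iff, List.mem_cons] at hv
          rcases hv with rfl | hv
          · exact hwW
          · exact hl v hv
        · rw [h1.length_eq, List.length_cons]
          omega
      · by_cases hSu : ∃ w ∈ W, w ∉ l ∧ w ∈ S
        · obtain ⟨w, hwW, hwl, hwS⟩ := hSu
          refine ih (w :: l) (List.nodup_cons.2 ⟨hwl, hn⟩) ?_ ?_ ⟨w, rfl, hwS⟩ (by rw [List.length_cons]; omega)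
          · cases l with
            | nil => exact List.isChain_singleton w
            | cons a l =>
              refine List.isChain_cons_cons.2 ⟨?_, hc⟩
              rcases hs w hwW a (hl a (by simp)) (by rintro rfl; exact hwl (by simp)) with h1 | h1
              · exact h1
              · exact absurd ⟨w, hwW, hwl, a, by simp, h1⟩ hin
          · intro v hv
            rcases List.mem_cons.1 hv with rfl | hv
            · exact hwW
            · exact hl v hv
        · exfalso
          obtain ⟨a, ha, b, hb, hab⟩ := h (W.filter (fun w => w ∉ l)) (Finset.filter_subset _ _)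
            ⟨u, Finset.mem_filter.2 hu⟩ (fun w hw hwS => hSu ⟨w, (Finset.mem_filter.1 hw).1,
              (Finset.mem_filter.1 hw).2, hwS⟩)
          rw [Finset.mem_sdiff, Finset.mem_filter, not_and, not_not] at ha
          rw [Finset.mem_filter] at hb
          exact hin ⟨b, hb.1, hb.2, a, ha.2 ha.1, hab⟩

/-- Hamiltonian path with free end. -/
theorem HP_start (hs : Semi r W) (hW : W.Nonempty) (h : From r W S) : HP r W S Set.univ := by
  have h1 : ∃ s ∈ W, s ∈ S := by
    by_contra hcon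
    obtain ⟨a, ha, _⟩ := h W (Finset.Subset.refl W) hW (fun u hu hS => hcon ⟨u, hu, hS⟩)
    simp at ha
  obtain ⟨s, hsW, hsS⟩ := h1
  refine b1_extend hs h W.card [s] (by simp) (List.isChain_singleton s) ?_ ⟨s, rfl, hsS⟩ (by simp)
  intro v hv
  rw [List.mem_singleton] at hv
  rw [hv]
  exact hsW

/-- Hamiltonian path with free start. -/
theorem HP_end (hs : Semi r W) (hW : W.Nonempty) (h : To r W T) : HP r W Set.univ T := by
  have := HP_start (r := fun a b => r b a) hs.rev hW h.rev
  exact HP_rev.1 this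

/-- Two-sided version, when `W` is the union of two nonempty sets without arcs from the second to the
first. -/
theorem HP_both (hs : Semi r W) {W1 : Finset α} (h1 : W1 ⊆ W) (hne : W1.Nonempty)
    (hne' : (W \ W1).Nonempty) (h12 : ∀ a ∈ W \ W1, ∀ b ∈ W1, ¬ r a b) (hF : From r W S)
    (hT : To r W T) : HP r W S T := by
  have hF1 : From r W1 S := by
    intro U hU hUne hUS
    obtain ⟨a, ha, b, hb, hab⟩ := hF U (hU.trans h1) hUne hUS
    rw [Finset.mem_sdiff] at ha
    refine ⟨a, Finset.mem_sdiff.2 ⟨?_, ha.2⟩, b, hb, hab⟩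
    by_contra hcon
    exact h12 a (Finset.mem_sdiff.2 ⟨ha.1, hcon⟩) b (hU hb) hab
  have hT2 : To r (W \ W1) T := by
    intro U hU hUne hUT
    obtain ⟨a, ha, b, hb, hab⟩ := hT U (hU.trans Finset.sdiff_subset) hUne hUT
    rw [Finset.mem_sdiff] at hb
    refine ⟨a, ha, b, Finset.mem_sdiff.2 ⟨Finset.mem_sdiff.2 ⟨hb.1, ?_⟩, hb.2⟩, hab⟩
    intro hcon
    exact h12 a (hU ha) b hcon hab
  have h3 := HP_start (hs.mono h1) hne hF1
  have h4 := HP_end (hs.mono Finset.sdiff_subset) hne' hT2
  have h5 := h3.join h4 Finset.disjoint_sdiff (by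
    intro t ht _ s hs' _
    have hs2 := Finset.mem_sdiff.1 hs'
    rcases hs t (h1 ht) s hs2.1 (by rintro rfl; exact hs2.2 ht) with h | h
    · exact h
    · exact absurd h (h12 s hs' t ht))
  rwa [Finset.union_sdiff_of_subset h1] at h5

/-- Two-sided version in the nonstrong case. -/
theorem HP_nonstrong (hs : Semi r W) (hns : ¬ Strong r W) (hF : From r W S) (hT : To r W T) :
    HP r W S T := by
  unfold Strong at hns
  push Not at hns
  obtain ⟨U, hU, hUne, hUW, hUr⟩ := hns
  have h1 : (W \ U).Nonempty := by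
    rw [Finset.sdiff_nonempty]
    intro h2
    exact hUW (Finset.Subset.antisymm hU h2)
  have h2 : W \ (W \ U) = U := Finset.sdiff_sdiff_eq_self hU
  refine HP_both hs (W1 := W \ U) Finset.sdiff_subset h1 (by rw [h2]; exact hUne) ?_ hF hT
  rw [h2]
  exact hUr

/-- cycles as lists; one vertex counts as a cycle -/
structure B2Cyc (r : α → α → Prop) (l : List α) : Prop where
  ne : l ≠ []
  nodup : l.Nodup
  chain : l.IsChain r
  closing : 2 ≤ l.length → ∀ x ∈ l.getLast?, ∀ y ∈ l.head?, r x y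

theorem b2_rot {A B : List α} (hA : A ≠ []) (hB : B ≠ []) (h : B2Cyc r (A ++ B)) :
    B2Cyc r (B ++ A) := by
  obtain ⟨-, h2, h3, h4⟩ := h
  rw [List.isChain_append] at h3
  obtain ⟨h5, h6, h7⟩ := h3
  have hlen : 2 ≤ (A ++ B).length := by
    have := List.length_pos_of_ne_nil hA
    have := List.length_pos_of_ne_nil hB
    rw [List.length_append]
    omega
  refine ⟨by simp [hA], ?_, ?_, ?_⟩
  · exact (List.perm_append_comm.nodup_iff).1 h2
  · rw [List.isChain_append]
    refine ⟨h6, h5, ?_⟩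
    intro x hx y hy
    refine h4 hlen x ?_ y ?_
    · rw [List.getLast?_append_of_ne_nil A hB]
      exact hx
    · rw [List.head?_append_of_ne_nil A hA]
      exact hy
  · intro _ x hx y hy
    rw [List.getLast?_append_of_ne_nil B hA] at hx
    rw [List.head?_append_of_ne_nil B hB] at hy
    exact h7 x hx y hy

theorem b2_last {p : α → Prop} (l : List α) (h : ∃ x ∈ l, p x) :
    ∃ A x B, l = A ++ x :: B ∧ p x ∧ ∀ b ∈ B, ¬ p b := by
  induction l with
  | nil => obtain ⟨x, hx, _⟩ := h; simp at hx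
  | cons a t ih =>
    by_cases ht : ∃ x ∈ t, p x
    · obtain ⟨A, x, B, h1, h2, h3⟩ := ih ht
      exact ⟨a :: A, x, B, by rw [h1]; rfl, h2, h3⟩
    · obtain ⟨x, hx, hp⟩ := h
      rw [List.mem_cons] at hx
      rcases hx with rfl | hx
      · exact ⟨[], x, t, rfl, hp, fun b hb hpb => ht ⟨b, hb, hpb⟩⟩
      · exact absurd ⟨x, hx, hp⟩ ht

/-- insertion of a vertex with an in-neighbour on the cycle and an arc to its head -/
theorem b2_ins {l : List α} (h : B2Cyc r l) {w : α} (hw : w ∉ l)
    (hs : ∀ a ∈ l, r a w ∨ r w a) (hin : ∃ x ∈ l, r x w) (hout : ∀ y ∈ l.head?, r w y) :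
    ∃ l', B2Cyc r l' ∧ l'.Perm (w :: l) := by
  obtain ⟨A, x, B, hl, hx, hB⟩ := b2_last l hin
  subst hl
  obtain ⟨-, h2, h3, h4⟩ := h
  cases B with
  | nil =>
    refine ⟨(A ++ [x]) ++ [w], ⟨by simp, ?_, ?_, ?_⟩, ?_⟩
    · rw [List.nodup_append]
      refine ⟨h2, by simp, ?_⟩
      intro a ha b hb
      rw [List.mem_singleton] at hb
      subst hb
      rintro rfl
      exact hw ha
    · rw [List.isChain_append]
      refine ⟨h3, by simp, ?_⟩
      intro a ha b hb
      simp only [List.getLast?_append, List.getLast?_singleton, Option.some_or,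
        Option.mem_def, Option.some.injEq, List.head?_cons] at ha hb
      subst ha
      subst hb
      exact hx
    · intro _ a ha y hy
      simp only [List.getLast?_append, List.getLast?_singleton, Option.some_or,
        Option.mem_def, Option.some.injEq] at ha
      subst ha
      rw [List.head?_append_of_ne_nil _ (by simp)] at hy
      exact hout y hy
    · exact List.perm_append_comm
  | cons b B =>
    have hwb : r w b := by
      rcases hs b (by simp) with h | h
      · exact absurd h (hB b (by simp))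
      · exact h
    have e1 : A ++ x :: b :: B = (A ++ [x]) ++ (b :: B) := by simp
    rw [e1] at h2 h3 h4
    rw [List.isChain_append] at h3
    obtain ⟨h5, h6, h7⟩ := h3
    have hperm : ((A ++ [x]) ++ (w :: b :: B)).Perm (w :: (A ++ x :: b :: B)) := by
      rw [e1]
      exact List.perm_middle
    refine ⟨(A ++ [x]) ++ (w :: b :: B), ⟨by simp, ?_, ?_, ?_⟩, hperm⟩
    · rw [hperm.nodup_iff, List.nodup_cons, e1]
      refine ⟨?_, h2⟩
      rw [← e1]
      exact hw
    · rw [List.isChain_append]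
      refine ⟨h5, List.isChain_cons_cons.2 ⟨hwb, h6⟩, ?_⟩
      intro a ha c hc
      simp only [List.getLast?_append, List.getLast?_singleton, Option.some_or,
        Option.mem_def, Option.some.injEq, List.head?_cons] at ha hc
      subst ha
      subst hc
      exact hx
    · intro _ a ha y hy
      refine h4 (by simp; omega) a ?_ y ?_
      · rw [List.getLast?_append_of_ne_nil _ (by simp)] at ha ⊢
        rw [List.getLast?_cons_cons] at ha
        exact ha
      · rw [List.head?_append_of_ne_nil _ (by simp)] at hy ⊢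
        exact hy

/-- Camion's theorem -/
theorem b2_camion (hs : Semi r W) (hst : Strong r W) (hW : W.Nonempty) :
    ∃ l : List α, B2Cyc r l ∧ ∀ v, v ∈ l ↔ v ∈ W := by
  classical
  -- a longest cycle
  have hex : ∃ n, ∃ l : List α, B2Cyc r l ∧ (∀ v ∈ l, v ∈ W) ∧ l.length = n := by
    obtain ⟨v, hv⟩ := hW
    refine ⟨1, [v], ⟨by simp, by simp, by simp, ?_⟩, ?_, rfl⟩
    · intro h
      simp at h
    · intro u hu
      rw [List.mem_singleton] at hu
      rw [hu]
      exact hv
  have hbd : ∀ n, (∃ l : List α, B2Cyc r l ∧ (∀ v ∈ l, v ∈ W) ∧ l.length = n) → n ≤ W.card := by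
    rintro n ⟨l, hl, hlW, rfl⟩
    rw [← List.toFinset_card_of_nodup hl.nodup]
    refine Finset.card_le_card fun v hv => hlW v (List.mem_toFinset.1 hv)
  obtain ⟨N, ⟨l, hl, hlW, hlN⟩, hmax⟩ : ∃ N, (∃ l : List α, B2Cyc r l ∧ (∀ v ∈ l, v ∈ W) ∧
      l.length = N) ∧ ∀ n, (∃ l : List α, B2Cyc r l ∧ (∀ v ∈ l, v ∈ W) ∧ l.length = n) → n ≤ N := by
    obtain ⟨n, hn⟩ := hex
    have h1 := Nat.findGreatest_spec
      (P := fun n => ∃ l : List α, B2Cyc r l ∧ (∀ v ∈ l, v ∈ W) ∧ l.length = n) (hbd n hn) hn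
    exact ⟨_, h1, fun m hm => Nat.le_findGreatest (hbd m hm) hm⟩
  have hno : ∀ l' : List α, B2Cyc r l' → (∀ v ∈ l', v ∈ W) → l'.length ≤ N :=
    fun l' h1 h2 => hmax _ ⟨l', h1, h2, rfl⟩
  refine ⟨l, hl, fun v => ⟨hlW v, ?_⟩⟩
  by_contra hcon
  rw [Classical.not_imp] at hcon
  obtain ⟨hvW, hvl⟩ := hcon
  -- claim A
  have claimA : ∀ w ∈ W, w ∉ l → (∃ x ∈ l, r x w) → ∀ y ∈ l, ¬ r w y := by
    intro w hw hwl hin y hy hwy
    obtain ⟨A, B, hAB⟩ := List.append_of_mem hy
    obtain ⟨l1, hl1, hperm, hhead⟩ : ∃ l1 : List α, B2Cyc r l1 ∧ l1.Perm l ∧ l1.head? = some y := by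
      by_cases hA : A = []
      · subst hA
        exact ⟨l, hl, List.Perm.refl _, by rw [hAB]; rfl⟩
      · refine ⟨(y :: B) ++ A, ?_, ?_, rfl⟩
        · rw [hAB] at hl
          exact b2_rot hA (by simp) hl
        · rw [hAB]
          exact List.perm_append_comm
    obtain ⟨l2, hl2, hperm2⟩ := b2_ins hl1 (w := w) (fun h => hwl (hperm.mem_iff.1 h))
      (fun a ha => hs a (hlW a (hperm.mem_iff.1 ha)) w hw (by
        rintro rfl
        exact hwl (hperm.mem_iff.1 ha)))
      (by
        obtain ⟨x, hx, hxw⟩ := hin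
        exact ⟨x, hperm.mem_iff.2 hx, hxw⟩)
      (by
        intro z hz
        rw [hhead] at hz
        cases hz
        exact hwy)
    have h1 := hno l2 hl2 (by
      intro v hv
      rw [hperm2.mem_iff, List.mem_cons] at hv
      rcases hv with rfl | hv
      · exact hw
      · exact hlW v (hperm.mem_iff.1 hv))
    rw [hperm2.length_eq, List.length_cons, hperm.length_eq, hlN] at h1
    omega
  -- the sets
  have hlne : l.toFinset.Nonempty := by
    obtain ⟨a, ha⟩ := List.exists_mem_of_ne_nil l hl.ne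
    exact ⟨a, List.mem_toFinset.2 ha⟩
  have hlsub : l.toFinset ⊆ W := fun v hv => hlW v (List.mem_toFinset.1 hv)
  obtain ⟨a, ha, b, hb, hab⟩ := hst l.toFinset hlsub hlne (by
    intro h
    rw [← h, List.mem_toFinset] at hvW
    exact hvl hvW)
  rw [Finset.mem_sdiff, List.mem_toFinset] at hb
  rw [List.mem_toFinset] at ha
  obtain ⟨o, ho, i, hi, hoi⟩ := hst (W.filter fun w => w ∉ l ∧ ∀ x ∈ l, ¬ r w x)
    (Finset.filter_subset _ _)
    ⟨b, Finset.mem_filter.2 ⟨hb.1, hb.2, claimA b hb.1 hb.2 ⟨a, ha, hab⟩⟩⟩ (by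
      intro h
      have h1 := hlW a ha
      rw [← h, Finset.mem_filter] at h1
      exact h1.2.1 ha)
  rw [Finset.mem_filter] at ho
  rw [Finset.mem_sdiff, Finset.mem_filter] at hi
  obtain ⟨hoW, hol, hox⟩ := ho
  obtain ⟨hiW, hin⟩ := hi
  have hil : i ∉ l := fun h => hox i h hoi
  have hix : ∀ x ∈ l, ¬ r x i := by
    intro x hx hxi
    exact hin ⟨hiW, hil, claimA i hiW hil ⟨x, hx, hxi⟩⟩
  have hoine : o ≠ i := by
    rintro rfl
    exact hin ⟨hiW, hol, hox⟩
  have hcyc : B2Cyc r (l ++ [o, i]) := by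
    refine ⟨by simp, ?_, ?_, ?_⟩
    · rw [List.nodup_append]
      refine ⟨hl.nodup, by simp [hoine], ?_⟩
      intro x hx y hy
      simp only [List.mem_cons, List.not_mem_nil, or_false] at hy
      rintro rfl
      rcases hy with rfl | rfl
      · exact hol hx
      · exact hil hx
    · rw [List.isChain_append]
      refine ⟨hl.chain, by simp [hoi], ?_⟩
      intro x hx y hy
      simp only [List.head?_cons, Option.mem_def, Option.some.injEq] at hy
      subst hy
      have hxl : x ∈ l := List.mem_of_mem_getLast? hx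
      rcases hs x (hlW x hxl) _ hoW (by rintro rfl; exact hol hxl) with h | h
      · exact h
      · exact absurd h (hox x hxl)
    · intro _ x hx y hy
      rw [List.getLast?_append_of_ne_nil _ (by simp)] at hx
      simp only [List.getLast?_cons_cons, List.getLast?_singleton, Option.mem_def,
        Option.some.injEq] at hx
      subst hx
      rw [List.head?_append_of_ne_nil _ hl.ne] at hy
      have hyl : y ∈ l := List.mem_of_mem_head? hy
      rcases hs y (hlW y hyl) _ hiW (by rintro rfl; exact hil hyl) with h | h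
      · exact absurd h (hix y hyl)
      · exact h
  have h2 := hno _ hcyc (by
    intro v hv
    rw [List.mem_append] at hv
    rcases hv with hv | hv
    · exact hlW v hv
    · simp only [List.mem_cons, List.not_mem_nil, or_false] at hv
      rcases hv with rfl | rfl
      · exact hoW
      · exact hiW)
  rw [List.length_append, hlN] at h2
  simp at h2

/-- Hamiltonian cycles: for every vertex `v` there is a Hamiltonian path from its successor `σ v` on
the cycle to `v`. -/
theorem ham_succ (hs : Semi r W) (hst : Strong r W) (hW : W.Nonempty) :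
    ∃ σ : Equiv.Perm α, (∀ v, v ∈ W ↔ σ v ∈ W) ∧ (∀ v ∈ W, HP r W {σ v} {v}) ∧
      (2 ≤ W.card → ∀ v ∈ W, σ v ≠ v ∧ r v (σ v)) ∧
      ∀ U ⊆ W, U.Nonempty → (∀ v ∈ U, σ v ∈ U) → U = W := by
  classical
  obtain ⟨l, hl, hlW⟩ := b2_camion hs hst hW
  have hcard : W.card = l.length := by
    rw [← List.toFinset_card_of_nodup hl.nodup]
    congr 1
    ext v
    rw [List.mem_toFinset, hlW]
  have hval1 : ∀ (A : List α) (v b : α) (B : List α), l = A ++ v :: b :: B → l.formPerm v = b := by
    intro A v b B h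
    subst h
    have h1 := List.formPerm_apply_getElem (A ++ v :: b :: B) hl.nodup A.length (by simp)
    have e1 : (A.length + 1) % (A ++ v :: b :: B).length = A.length + 1 := by
      apply Nat.mod_eq_of_lt
      simp
    simp only [e1] at h1
    simpa using h1
  have hval2 : ∀ (A : List α) (v : α), l = A ++ [v] → some (l.formPerm v) = l.head? := by
    intro A v h
    subst h
    have h1 := List.formPerm_apply_getElem (A ++ [v]) hl.nodup A.length (by simp)
    have e1 : (A.length + 1) % (A ++ [v]).length = 0 := by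
      simp
    simp only [e1] at h1
    rw [List.head?_eq_getElem?, List.getElem?_eq_getElem (by simp), ← h1]
    simp
  refine ⟨l.formPerm, ?_, ?_, ?_, ?_⟩
  · intro v
    rw [← hlW, ← hlW, List.formPerm_mem_iff_mem]
  · intro v hv
    rw [← hlW] at hv
    obtain ⟨A, B, hAB⟩ := List.append_of_mem hv
    cases B with
    | nil =>
      refine ⟨l, ⟨hl.nodup, hl.chain, hlW⟩, ⟨l.formPerm v, (hval2 A v hAB).symm, rfl⟩, ⟨v, ?_, rfl⟩⟩
      rw [hAB]
      simp
    | cons b B =>
      have e1 : l = (A ++ [v]) ++ (b :: B) := by rw [hAB]; simp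
      have h1 : B2Cyc r ((b :: B) ++ (A ++ [v])) := by
        apply b2_rot (by simp) (by simp)
        rw [← e1]
        exact hl
      refine ⟨(b :: B) ++ (A ++ [v]), ⟨h1.nodup, h1.chain, ?_⟩, ⟨l.formPerm v, ?_, rfl⟩,
        ⟨v, ?_, rfl⟩⟩
      · intro u
        rw [← hlW, e1]
        exact (List.perm_append_comm).mem_iff
      · rw [hval1 A v b B hAB]
        rfl
      · rw [List.getLast?_append_of_ne_nil _ (by simp)]
        simp
  · intro h2 v hv
    rw [hcard] at h2
    rw [← hlW] at hv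
    obtain ⟨A, B, hAB⟩ := List.append_of_mem hv
    cases B with
    | nil =>
      have h3 := hval2 A v hAB
      have hA : A ≠ [] := by
        rintro rfl
        rw [hAB] at h2
        simp at h2
      constructor
      · intro h4
        rw [h4, hAB, List.head?_append_of_ne_nil _ hA] at h3
        have h5 : v ∈ A := List.mem_of_mem_head? h3.symm
        have h6 := hl.nodup
        rw [hAB, List.nodup_append] at h6
        exact h6.2.2 v h5 v (by simp) rfl
      · refine hl.closing h2 v ?_ _ h3.symm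
        rw [hAB]
        simp
    | cons b B =>
      rw [hval1 A v b B hAB]
      have h6 := hl.nodup
      have h7 := hl.chain
      rw [hAB, List.nodup_append] at h6
      rw [hAB, List.isChain_append] at h7
      constructor
      · rintro rfl
        have h8 := h6.2.1
        rw [List.nodup_cons] at h8
        exact h8.1 (by simp)
      · exact (List.isChain_cons_cons.1 h7.2.1).1
  · intro U hU hne hcl
    apply Finset.Subset.antisymm hU
    intro w hw
    obtain ⟨u, hu⟩ := hne
    have hcyc : l.formPerm.IsCycleOn {a | a ∈ l} := hl.nodup.isCycleOn_formPerm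
    have hset : ({a | a ∈ l} : Set α) = (W : Set α) := by
      ext v
      exact hlW v
    rw [hset] at hcyc
    obtain ⟨n, _, hn⟩ := hcyc.exists_pow_eq (hU hu) hw
    have hpow : ∀ n : ℕ, (l.formPerm ^ n) u ∈ U := by
      intro n
      induction n with
      | zero => exact hu
      | succ n ih =>
        rw [pow_succ']
        exact hcl _ ih
    rw [← hn]
    exact hpow n

/-! ### Closed sets -/

theorem fwd_subset {L : Set α} : fwd r W L ⊆ W := by
  classical
  exact Finset.filter_subset _ _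

theorem subset_fwd {L : Set α} : ∀ x ∈ W, x ∈ L → x ∈ fwd r W L := by
  classical
  intro x hx hL
  rw [fwd, Finset.mem_filter]
  exact ⟨hx, fun U _ hU _ => hU x hx hL⟩

theorem fwd_cl {L : Set α} : Cl r W (fwd r W L) := by
  classical
  intro u hu v hv huv
  rw [fwd, Finset.mem_filter] at hu ⊢
  exact ⟨hv, fun U h1 h2 h3 => h3 u (hu.2 U h1 h2 h3) v hv huv⟩

theorem fwd_min {L : Set α} {U : Finset α} (h1 : U ⊆ W) (h2 : ∀ x ∈ W, x ∈ L → x ∈ U)
    (h3 : Cl r W U) : fwd r W L ⊆ U := by
  classical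
  intro w hw
  rw [fwd, Finset.mem_filter] at hw
  exact hw.2 U h1 h2 h3

/-- Every vertex of `fwd r W L` is reachable from `L` inside `fwd r W L`. -/
theorem fwd_from {L : Set α} : From r (fwd r W L) L := by
  classical
  intro U hU hne hUL
  by_contra hcon
  obtain ⟨u, hu⟩ := hne
  have h1 : fwd r W L ⊆ fwd r W L \ U := by
    apply fwd_min
    · exact Finset.sdiff_subset.trans fwd_subset
    · intro x hx hxL
      exact Finset.mem_sdiff.2 ⟨subset_fwd x hx hxL, fun h => hUL x h hxL⟩
    · intro a ha b hb hab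
      refine Finset.mem_sdiff.2 ⟨fwd_cl a (Finset.mem_sdiff.1 ha).1 b hb hab, fun h => ?_⟩
      exact hcon ⟨a, ha, b, h, hab⟩
  exact (Finset.mem_sdiff.1 (h1 (hU hu))).2 hu

/-- The closed subsets of a semicomplete digraph are nested. -/
theorem Cl.total (hs : Semi r W) {U1 U2 : Finset α} (h1 : U1 ⊆ W) (h2 : U2 ⊆ W) (c1 : Cl r W U1)
    (c2 : Cl r W U2) : U1 ⊆ U2 ∨ U2 ⊆ U1 := by
  by_contra hcon
  rw [not_or, Finset.not_subset, Finset.not_subset] at hcon
  obtain ⟨⟨u, hu1, hu2⟩, v, hv2, hv1⟩ := hcon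
  rcases hs u (h1 hu1) v (h2 hv2) (by rintro rfl; exact hu2 hv2) with h | h
  · exact hv1 (c1 u hu1 v (h2 hv2) h)
  · exact hu2 (c2 v hv2 u (h1 hu1) h)

/-- There are all arcs from the complement of a closed set to the closed set, and none back. -/
theorem Cl.arcs (hs : Semi r W) {D : Finset α} (hD : D ⊆ W) (c : Cl r W D) :
    ∀ u ∈ W \ D, ∀ v ∈ D, r u v ∧ ¬ r v u := by
  intro u hu v hv
  rw [Finset.mem_sdiff] at hu
  have h1 : ¬ r v u := fun h => hu.2 (c v hv u hu.1 h)
  rcases hs u hu.1 v (hD hv) (by rintro rfl; exact hu.2 hv) with h | h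
  · exact ⟨h, h1⟩
  · exact absurd h h1

/-- If `W` is reachable from `S`, then so is, inside itself, the complement of a closed set. -/
theorem From.compl (h : From r W S) {D : Finset α} (hD : D ⊆ W) (c : Cl r W D) :
    From r (W \ D) S := by
  intro U hU hne hUS
  obtain ⟨a, ha, b, hb, hab⟩ := h U (hU.trans Finset.sdiff_subset) hne hUS
  rw [Finset.mem_sdiff] at ha
  refine ⟨a, Finset.mem_sdiff.2 ⟨Finset.mem_sdiff.2 ⟨ha.1, fun haD => ?_⟩, ha.2⟩, b, hb, hab⟩
  have hbW := Finset.mem_sdiff.1 (hU hb)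
  exact hbW.2 (c a haD b hbW.1 hab)

/-- If every vertex of `W` reaches `T`, then this holds inside every closed set. -/
theorem To.closed (h : To r W T) {D : Finset α} (hD : D ⊆ W) (c : Cl r W D) : To r D T := by
  intro U hU hne hUT
  obtain ⟨a, ha, b, hb, hab⟩ := h U (hU.trans hD) hne hUT
  rw [Finset.mem_sdiff] at hb
  exact ⟨a, ha, b, Finset.mem_sdiff.2 ⟨c a (hU ha) b hb.1 hab, hb.2⟩, hab⟩

/-- The last strong component. -/
theorem exists_last (hs : Semi r W) (hW : W.Nonempty) :
    ∃ K ⊆ W, K.Nonempty ∧ Cl r W K ∧ Strong r K ∧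
      ∀ D ⊆ W, D.Nonempty → Cl r W D → K ⊆ D := by
  classical
  obtain ⟨K, hK, hmin⟩ := Finset.exists_min_image
    (W.powerset.filter fun K => K.Nonempty ∧ Cl r W K) Finset.card
    ⟨W, Finset.mem_filter.2 ⟨Finset.mem_powerset_self W, hW, fun _ _ v hv _ => hv⟩⟩
  rw [Finset.mem_filter, Finset.mem_powerset] at hK
  obtain ⟨hKW, hKne, hKcl⟩ := hK
  have hmin' : ∀ D ⊆ W, D.Nonempty → Cl r W D → K.card ≤ D.card := fun D h1 h2 h3 =>
    hmin D (Finset.mem_filter.2 ⟨Finset.mem_powerset.2 h1, h2, h3⟩)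
  refine ⟨K, hKW, hKne, hKcl, ?_, ?_⟩
  · intro U hU hne hUK
    by_contra hcon
    have h1 : Cl r W U := by
      intro a ha b hb hab
      by_contra hbU
      exact hcon ⟨a, ha, b, Finset.mem_sdiff.2 ⟨hKcl a (hU ha) b hb hab, hbU⟩, hab⟩
    exact hUK (Finset.eq_of_subset_of_card_le hU (hmin' U (hU.trans hKW) hne h1))
  · intro D hD hne hDcl
    rcases Cl.total hs hKW hD hKcl hDcl with h | h
    · exact h
    · exact (Finset.eq_of_subset_of_card_le h (hmin' D hD hne hDcl)).symm.subset

/-- The first strong component. -/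
theorem exists_first (hs : Semi r W) (hW : W.Nonempty) :
    ∃ K ⊆ W, K.Nonempty ∧ Cl (fun a b => r b a) W K ∧ Strong r K ∧
      ∀ D ⊆ W, D.Nonempty → Cl (fun a b => r b a) W D → K ⊆ D := by
  obtain ⟨K, h1, h2, h3, h4, h5⟩ := exists_last (r := fun a b => r b a) hs.rev hW
  exact ⟨K, h1, h2, h3, Strong.rev.1 h4, h5⟩

/-- The path `P_j D` of the paper: if `D_j = fwd r W L ≠ W` is nonempty, dominated completely from
`L`... : a Hamiltonian path of `D = fwd r W L` from `L` to `F`, where all of `W` reaches `F` and, in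
case `D` is strong, all of `D` is in `L`. -/
theorem HP_fwd (hs : Semi r W) {L F : Set α} (hne : (fwd r W L).Nonempty) (hF : To r W F)
    (h : Strong r (fwd r W L) → ∀ v ∈ fwd r W L, v ∈ L) : HP r (fwd r W L) L F := by
  have hsem : Semi r (fwd r W L) := hs.mono fwd_subset
  have hTo : To r (fwd r W L) F := hF.closed fwd_subset fwd_cl
  by_cases hst : Strong r (fwd r W L)
  · exact (HP_end hsem hne hTo).mono (fun x hx _ => h hst x hx) (fun y _ hy => hy)
  · exact HP_nonstrong hsem hst fwd_from hTo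

end Pool.Agent.Helper944_HC
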