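import Pool.Agent.Helper944_HC.Basic

/-!
# The chain lemma and the rule for strong, not 2-strong digraphs
-/

namespace Pool.Agent.Helper944_HC

variable {α : Type*} [DecidableEq α] {r : α → α → Prop} {K V : Finset α}

/-- Appending a vertex. -/
theorem ch_append {W : Finset α} {S T : Set α} {y : α} (h : HP r W S T) (hy : y ∉ W)
    (ht : ∀ t ∈ W, t ∈ T → r t y) : HP r (insert y W) S {y} := by
  have h2 : HP r {y} {y} {y} := HP_singleton (Set.mem_singleton _) (Set.mem_singleton _)
  have h3 := HP.join h h2 (Finset.disjoint_singleton_right.2 hy) (by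
    intro t htW htT s hs _
    rw [Finset.mem_singleton] at hs
    rw [hs]
    exact ht t htW htT)
  rw [Finset.insert_eq, Finset.union_comm]
  exact h3

/-- Prepending a vertex. -/
theorem ch_prepend {W : Finset α} {S T : Set α} {y : α} (h : HP r W S T) (hy : y ∉ W)
    (ht : ∀ s ∈ W, s ∈ S → r y s) : HP r (insert y W) {y} T := by
  have h2 : HP r {y} {y} {y} := HP_singleton (Set.mem_singleton _) (Set.mem_singleton _)
  have h3 := HP.join h2 h (Finset.disjoint_singleton_left.2 hy) (by
    intro t htW _ s hs hsS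
    rw [Finset.mem_singleton] at htW
    rw [htW]
    exact ht s hs hsS)
  rw [Finset.insert_eq]
  exact h3

/-- Inserting `y` behind `u`. -/
theorem ch_insert {W : Finset α} {x z u y : α} (h : HP r W {x} {z}) (hu : u ∈ W) (huz : u ≠ z)
    (hy : y ∉ W) (huy : r u y) (hyw : ∀ w ∈ W, w ≠ u → r y w) : HP r (insert y W) {x} {z} := by
  obtain ⟨l, hl, ⟨a, ha, hax⟩, ⟨b, hb, hbz⟩⟩ := h
  rw [Set.mem_singleton_iff] at hax hbz
  subst hax hbz
  have hul : u ∈ l := (hl.mem u).2 hu
  obtain ⟨l1, l2, rfl⟩ := List.append_of_mem hul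
  have hl2 : l2 ≠ [] := by
    rintro rfl
    rw [List.getLast?_append_of_ne_nil _ (by simp)] at hb
    simp at hb
    exact huz hb
  obtain ⟨c, l3, rfl⟩ := List.exists_cons_of_ne_nil hl2
  have hcW : c ∈ W := (hl.mem c).1 (by simp)
  have hyl : y ∉ l1 ++ u :: c :: l3 := fun h => hy ((hl.mem y).1 h)
  have hnd := hl.nodup
  have hcu : c ≠ u := by
    rintro rfl
    rw [List.nodup_append] at hnd
    have := hnd.2.1
    simp at this
  refine ⟨l1 ++ u :: y :: c :: l3, ⟨?_, ?_, ?_⟩, ⟨a, ?_, rfl⟩, ⟨b, ?_, rfl⟩⟩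
  · have hp : (l1 ++ u :: y :: c :: l3).Perm (y :: (l1 ++ u :: c :: l3)) := by
      have : (l1 ++ u :: y :: c :: l3) = (l1 ++ [u]) ++ y :: (c :: l3) := by simp
      rw [this]
      have h2 : y :: (l1 ++ u :: c :: l3) = y :: ((l1 ++ [u]) ++ (c :: l3)) := by simp
      rw [h2]
      exact List.perm_middle
    rw [hp.nodup_iff, List.nodup_cons]
    exact ⟨hyl, hnd⟩
  · have hch := hl.chain
    rw [List.isChain_append] at hch ⊢
    refine ⟨hch.1, ?_, ?_⟩
    · rw [List.isChain_cons_cons, List.isChain_cons_cons]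
      refine ⟨huy, hyw c hcW hcu, ?_⟩
      have := hch.2.1
      rw [List.isChain_cons_cons] at this
      exact this.2
    · intro p hp q hq
      refine hch.2.2 p hp q ?_
      simpa using hq
  · intro v
    rw [Finset.mem_insert, ← hl.mem v]
    simp only [List.mem_append, List.mem_cons]
    tauto
  · cases l1 with
    | nil => simpa using ha
    | cons d l1 => simpa using ha
  · rw [List.getLast?_append_of_ne_nil _ (by simp)] at hb ⊢
    rw [← hb]
    simp [List.getLast?_cons]

/-- Removing the first vertex. -/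
theorem ch_tail {W : Finset α} {z t : α} (h : HP r W {z} {t}) (hzt : z ≠ t) :
    HP r (W.erase z) Set.univ {t} := by
  obtain ⟨l, hl, ⟨a, ha, hax⟩, ⟨b, hb, hbz⟩⟩ := h
  rw [Set.mem_singleton_iff] at hax hbz
  subst hax hbz
  cases l with
  | nil => simp at ha
  | cons c l =>
    simp only [List.head?_cons, Option.some.injEq] at ha
    subst ha
    cases l with
    | nil =>
      simp at hb
      exact absurd hb hzt
    | cons d l =>
      have hnd := hl.nodup
      rw [List.nodup_cons] at hnd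
      refine ⟨d :: l, ⟨hnd.2, ?_, ?_⟩, ⟨d, rfl, trivial⟩, ⟨b, ?_, rfl⟩⟩
      · have := hl.chain
        rw [List.isChain_cons_cons] at this
        exact this.2
      · intro v
        rw [Finset.mem_erase, ← hl.mem v, List.mem_cons (a := v) (b := c)]
        constructor
        · intro hv
          exact ⟨fun h => hnd.1 (h ▸ hv), Or.inr hv⟩
        · rintro ⟨h1, h2⟩
          exact h2.resolve_left h1
      · rw [← hb, List.getLast?_cons_cons]

/-- The structure of `K` at the vertex `y`. -/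
theorem ch_base (hs : Semi r K) (hst : Strong r K) {z y : α} (hz : z ∈ K) (hy : y ∈ K)
    (hzy : z ≠ y) (hn : 3 ≤ K.card) (hA : ¬ HP r K {v | v ≠ z} {y})
    (hzin : ∃ v ∈ K, v ≠ z ∧ v ≠ y ∧ r v z) :
    Strong r (K.erase y) ∧ ∃ u ∈ K, u ≠ y ∧ u ≠ z ∧ r u y ∧ r u z ∧
      (∀ w ∈ K, w ≠ y → w ≠ u → r y w ∧ ¬ r w y) ∧ HP r (K.erase y) {z} {u} := by
  have hs' : Semi r (K.erase y) := hs.mono (Finset.erase_subset _ _)
  have hins : insert y (K.erase y) = K := Finset.insert_erase hy
  have hyn : y ∉ K.erase y := Finset.notMem_erase _ _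
  have hcard : (K.erase y).card = K.card - 1 := Finset.card_erase_of_mem hy
  have hst' : Strong r (K.erase y) := by
    by_contra hns
    have hF : From r (K.erase y) {v | v ≠ z} := by
      intro U hU hne hUz
      obtain ⟨v, hv, hvz, hvy, hr⟩ := hzin
      obtain ⟨w, hw⟩ := hne
      have h1 : ∀ u ∈ U, u = z := fun u hu => by
        have := hUz u hu
        simpa using this
      refine ⟨v, Finset.mem_sdiff.2 ⟨Finset.mem_erase.2 ⟨hvy, hv⟩, fun h => hvz (h1 v h)⟩, z, ?_, hr⟩
      rw [← h1 w hw]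
      exact hw
    have hT : To r (K.erase y) {v | r v y} := by
      intro U hU hne hUy
      obtain ⟨a, ha, b, hb, hab⟩ := hst U (hU.trans (Finset.erase_subset _ _)) hne (by
        rintro rfl
        exact hyn (hU hy))
      refine ⟨a, ha, b, ?_, hab⟩
      rw [Finset.mem_sdiff] at hb ⊢
      refine ⟨Finset.mem_erase.2 ⟨?_, hb.1⟩, hb.2⟩
      rintro rfl
      exact hUy a ha hab
    have h := ch_append (HP_nonstrong hs' hns hF hT) hyn (fun t _ ht => ht)
    rw [hins] at h
    exact hA h
  refine ⟨hst', ?_⟩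
  obtain ⟨σ, hσ, hσ2, hσ3, -⟩ := ham_succ hs' hst' ⟨z, Finset.mem_erase.2 ⟨hzy, hz⟩⟩
  have key : ∀ v ∈ K.erase y, r v y → σ v = z := by
    intro v hv hvy
    by_contra hne
    have h := ch_append (hσ2 v hv) hyn (fun t _ ht => by
      rw [Set.mem_singleton_iff] at ht
      rw [ht]
      exact hvy)
    rw [hins] at h
    refine hA (h.mono ?_ (fun _ _ h => h))
    intro x _ hx
    rw [Set.mem_singleton_iff] at hx
    rw [hx]
    exact hne
  obtain ⟨u, hu, b, hb, hub⟩ := hst (K.erase y) (Finset.erase_subset _ _)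
    ⟨z, Finset.mem_erase.2 ⟨hzy, hz⟩⟩ (fun h => by rw [h] at hyn; exact hyn hy)
  have hby : b = y := by
    rw [Finset.mem_sdiff, Finset.mem_erase] at hb
    by_contra h
    exact hb.2 ⟨h, hb.1⟩
  subst hby
  have huz := key u hu hub
  have h4 := hσ3 (by omega) u hu
  rw [huz] at h4
  have hu' := Finset.mem_erase.1 hu
  refine ⟨u, hu'.2, hu'.1, fun h => h4.1 h.symm, hub, h4.2, ?_, ?_⟩
  · intro w hw hwb hwu
    have hnw : ¬ r w b := by
      intro h
      exact hwu (σ.injective ((key w (Finset.mem_erase.2 ⟨hwb, hw⟩) h).trans huz.symm))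
    exact ⟨(hs b hy w hw (Ne.symm hwb)).resolve_right hnw, hnw⟩
  · have := hσ2 u hu
    rw [huz] at this
    exact this

theorem ch_main : ∀ (n : ℕ) (K : Finset α), K.card ≤ n → Semi r K → Strong r K → ∀ z y : α,
    z ∈ K → y ∈ K → z ≠ y → 3 ≤ K.card → ¬ HP r K {v | v ≠ z} {y} →
    (∃ v ∈ K, v ≠ z ∧ v ≠ y ∧ r v z) →
    (∀ D ⊆ K, D.Nonempty → z ∉ D → y ∉ D → ∀ u ∈ K, u ≠ z →
      ∃ d ∈ D, ∃ v ∈ K, v ∉ D ∧ v ≠ u ∧ r d v) →
    ∀ x ∈ K, x ≠ z → (x = y → 4 ≤ K.card) → HP r K {x} {z} := by
  intro n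
  induction n with
  | zero =>
    intro K hK _ _ z y _ _ _ hn
    omega
  | succ n ih =>
    intro K hK hs hst z y hz hy hzy hn hA hzin hNC x hx hxz hxy
    obtain ⟨hst', u, hu, huy, huz, ruy, ruz, hdom, -⟩ := ch_base hs hst hz hy hzy hn hA hzin
    have hyn : y ∉ K.erase y := Finset.notMem_erase _ _
    have hins : insert y (K.erase y) = K := Finset.insert_erase hy
    have hcard : (K.erase y).card = K.card - 1 := Finset.card_erase_of_mem hy
    have huK' : u ∈ K.erase y := Finset.mem_erase.2 ⟨huy, hu⟩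
    have hzK' : z ∈ K.erase y := Finset.mem_erase.2 ⟨hzy, hz⟩
    by_cases h3 : K.card = 3
    · -- `K = {z, u, y}`
      have hsub : ({z, u, y} : Finset α) ⊆ K := by
        intro a ha
        simp only [Finset.mem_insert, Finset.mem_singleton] at ha
        rcases ha with rfl | rfl | rfl <;> assumption
      have hc3 : ({z, u, y} : Finset α).card = 3 := by
        rw [Finset.card_eq_three]
        exact ⟨z, u, y, fun h => huz h.symm, hzy, huy, rfl⟩
      have hKeq : ({z, u, y} : Finset α) = K := Finset.eq_of_subset_of_card_le hsub (by omega)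
      have hxu : x = u := by
        rw [← hKeq] at hx
        simp only [Finset.mem_insert, Finset.mem_singleton] at hx
        rcases hx with h | h | h
        · exact absurd h hxz
        · exact h
        · have := hxy h
          omega
      subst hxu
      have h1 : HP r {z} {z} {z} := HP_singleton (Set.mem_singleton _) (Set.mem_singleton _)
      have h2 := ch_prepend (y := y) h1 (by
        rw [Finset.mem_singleton]
        exact fun h => hzy h.symm) (by
        intro s hs' _
        rw [Finset.mem_singleton] at hs'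
        rw [hs']
        exact (hdom z hz hzy (fun h => huz h.symm)).1)
      have h4 := ch_prepend (y := x) h2 (by
        simp only [Finset.mem_insert, Finset.mem_singleton, not_or]
        exact ⟨huy, huz⟩) (by
        intro s _ hs'
        rw [Set.mem_singleton_iff] at hs'
        rw [hs']
        exact ruy)
      have he : (insert x (insert y {z}) : Finset α) = K := by
        rw [← hKeq]
        ext a
        simp only [Finset.mem_insert, Finset.mem_singleton]
        tauto
      rw [he] at h4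
      exact h4
    · have hs' : Semi r (K.erase y) := hs.mono (Finset.erase_subset _ _)
      have hzin' : ∃ v ∈ K.erase y, v ≠ z ∧ v ≠ u ∧ r v z := by
        have hDne : (((K.erase y).erase z).erase u).Nonempty := by
          rw [← Finset.card_pos, Finset.card_erase_of_mem, Finset.card_erase_of_mem hzK', hcard]
          · omega
          · exact Finset.mem_erase.2 ⟨huz, huK'⟩
        obtain ⟨d, hd, v, hv, hvD, hvu, hdv⟩ := hNC (((K.erase y).erase z).erase u)
          (fun a ha => by
            simp only [Finset.mem_erase] at ha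
            exact ha.2.2.2) hDne (by simp) (by simp) u hu huz
        simp only [Finset.mem_erase] at hd
        have hdy := (hdom d hd.2.2.2 hd.2.2.1 hd.1).2
        have hvy : v ≠ y := by
          rintro rfl
          exact hdy hdv
        have hvz : v = z := by
          by_contra h
          apply hvD
          simp only [Finset.mem_erase]
          exact ⟨hvu, h, hvy, hv⟩
        subst hvz
        exact ⟨d, Finset.mem_erase.2 ⟨hd.2.2.1, hd.2.2.2⟩, hd.2.1, hd.1, hdv⟩
      have hA' : ¬ HP r (K.erase y) {v | v ≠ z} {u} := by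
        intro h
        have h2 := ch_append h hyn (fun t _ ht => by
          rw [Set.mem_singleton_iff] at ht
          rw [ht]
          exact ruy)
        rw [hins] at h2
        exact hA h2
      have hNC' : ∀ D ⊆ K.erase y, D.Nonempty → z ∉ D → u ∉ D → ∀ u1 ∈ K.erase y, u1 ≠ z →
          ∃ d ∈ D, ∃ v ∈ K.erase y, v ∉ D ∧ v ≠ u1 ∧ r d v := by
        intro D hD hDne hzD huD u1 hu1 hu1z
        obtain ⟨d, hd, v, hv, hvD, hvu, hdv⟩ := hNC D (hD.trans (Finset.erase_subset _ _)) hDne hzD
          (fun h => hyn (hD h)) u1 (Finset.mem_of_mem_erase hu1) hu1z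
        have hd' := Finset.mem_erase.1 (hD hd)
        have hdy := (hdom d hd'.2 hd'.1 (fun h => huD (h ▸ hd))).2
        refine ⟨d, hd, v, Finset.mem_erase.2 ⟨?_, hv⟩, hvD, hvu, hdv⟩
        rintro rfl
        exact hdy hdv
      obtain ⟨hst'', u2, hu2, hu2u, hu2z, ru2u, ru2z, hdom2, hHP2⟩ :=
        ch_base hs' hst' hzK' huK' (fun h => huz h.symm) (by omega) hA' hzin'
      have hs'' : Semi r ((K.erase y).erase u) := hs'.mono (Finset.erase_subset _ _)
      have hzK'' : z ∈ (K.erase y).erase u := Finset.mem_erase.2 ⟨fun h => huz h.symm, hzK'⟩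
      have hins' : insert u ((K.erase y).erase u) = K.erase y := Finset.insert_erase huK'
      by_cases hxu : x = u
      · -- `u, y, τ z, …, z`
        subst hxu
        obtain ⟨τ, hτ, hτ2, -, -⟩ := ham_succ hs'' hst'' ⟨z, hzK''⟩
        have h1 := hτ2 z hzK''
        have hτz := (hτ z).1 hzK''
        simp only [Finset.mem_erase] at hτz
        have h2 := ch_prepend (y := y) h1 (by simp) (by
          intro s _ hs1
          rw [Set.mem_singleton_iff] at hs1
          rw [hs1]
          exact (hdom _ hτz.2.2 hτz.2.1 hτz.1).1)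
        have h4 := ch_prepend (y := x) h2 (by
          simp only [Finset.mem_insert, Finset.mem_erase]
          rintro (h | h)
          · exact huy h
          · exact h.1 rfl) (by
          intro s _ hs1
          rw [Set.mem_singleton_iff] at hs1
          rw [hs1]
          exact ruy)
        rw [Finset.insert_comm, hins', hins] at h4
        exact h4
      · by_cases hxy' : x = y
        · -- `y, rest, u, z`
          subst hxy'
          have h1 := ch_tail hHP2 (fun h => hu2z h.symm)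
          have h2 := ch_prepend (y := x) h1 (by simp) (by
            intro s hs1 _
            simp only [Finset.mem_erase] at hs1
            exact (hdom s hs1.2.2.2 hs1.2.2.1 hs1.2.1).1)
          have h5 := ch_append (y := u) h2 (by
            simp only [Finset.mem_insert, Finset.mem_erase]
            rintro (h | h)
            · exact huy h
            · exact h.2.1 rfl) (by
            intro t _ ht
            rw [Set.mem_singleton_iff] at ht
            rw [ht]
            exact ru2u)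
          have h6 := ch_append (y := z) h5 (by
            simp only [Finset.mem_insert, Finset.mem_erase]
            rintro (h | h | h)
            · exact huz h.symm
            · exact hzy h
            · exact h.1 rfl) (by
            intro t _ ht
            rw [Set.mem_singleton_iff] at ht
            rw [ht]
            exact ruz)
          have he : (insert z (insert u (insert x (((K.erase x).erase u).erase z))) : Finset α) = K := by
            ext a
            simp only [Finset.mem_insert, Finset.mem_erase]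
            constructor
            · rintro (rfl | rfl | rfl | h)
              · exact hz
              · exact hu
              · exact hx
              · exact h.2.2.2
            · intro ha
              by_cases h1 : a = z
              · exact Or.inl h1
              · by_cases h2 : a = u
                · exact Or.inr (Or.inl h2)
                · by_cases h3 : a = x
                  · exact Or.inr (Or.inr (Or.inl h3))
                  · exact Or.inr (Or.inr (Or.inr ⟨h1, h2, h3, ha⟩))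
          rw [he] at h6
          exact h6
        · -- induction
          have h1 := ih (K.erase y) (by omega) hs' hst' z u hzK' huK' (fun h => huz h.symm)
            (by omega) hA' hzin' hNC' x (Finset.mem_erase.2 ⟨hxy', hx⟩) hxz (fun h => absurd h hxu)
          have h2 := ch_insert h1 huK' huz hyn ruy (by
            intro w hw hwu
            rw [Finset.mem_erase] at hw
            exact (hdom w hw.2 hw.1 hwu).1)
          rw [hins] at h2
          exact h2

theorem chain (hs : Semi r K) (hst : Strong r K) {z y : α} (hz : z ∈ K) (hy : y ∈ K) (hzy : z ≠ y)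
    (hn : 3 ≤ K.card) (hA : ¬ HP r K {v | v ≠ z} {y})
    (hzin : ∃ v ∈ K, v ≠ z ∧ v ≠ y ∧ r v z)
    (hNC : ∀ D ⊆ K, D.Nonempty → z ∉ D → y ∉ D → ∀ u ∈ K, u ≠ z →
      ∃ d ∈ D, ∃ v ∈ K, v ∉ D ∧ v ≠ u ∧ r d v) :
    ∀ x ∈ K, x ≠ z → (x = y → 4 ≤ K.card) → HP r K {x} {z} :=
  ch_main _ K le_rfl hs hst z y hz hy hzy hn hA hzin hNC

/-! ### Auxiliary lemmas for rule R4 -/

theorem r4_ne_nil_of_head {l : List α} {x : α} (h : l.head? = some x) : l ≠ [] := by
  rintro rfl
  simp at h

theorem r4_getLast {l : List α} (h : l ≠ []) : ∃ y, l.getLast? = some y ∧ y ∈ (Set.univ : Set α) :=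
  ⟨l.getLast h, List.getLast?_eq_some_getLast h, trivial⟩

/-- A strong semicomplete digraph is spanned by two disjoint paths starting in two given vertices. -/
theorem r4_split (hs : Semi r K) (hst : Strong r K) {a b : α} (ha : a ∈ K) (hb : b ∈ K)
    (hab : a ≠ b) : ∃ C C' : Finset α, Disjoint C C' ∧ C ∪ C' = K ∧ HP r C {a} Set.univ ∧
      HP r C' {b} Set.univ := by
  obtain ⟨l, hl, ⟨x, hx, hxa⟩, -⟩ := HP_start hs ⟨a, ha⟩
    (Strong.from hst (S := {a}) ⟨a, ha, rfl⟩)
  have hxa' : x = a := hxa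
  have hbl : b ∈ l := (hl.mem b).2 hb
  obtain ⟨s, t, rfl⟩ := List.append_of_mem hbl
  have hsn : s ≠ [] := by
    rintro rfl
    rw [List.nil_append, List.head?_cons, Option.some_inj] at hx
    exact hab (hxa'.symm.trans hx.symm)
  have hnd := List.nodup_append.1 hl.nodup
  have hch := List.isChain_append.1 hl.chain
  refine ⟨s.toFinset, (b :: t).toFinset, ?_, ?_, ⟨s, ⟨hnd.1, hch.1, by simp⟩, ⟨x, ?_, hxa⟩,
    r4_getLast hsn⟩, ⟨b :: t, ⟨hnd.2.1, hch.2.1, by simp⟩, ⟨b, rfl, rfl⟩,
    r4_getLast (List.cons_ne_nil _ _)⟩⟩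
  · rw [Finset.disjoint_left]
    intro v hv hv'
    rw [List.mem_toFinset] at hv hv'
    exact hnd.2.2 v hv v hv' rfl
  · ext v
    rw [Finset.mem_union, List.mem_toFinset, List.mem_toFinset, ← List.mem_append]
    exact hl.mem v
  · rw [List.head?_append] at hx
    cases s with
    | nil => exact absurd rfl hsn
    | cons c s => simpa using hx

theorem r4_from_univ {W : Finset α} : From r W Set.univ := by
  intro U _ hne hU
  obtain ⟨u, hu⟩ := hne
  exact absurd trivial (hU u hu)

theorem r4_conn_rev {X Y : Set α} {k : ℕ} (h : Conn r V X Y k) :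
    Conn (fun a b => r b a) V Y X k := by
  intro S hS hk U hU hYU hcl
  by_contra hne
  push Not at hne
  obtain ⟨u, hu, huY⟩ := h S hS hk ((V \ S) \ U) Finset.sdiff_subset (by
    intro x hx hxX
    rw [Finset.mem_sdiff]
    exact ⟨hx, fun h => hne x h hxX⟩) (by
    intro u hu v hv huv
    rw [Finset.mem_sdiff] at hu ⊢
    exact ⟨hv, fun h => hu.2 (hcl v h u hu.1 huv)⟩)
  rw [Finset.mem_sdiff] at hu
  exact hu.2 (hYU u hu.1 huY)

theorem r4_card_right {X Y : Finset α} (hY : Y ⊆ V) {k : ℕ} (h : Conn r V ↑X ↑Y k) :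
    k ≤ Y.card := by
  by_contra hk
  push Not at hk
  obtain ⟨u, hu, huY⟩ := h Y hY hk (V \ Y) (Finset.Subset.refl _) (fun x hx _ => hx)
    (fun u _ v hv _ => hv)
  exact (Finset.mem_sdiff.1 hu).2 huY

theorem r4_card_left {X Y : Finset α} (hX : X ⊆ V) {k : ℕ} (h : Conn r V ↑X ↑Y k) :
    k ≤ X.card :=
  r4_card_right hX (r4_conn_rev h)

/-- Case (i), one side: the first strong component of `V.erase z` is spanned by two disjoint paths
starting in `X` and in an out-neighbour of `z`. -/
theorem r4_first (hs : Semi r V) (hst : Strong r V) {X : Finset α}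
    (hN1 : ∀ v ∈ V, ∀ U ⊆ V.erase v, U.Nonempty → (V.erase v \ U).Nonempty →
      (∀ a ∈ V.erase v \ U, ∀ u ∈ U, ¬ r a u) → ∃ u ∈ U, u ∈ X)
    {z : α} (hz : z ∈ V) {C : Finset α} (hC : C ⊆ V.erase z) (hCne : C.Nonempty)
    (hCcl : Cl (fun a b => r b a) (V.erase z) C) (hCst : Strong r C)
    (hCr : (V.erase z \ C).Nonempty) (hC2 : 2 ≤ C.card) :
    ∃ C1 C2 : Finset α, Disjoint C1 C2 ∧ C1 ∪ C2 = C ∧ HP r C1 ↑X Set.univ ∧
      HP r C2 {v | r z v} Set.univ := by
  have hzC : z ∉ C := fun h => (Finset.mem_erase.1 (hC h)).1 rfl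
  have hCV : C ⊆ V := fun v hv => Finset.mem_of_mem_erase (hC hv)
  -- `X` meets `C`
  obtain ⟨x0, hx0, hx0X⟩ := hN1 z hz C hC hCne hCr (by
    intro a ha u hu hau
    rw [Finset.mem_sdiff] at ha
    exact ha.2 (hCcl u hu a ha.1 hau))
  -- `z` has an out-neighbour in `C`
  obtain ⟨b0, hb0, hzb0⟩ : ∃ b ∈ C, r z b := by
    obtain ⟨a, ha, b, hb, hab⟩ := hst (V \ C) Finset.sdiff_subset
      ⟨z, Finset.mem_sdiff.2 ⟨hz, hzC⟩⟩ (by
        intro h
        obtain ⟨u, hu⟩ := hCne
        have := hCV hu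
        rw [← h] at this
        exact (Finset.mem_sdiff.1 this).2 hu)
    rw [Finset.sdiff_sdiff_eq_self hCV] at hb
    rw [Finset.mem_sdiff] at ha
    by_cases haz : a = z
    · exact ⟨b, hb, haz ▸ hab⟩
    · exact absurd (hCcl b hb a (Finset.mem_erase.2 ⟨haz, ha.1⟩) hab) ha.2
  -- distinct choices
  obtain ⟨x, hx, hxX, b, hb, hzb, hxb⟩ : ∃ x ∈ C, x ∈ X ∧ ∃ b ∈ C, r z b ∧ x ≠ b := by
    by_contra hcon
    push Not at hcon
    have h00 := hcon x0 hx0 hx0X b0 hb0 hzb0
    have hx0z : x0 ≠ z := fun h => hzC (h ▸ hx0)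
    obtain ⟨u, hu, huX⟩ := hN1 x0 (hCV hx0) (C.erase x0) (Finset.erase_subset_erase _ hCV) (by
      rw [← Finset.card_pos, Finset.card_erase_of_mem hx0]
      omega) ⟨z, by
        rw [Finset.mem_sdiff, Finset.mem_erase, Finset.mem_erase]
        exact ⟨⟨hx0z.symm, hz⟩, fun h => hzC h.2⟩⟩ (by
      intro a ha u hu hau
      rw [Finset.mem_sdiff, Finset.mem_erase, Finset.mem_erase] at ha
      rw [Finset.mem_erase] at hu
      by_cases haz : a = z
      · rw [haz] at hau
        exact hu.1 (hcon x0 hx0 hx0X u hu.2 hau).symm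
      · have := hCcl u hu.2 a (Finset.mem_erase.2 ⟨haz, ha.1.2⟩) hau
        exact ha.2 ⟨ha.1.1, this⟩)
    rw [Finset.mem_erase] at hu
    exact hu.1 ((hcon u hu.2 huX b0 hb0 hzb0).trans h00.symm)
  obtain ⟨C1, C2, hd, hu, h1, h2⟩ := r4_split (hs.mono hCV) hCst hx hb hxb
  refine ⟨C1, C2, hd, hu, h1.mono ?_ (fun _ _ _ => trivial), h2.mono ?_ (fun _ _ _ => trivial)⟩
  · rintro v _ (rfl : v = x)
    exact hxX
  · rintro v _ (rfl : v = b)
    exact hzb

/-- Case (i) of rule R4. -/
theorem r4_i (hs : Semi r V) (hst : Strong r V) {X Y : Finset α}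
    (hN1 : ∀ v ∈ V, ∀ U ⊆ V.erase v, U.Nonempty → (V.erase v \ U).Nonempty →
      (∀ a ∈ V.erase v \ U, ∀ u ∈ U, ¬ r a u) → ∃ u ∈ U, u ∈ X)
    (hN1' : ∀ v ∈ V, ∀ U ⊆ V.erase v, U.Nonempty → (V.erase v \ U).Nonempty →
      (∀ u ∈ U, ∀ a ∈ V.erase v \ U, ¬ r u a) → ∃ u ∈ U, u ∈ Y)
    {z : α} (hz : z ∈ V) {C D : Finset α} (hC : C ⊆ V.erase z) (hCne : C.Nonempty)
    (hCcl : Cl (fun a b => r b a) (V.erase z) C) (hCst : Strong r C) (hC2 : 2 ≤ C.card)
    (hD : D ⊆ V.erase z) (hDne : D.Nonempty) (hDcl : Cl r (V.erase z) D) (hDst : Strong r D)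
    (hD2 : 2 ≤ D.card) (hCD : Disjoint C D) : HP r V ↑X ↑Y := by
  have hzC : z ∉ C := fun h => (Finset.mem_erase.1 (hC h)).1 rfl
  have hzD : z ∉ D := fun h => (Finset.mem_erase.1 (hD h)).1 rfl
  have hCV : C ⊆ V := fun v hv => Finset.mem_of_mem_erase (hC hv)
  have hDV : D ⊆ V := fun v hv => Finset.mem_of_mem_erase (hD hv)
  obtain ⟨C1, C2, hCd, hCu, hP1, hP2⟩ := r4_first hs hst hN1 hz hC hCne hCcl hCst (by
    obtain ⟨d, hd⟩ := hDne
    exact ⟨d, Finset.mem_sdiff.2 ⟨hD hd, fun h => Finset.disjoint_left.1 hCD h hd⟩⟩) hC2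
  obtain ⟨D1, D2, hDd, hDu, hQ1, hQ2⟩ := r4_first (r := fun a b => r b a) (X := Y) hs.rev
    (Strong.rev.2 hst) (by
      intro v hv U hU h1 h2 h3
      exact hN1' v hv U hU h1 h2 (fun u hu a ha => h3 a ha u hu)) hz hD hDne hDcl
      (Strong.rev.2 hDst) (by
    obtain ⟨d, hd⟩ := hCne
    exact ⟨d, Finset.mem_sdiff.2 ⟨hC hd, fun h => Finset.disjoint_left.1 hCD hd h⟩⟩) hD2
  have hQ1' : HP r D1 Set.univ ↑Y := HP_rev.1 hQ1
  have hQ2' : HP r D2 Set.univ {v | r v z} := HP_rev.1 hQ2
  -- arcs
  have hCarc : ∀ c ∈ C, ∀ v ∈ V.erase z, v ∉ C → r c v := by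
    intro c hc v hv hvC
    rcases hs c (hCV hc) v (Finset.mem_of_mem_erase hv) (by rintro rfl; exact hvC hc) with h | h
    · exact h
    · exact absurd (hCcl c hc v hv h) hvC
  have hDarc : ∀ d ∈ D, ∀ v ∈ V.erase z, v ∉ D → r v d := by
    intro d hd v hv hvD
    rcases hs d (hDV hd) v (Finset.mem_of_mem_erase hv) (by rintro rfl; exact hvD hd) with h | h
    · exact absurd (hDcl d hd v hv h) hvD
    · exact h
  have hC1 : C1 ⊆ C := by rw [← hCu]; exact Finset.subset_union_left
  have hC2' : C2 ⊆ C := by rw [← hCu]; exact Finset.subset_union_right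
  have hD1 : D1 ⊆ D := by rw [← hDu]; exact Finset.subset_union_left
  have hD2' : D2 ⊆ D := by rw [← hDu]; exact Finset.subset_union_right
  have hCD' : ∀ v, v ∈ C → v ∈ D → False := fun v h1 h2 => Finset.disjoint_left.1 hCD h1 h2
  -- the middle
  set M : Finset α := (V.erase z \ C) \ D with hM
  have hMmem : ∀ v, v ∈ M ↔ (v ≠ z ∧ v ∈ V) ∧ v ∉ C ∧ v ∉ D := by
    intro v
    rw [hM, Finset.mem_sdiff, Finset.mem_sdiff, Finset.mem_erase]
    tauto
  -- first half
  have hA : HP r (C1 ∪ M ∪ D2) ↑X {v | r v z} := by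
    by_cases hMe : M.Nonempty
    · have hMp : HP r M Set.univ Set.univ :=
        HP_start (hs.mono (fun v hv => ((hMmem v).1 hv).1.2)) hMe r4_from_univ
      have h1 : HP r (C1 ∪ M) ↑X Set.univ := by
        have h1' : HP r (C1 ∪ M) ↑X {v | v ∈ M} := by
          refine HP.join hP1 (T2 := {v | v ∈ M}) (S2 := Set.univ)
            (hMp.mono (fun _ _ _ => trivial) (fun v hv _ => hv)) ?_ ?_
          · rw [Finset.disjoint_left]
            intro v hv hv'
            exact ((hMmem v).1 hv').2.1 (hC1 hv)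
          · intro t ht _ s hs' _
            obtain ⟨⟨h1, h2⟩, h3, h4⟩ := (hMmem s).1 hs'
            exact hCarc t (hC1 ht) s (Finset.mem_erase.2 ⟨h1, h2⟩) h3
        exact h1'.mono (fun _ _ h => h) (fun _ _ _ => trivial)
      refine HP.join h1 hQ2' ?_ ?_
      · rw [Finset.disjoint_left]
        intro v hv hv'
        rcases Finset.mem_union.1 hv with h | h
        · exact hCD' v (hC1 h) (hD2' hv')
        · exact ((hMmem v).1 h).2.2 (hD2' hv')
      · intro t ht _ s hs' _
        rcases Finset.mem_union.1 ht with h | h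
        · exact hDarc s (hD2' hs') t (hC (hC1 h)) (fun h' => hCD' t (hC1 h) h')
        · obtain ⟨⟨h1, h2⟩, h3, h4⟩ := (hMmem t).1 h
          exact hDarc s (hD2' hs') t (Finset.mem_erase.2 ⟨h1, h2⟩) h4
    · rw [Finset.not_nonempty_iff_eq_empty] at hMe
      rw [hMe, Finset.union_empty]
      refine HP.join hP1 hQ2' ?_ ?_
      · rw [Finset.disjoint_left]
        intro v hv hv'
        exact hCD' v (hC1 hv) (hD2' hv')
      · intro t ht _ s hs' _
        exact hDarc s (hD2' hs') t (hC (hC1 ht)) (fun h' => hCD' t (hC1 ht) h')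
  -- second half
  have hB : HP r (C2 ∪ D1) {v | r z v} ↑Y := by
    refine HP.join hP2 hQ1' ?_ ?_
    · rw [Finset.disjoint_left]
      intro v hv hv'
      exact hCD' v (hC2' hv) (hD1 hv')
    · intro t ht _ s hs' _
      exact hDarc s (hD1 hs') t (hC (hC2' ht)) (fun h' => hCD' t (hC2' ht) h')
  have hzB : HP r ({z} ∪ (C2 ∪ D1)) {z} ↑Y := by
    refine HP.join (HP_singleton (S := {z}) (T := {z}) rfl rfl) hB ?_ ?_
    · rw [Finset.disjoint_left]
      intro v hv hv'
      rw [Finset.mem_singleton] at hv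
      subst hv
      rcases Finset.mem_union.1 hv' with h | h
      · exact hzC (hC2' h)
      · exact hzD (hD1 h)
    · intro t ht _ s _ hs'
      rw [Finset.mem_singleton] at ht
      rw [ht]
      exact hs'
  have hF : HP r ((C1 ∪ M ∪ D2) ∪ ({z} ∪ (C2 ∪ D1))) ↑X ↑Y := by
    refine HP.join hA hzB ?_ ?_
    · rw [Finset.disjoint_left]
      intro v hv hv'
      simp only [Finset.mem_union, Finset.mem_singleton] at hv hv'
      rcases hv with (h | h) | h
      · rcases hv' with h' | h' | h'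
        · exact hzC (h' ▸ hC1 h)
        · exact Finset.disjoint_left.1 hCd h h'
        · exact hCD' v (hC1 h) (hD1 h')
      · obtain ⟨⟨h1, h2⟩, h3, h4⟩ := (hMmem v).1 h
        rcases hv' with h' | h' | h'
        · exact h1 h'
        · exact h3 (hC2' h')
        · exact h4 (hD1 h')
      · rcases hv' with h' | h' | h'
        · exact hzD (h' ▸ hD2' h)
        · exact hCD' v (hC2' h') (hD2' h)
        · exact Finset.disjoint_left.1 hDd h' h
    · rintro t _ ht s _ (rfl : s = z)
      exact ht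
  have hV : (C1 ∪ M ∪ D2) ∪ ({z} ∪ (C2 ∪ D1)) = V := by
    ext v
    have e1 : v ∈ C ↔ v ∈ C1 ∨ v ∈ C2 := by rw [← hCu, Finset.mem_union]
    have e2 : v ∈ D ↔ v ∈ D1 ∨ v ∈ D2 := by rw [← hDu, Finset.mem_union]
    have e3 := hMmem v
    have e4 : v ∈ C → v ∈ V := fun h => hCV h
    have e5 : v ∈ D → v ∈ V := fun h => hDV h
    have e6 : v = z → v ∈ V := fun h => h ▸ hz
    simp only [Finset.mem_union, Finset.mem_singleton]
    constructor
    · rintro (((h | h) | h) | (h | (h | h)))
      · exact e4 (e1.2 (Or.inl h))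
      · exact (e3.1 h).1.2
      · exact e5 (e2.2 (Or.inr h))
      · exact e6 h
      · exact e4 (e1.2 (Or.inr h))
      · exact e5 (e2.2 (Or.inl h))
    · intro h
      by_cases h5 : v = z
      · exact Or.inr (Or.inl h5)
      by_cases hC' : v ∈ C
      · rcases e1.1 hC' with h' | h'
        · exact Or.inl (Or.inl (Or.inl h'))
        · exact Or.inr (Or.inr (Or.inl h'))
      by_cases hD' : v ∈ D
      · rcases e2.1 hD' with h' | h'
        · exact Or.inr (Or.inr (Or.inr h'))
        · exact Or.inl (Or.inr h')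
      exact Or.inl (Or.inl (Or.inr (e3.2 ⟨⟨h5, h⟩, hC', hD'⟩)))
  rw [hV] at hF
  exact hF

/-- Case (ii) of rule R4: the first strong component of `V.erase z` is a single vertex `c`. -/
theorem r4_ii (hs : Semi r V) (hst : Strong r V) {X Y : Finset α} (hX : X ⊆ V) (hY : Y ⊆ V)
    (hn : 5 ≤ V.card) (hc : Conn r V ↑X ↑Y 2)
    (hN1 : ∀ v ∈ V, ∀ U ⊆ V.erase v, U.Nonempty → (V.erase v \ U).Nonempty →
      (∀ a ∈ V.erase v \ U, ∀ u ∈ U, ¬ r a u) → ∃ u ∈ U, u ∈ X)
    (hN1' : ∀ v ∈ V, ∀ U ⊆ V.erase v, U.Nonempty → (V.erase v \ U).Nonempty →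
      (∀ u ∈ U, ∀ a ∈ V.erase v \ U, ¬ r u a) → ∃ u ∈ U, u ∈ Y)
    {z c : α} (hz : z ∈ V) (hcV : c ∈ V) (hcz : c ≠ z)
    (hcin : ∀ v ∈ V, v ≠ c → r v c → v = z) : HP r V ↑X ↑Y := by
  have hbig : ∀ a b : α, (V.erase a \ {b}).Nonempty := by
    intro a b
    rw [← Finset.card_pos]
    have h1 := Finset.pred_card_le_card_erase (s := V) (a := a)
    have h2 := Finset.le_card_sdiff ({b} : Finset α) (V.erase a)
    rw [Finset.card_singleton] at h2
    omega
  -- `c ∈ X`
  have hcX : c ∈ X := by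
    obtain ⟨u, hu, huX⟩ := hN1 z hz {c} (by
      rw [Finset.singleton_subset_iff, Finset.mem_erase]
      exact ⟨hcz, hcV⟩) ⟨c, Finset.mem_singleton_self c⟩ (hbig z c) (by
      intro a ha u hu hau
      rw [Finset.mem_singleton] at hu
      rw [Finset.mem_sdiff, Finset.mem_erase, Finset.mem_singleton] at ha
      rw [hu] at hau
      exact ha.1.1 (hcin a ha.1.2 ha.2 hau))
    rw [Finset.mem_singleton] at hu
    exact hu ▸ huX
  -- arcs of `c`
  have hcout : ∀ v ∈ V, v ≠ c → v ≠ z → r c v := by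
    intro v hv hvc hvz
    rcases hs c hcV v hv hvc.symm with h | h
    · exact h
    · exact absurd (hcin v hv hvc h) hvz
  have hzc : r z c := by
    obtain ⟨a, ha, b, hb, hab⟩ := hst (V.erase c) (Finset.erase_subset _ _)
      ⟨z, Finset.mem_erase.2 ⟨hcz.symm, hz⟩⟩ (by
        intro h
        have := hcV
        rw [← h] at this
        exact (Finset.mem_erase.1 this).1 rfl)
    rw [Finset.mem_sdiff, Finset.mem_erase] at hb
    rw [Finset.mem_erase] at ha
    have hbc : b = c := by
      by_contra hbc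
      exact hb.2 ⟨hbc, hb.1⟩
    rw [hbc] at hab
    rw [← hcin a ha.2 ha.1 hab]
    exact hab
  set K : Finset α := V.erase c with hK
  have hKV : K ⊆ V := Finset.erase_subset _ _
  have hzK : z ∈ K := Finset.mem_erase.2 ⟨hcz.symm, hz⟩
  have hcK : c ∉ K := fun h => (Finset.mem_erase.1 h).1 rfl
  have hKc : K.card = V.card - 1 := Finset.card_erase_of_mem hcV
  have hcup : {c} ∪ K = V := by
    rw [← Finset.insert_eq, hK, Finset.insert_erase hcV]
  have hKcup : K ∪ {c} = V := by rw [Finset.union_comm, hcup]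
  have hdis : Disjoint ({c} : Finset α) K := by
    rw [Finset.disjoint_singleton_left]
    exact hcK
  have hsK : Semi r K := hs.mono hKV
  -- prepend `c`
  have hpre : ∀ {S : Set α}, (∀ s ∈ K, s ∈ S → r c s) → HP r K S ↑Y → HP r V ↑X ↑Y := by
    intro S hS h
    have := HP.join (HP_singleton (r := r) (S := (↑X : Set α)) (T := {c}) hcX rfl) h hdis (by
      intro t ht _ s hsK' hsS
      rw [Finset.mem_singleton] at ht
      rw [ht]
      exact hS s hsK' hsS)
    rwa [hcup] at this
  -- `z` has an in-neighbour in `K`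
  obtain ⟨w, hw, hwz, hwc, hwr⟩ : ∃ w ∈ V, w ≠ z ∧ w ≠ c ∧ r w z := by
    obtain ⟨a, ha, b, hb, hab⟩ := hst ((V.erase z) \ {c})
      (fun v hv => Finset.mem_of_mem_erase (Finset.mem_sdiff.1 hv).1) (hbig z c) (by
        intro h
        have := hz
        rw [← h] at this
        exact (Finset.mem_erase.1 (Finset.mem_sdiff.1 this).1).1 rfl)
    rw [Finset.mem_sdiff, Finset.mem_erase, Finset.mem_singleton] at ha
    rw [Finset.mem_sdiff, Finset.mem_sdiff, Finset.mem_erase, Finset.mem_singleton] at hb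
    by_cases hbz : b = z
    · exact ⟨a, ha.1.2, ha.1.1, ha.2, hbz ▸ hab⟩
    · by_cases hbc : b = c
      · rw [hbc] at hab
        exact absurd (hcin a ha.1.2 ha.2 hab) ha.1.1
      · exact absurd ⟨⟨hbz, hb.1⟩, hbc⟩ hb.2
  by_cases hKst : Strong r K
  swap
  · -- `K` is not strong
    have hF : From r K {v | v ≠ z} := by
      intro U hU hne hUz
      obtain ⟨u, hu⟩ := hne
      have huz : u = z := by
        by_contra h
        exact hUz u hu h
      refine ⟨w, ?_, z, huz ▸ hu, hwr⟩
      rw [Finset.mem_sdiff, hK, Finset.mem_erase]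
      refine ⟨⟨hwc, hw⟩, fun h => hUz w h hwz⟩
    have key : ∀ U ⊆ K, U.Nonempty → (K \ U).Nonempty → (∀ a ∈ U, ∀ b ∈ K \ U, ¬ r a b) →
        ∃ u ∈ U, u ∈ Y := fun U hU h1 h2 h3 => hN1' c hcV U hU h1 h2 h3
    have hT : To r K ↑Y := by
      intro U hU hne hUY
      by_contra hcon
      push Not at hcon
      by_cases hKU : (K \ U).Nonempty
      · obtain ⟨u, hu, huY⟩ := key U hU hne hKU hcon
        exact hUY u hu huY
      · rw [Finset.not_nonempty_iff_eq_empty, Finset.sdiff_eq_empty_iff_subset] at hKU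
        rw [Strong] at hKst
        push Not at hKst
        obtain ⟨U', hU', hne', hneq, hcl'⟩ := hKst
        obtain ⟨u, hu, huY⟩ := key U' hU' hne' (by
          rw [Finset.sdiff_nonempty]
          intro h
          exact hneq (Finset.Subset.antisymm hU' h)) hcl'
        exact hUY u (hKU (hU' hu)) huY
    exact hpre (fun s hsK' hsz => hcout s (hKV hsK') (Finset.mem_erase.1 hsK').1 hsz)
      (HP_nonstrong hsK hKst hF hT)
  -- `K` is strong
  obtain ⟨σ, hσK, hσP, hσ2, -⟩ := ham_succ hsK hKst ⟨z, hzK⟩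
  by_cases hy1 : ∃ y ∈ K, y ∈ Y ∧ σ y ≠ z
  · obtain ⟨y, hyK, hyY, hyz⟩ := hy1
    refine hpre (S := {σ y}) ?_ ((hσP y hyK).mono (fun _ _ h => h) ?_)
    · rintro s hsK' (rfl : s = σ y)
      exact hcout _ (hKV hsK') (Finset.mem_erase.1 hsK').1 hyz
    · rintro v _ (rfl : v = y)
      exact hyY
  push Not at hy1
  -- `Y = {c, y}`
  have hY2 : 2 ≤ Y.card := r4_card_right hY hc
  have hX2 : 2 ≤ X.card := r4_card_left hX hc
  obtain ⟨y, hyY, hyc⟩ : ∃ y ∈ Y, y ≠ c := Finset.exists_mem_ne (by omega) c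
  obtain ⟨x, hxX, hxc⟩ : ∃ x ∈ X, x ≠ c := Finset.exists_mem_ne (by omega) c
  have hyK : y ∈ K := Finset.mem_erase.2 ⟨hyc, hY hyY⟩
  have hxK : x ∈ K := Finset.mem_erase.2 ⟨hxc, hX hxX⟩
  have hσy : σ y = z := hy1 y hyK hyY
  have hyu : ∀ v ∈ Y, v ≠ c → v = y := by
    intro v hv hvc
    have := hy1 v (Finset.mem_erase.2 ⟨hvc, hY hv⟩) hv
    exact σ.injective (this.trans hσy.symm)
  have hcY : c ∈ Y := by
    by_contra hcY
    have : Y ⊆ {y} := by
      intro v hv
      rw [Finset.mem_singleton]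
      exact hyu v hv (fun h => hcY (h ▸ hv))
    have := Finset.card_le_card this
    rw [Finset.card_singleton] at this
    omega
  have hyz : y ≠ z := by
    have := (hσ2 (by omega) y hyK).1
    rw [hσy] at this
    exact this.symm
  have hzy : HP r K {z} {y} := by
    have := hσP y hyK
    rwa [hσy] at this
  by_cases hA : HP r K {v | v ≠ z} {y}
  · refine hpre (S := {v | v ≠ z}) ?_ (hA.mono (fun _ _ h => h) ?_)
    · intro s hsK' hsz
      exact hcout s (hKV hsK') (Finset.mem_erase.1 hsK').1 hsz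
    · rintro v _ (rfl : v = y)
      exact hyY
  by_cases hzX : z ∈ X
  · have := HP.merge (HP_singleton (r := r) (S := {c}) (T := {c}) rfl rfl) hzy hdis
      (by rw [hcup]; exact hs)
    rw [hcup] at this
    refine this.mono ?_ ?_
    · rintro v _ ((rfl : v = c) | (rfl : v = z))
      · exact hcX
      · exact hzX
    · rintro v _ ((rfl : v = c) | (rfl : v = y))
      · exact hcY
      · exact hyY
  by_cases hcz' : r c z
  · refine hpre (S := {z}) ?_ (hzy.mono (fun _ _ h => h) ?_)
    · rintro s _ (rfl : s = z)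
      exact hcz'
    · rintro v _ (rfl : v = y)
      exact hyY
  have hxz : x ≠ z := fun h => hzX (h ▸ hxX)
  have hzin : ∃ v ∈ K, v ≠ z ∧ v ≠ y ∧ r v z := by
    by_contra hcon
    push Not at hcon
    obtain ⟨u, hu, huX⟩ := hN1 y (hKV hyK) {z} (by
      rw [Finset.singleton_subset_iff, Finset.mem_erase]
      exact ⟨hyz.symm, hz⟩) ⟨z, Finset.mem_singleton_self z⟩ (hbig y z) (by
      intro a ha u hu hau
      rw [Finset.mem_singleton] at hu
      rw [Finset.mem_sdiff, Finset.mem_erase, Finset.mem_singleton] at ha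
      rw [hu] at hau
      by_cases hac : a = c
      · rw [hac] at hau
        exact hcz' hau
      · exact hcon a (Finset.mem_erase.2 ⟨hac, ha.1.2⟩) ha.2 ha.1.1 hau)
    rw [Finset.mem_singleton] at hu
    exact hzX (hu ▸ huX)
  have hNC : ∀ D ⊆ K, D.Nonempty → z ∉ D → y ∉ D → ∀ u ∈ K, u ≠ z →
      ∃ d ∈ D, ∃ v ∈ K, v ∉ D ∧ v ≠ u ∧ r d v := by
    intro D hD hDne hzD hyD u huK huz
    by_cases huD : u ∈ D
    · obtain ⟨a, ha, b, hb, hab⟩ := hKst D hD hDne (fun h => hzD (h ▸ hzK))
      rw [Finset.mem_sdiff] at hb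
      exact ⟨a, ha, b, hb.1, hb.2, fun h => hb.2 (h ▸ huD), hab⟩
    · by_contra hcon
      push Not at hcon
      obtain ⟨w', hw', hw'Y⟩ := hN1' u (hKV huK) D (by
        intro v hv
        rw [Finset.mem_erase]
        exact ⟨fun h => huD (h ▸ hv), hKV (hD hv)⟩) hDne ⟨c, by
          rw [Finset.mem_sdiff, Finset.mem_erase]
          exact ⟨⟨fun h => hcK (h ▸ huK), hcV⟩, fun h => hcK (hD h)⟩⟩ (by
        intro d hd a ha hda
        rw [Finset.mem_sdiff, Finset.mem_erase] at ha
        by_cases hac : a = c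
        · rw [hac] at hda
          have := hcin d (hKV (hD hd)) (fun h => hcK (h ▸ hD hd)) hda
          exact hzD (this ▸ hd)
        · exact hcon d hd a (Finset.mem_erase.2 ⟨hac, ha.1.2⟩) ha.2 ha.1.1 hda)
      by_cases hwc' : w' = c
      · exact hcK (hwc' ▸ hD hw')
      · exact hyD (hyu w' hw'Y hwc' ▸ hw')
  have hfin := chain hsK hKst hzK hyK hyz.symm (by omega) hA hzin hNC x hxK hxz
    (fun _ => by omega)
  have := HP.join hfin (HP_singleton (r := r) (S := {c}) (T := (↑Y : Set α)) rfl hcY) hdis.symm (by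
    rintro t _ (rfl : t = z) s _ (rfl : s = c)
    exact hzc)
  rw [hKcup] at this
  refine this.mono ?_ (fun _ _ h => h)
  rintro v _ (rfl : v = x)
  exact hxX

/-- Rule R4. -/
theorem rule4 (hs : Semi r V) (hst : Strong r V) {X Y : Finset α} (hX : X ⊆ V) (hY : Y ⊆ V)
    (hn : 5 ≤ V.card) (hc : Conn r V ↑X ↑Y 2)
    (hN1 : ∀ v ∈ V, ∀ U ⊆ V.erase v, U.Nonempty → (V.erase v \ U).Nonempty →
      (∀ a ∈ V.erase v \ U, ∀ u ∈ U, ¬ r a u) → ∃ u ∈ U, u ∈ X)
    (hN1' : ∀ v ∈ V, ∀ U ⊆ V.erase v, U.Nonempty → (V.erase v \ U).Nonempty →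
      (∀ u ∈ U, ∀ a ∈ V.erase v \ U, ¬ r u a) → ∃ u ∈ U, u ∈ Y)
    {z : α} (hz : z ∈ V) (hzns : ¬ Strong r (V.erase z)) : HP r V ↑X ↑Y := by
  have hWs : Semi r (V.erase z) := hs.mono (Finset.erase_subset _ _)
  have hWne : (V.erase z).Nonempty := by
    rw [← Finset.card_pos, Finset.card_erase_of_mem hz]
    omega
  obtain ⟨C, hC, hCne, hCcl, hCst, hCmin⟩ := exists_first hWs hWne
  obtain ⟨D, hD, hDne, hDcl, hDst, hDmin⟩ := exists_last hWs hWne
  have hCD : Disjoint C D := by
    rw [Strong] at hzns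
    push Not at hzns
    obtain ⟨U, hU, hUne, hUneq, hUcl⟩ := hzns
    have h1 : D ⊆ U := hDmin U hU hUne (by
      intro u hu v hv huv
      by_contra hvU
      exact hUcl u hu v (Finset.mem_sdiff.2 ⟨hv, hvU⟩) huv)
    have h2 : C ⊆ V.erase z \ U := hCmin _ Finset.sdiff_subset (by
      rw [Finset.sdiff_nonempty]
      intro h
      exact hUneq (Finset.Subset.antisymm hU h)) (by
      intro u hu v hv huv
      rw [Finset.mem_sdiff]
      refine ⟨hv, fun hvU => ?_⟩
      exact hUcl v hvU u hu huv)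
    rw [Finset.disjoint_left]
    intro v hv hv'
    exact (Finset.mem_sdiff.1 (h2 hv)).2 (h1 hv')
  by_cases hC2 : 2 ≤ C.card
  · by_cases hD2 : 2 ≤ D.card
    · exact r4_i hs hst hN1 hN1' hz hC hCne hCcl hCst hC2 hD hDne hDcl hDst hD2 hCD
    · -- `D` is a singleton
      obtain ⟨c, rfl⟩ : ∃ c, D = {c} := by
        rw [← Finset.card_eq_one]
        have := Finset.card_pos.2 hDne
        omega
      have hcW := Finset.mem_erase.1 (hD (Finset.mem_singleton_self c))
      have := r4_ii (r := fun a b => r b a) (X := Y) (Y := X) hs.rev (Strong.rev.2 hst) hY hX hn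
        (r4_conn_rev hc)
        (fun v hv U hU h1 h2 h3 => hN1' v hv U hU h1 h2 (fun u hu a ha => h3 a ha u hu))
        (fun v hv U hU h1 h2 h3 => hN1 v hv U hU h1 h2 (fun a ha u hu => h3 u hu a ha))
        hz hcW.2 hcW.1 (by
          intro v hv hvc hcv
          by_contra hvz
          have := hDcl c (Finset.mem_singleton_self c) v (Finset.mem_erase.2 ⟨hvz, hv⟩) hcv
          exact hvc (Finset.mem_singleton.1 this))
      exact HP_rev.1 this
  · obtain ⟨c, rfl⟩ : ∃ c, C = {c} := by
      rw [← Finset.card_eq_one]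
      have := Finset.card_pos.2 hCne
      omega
    have hcW := Finset.mem_erase.1 (hC (Finset.mem_singleton_self c))
    exact r4_ii hs hst hX hY hn hc hN1 hN1' hz hcW.2 hcW.1 (by
      intro v hv hvc hcv
      by_contra hvz
      have := hCcl c (Finset.mem_singleton_self c) v (Finset.mem_erase.2 ⟨hvz, hv⟩) hcv
      exact hvc (Finset.mem_singleton.1 this))

end Pool.Agent.Helper944_HC
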