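import Pool.Agent.Helper944_HC.Paths

/-!
# Nontrivial separators with two vertices
-/

namespace Pool.Agent.Helper944_HC

variable {α : Type*} [DecidableEq α] {r : α → α → Prop} {V : Finset α}

/-- `{s,t}` separates `A ⊇ X \ {s,t}` from `B ⊇ Y \ {s,t}`, `A` and `B` nonempty. -/
structure Sep2 (r : α → α → Prop) (V X Y : Finset α) (s t : α) (A B : Finset α) : Prop where
  hs : s ∈ V
  ht : t ∈ V
  hst : s ≠ t
  hA : A.Nonempty
  hB : B.Nonempty
  hd : Disjoint A B
  hu : A ∪ B = V \ {s, t}
  harc : ∀ a ∈ A, ∀ b ∈ B, ¬ r a b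
  hX : ∀ x ∈ V, x ∈ X → x ∉ B
  hY : ∀ y ∈ V, y ∈ Y → y ∉ A

/-- Two disjoint paths spanning `A`: one from `X` to an in-neighbour of `u` (it may be empty if `u`
is in `X`), one from anywhere to an in-neighbour of `f`. -/
def Lam (r : α → α → Prop) (A X : Finset α) (u f : α) : Prop :=
  HP (fun a b => a = u ∨ r a b) (insert u A) {x | x ∈ X} {v | v ∈ A ∧ r v f}

/-- Two disjoint paths spanning `B`: one from an out-neighbour of `s`, the other one from an
out-neighbour of `t` to `Y` (it may be empty if `t` is in `Y`). -/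
def Rho (r : α → α → Prop) (B Y : Finset α) (s t : α) : Prop := Lam (fun a b => r b a) B Y t s

/-- The Hamiltonian paths visiting `s` before `t`. -/
def Dst (r : α → α → Prop) (A B X Y : Finset α) (s t : α) : Prop :=
  (HP r A ↑X {v | r v s} ∧ HP r (insert t B) {v | r s v} ↑Y) ∨
  (HP r (insert s A) ↑X {v | r v t} ∧ HP r B {v | r t v} ↑Y) ∨
  (Lam r A X s t ∧ Rho r B Y s t)

theorem si_symm {X Y : Finset α} {s t : α} {A B : Finset α} (h : Sep2 r V X Y s t A B) :
    Sep2 r V X Y t s A B where
  hs := h.ht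
  ht := h.hs
  hst := h.hst.symm
  hA := h.hA
  hB := h.hB
  hd := h.hd
  hu := by rw [h.hu, Finset.pair_comm]
  harc := h.harc
  hX := h.hX
  hY := h.hY

theorem si_mem {X Y : Finset α} {s t : α} {A B : Finset α} (h : Sep2 r V X Y s t A B) (v : α) :
    v ∈ A ∨ v ∈ B ↔ v ∈ V ∧ v ≠ s ∧ v ≠ t := by
  rw [← Finset.mem_union, h.hu, Finset.mem_sdiff, Finset.mem_insert, Finset.mem_singleton, not_or]

theorem si_allB {A B : Finset α} (harc : ∀ a ∈ A, ∀ b ∈ B, ¬ r a b) :
    ∀ l : List α, l.IsChain r → (∀ v ∈ l, v ∈ A ∨ v ∈ B) → (∀ y, l.getLast? = some y → y ∈ B) →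
      ∀ v ∈ l, v ∈ B
  | [], _, _, _ => by simp
  | [a], _, _, h3 => by
    intro v hv
    rw [List.mem_singleton] at hv
    subst hv
    exact h3 v rfl
  | a :: b :: l, h1, h2, h3 => by
    obtain ⟨hab, hc⟩ := List.isChain_cons_cons.1 h1
    have ih := si_allB harc (b :: l) hc (fun v hv => h2 v (List.mem_cons_of_mem _ hv))
      (fun y hy => h3 y (by rw [List.getLast?_cons_cons]; exact hy))
    intro v hv
    rcases List.mem_cons.1 hv with rfl | hv
    · rcases h2 v (by simp) with h | h
      · exact absurd hab (harc v h b (ih b (by simp)))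
      · exact h
    · exact ih v hv

theorem si_allA {A B : Finset α} (harc : ∀ a ∈ A, ∀ b ∈ B, ¬ r a b) :
    ∀ l : List α, l.IsChain r → (∀ v ∈ l, v ∈ A ∨ v ∈ B) → (∀ x, l.head? = some x → x ∈ A) →
      ∀ v ∈ l, v ∈ A
  | [], _, _, _ => by simp
  | [a], _, _, h3 => by
    intro v hv
    rw [List.mem_singleton] at hv
    subst hv
    exact h3 v rfl
  | a :: b :: l, h1, h2, h3 => by
    obtain ⟨hab, hc⟩ := List.isChain_cons_cons.1 h1
    have ha : a ∈ A := h3 a rfl
    have ih := si_allA harc (b :: l) hc (fun v hv => h2 v (List.mem_cons_of_mem _ hv))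
      (fun y hy => by
        rw [List.head?_cons, Option.some.injEq] at hy
        subst hy
        rcases h2 b (by simp) with h | h
        · exact h
        · exact absurd hab (harc a ha b h))
    intro v hv
    rcases List.mem_cons.1 hv with rfl | hv
    · exact ha
    · exact ih v hv

theorem si_split {A B : Finset α} (harc : ∀ a ∈ A, ∀ b ∈ B, ¬ r a b) :
    ∀ l : List α, l.IsChain r → (∀ v ∈ l, v ∈ A ∨ v ∈ B) →
      ∃ m1 m2, l = m1 ++ m2 ∧ (∀ v ∈ m1, v ∈ B) ∧ (∀ v ∈ m2, v ∈ A)
  | [], _, _ => ⟨[], [], rfl, by simp, by simp⟩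
  | a :: l, h1, h2 => by
    by_cases ha : a ∈ A
    · refine ⟨[], a :: l, rfl, by simp, ?_⟩
      apply si_allA harc (a :: l) h1 h2
      intro x hx
      rw [List.head?_cons, Option.some.injEq] at hx
      subst hx
      exact ha
    · have hb : a ∈ B := (h2 a (by simp)).resolve_left ha
      obtain ⟨m1, m2, e, h3, h4⟩ := si_split harc l (List.isChain_cons.1 h1).2
        (fun v hv => h2 v (List.mem_cons_of_mem _ hv))
      refine ⟨a :: m1, m2, by rw [e, List.cons_append], ?_, h4⟩
      intro v hv
      rcases List.mem_cons.1 hv with rfl | hv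
      · exact hb
      · exact h3 v hv

theorem si_head_append {l l' : List α} {x : α} (h : l.head? = some x) :
    (l ++ l').head? = some x := by
  cases l with
  | nil => simp at h
  | cons a l => simpa using h

theorem si_last_append {l l' : List α} {x : α} (h : l'.getLast? = some x) :
    (l ++ l').getLast? = some x := by
  rw [List.getLast?_append, h]
  rfl

theorem si_fwd {X Y : Finset α} {s t : α} {A B : Finset α} (h : Sep2 r V X Y s t A B)
    {l0 l1 l2 : List α} (hl : Tr r V (l0 ++ s :: (l1 ++ t :: l2)))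
    (hx : ∃ x, (l0 ++ s :: (l1 ++ t :: l2)).head? = some x ∧ x ∈ (↑X : Set α))
    (hy : ∃ y, (l0 ++ s :: (l1 ++ t :: l2)).getLast? = some y ∧ y ∈ (↑Y : Set α)) :
    Dst r A B X Y s t := by
  obtain ⟨x, hx, hxX⟩ := hx
  obtain ⟨y, hy, hyY⟩ := hy
  have hnd := hl.nodup
  have hch := hl.chain
  have hmem := hl.mem
  rw [List.isChain_append, List.isChain_cons, List.isChain_append, List.isChain_cons] at hch
  obtain ⟨c0, ⟨cs, c1, ⟨ct, c2⟩, c1t⟩, c0s⟩ := hch
  have c0s' : ∀ x, l0.getLast? = some x → r x s := fun x hx => c0s x hx s rfl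
  have c1t' : ∀ x, l1.getLast? = some x → r x t := fun x hx => c1t x hx t rfl
  clear c0s c1t
  have hnd' := hnd
  rw [List.nodup_append] at hnd
  obtain ⟨n0, n1, n01⟩ := hnd
  rw [List.nodup_cons] at n1
  obtain ⟨ns, n1⟩ := n1
  rw [List.nodup_append] at n1
  obtain ⟨n1, n2, n12⟩ := n1
  rw [List.nodup_cons] at n2
  obtain ⟨nt, n2⟩ := n2
  have hAB : ∀ v, v ∈ A → v ∈ B → False := fun v h1 h2 => Finset.disjoint_left.1 h.hd h1 h2
  have k0 : ∀ v ∈ l0, v ∈ A ∨ v ∈ B := by
    intro v hv
    rw [si_mem h]
    refine ⟨(hmem v).1 (by simp [hv]), ?_, ?_⟩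
    · exact n01 v hv s (by simp)
    · exact n01 v hv t (by simp)
  have k1 : ∀ v ∈ l1, v ∈ A ∨ v ∈ B := by
    intro v hv
    rw [si_mem h]
    refine ⟨(hmem v).1 (by simp [hv]), ?_, ?_⟩
    · rintro rfl
      exact ns (by simp [hv])
    · exact n12 v hv t (by simp)
  have k2 : ∀ v ∈ l2, v ∈ A ∨ v ∈ B := by
    intro v hv
    rw [si_mem h]
    refine ⟨(hmem v).1 (by simp [hv]), ?_, ?_⟩
    · rintro rfl
      exact ns (by simp [hv])
    · rintro rfl
      exact nt hv
  have a0 : ∀ v ∈ l0, v ∈ A := by
    apply si_allA h.harc l0 c0 k0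
    intro z hz
    have : z = x := by
      have := si_head_append (l' := s :: (l1 ++ t :: l2)) hz
      rw [hx, Option.some.injEq] at this
      exact this.symm
    subst this
    have hz' : z ∈ l0 := List.mem_of_mem_head? hz
    exact (k0 z hz').resolve_right (h.hX z ((hmem z).1 (by simp [hz'])) hxX)
  have a2 : ∀ v ∈ l2, v ∈ B := by
    apply si_allB h.harc l2 c2 k2
    intro z hz
    have : z = y := by
      have h1 : (l0 ++ s :: (l1 ++ t :: l2)).getLast? = some z := by
        have e : l0 ++ s :: (l1 ++ t :: l2) = (l0 ++ s :: l1 ++ [t]) ++ l2 := by simp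
        rw [e]
        exact si_last_append hz
      rw [hy, Option.some.injEq] at h1
      exact h1.symm
    subst this
    have hz' : z ∈ l2 := List.mem_of_mem_getLast? hz
    exact (k2 z hz').resolve_left (h.hY z ((hmem z).1 (by simp [hz'])) hyY)
  obtain ⟨m1, m2, rfl, b1, b2⟩ := si_split h.harc l1 c1 k1
  rw [List.isChain_append] at c1
  obtain ⟨d1, d2, d12⟩ := c1
  rw [List.nodup_append] at n1
  obtain ⟨e1, e2, e12⟩ := n1
  have mA : ∀ v, v ∈ l0 ∨ v ∈ m2 ↔ v ∈ A := by
    intro v
    constructor
    · rintro (h1 | h1)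
      · exact a0 v h1
      · exact b2 v h1
    · intro hv
      have h1 := (si_mem h v).1 (Or.inl hv)
      have h2 := (hmem v).2 h1.1
      simp only [List.mem_append, List.mem_cons] at h2
      rcases h2 with h2 | h2 | (h2 | h2) | h2 | h2
      · exact Or.inl h2
      · exact absurd h2 h1.2.1
      · exact (hAB v hv (b1 v h2)).elim
      · exact Or.inr h2
      · exact absurd h2 h1.2.2
      · exact (hAB v hv (a2 v h2)).elim
  have mB : ∀ v, v ∈ m1 ∨ v ∈ l2 ↔ v ∈ B := by
    intro v
    constructor
    · rintro (h1 | h1)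
      · exact b1 v h1
      · exact a2 v h1
    · intro hv
      have h1 := (si_mem h v).1 (Or.inr hv)
      have h2 := (hmem v).2 h1.1
      simp only [List.mem_append, List.mem_cons] at h2
      rcases h2 with h2 | h2 | (h2 | h2) | h2 | h2
      · exact (hAB v (a0 v h2) hv).elim
      · exact absurd h2 h1.2.1
      · exact Or.inl h2
      · exact (hAB v (b2 v h2) hv).elim
      · exact absurd h2 h1.2.2
      · exact Or.inr h2
  -- the two long pieces
  have hlast : (t :: l2).getLast? = some y := by
    have e : l0 ++ s :: (m1 ++ m2 ++ t :: l2) = (l0 ++ s :: (m1 ++ m2)) ++ (t :: l2) := by simp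
    rw [e, List.getLast?_append] at hy
    cases hh : (t :: l2).getLast? with
    | none => simp at hh
    | some z =>
      rw [hh] at hy
      exact hy
  have hfirst : (l0 ++ [s]).head? = some x := by
    cases l0 with
    | nil => simpa using hx
    | cons a l => simpa using hx
  have ndB : (m1 ++ t :: l2).Nodup := by
    rw [List.nodup_append]
    refine ⟨e1, List.nodup_cons.2 ⟨nt, n2⟩, ?_⟩
    intro a ha b hb
    exact n12 a (by simp [ha]) b hb
  have ndA : (l0 ++ s :: m2).Nodup := by
    rw [List.nodup_append]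
    refine ⟨n0, List.nodup_cons.2 ⟨fun hm => ns (by simp [hm]), e2⟩, ?_⟩
    intro a ha b hb
    apply n01 a ha b
    rcases List.mem_cons.1 hb with rfl | hb
    · simp
    · simp [hb]
  have meB : ∀ v, v ∈ m1 ++ t :: l2 ↔ v ∈ insert t B := by
    intro v
    rw [List.mem_append, List.mem_cons, Finset.mem_insert, ← mB v]
    tauto
  have meA : ∀ v, v ∈ l0 ++ s :: m2 ↔ v ∈ insert s A := by
    intro v
    rw [List.mem_append, List.mem_cons, Finset.mem_insert, ← mA v]
    tauto
  have lastA : ∀ z, m2.getLast? = some z → (l0 ++ s :: m2).getLast? = some z := by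
    intro z hz
    have e : l0 ++ s :: m2 = (l0 ++ [s]) ++ m2 := by simp
    rw [e]
    exact si_last_append hz
  have firstA : (l0 ++ s :: m2).head? = some x := by
    have e : l0 ++ s :: m2 = (l0 ++ [s]) ++ m2 := by simp
    rw [e]
    exact si_head_append hfirst
  have m2t : ∀ z, m2.getLast? = some z → z ∈ A ∧ r z t := by
    intro z hz
    exact ⟨b2 z (List.mem_of_mem_getLast? hz), c1t' z (si_last_append hz)⟩
  have sm1 : ∀ z, m1.head? = some z → z ∈ B ∧ r s z := by
    intro z hz
    refine ⟨b1 z (List.mem_of_mem_head? hz), cs z ?_⟩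
    rw [List.append_assoc]
    exact si_head_append hz
  by_cases hm2 : m2 = []
  · -- first alternative
    subst hm2
    left
    constructor
    · have hne : l0 ≠ [] := by
        rintro rfl
        obtain ⟨a, ha⟩ := h.hA
        have := (mA a).2 ha
        simp at this
      refine ⟨l0, ⟨n0, c0, fun v => ?_⟩, ⟨x, ?_, hxX⟩, ?_⟩
      · rw [← mA v]
        simp
      · cases l0 with
        | nil => exact absurd rfl hne
        | cons a l => simpa using hx
      · refine ⟨l0.getLast hne, List.getLast?_eq_some_getLast hne, ?_⟩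
        exact c0s' _ (List.getLast?_eq_some_getLast hne)
    · refine ⟨m1 ++ t :: l2, ⟨ndB, ?_, meB⟩, ?_, ⟨y, si_last_append hlast, hyY⟩⟩
      · rw [List.isChain_append, List.isChain_cons]
        refine ⟨d1, ⟨ct, c2⟩, ?_⟩
        intro z hz w hw
        have : w = t := by
          rw [Option.mem_def, List.head?_cons, Option.some.injEq] at hw
          exact hw.symm
        subst this
        exact c1t' z (by rw [List.append_nil]; exact hz)
      · cases m1 with
        | nil => exact ⟨t, rfl, cs t (by simp)⟩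
        | cons a m => exact ⟨a, rfl, cs a (by simp)⟩
  · by_cases hm1 : m1 = []
    · subst hm1
      right
      left
      constructor
      · refine ⟨l0 ++ s :: m2, ⟨ndA, ?_, meA⟩, ⟨x, firstA, hxX⟩, ⟨m2.getLast hm2,
          lastA _ (List.getLast?_eq_some_getLast hm2), (m2t _ (List.getLast?_eq_some_getLast hm2)).2⟩⟩
        rw [List.isChain_append, List.isChain_cons]
        refine ⟨c0, ⟨?_, d2⟩, ?_⟩
        · intro z hz
          apply cs z
          rw [List.nil_append]
          exact si_head_append hz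
        · intro z hz w hw
          have : w = s := by
            rw [Option.mem_def, List.head?_cons, Option.some.injEq] at hw
            exact hw.symm
          subst this
          exact c0s' z hz
      · have hne : l2 ≠ [] := by
          rintro rfl
          obtain ⟨a, ha⟩ := h.hB
          have := (mB a).2 ha
          simp at this
        refine ⟨l2, ⟨n2, c2, fun v => ?_⟩, ?_, ⟨y, ?_, hyY⟩⟩
        · rw [← mB v]
          simp
        · cases l2 with
          | nil => exact absurd rfl hne
          | cons a l => exact ⟨a, rfl, ct a rfl⟩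
        · cases l2 with
          | nil => exact absurd rfl hne
          | cons a l => rwa [List.getLast?_cons_cons] at hlast
    · right
      right
      constructor
      · refine ⟨l0 ++ s :: m2, ⟨ndA, ?_, meA⟩, ⟨x, firstA, hxX⟩, ⟨m2.getLast hm2,
          lastA _ (List.getLast?_eq_some_getLast hm2), m2t _ (List.getLast?_eq_some_getLast hm2)⟩⟩
        rw [List.isChain_append, List.isChain_cons]
        refine ⟨c0.imp fun _ _ h => Or.inr h, ⟨fun z _ => Or.inl rfl,
          d2.imp fun _ _ h => Or.inr h⟩, ?_⟩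
        intro z hz w hw
        have : w = s := by
          rw [Option.mem_def, List.head?_cons, Option.some.injEq] at hw
          exact hw.symm
        subst this
        exact Or.inr (c0s' z hz)
      · refine ⟨(m1 ++ t :: l2).reverse, ⟨List.nodup_reverse.2 ndB, ?_, fun v => by
          rw [List.mem_reverse]; exact meB v⟩, ⟨y, ?_, hyY⟩, ⟨m1.head hm1, ?_, ?_⟩⟩
        · rw [List.isChain_reverse, List.isChain_append, List.isChain_cons]
          refine ⟨d1.imp fun _ _ h => Or.inr h, ⟨fun z hz => Or.inr (ct z hz),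
            c2.imp fun _ _ h => Or.inr h⟩, ?_⟩
          intro z hz w hw
          have : w = t := by
            rw [Option.mem_def, List.head?_cons, Option.some.injEq] at hw
            exact hw.symm
          subst this
          exact Or.inl rfl
        · rw [List.head?_reverse]
          exact si_last_append hlast
        · rw [List.getLast?_reverse]
          exact si_head_append (List.head?_eq_some_head hm1)
        · exact sm1 _ (List.head?_eq_some_head hm1)

theorem si_bwd {X Y : Finset α} (hs : Semi r V) {s t : α} {A B : Finset α}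
    (h : Sep2 r V X Y s t A B) (hD : Dst r A B X Y s t) : HP r V ↑X ↑Y := by
  have hsA : s ∉ A := fun hA => ((si_mem h s).1 (Or.inl hA)).2.1 rfl
  have htA : t ∉ A := fun hA => ((si_mem h t).1 (Or.inl hA)).2.2 rfl
  have hsB : s ∉ B := fun hA => ((si_mem h s).1 (Or.inr hA)).2.1 rfl
  have htB : t ∉ B := fun hA => ((si_mem h t).1 (Or.inr hA)).2.2 rfl
  have hAB : ∀ v, v ∈ A → v ∈ B → False := fun v h1 h2 => Finset.disjoint_left.1 h.hd h1 h2
  have hV : ∀ v, v ∈ V ↔ v ∈ A ∨ v ∈ B ∨ v = s ∨ v = t := by
    intro v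
    constructor
    · intro hv
      by_cases h1 : v = s
      · exact Or.inr (Or.inr (Or.inl h1))
      by_cases h2 : v = t
      · exact Or.inr (Or.inr (Or.inr h2))
      rcases (si_mem h v).2 ⟨hv, h1, h2⟩ with h3 | h3
      · exact Or.inl h3
      · exact Or.inr (Or.inl h3)
    · rintro (h1 | h1 | rfl | rfl)
      · exact ((si_mem h v).1 (Or.inl h1)).1
      · exact ((si_mem h v).1 (Or.inr h1)).1
      · exact h.hs
      · exact h.ht
  have hdom : ∀ b ∈ B, ∀ a ∈ A, r b a := by
    intro b hb a ha
    rcases hs b ((hV b).2 (Or.inr (Or.inl hb))) a ((hV a).2 (Or.inl ha)) (by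
      rintro rfl
      exact hAB _ ha hb) with h1 | h1
    · exact h1
    · exact absurd h1 (h.harc a ha b hb)
  rcases hD with ⟨hP, hQ⟩ | ⟨hP, hQ⟩ | ⟨hP, hQ⟩
  · have j1 : HP r (A ∪ {s}) ↑X {s} := by
      refine hP.join (HP_singleton (S := {s}) (T := {s}) rfl rfl) ?_ ?_
      · rw [Finset.disjoint_singleton_right]
        exact hsA
      · rintro a _ ha b _ rfl
        exact ha
    have j2 := j1.join hQ (by
      rw [Finset.disjoint_left]
      intro v h1 h2
      rw [Finset.mem_union, Finset.mem_singleton] at h1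
      rw [Finset.mem_insert] at h2
      rcases h1 with h1 | rfl <;> rcases h2 with rfl | h2
      · exact htA h1
      · exact hAB v h1 h2
      · exact h.hst rfl
      · exact hsB h2) (by
      rintro a _ rfl b _ hb
      exact hb)
    have e : A ∪ {s} ∪ insert t B = V := by
      ext v
      rw [hV v]
      simp only [Finset.mem_union, Finset.mem_singleton, Finset.mem_insert]
      tauto
    rwa [e] at j2
  · have j1 : HP r (insert s A ∪ {t}) ↑X {t} := by
      refine hP.join (HP_singleton (S := {t}) (T := {t}) rfl rfl) ?_ ?_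
      · rw [Finset.disjoint_singleton_right, Finset.mem_insert]
        rintro (h1 | h1)
        · exact h.hst h1.symm
        · exact htA h1
      · rintro a _ ha b _ rfl
        exact ha
    have j2 := j1.join hQ (by
      rw [Finset.disjoint_left]
      intro v h1 h2
      rw [Finset.mem_union, Finset.mem_singleton, Finset.mem_insert] at h1
      rcases h1 with (rfl | h1) | rfl
      · exact hsB h2
      · exact hAB v h1 h2
      · exact htB h2) (by
      rintro a _ rfl b _ hb
      exact hb)
    have e : insert s A ∪ {t} ∪ B = V := by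
      ext v
      rw [hV v]
      simp only [Finset.mem_union, Finset.mem_singleton, Finset.mem_insert]
      tauto
    rwa [e] at j2
  · obtain ⟨P, hP, ⟨x, hx, hxX⟩, ⟨p, hp, hpA, hpt⟩⟩ := hP
    obtain ⟨R, hR, ⟨y, hy, hyY⟩, ⟨q, hq, hqB, hqs⟩⟩ := hQ
    have hsP : s ∈ P := (hP.mem s).2 (Finset.mem_insert_self _ _)
    have htR : t ∈ R.reverse := List.mem_reverse.2 ((hR.mem t).2 (Finset.mem_insert_self _ _))
    obtain ⟨P0, Q, rfl⟩ := List.append_of_mem hsP
    have hRn : R.reverse.Nodup := List.nodup_reverse.2 hR.nodup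
    have hRc : R.reverse.IsChain (fun a b => b = t ∨ r a b) := by
      rw [List.isChain_reverse]
      exact hR.chain
    have hRm : ∀ v, v ∈ R.reverse ↔ v ∈ insert t B := fun v => by
      rw [List.mem_reverse]
      exact hR.mem v
    have hRh : R.reverse.head? = some q := by
      rw [List.head?_reverse]
      exact hq
    have hRl : R.reverse.getLast? = some y := by
      rw [List.getLast?_reverse]
      exact hy
    obtain ⟨R1, R2, hRe⟩ := List.append_of_mem htR
    rw [hRe] at hRn hRc hRm hRh hRl
    have hPn := hP.nodup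
    have hPc := hP.chain
    have hPm := hP.mem
    rw [List.nodup_append] at hPn hRn
    obtain ⟨p0, p1, p01⟩ := hPn
    obtain ⟨r0, r1, r01⟩ := hRn
    rw [List.nodup_cons] at p1 r1
    obtain ⟨ps, p1⟩ := p1
    obtain ⟨rt, r1⟩ := r1
    rw [List.isChain_append, List.isChain_cons] at hPc hRc
    obtain ⟨u0, ⟨us, u1⟩, u01⟩ := hPc
    obtain ⟨w0, ⟨wt, w1⟩, w01⟩ := hRc
    -- membership
    have mP0 : ∀ v ∈ P0, v ∈ A := by
      intro v hv
      have h1 := (hPm v).1 (by simp [hv])
      rw [Finset.mem_insert] at h1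
      exact h1.resolve_left (p01 v hv s (by simp))
    have mQ : ∀ v ∈ Q, v ∈ A := by
      intro v hv
      have h1 := (hPm v).1 (by simp [hv])
      rw [Finset.mem_insert] at h1
      refine h1.resolve_left ?_
      rintro rfl
      exact ps hv
    have mR1 : ∀ v ∈ R1, v ∈ B := by
      intro v hv
      have h1 := (hRm v).1 (by simp [hv])
      rw [Finset.mem_insert] at h1
      exact h1.resolve_left (r01 v hv t (by simp))
    have mR2 : ∀ v ∈ R2, v ∈ B := by
      intro v hv
      have h1 := (hRm v).1 (by simp [hv])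
      rw [Finset.mem_insert] at h1
      refine h1.resolve_left ?_
      rintro rfl
      exact rt hv
    have hQne : Q ≠ [] := by
      rintro rfl
      rw [List.getLast?_append] at hp
      simp only [List.getLast?_singleton, Option.some_or, Option.some.injEq] at hp
      subst hp
      exact hsA hpA
    have hR1ne : R1 ≠ [] := by
      rintro rfl
      simp only [List.nil_append, List.head?_cons, Option.some.injEq] at hRh
      subst hRh
      exact htB hqB
    have hQl : Q.getLast? = some p := by
      have e : P0 ++ s :: Q = (P0 ++ [s]) ++ Q := by simp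
      rw [e, List.getLast?_append] at hp
      cases hh : Q.getLast? with
      | none => exact absurd (List.getLast?_eq_none_iff.1 hh) hQne
      | some z =>
        rw [hh] at hp
        exact hp
    have hR1h : R1.head? = some q := by
      cases R1 with
      | nil => exact absurd rfl hR1ne
      | cons a l => simpa using hRh
    have hR2l : (t :: R2).getLast? = some y := by
      rw [List.getLast?_append] at hRl
      cases hh : (t :: R2).getLast? with
      | none => simp at hh
      | some z =>
        rw [hh] at hRl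
        exact hRl
    have chain_ne : ∀ (l : List α) (z : α) (ρ : α → α → Prop), z ∉ l →
        (∀ a ∈ l, ∀ b ∈ l, ρ a b → r a b) → l.IsChain ρ → l.IsChain r := by
      intro l
      induction l with
      | nil => intro z ρ _ _ _; exact List.isChain_nil
      | cons a l ih =>
        intro z ρ hz hh hc
        rw [List.isChain_cons] at hc ⊢
        refine ⟨fun b hb => hh a (by simp) b (List.mem_cons_of_mem _ (List.mem_of_mem_head? hb))
          (hc.1 b hb), ih z ρ (fun h => hz (List.mem_cons_of_mem _ h)) (fun c hc' d hd =>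
            hh c (List.mem_cons_of_mem _ hc') d (List.mem_cons_of_mem _ hd)) hc.2⟩
    have v0 : P0.IsChain r := by
      refine chain_ne P0 s _ (fun h => p01 s h s (by simp) rfl) ?_ u0
      rintro a ha b hb (rfl | h1)
      · exact absurd rfl (p01 a ha a (by simp))
      · exact h1
    have v1 : Q.IsChain r := by
      refine chain_ne Q s _ ps ?_ u1
      rintro a ha b hb (rfl | h1)
      · exact absurd ha ps
      · exact h1
    have x0 : R1.IsChain r := by
      refine chain_ne R1 t _ (fun h => r01 t h t (by simp) rfl) ?_ w0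
      rintro a ha b hb (rfl | h1)
      · exact absurd rfl (r01 b hb b (by simp))
      · exact h1
    have x1 : R2.IsChain r := by
      refine chain_ne R2 t _ rt ?_ w1
      rintro a ha b hb (rfl | h1)
      · exact absurd hb rt
      · exact h1
    refine ⟨P0 ++ s :: (R1 ++ (Q ++ t :: R2)), ⟨?_, ?_, ?_⟩, ⟨x, ?_, hxX⟩, ⟨y, ?_, hyY⟩⟩
    · rw [List.nodup_append, List.nodup_cons, List.nodup_append, List.nodup_append, List.nodup_cons]
      refine ⟨p0, ⟨?_, r0, ⟨p1, ⟨rt, r1⟩, ?_⟩, ?_⟩, ?_⟩
      · simp only [List.mem_append, List.mem_cons, not_or]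
        exact ⟨fun h => hsB (mR1 s h), ps, h.hst, fun h => hsB (mR2 s h)⟩
      · rintro a ha b hb rfl
        rcases List.mem_cons.1 hb with rfl | hb
        · exact htA (mQ _ ha)
        · exact hAB _ (mQ _ ha) (mR2 _ hb)
      · rintro a ha b hb rfl
        rw [List.mem_append, List.mem_cons] at hb
        rcases hb with hb | rfl | hb
        · exact hAB _ (mQ _ hb) (mR1 _ ha)
        · exact htB (mR1 _ ha)
        · exact r01 _ ha _ (List.mem_cons_of_mem _ hb) rfl
      · rintro a ha b hb rfl
        rw [List.mem_cons, List.mem_append, List.mem_append, List.mem_cons] at hb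
        rcases hb with rfl | hb | hb | rfl | hb
        · exact hsA (mP0 _ ha)
        · exact hAB _ (mP0 _ ha) (mR1 _ hb)
        · exact p01 _ ha _ (List.mem_cons_of_mem _ hb) rfl
        · exact htA (mP0 _ ha)
        · exact hAB _ (mP0 _ ha) (mR2 _ hb)
    · rw [List.isChain_append, List.isChain_cons, List.isChain_append, List.isChain_append,
        List.isChain_cons]
      refine ⟨v0, ⟨?_, x0, ⟨v1, ⟨?_, x1⟩, ?_⟩, ?_⟩, ?_⟩
      · intro z hz
        rw [si_head_append hR1h, Option.mem_def, Option.some.injEq] at hz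
        subst hz
        exact hqs
      · intro z hz
        rcases wt z hz with rfl | h1
        · exact absurd (List.mem_of_mem_head? hz) rt
        · exact h1
      · intro z hz w hw
        rw [Option.mem_def, hQl, Option.some.injEq] at hz
        rw [Option.mem_def, List.head?_cons, Option.some.injEq] at hw
        subst hz hw
        exact hpt
      · intro z hz w hw
        apply hdom z (mR1 z (List.mem_of_mem_getLast? hz))
        cases Q with
        | nil => exact absurd rfl hQne
        | cons c Q =>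
          rw [List.cons_append, List.head?_cons, Option.mem_def, Option.some.injEq] at hw
          subst hw
          exact mQ _ (by simp)
      · intro z hz w hw
        rw [Option.mem_def, List.head?_cons, Option.some.injEq] at hw
        subst hw
        rcases u01 z hz s rfl with h1 | h1
        · subst h1
          exact absurd (mP0 _ (List.mem_of_mem_getLast? hz)) hsA
        · exact h1
    · intro v
      rw [hV v]
      have h1 := hPm v
      have h2 := hRm v
      simp only [List.mem_append, List.mem_cons, Finset.mem_insert] at h1 h2 ⊢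
      constructor
      · rintro (h3 | h3 | h3 | h3 | h3 | h3)
        · exact Or.inl (mP0 _ h3)
        · exact Or.inr (Or.inr (Or.inl h3))
        · exact Or.inr (Or.inl (mR1 _ h3))
        · exact Or.inl (mQ _ h3)
        · exact Or.inr (Or.inr (Or.inr h3))
        · exact Or.inr (Or.inl (mR2 _ h3))
      · rintro (h3 | h3 | h3 | h3)
        · rcases h1.2 (Or.inr h3) with h4 | h4 | h4
          · exact Or.inl h4
          · exact Or.inr (Or.inl h4)
          · exact Or.inr (Or.inr (Or.inr (Or.inl h4)))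
        · rcases h2.2 (Or.inr h3) with h4 | h4 | h4
          · exact Or.inr (Or.inr (Or.inl h4))
          · exact Or.inr (Or.inr (Or.inr (Or.inr (Or.inl h4))))
          · exact Or.inr (Or.inr (Or.inr (Or.inr (Or.inr h4))))
        · exact Or.inr (Or.inl h3)
        · exact Or.inr (Or.inr (Or.inr (Or.inr (Or.inl h3))))
    · cases P0 with
      | nil => simpa using hx
      | cons a l => simpa using hx
    · have e : P0 ++ s :: (R1 ++ (Q ++ t :: R2)) = (P0 ++ s :: (R1 ++ Q)) ++ (t :: R2) := by simp
      rw [e]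
      exact si_last_append hR2l

/-- Decomposition of the Hamiltonian paths at a separator. -/
theorem sep_iff {X Y : Finset α} (hs : Semi r V) {s t : α} {A B : Finset α}
    (h : Sep2 r V X Y s t A B) :
    HP r V ↑X ↑Y ↔ Dst r A B X Y s t ∨ Dst r A B X Y t s := by
  constructor
  · rintro ⟨l, hl, hx, hy⟩
    have hsl : s ∈ l := (hl.mem s).2 h.hs
    obtain ⟨l0, l', rfl⟩ := List.append_of_mem hsl
    have htl := (hl.mem t).2 h.ht
    rw [List.mem_append, List.mem_cons] at htl
    rcases htl with htl | htl | htl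
    · obtain ⟨k0, k1, rfl⟩ := List.append_of_mem htl
      right
      have e : k0 ++ t :: k1 ++ s :: l' = k0 ++ t :: (k1 ++ s :: l') := by simp
      rw [e] at hl hx hy
      exact si_fwd (si_symm h) hl hx hy
    · exact absurd htl h.hst.symm
    · obtain ⟨k0, k1, rfl⟩ := List.append_of_mem htl
      left
      exact si_fwd h hl hx hy
  · rintro (hD | hD)
    · exact si_bwd hs h hD
    · exact si_bwd hs (si_symm h) hD

/-! #### Auxiliary lemmas for Lemma L -/

theorem ll_last {W : Finset α} {S : Set α} {y : α} (h : HP r W S {y}) : y ∈ W := by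
  obtain ⟨l, hl, _, ⟨z, hz, hzy⟩⟩ := h
  have : z = y := hzy
  subst this
  exact (hl.mem z).1 (List.mem_of_mem_getLast? hz)

/-- If the smallest nonempty closed set meets `T`, everything reaches `T`. -/
theorem ll_to {W K : Finset α} {T : Set α}
    (hmin : ∀ D ⊆ W, D.Nonempty → Cl r W D → K ⊆ D) (h : ∃ a ∈ K, a ∈ T) : To r W T := by
  intro U hU hne hUT
  by_contra hcon
  push Not at hcon
  have hcl : Cl r W U := by
    intro u hu v hv huv
    by_contra hvU
    exact hcon u hu v (Finset.mem_sdiff.2 ⟨hv, hvU⟩) huv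
  obtain ⟨a, ha, haT⟩ := h
  exact hUT a (hmin U hU hne hcl ha) haT

theorem ll_lam1 {A X : Finset α} {u f : α} (hu : u ∉ A) {P0 Q : Finset α} (hA : A = P0 ∪ Q)
    (hd : Disjoint P0 Q) (h1 : HP r P0 ↑X {v | r v u}) (h2 : HP r Q Set.univ {v | r v f}) :
    Lam r A X u f := by
  have huP : u ∉ P0 := fun h => hu (hA ▸ Finset.mem_union_left _ h)
  have huQ : u ∉ Q := fun h => hu (hA ▸ Finset.mem_union_right _ h)
  have h1' : HP (fun a b => a = u ∨ r a b) P0 {x | x ∈ X} {v | r v u} :=
    (h1.congr (fun a _ b _ _ hab => Or.inr hab)).mono (fun x _ hx => hx) (fun x _ hx => hx)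
  have h2' : HP (fun a b => a = u ∨ r a b) Q Set.univ {v | v ∈ A ∧ r v f} :=
    (h2.congr (fun a _ b _ _ hab => Or.inr hab)).mono (fun x _ hx => hx)
      (fun x hx hxf => ⟨hA ▸ Finset.mem_union_right _ hx, hxf⟩)
  have h3 : HP (fun a b => a = u ∨ r a b) {u} {u} {u} := HP_singleton rfl rfl
  have h4 := HP.join h1' h3 (Finset.disjoint_singleton_right.2 huP) (by
    intro t _ ht s _ hs
    have : s = u := hs
    subst this
    exact Or.inr ht)
  have h5 := HP.join h4 h2' (by
    rw [Finset.disjoint_union_left]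
    exact ⟨hd, Finset.disjoint_singleton_left.2 huQ⟩) (by
    intro t _ ht s _ _
    exact Or.inl ht)
  have h6 : P0 ∪ {u} ∪ Q = insert u A := by
    ext x
    simp only [hA, Finset.mem_union, Finset.mem_singleton, Finset.mem_insert]
    tauto
  rw [h6] at h5
  exact h5

theorem ll_lam0 {A X : Finset α} {u f : α} (hu : u ∉ A) (huX : u ∈ X)
    (h2 : HP r A Set.univ {v | r v f}) : Lam r A X u f := by
  have h2' : HP (fun a b => a = u ∨ r a b) A Set.univ {v | v ∈ A ∧ r v f} :=
    (h2.congr (fun a _ b _ _ hab => Or.inr hab)).mono (fun x _ hx => hx)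
      (fun x hx hxf => ⟨hx, hxf⟩)
  have h3 : HP (fun a b => a = u ∨ r a b) {u} {x | x ∈ X} {u} := HP_singleton huX rfl
  have h5 := HP.join h3 h2' (Finset.disjoint_singleton_left.2 hu) (by
    intro t _ ht s _ _
    exact Or.inl ht)
  have h6 : ({u} : Finset α) ∪ A = insert u A := rfl
  rw [h6] at h5
  exact h5

/-- The main case of Lemma L. -/
theorem ll_case3 {A X P Q W K : Finset α} {s t p p' q q' : α} (hA : Semi r A) (hsA : s ∉ A)
    (hP : P ⊆ A) (hQ : Q ⊆ A) (hPQ : Disjoint P Q) (hW : W = A \ (P ∪ Q)) (hpX : p ∈ X)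
    (hq's : r q' t) (hPD : PD r W P p p') (hQD : PD r W Q q q') (hKW : K ⊆ W) (hKne : K.Nonempty)
    (hKcl : Cl r W K) (hmin : ∀ D ⊆ W, D.Nonempty → Cl r W D → K ⊆ D)
    (hKs : ∃ a ∈ K, r a s) (hKP : ∀ w ∈ K, r p' w)
    (hD : fwd r W {w | r q' w} ⊆ fwd r W {w | r p' w}) : Lam r A X s t := by
  have hWA : W ⊆ A := by rw [hW]; exact Finset.sdiff_subset
  have hWs : Semi r W := hA.mono hWA
  set D := fwd r W {w | r p' w} with hDdef
  have hDW : D ⊆ W := fwd_subset
  have hKD : K ⊆ D := fun w hw => subset_fwd w (hKW hw) (hKP w hw)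
  have hDne : D.Nonempty := hKne.mono hKD
  have hTo : To r W {v | r v s} := ll_to hmin hKs
  have hHP : HP r D {w | r p' w} {v | r v s} := by
    refine HP_fwd hWs hDne hTo ?_
    intro hst v hv
    have hKeq : K = D := by
      by_contra hne
      obtain ⟨a, ha, b, hb, hab⟩ := hst K hKD hKne hne
      rw [Finset.mem_sdiff] at hb
      exact hb.2 (hKcl a ha b (hDW hb.1) hab)
    rw [← hDdef, ← hKeq] at hv
    exact hKP v hv
  have hPW : Disjoint P W := by
    rw [hW, Finset.disjoint_left]
    intro x hx hx'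
    exact (Finset.mem_sdiff.1 hx').2 (Finset.mem_union_left _ hx)
  have hQW : Disjoint Q W := by
    rw [hW, Finset.disjoint_left]
    intro x hx hx'
    exact (Finset.mem_sdiff.1 hx').2 (Finset.mem_union_right _ hx)
  have hPDj : Disjoint P D := Disjoint.mono_right hDW hPW
  have h1 : HP r (P ∪ D) ↑X {v | r v s} := by
    refine (HP.join hPD.hp hHP hPDj ?_).mono ?_ (fun x _ hx => hx)
    · intro a _ ha b _ hb
      have : a = p' := ha
      subst this
      exact hb
    · intro x _ hx
      have : x = p := hx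
      subst this
      exact hpX
  have hq'Q : q' ∈ Q := ll_last hQD.hp
  have hdom : ∀ w ∈ W \ D, r w q := by
    intro w hw
    rw [Finset.mem_sdiff] at hw
    have h3 : ¬ r q' w := fun h4 => hw.2 (hD (subset_fwd w hw.1 h4))
    have h5 : q' ≠ w := by
      rintro rfl
      exact Finset.disjoint_left.1 hQW hq'Q hw.1
    rcases hA q' (hQ hq'Q) w (hWA hw.1) h5 with h6 | h6
    · exact absurd h6 h3
    · exact hQD.hin w hw.1 ⟨q', hq'Q, h6⟩
  have h2 : HP r ((W \ D) ∪ Q) Set.univ {v | r v t} := by
    rcases Finset.eq_empty_or_nonempty (W \ D) with he | hne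
    · rw [he, Finset.empty_union]
      refine hQD.hp.mono (fun x _ _ => Set.mem_univ x) ?_
      intro y _ hy
      have : y = q' := hy
      subst this
      exact hq's
    · have h3 : HP r (W \ D) Set.univ Set.univ := by
        refine HP_start (hWs.mono Finset.sdiff_subset) hne ?_
        intro U _ hUne hU
        obtain ⟨u, hu⟩ := hUne
        exact absurd (Set.mem_univ u) (hU u hu)
      have h4 : HP r (W \ D) Set.univ {w | r w q} :=
        h3.mono (fun x _ hx => hx) (fun x hx _ => hdom x hx)
      refine (HP.join h4 hQD.hp ?_ ?_).mono (fun x _ hx => hx) ?_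
      · exact (Disjoint.mono_right Finset.sdiff_subset hQW).symm
      · intro a _ ha b _ hb
        have : b = q := hb
        subst this
        exact ha
      · intro y _ hy
        have : y = q' := hy
        subst this
        exact hq's
  refine ll_lam1 hsA (P0 := P ∪ D) (Q := (W \ D) ∪ Q) ?_ ?_ h1 h2
  · ext x
    simp only [Finset.mem_union, Finset.mem_sdiff]
    constructor
    · intro hx
      by_cases hxP : x ∈ P
      · exact Or.inl (Or.inl hxP)
      by_cases hxQ : x ∈ Q
      · exact Or.inr (Or.inr hxQ)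
      have hxW : x ∈ W := by
        rw [hW, Finset.mem_sdiff, Finset.mem_union]
        exact ⟨hx, fun h => h.elim hxP hxQ⟩
      by_cases hxD : x ∈ D
      · exact Or.inl (Or.inr hxD)
      · exact Or.inr (Or.inl ⟨hxW, hxD⟩)
    · rintro ((hx | hx) | (hx | hx))
      · exact hP hx
      · exact hWA (hDW hx)
      · exact hWA hx.1
      · exact hQ hx
  · rw [Finset.disjoint_left]
    intro x hx hx'
    simp only [Finset.mem_union, Finset.mem_sdiff] at hx hx'
    rcases hx with hx | hx <;> rcases hx' with hx' | hx'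
    · exact Finset.disjoint_left.1 hPW hx hx'.1
    · exact Finset.disjoint_left.1 hPQ hx hx'
    · exact hx'.2 hx
    · exact Finset.disjoint_left.1 hQW hx' (hDW hx)

/-- The case of Lemma L in which the last component of the rest has an arc to the second path. -/
theorem ll_case1 {A X P Q W K : Finset α} {s t p p' q q' : α} (hA : Semi r A) (hsA : s ∉ A)
    (hP : P ⊆ A) (hQ : Q ⊆ A) (hPQ : Disjoint P Q) (hW : W = A \ (P ∪ Q)) (hpX : p ∈ X)
    (hp's : r p' s)
    (hq's : r q' t) (hPD : PD r W P p p') (hQD : PD r W Q q q') (hKW : K ⊆ W) (hKne : K.Nonempty)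
    (hmin : ∀ D ⊆ W, D.Nonempty → Cl r W D → K ⊆ D)
    (hKQ : ∃ a ∈ K, ∃ b ∈ Q, r a b) : Lam r A X s t := by
  have hWA : W ⊆ A := by rw [hW]; exact Finset.sdiff_subset
  have hWs : Semi r W := hA.mono hWA
  have hPW : Disjoint P W := by
    rw [hW, Finset.disjoint_left]
    intro x hx hx'
    exact (Finset.mem_sdiff.1 hx').2 (Finset.mem_union_left _ hx)
  have hQW : Disjoint Q W := by
    rw [hW, Finset.disjoint_left]
    intro x hx hx'
    exact (Finset.mem_sdiff.1 hx').2 (Finset.mem_union_right _ hx)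
  have hTo : To r W {w | r w q} := by
    obtain ⟨a, ha, b, hb, hab⟩ := hKQ
    exact ll_to hmin ⟨a, ha, hQD.hin a (hKW ha) ⟨b, hb, hab⟩⟩
  have h3 : HP r W Set.univ {w | r w q} := HP_end hWs (hKne.mono hKW) hTo
  have h2 : HP r (W ∪ Q) Set.univ {v | r v t} := by
    refine (HP.join h3 hQD.hp hQW.symm ?_).mono (fun x _ hx => hx) ?_
    · intro a _ ha b _ hb
      have : b = q := hb
      subst this
      exact ha
    · intro y _ hy
      have : y = q' := hy
      subst this
      exact hq's
  have h1 : HP r P ↑X {v | r v s} := by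
    refine hPD.hp.mono ?_ ?_
    · intro x _ hx
      have : x = p := hx
      subst this
      exact hpX
    · intro y _ hy
      have : y = p' := hy
      subst this
      exact hp's
  refine ll_lam1 hsA (P0 := P) (Q := W ∪ Q) ?_ ?_ h1 h2
  · ext x
    simp only [Finset.mem_union]
    constructor
    · intro hx
      by_cases hxP : x ∈ P
      · exact Or.inl hxP
      by_cases hxQ : x ∈ Q
      · exact Or.inr (Or.inr hxQ)
      refine Or.inr (Or.inl ?_)
      rw [hW, Finset.mem_sdiff, Finset.mem_union]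
      exact ⟨hx, fun h => h.elim hxP hxQ⟩
    · rintro (hx | hx | hx)
      · exact hP hx
      · exact hWA hx
      · exact hQ hx
  · rw [Finset.disjoint_union_right]
    exact ⟨hPW, hPQ⟩

/-- A set of vertices on the left side without arcs to the rest of the left side has an arc to
each of the two separating vertices. -/
theorem ll_arc {X Y : Finset α} (h2 : TwoStrong r V)
    {s t : α} {A B : Finset α} (h : Sep2 r V X Y s t A B) {K : Finset α} (hKA : K ⊆ A)
    (hKne : K.Nonempty) (hK : ∀ a ∈ K, ∀ b ∈ A, b ∉ K → ¬ r a b) :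
    (∃ a ∈ K, r a s) ∧ ∃ a ∈ K, r a t := by
  have hmem : ∀ x, x ∈ A ∨ x ∈ B ↔ x ∈ V ∧ x ≠ s ∧ x ≠ t := by
    intro x
    have := congrArg (fun F => x ∈ F) h.hu
    simp only [Finset.mem_union, Finset.mem_sdiff, Finset.mem_insert, Finset.mem_singleton,
      not_or, eq_iff_iff] at this
    exact this
  have hAV : ∀ x ∈ A, x ∈ V ∧ x ≠ s ∧ x ≠ t := fun x hx => (hmem x).1 (Or.inl hx)
  constructor
  · obtain ⟨a, ha, b, hb, hab⟩ := h2.2 t h.ht K (fun x hx => Finset.mem_erase.2
      ⟨(hAV x (hKA hx)).2.2, (hAV x (hKA hx)).1⟩) hKne (by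
        intro he
        have h3 : s ∈ K := by
          rw [he, Finset.mem_erase]
          exact ⟨h.hst, h.hs⟩
        exact (hAV s (hKA h3)).2.1 rfl)
    rw [Finset.mem_sdiff, Finset.mem_erase] at hb
    by_cases hbs : b = s
    · subst hbs
      exact ⟨a, ha, hab⟩
    · rcases (hmem b).2 ⟨hb.1.2, hbs, hb.1.1⟩ with h3 | h3
      · exact absurd hab (hK a ha b h3 hb.2)
      · exact absurd hab (h.harc a (hKA ha) b h3)
  · obtain ⟨a, ha, b, hb, hab⟩ := h2.2 s h.hs K (fun x hx => Finset.mem_erase.2
      ⟨(hAV x (hKA hx)).2.1, (hAV x (hKA hx)).1⟩) hKne (by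
        intro he
        have h3 : t ∈ K := by
          rw [he, Finset.mem_erase]
          exact ⟨h.hst.symm, h.ht⟩
        exact (hAV t (hKA h3)).2.2 rfl)
    rw [Finset.mem_sdiff, Finset.mem_erase] at hb
    by_cases hbs : b = t
    · subst hbs
      exact ⟨a, ha, hab⟩
    · rcases (hmem b).2 ⟨hb.1.2, hb.1.1, hbs⟩ with h3 | h3
      · exact absurd hab (hK a ha b h3 hb.2)
      · exact absurd hab (h.harc a (hKA ha) b h3)

/-- Lemma L. -/
theorem lemmaL {X Y : Finset α} (hs : Semi r V) (h2 : TwoStrong r V) (hc : Conn r V ↑X ↑Y 2)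
    {s t : α} {A B : Finset α} (h : Sep2 r V X Y s t A B) : Lam r A X s t ∨ Lam r A X t s := by
  have hmem : ∀ x, x ∈ A ∨ x ∈ B ↔ x ∈ V ∧ x ≠ s ∧ x ≠ t := by
    intro x
    have := congrArg (fun F => x ∈ F) h.hu
    simp only [Finset.mem_union, Finset.mem_sdiff, Finset.mem_insert, Finset.mem_singleton,
      not_or, eq_iff_iff] at this
    exact this
  have hAV : ∀ x ∈ A, x ∈ V ∧ x ≠ s ∧ x ≠ t := fun x hx => (hmem x).1 (Or.inl hx)
  have hsA : s ∉ A := fun hx => (hAV s hx).2.1 rfl
  have htA : t ∉ A := fun hx => (hAV t hx).2.2 rfl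
  have hAs : Semi r A := hs.mono (fun x hx => (hAV x hx).1)
  by_cases hsX : s ∈ X
  · left
    obtain ⟨K, hKA, hKne, hKcl, _, hmin⟩ := exists_last hAs h.hA
    have hK := ll_arc h2 h hKA hKne (fun a ha b hb hbK hab => hbK (hKcl a ha b hb hab))
    exact ll_lam0 hsA hsX (HP_end hAs h.hA (ll_to hmin hK.2))
  by_cases htX : t ∈ X
  · right
    obtain ⟨K, hKA, hKne, hKcl, _, hmin⟩ := exists_last hAs h.hA
    have hK := ll_arc h2 h hKA hKne (fun a ha b hb hbK hab => hbK (hKcl a ha b hb hab))
    exact ll_lam0 htA htX (HP_end hAs h.hA (ll_to hmin hK.1))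
  obtain ⟨P, Q, p, p', q, q', hP, hQ, hPQ, hp, hq, hp's, hq't, hPD, hQD⟩ :=
    sep_paths (X := (↑X : Set α)) (Y := (↑Y : Set α)) hs h.hst h.hs h.ht (by simpa using hsX)
      (by simpa using htX) (A := A) (by
        intro x hx
        have := hAV x hx
        simp [this])
      (by
        intro x hx hxX
        have hxX' : x ∈ X := by simpa using hxX
        have h3 := (hmem x).2 ⟨hx, fun he => hsX (he ▸ hxX'), fun he => htX (he ▸ hxX')⟩
        exact h3.resolve_right (h.hX x hx hxX'))
      (by
        intro u hu v hv huv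
        have hv' : v ∈ V ∧ v ≠ s ∧ v ≠ t := by simpa using hv
        rcases (hmem v).2 hv' with h3 | h3
        · exact h3
        · exact absurd huv (h.harc u hu v h3))
      (by
        intro u hu huY
        exact h.hY u (hAV u hu).1 (by simpa using huY) hu) hc
  have hpX : p ∈ X := by simpa using hp
  have hqX : q ∈ X := by simpa using hq
  rcases Finset.eq_empty_or_nonempty (A \ (P ∪ Q)) with he | hne
  · left
    refine ll_lam1 hsA (P0 := P) (Q := Q) ?_ hPQ ?_ ?_
    · apply Finset.Subset.antisymm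
      · exact Finset.sdiff_eq_empty_iff_subset.1 he
      · exact Finset.union_subset hP hQ
    · refine hPD.hp.mono ?_ ?_
      · intro x _ hx
        have : x = p := hx
        subst this
        exact hp
      · intro y _ hy
        have : y = p' := hy
        subst this
        exact hp's
    · refine hQD.hp.mono (fun x _ _ => Set.mem_univ x) ?_
      intro y _ hy
      have : y = q' := hy
      subst this
      exact hq't
  · obtain ⟨K, hKW, hKne, hKcl, _, hmin⟩ := exists_last (hAs.mono (Finset.sdiff_subset)) hne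
    have hW' : A \ (P ∪ Q) = A \ (Q ∪ P) := by rw [Finset.union_comm]
    by_cases hKQ : ∃ a ∈ K, ∃ b ∈ Q, r a b
    · left
      exact ll_case1 hAs hsA hP hQ hPQ rfl hpX hp's hq't hPD hQD hKW hKne hmin hKQ
    by_cases hKP : ∃ a ∈ K, ∃ b ∈ P, r a b
    · right
      exact ll_case1 hAs htA hQ hP hPQ.symm hW' hqX hq't hp's hQD hPD hKW hKne hmin hKP
    push Not at hKQ hKP
    have hKA : K ⊆ A := hKW.trans Finset.sdiff_subset
    have hK := ll_arc h2 h hKA hKne (by
      intro a ha b hb hbK hab
      by_cases hbP : b ∈ P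
      · exact hKP a ha b hbP hab
      by_cases hbQ : b ∈ Q
      · exact hKQ a ha b hbQ hab
      exact hbK (hKcl a ha b (by
        rw [Finset.mem_sdiff, Finset.mem_union]
        exact ⟨hb, fun h => h.elim hbP hbQ⟩) hab))
    have hKp' : ∀ w ∈ K, r p' w := by
      intro w hw
      have h3 : p' ∈ P := ll_last hPD.hp
      have h4 : p' ≠ w := by
        rintro rfl
        exact (Finset.mem_sdiff.1 (hKW hw)).2 (Finset.mem_union_left _ h3)
      exact (hAs p' (hP h3) w (hKA hw) h4).resolve_right (hKP w hw p' h3)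
    have hKq' : ∀ w ∈ K, r q' w := by
      intro w hw
      have h3 : q' ∈ Q := ll_last hQD.hp
      have h4 : q' ≠ w := by
        rintro rfl
        exact (Finset.mem_sdiff.1 (hKW hw)).2 (Finset.mem_union_right _ h3)
      exact (hAs q' (hQ h3) w (hKA hw) h4).resolve_right (hKQ w hw q' h3)
    rcases Cl.total (hAs.mono (Finset.sdiff_subset)) (fwd_subset (r := r) (L := {w | r q' w}))
      (fwd_subset (r := r) (L := {w | r p' w})) fwd_cl fwd_cl with hD | hD
    · left
      exact ll_case3 hAs hsA hP hQ hPQ rfl hpX hq't hPD hQD hKW hKne hKcl hmin hK.1 hKp' hD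
    · right
      exact ll_case3 hAs htA hQ hP hPQ.symm hW' hqX hp's hQD hPD hKW hKne hKcl hmin hK.2 hKq' hD

theorem ry_conn_rev {X Y : Set α} {k : ℕ} (h : Conn r V X Y k) :
    Conn (fun a b => r b a) V Y X k := by
  intro S hS hk U hU hUY hcl
  by_contra hcon
  push Not at hcon
  obtain ⟨u, hu, huY⟩ := h S hS hk ((V \ S) \ U) Finset.sdiff_subset
    (fun x hx hxX => Finset.mem_sdiff.2 ⟨hx, fun h => hcon x h hxX⟩)
    (fun a ha b hb hab => Finset.mem_sdiff.2 ⟨hb, fun h => (Finset.mem_sdiff.1 ha).2
      (hcl b h a (Finset.mem_sdiff.1 ha).1 hab)⟩)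
  exact (Finset.mem_sdiff.1 hu).2 (hUY u (Finset.mem_sdiff.1 hu).1 huY)

theorem ry_sep_rev {X Y : Finset α} {s t : α} {A B : Finset α} (h : Sep2 r V X Y s t A B) :
    Sep2 (fun a b => r b a) V Y X s t B A where
  hs := h.hs
  ht := h.ht
  hst := h.hst
  hA := h.hB
  hB := h.hA
  hd := h.hd.symm
  hu := by rw [Finset.union_comm]; exact h.hu
  harc := fun b hb a ha => h.harc a ha b hb
  hX := h.hY
  hY := h.hX

omit [DecidableEq α] in
/-- Insertion of a vertex `f` into a path behind one of its in-neighbours. -/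
theorem ry_insert {f : α} : ∀ l : List α, l.IsChain r → (∃ v ∈ l, r v f) →
    (∀ v ∈ l, r v f ∨ r f v) → ∃ m : List α, m.Perm (f :: l) ∧ m.IsChain r ∧ m.head? = l.head? ∧
      (m.getLast? = l.getLast? ∨ m.getLast? = some f)
  | [], _, h, _ => by
    obtain ⟨v, hv, _⟩ := h
    simp at hv
  | [a], _, h, _ => by
    obtain ⟨v, hv, hvf⟩ := h
    rw [List.mem_singleton] at hv
    subst hv
    exact ⟨[v, f], List.Perm.swap _ _ _, List.isChain_pair.2 hvf, rfl, Or.inr rfl⟩
  | a :: b :: l, hc, h, hs => by
    obtain ⟨hab, hc'⟩ := List.isChain_cons_cons.1 hc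
    by_cases h' : ∃ v ∈ b :: l, r v f
    · obtain ⟨m, hm, hmc, hmh, hml⟩ := ry_insert (b :: l) hc' h'
        (fun v hv => hs v (List.mem_cons_of_mem _ hv))
      cases m with
      | nil => simp at hmh
      | cons c m =>
        simp only [List.head?_cons, Option.some.injEq] at hmh
        subst hmh
        refine ⟨a :: c :: m, (hm.cons a).trans (List.Perm.swap _ _ _),
          List.isChain_cons_cons.2 ⟨hab, hmc⟩, rfl, ?_⟩
        rw [List.getLast?_cons_cons, List.getLast?_cons_cons]
        exact hml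
    · push Not at h'
      have haf : r a f := by
        obtain ⟨v, hv, hvf⟩ := h
        rcases List.mem_cons.1 hv with rfl | hv
        · exact hvf
        · exact absurd hvf (h' v hv)
      have hfb : r f b := (hs b (by simp)).resolve_left (h' b (by simp))
      refine ⟨a :: f :: b :: l, List.Perm.swap _ _ _,
        List.isChain_cons_cons.2 ⟨haf, List.isChain_cons_cons.2 ⟨hfb, hc'⟩⟩, rfl, Or.inl ?_⟩
      rw [List.getLast?_cons_cons, List.getLast?_cons_cons, List.getLast?_cons_cons]

/-- If both labels hold on the left side there is a Hamiltonian path. -/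
theorem rule5_yes {X Y : Finset α} (hs : Semi r V) (h2 : TwoStrong r V) (hc : Conn r V ↑X ↑Y 2)
    {s t : α} {A B : Finset α} (h : Sep2 r V X Y s t A B) (h1 : Lam r A X s t)
    (h1' : Lam r A X t s) : HP r V ↑X ↑Y := by
  have h3 := lemmaL (r := fun a b => r b a) (X := Y) (Y := X) hs.rev h2.rev (ry_conn_rev hc)
    (ry_sep_rev h)
  refine (sep_iff hs h).2 ?_
  rcases h3 with h3 | h3
  · exact Or.inr (Or.inr (Or.inr ⟨h1', h3⟩))
  · exact Or.inl (Or.inr (Or.inr ⟨h1, h3⟩))

/-- Monotonicity. -/
theorem rule5_mono {X Y : Finset α} (hs : Semi r V) (hc : Conn r V ↑X ↑Y 2)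
    {u f : α} {A B : Finset α} (h : Sep2 r V X Y u f A B) (hp : HP r A ↑X {v | r v u})
    (hq : ¬ HP r (insert f A) ↑X {v | r v u}) : r u f := by
  by_contra hn
  have hfu : r f u := (hs u h.hs f h.ht h.hst).resolve_left hn
  have hAV : ∀ a ∈ A, a ∈ V ∧ a ≠ u ∧ a ≠ f := by
    intro a ha
    have h1 : a ∈ V \ {u, f} := by
      rw [← h.hu]
      exact Finset.mem_union_left _ ha
    rw [Finset.mem_sdiff, Finset.mem_insert, Finset.mem_singleton] at h1
    exact ⟨h1.1, fun h2 => h1.2 (Or.inl h2), fun h2 => h1.2 (Or.inr h2)⟩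
  have hfA : f ∉ A := fun hf => (hAV f hf).2.2 rfl
  obtain ⟨l, hl, ⟨x, hx, hxX⟩, ⟨y, hy, hyu⟩⟩ := hp
  have hfl : f ∉ l := fun hf => hfA ((hl.mem f).1 hf)
  by_cases hex : ∃ v ∈ A, r v f
  · obtain ⟨v, hv, hvf⟩ := hex
    obtain ⟨m, hm, hmc, hmh, hml⟩ := ry_insert (f := f) l hl.chain ⟨v, (hl.mem v).2 hv, hvf⟩
      (fun w hw => by
        have h1 := hAV w ((hl.mem w).1 hw)
        exact hs w h1.1 f h.ht h1.2.2)
    refine hq ⟨m, ⟨?_, hmc, ?_⟩, ⟨x, by rw [hmh, hx], hxX⟩, ?_⟩
    · exact hm.nodup_iff.2 (List.nodup_cons.2 ⟨hfl, hl.nodup⟩)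
    · intro w
      rw [hm.mem_iff, List.mem_cons, Finset.mem_insert, hl.mem]
    · rcases hml with hml | hml
      · exact ⟨y, by rw [hml, hy], hyu⟩
      · exact ⟨f, hml, hfu⟩
  · push Not at hex
    have hfX : f ∉ X := by
      intro hfX
      refine hq ⟨f :: l, ⟨List.nodup_cons.2 ⟨hfl, hl.nodup⟩, ?_, ?_⟩, ⟨f, rfl, hfX⟩, ⟨y, ?_, hyu⟩⟩
      · rw [List.isChain_cons]
        refine ⟨?_, hl.chain⟩
        intro z hz
        rw [Option.mem_def, hx] at hz
        cases hz
        have hxA := (hl.mem x).1 (List.mem_of_mem_head? hx)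
        exact (hs x (hAV x hxA).1 f h.ht (hAV x hxA).2.2).resolve_left (hex x hxA)
      · intro w
        rw [List.mem_cons, Finset.mem_insert, hl.mem]
      · rw [List.getLast?_cons, hy]
        rfl
    have hmem : ∀ v ∈ V, v ≠ u → v ≠ f → v ∈ A ∨ v ∈ B := by
      intro v hv h1 h2
      rw [← Finset.mem_union, h.hu, Finset.mem_sdiff, Finset.mem_insert, Finset.mem_singleton]
      exact ⟨hv, fun h3 => h3.elim h1 h2⟩
    obtain ⟨w, hw, hwY⟩ := hc {u} (Finset.singleton_subset_iff.2 h.hs)
      (by rw [Finset.card_singleton]; norm_num) A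
      (fun a ha => Finset.mem_sdiff.2 ⟨(hAV a ha).1, fun h1 =>
        (hAV a ha).2.1 (Finset.mem_singleton.1 h1)⟩)
      (fun v hv hvX => by
        rw [Finset.mem_sdiff, Finset.mem_singleton] at hv
        have hvX' : v ∈ X := hvX
        rcases hmem v hv.1 hv.2 (fun h1 => hfX (h1 ▸ hvX')) with h1 | h1
        · exact h1
        · exact absurd h1 (h.hX v hv.1 hvX'))
      (fun a ha v hv hav => by
        rw [Finset.mem_sdiff, Finset.mem_singleton] at hv
        have hvf : v ≠ f := fun h1 => hex a ha (h1 ▸ hav)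
        rcases hmem v hv.1 hv.2 hvf with h1 | h1
        · exact h1
        · exact absurd hav (h.harc a ha v h1))
    exact h.hY w (hAV w hw).1 hwY hw

/-- The new digraph: the arcs into `u` are replaced by those from `B` (and from `f`, if `q`). -/
def newr (r : α → α → Prop) (B : Finset α) (u f : α) (q : Prop) : α → α → Prop :=
  fun a b => (b = u ∧ (a ∈ B ∨ (a = f ∧ q))) ∨ (b ≠ u ∧ r a b)

/-! #### Auxiliary lemmas -/

theorem rp_exists {W : Finset α} {S T : Set α} :
    HP r W S T ↔ ∃ x ∈ W, x ∈ S ∧ HP r W {x} T := by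
  constructor
  · rintro ⟨l, hl, ⟨x, hx, hxS⟩, hy⟩
    exact ⟨x, (hl.mem x).1 (List.mem_of_mem_head? hx), hxS, l, hl, ⟨x, hx, rfl⟩, hy⟩
  · rintro ⟨x, _, hxS, h⟩
    exact h.mono (fun y _ hy => by rw [Set.mem_singleton_iff.1 hy]; exact hxS) fun _ _ h => h

theorem rp_congr {r' : α → α → Prop} {W : Finset α} {S S' T : Set α}
    (hr : ∀ a ∈ W, ∀ b ∈ W, a ≠ b → (r a b ↔ r' a b)) (hS : ∀ x ∈ W, (x ∈ S ↔ x ∈ S')) :
    HP r W S T ↔ HP r' W S' T :=
  ⟨fun h => (h.congr fun a ha b hb hab => (hr a ha b hb hab).1).mono (fun x hx => (hS x hx).1)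
      fun _ _ h => h,
    fun h => (h.congr fun a ha b hb hab => (hr a ha b hb hab).2).mono (fun x hx => (hS x hx).2)
      fun _ _ h => h⟩

theorem rp_cons {W : Finset α} {w : α} {T : Set α} (hw : w ∉ W) (hW : W.Nonempty) :
    HP r (insert w W) {w} T ↔ HP r W {v | r w v} T := by
  constructor
  · rintro ⟨l, hl, ⟨x, hx, hxw⟩, ⟨y, hy, hyT⟩⟩
    rw [Set.mem_singleton_iff] at hxw
    subst hxw
    cases l with
    | nil => simp at hx
    | cons a l =>
      have ha : a = x := by simpa using hx
      subst ha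
      obtain ⟨z, hz⟩ := hW
      cases l with
      | nil =>
        exfalso
        have h1 := (hl.mem z).2 (Finset.mem_insert_of_mem hz)
        rw [List.mem_singleton] at h1
        subst h1
        exact hw hz
      | cons b l =>
        have hn := List.nodup_cons.1 hl.nodup
        have hc := List.isChain_cons_cons.1 hl.chain
        refine ⟨b :: l, ⟨hn.2, hc.2, ?_⟩, ⟨b, rfl, hc.1⟩, ⟨y, by simpa using hy, hyT⟩⟩
        intro v
        constructor
        · intro hv
          rcases Finset.mem_insert.1 ((hl.mem v).1 (List.mem_cons_of_mem _ hv)) with h1 | h1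
          · subst h1
            exact absurd hv hn.1
          · exact h1
        · intro hv
          rcases List.mem_cons.1 ((hl.mem v).2 (Finset.mem_insert_of_mem hv)) with h1 | h1
          · subst h1
            exact absurd hv hw
          · exact h1
  · intro h
    have h1 : HP r {w} {w} {w} := HP_singleton (Set.mem_singleton w) (Set.mem_singleton w)
    have h2 := h1.join h (Finset.disjoint_singleton_left.2 hw) (by
      intro t _ ht s _ hs
      rw [Set.mem_singleton_iff.1 ht]
      exact hs)
    rwa [← Finset.insert_eq] at h2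

theorem rp_snoc {W : Finset α} {w : α} {S : Set α} (hw : w ∉ W) (hW : W.Nonempty) :
    HP r (insert w W) S {w} ↔ HP r W S {v | r v w} := by
  rw [← HP_rev, rp_cons (r := fun a b => r b a) hw hW, HP_rev]

theorem rp_exists' {W : Finset α} {S T : Set α} :
    HP r W S T ↔ ∃ y ∈ W, y ∈ T ∧ HP r W S {y} := by
  rw [← HP_rev, rp_exists]
  constructor
  · rintro ⟨x, h1, h2, h3⟩
    exact ⟨x, h1, h2, HP_rev.1 h3⟩
  · rintro ⟨x, h1, h2, h3⟩
    exact ⟨x, h1, h2, HP_rev.2 h3⟩

theorem rp_Rho {B Y : Finset α} {u f : α} :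
    Rho r B Y f u ↔
      HP (fun a b => b = u ∨ r a b) (insert u B) {v | v ∈ B ∧ r f v} ↑Y := by
  unfold Rho Lam
  exact HP_rev (r := fun a b => b = u ∨ r a b) (W := insert u B) (T := {x | x ∈ Y})
    (S := {v | v ∈ B ∧ r f v})

section
variable {X Y : Finset α} {u f : α} {A B : Finset α}

theorem rp_sA (h : Sep2 r V X Y u f A B) : u ∉ A ∧ f ∉ A := by
  have hu := h.hu
  constructor
  · intro hx
    have : u ∈ V \ {u, f} := by rw [← hu]; exact Finset.mem_union_left _ hx
    simp at this
  · intro hx
    have : f ∈ V \ {u, f} := by rw [← hu]; exact Finset.mem_union_left _ hx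
    simp at this

theorem rp_sB (h : Sep2 r V X Y u f A B) : u ∉ B ∧ f ∉ B := by
  have hu := h.hu
  constructor
  · intro hx
    have : u ∈ V \ {u, f} := by rw [← hu]; exact Finset.mem_union_right _ hx
    simp at this
  · intro hx
    have : f ∈ V \ {u, f} := by rw [← hu]; exact Finset.mem_union_right _ hx
    simp at this

/-- The Hamiltonian paths when exactly one label holds on the left side. -/
theorem rp_claim (hs : Semi r V) (h : Sep2 r V X Y u f A B) (h1 : ¬ Lam r A X u f)
    (h1' : Lam r A X f u) :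
    HP r V ↑X ↑Y ↔ Rho r B Y f u ∨
      (HP r A ↑X {v | r v u} ∧ HP r (insert f B) {v | r u v} ↑Y) ∨
      (HP r (insert f A) ↑X {v | r v u} ∧ HP r B {v | r u v} ↑Y) := by
  obtain ⟨huA, hfA⟩ := rp_sA h
  obtain ⟨huB, hfB⟩ := rp_sB h
  rw [sep_iff hs h]
  constructor
  · rintro (h2 | h2)
    · rcases h2 with h2 | ⟨h2, h3⟩ | h2
      · exact Or.inr (Or.inl h2)
      · obtain ⟨y, hy, hyf, h4⟩ := rp_exists'.1 h2
        rcases Finset.mem_insert.1 hy with hyu | hyA
        · subst hyu
          have h5 := (rp_snoc huA h.hA).1 h4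
          have h6 : HP r (insert f B) {f} ↑Y := (rp_cons hfB h.hB).2 h3
          refine Or.inr (Or.inl ⟨h5, h6.mono ?_ fun _ _ h => h⟩)
          intro x _ hx
          rw [Set.mem_singleton_iff.1 hx]
          exact hyf
        · exfalso
          refine h1 ((h4.congr fun a _ b _ _ hab => Or.inr hab).mono (fun x _ hx => hx) ?_)
          intro x _ hx
          rw [Set.mem_singleton_iff.1 hx]
          exact ⟨hyA, hyf⟩
      · exact absurd h2.1 h1
    · rcases h2 with ⟨h2, h3⟩ | h2 | h2
      · obtain ⟨x, hx, hfx, h4⟩ := rp_exists.1 h3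
        rcases Finset.mem_insert.1 hx with hxu | hxB
        · subst hxu
          have h5 := (rp_cons huB h.hB).1 h4
          have h6 : HP r (insert f A) ↑X {f} := (rp_snoc hfA h.hA).2 h2
          refine Or.inr (Or.inr ⟨h6.mono (fun _ _ h => h) ?_, h5⟩)
          intro y _ hy
          rw [Set.mem_singleton_iff.1 hy]
          exact hfx
        · refine Or.inl (rp_Rho.2 ((h4.congr fun a _ b _ _ hab => Or.inr hab).mono ?_
            fun _ _ h => h))
          intro y _ hy
          rw [Set.mem_singleton_iff.1 hy]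
          exact ⟨hxB, hfx⟩
      · exact Or.inr (Or.inr h2)
      · exact Or.inl h2.2
  · rintro (h2 | h2 | h2)
    · exact Or.inr (Or.inr (Or.inr ⟨h1', h2⟩))
    · exact Or.inl (Or.inl h2)
    · exact Or.inr (Or.inr (Or.inl h2))

/-- The new digraph on `B` with `u`, paths starting at `u`. -/
theorem rp_new_u (h : Sep2 r V X Y u f A B) (q : Prop) :
    HP (newr r B u f q) (insert u B) {u} ↑Y ↔ HP r B {v | r u v} ↑Y := by
  obtain ⟨huB, hfB⟩ := rp_sB h
  rw [rp_cons huB h.hB]
  have hne : ∀ b ∈ B, b ≠ u := by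
    rintro b hb rfl
    exact huB hb
  refine rp_congr ?_ ?_
  · intro a _ b hb _
    simp only [newr]
    have := hne b hb
    tauto
  · intro b hb
    have := hne b hb
    simp only [newr, Set.mem_ofPred_eq]
    tauto

/-- The new digraph on `B` with `u`, paths starting in `B`. -/
theorem rp_new_B (h : Sep2 r V X Y u f A B) (q : Prop) :
    HP (newr r B u f q) (insert u B) {v | v ∈ B ∧ r f v} ↑Y ↔ Rho r B Y f u := by
  obtain ⟨huB, hfB⟩ := rp_sB h
  rw [rp_Rho]
  refine rp_congr ?_ fun _ _ => Iff.rfl
  intro a ha b hb hab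
  simp only [newr]
  rw [Finset.mem_insert] at ha
  by_cases hbu : b = u
  · subst hbu
    have haB : a ∈ B := by
      rcases ha with ha | ha
      · exact absurd ha hab
      · exact ha
    tauto
  · tauto

end

theorem rule5_pos {X Y : Finset α} (hs : Semi r V) (h2 : TwoStrong r V) (hc : Conn r V ↑X ↑Y 2)
    {u f : α} {A B : Finset α} (h : Sep2 r V X Y u f A B) (h1 : ¬ Lam r A X u f)
    (h1' : Lam r A X f u) (hp : HP r A ↑X {v | r v u}) :
    HP r V ↑X ↑Y ↔
      HP (newr r B u f (HP r (insert f A) ↑X {v | r v u})) (insert u (insert f B)) {u, f} ↑Y := by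
  obtain ⟨huB, hfB⟩ := rp_sB h
  rw [rp_claim hs h h1 h1']
  generalize hq : HP r (insert f A) ↑X {v | r v u} = q
  have huf : u ∉ insert f B := by
    rw [Finset.mem_insert, not_or]
    exact ⟨h.hst, huB⟩
  have hfu : f ∉ insert u B := by
    rw [Finset.mem_insert, not_or]
    exact ⟨h.hst.symm, hfB⟩
  have e1 : HP (newr r B u f q) (insert u (insert f B)) {u} ↑Y ↔
      HP r (insert f B) {v | r u v} ↑Y := by
    rw [rp_cons huf (Finset.insert_nonempty _ _)]
    have hne : ∀ b ∈ insert f B, b ≠ u := by
      rintro b hb rfl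
      exact huf hb
    refine rp_congr ?_ ?_
    · intro a _ b hb _
      simp only [newr]
      have := hne b hb
      tauto
    · intro b hb
      have := hne b hb
      simp only [newr, Set.mem_ofPred_eq]
      tauto
  have e2 : HP (newr r B u f q) (insert u (insert f B)) {f} ↑Y ↔
      (q ∧ HP r B {v | r u v} ↑Y) ∨ Rho r B Y f u := by
    rw [Finset.insert_comm, rp_cons hfu (Finset.insert_nonempty _ _), ← rp_new_u h q,
      ← rp_new_B h q]
    constructor
    · intro h2
      obtain ⟨x, hx, hfx, h4⟩ := rp_exists.1 h2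
      simp only [newr, Set.mem_ofPred_eq] at hfx
      rcases Finset.mem_insert.1 hx with hxu | hxB
      · subst hxu
        rcases hfx with hfx | hfx
        · rcases hfx.2 with h5 | h5
          · exact absurd h5 hfB
          · exact Or.inl ⟨h5.2, h4⟩
        · exact absurd rfl hfx.1
      · refine Or.inr (h4.mono ?_ fun _ _ h => h)
        intro y _ hy
        rw [Set.mem_singleton_iff.1 hy]
        refine ⟨hxB, ?_⟩
        rcases hfx with hfx | hfx
        · have := hfx.1
          subst this
          exact absurd hxB huB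
        · exact hfx.2
    · rintro (⟨h2, h3⟩ | h3)
      · refine h3.mono ?_ fun _ _ h => h
        intro y _ hy
        rw [Set.mem_singleton_iff.1 hy]
        exact Or.inl ⟨rfl, Or.inr ⟨rfl, h2⟩⟩
      · refine h3.mono ?_ fun _ _ h => h
        rintro y _ ⟨hyB, hy⟩
        refine Or.inr ⟨?_, hy⟩
        rintro rfl
        exact huB hyB
  have e3 : HP (newr r B u f q) (insert u (insert f B)) {u, f} ↑Y ↔
      HP (newr r B u f q) (insert u (insert f B)) {u} ↑Y ∨
      HP (newr r B u f q) (insert u (insert f B)) {f} ↑Y := by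
    constructor
    · intro h2
      obtain ⟨x, hx, hfx, h4⟩ := rp_exists.1 h2
      rcases hfx with hfx | hfx
      · rw [hfx] at h4
        exact Or.inl h4
      · rw [Set.mem_singleton_iff.1 hfx] at h4
        exact Or.inr h4
    · rintro (h2 | h2)
      · refine h2.mono ?_ fun _ _ h => h
        intro y _ hy
        exact Or.inl (Set.mem_singleton_iff.1 hy)
      · refine h2.mono ?_ fun _ _ h => h
        intro y _ hy
        exact Or.inr hy
  rw [e3, e1, e2]
  tauto

theorem rule5_neg {X Y : Finset α} (hs : Semi r V) (h2 : TwoStrong r V) (hc : Conn r V ↑X ↑Y 2)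
    {u f : α} {A B : Finset α} (h : Sep2 r V X Y u f A B) (h1 : ¬ Lam r A X u f)
    (h1' : Lam r A X f u) (hp : ¬ HP r A ↑X {v | r v u}) :
    HP r V ↑X ↑Y ↔
      HP (newr r B u f False) (insert u B)
        {x | (x ∈ B ∧ r f x) ∨ (x = u ∧ HP r (insert f A) ↑X {v | r v u})} ↑Y := by
  obtain ⟨huB, hfB⟩ := rp_sB h
  rw [rp_claim hs h h1 h1']
  generalize hq : HP r (insert f A) ↑X {v | r v u} = q
  have e : HP (newr r B u f False) (insert u B) {x | (x ∈ B ∧ r f x) ∨ (x = u ∧ q)} ↑Y ↔
      Rho r B Y f u ∨ (q ∧ HP r B {v | r u v} ↑Y) := by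
    rw [← rp_new_u h False, ← rp_new_B h False]
    constructor
    · intro h2
      obtain ⟨x, hx, hfx, h4⟩ := rp_exists.1 h2
      rcases hfx with hfx | hfx
      · refine Or.inl (h4.mono ?_ fun _ _ h => h)
        intro y _ hy
        rw [Set.mem_singleton_iff.1 hy]
        exact hfx
      · rw [hfx.1] at h4
        exact Or.inr ⟨hfx.2, h4⟩
    · rintro (h2 | ⟨h2, h3⟩)
      · exact h2.mono (fun x _ hx => Or.inl hx) fun _ _ h => h
      · refine h3.mono ?_ fun _ _ h => h
        intro y _ hy
        exact Or.inr ⟨Set.mem_singleton_iff.1 hy, h2⟩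
  rw [e]
  tauto

end Pool.Agent.Helper944_HC
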