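import Pool.Agent.Helper944_HC.Paths

/-!
# The fork theorem
-/

namespace Pool.Agent.Helper944_HC

variable {α : Type*} [DecidableEq α] {r : α → α → Prop} {V : Finset α} {T : Set α}

/-- Putting a vertex in front. -/
theorem fk_cons {W : Finset α} {S T : Set α} {x : α} (h : HP r W S T) (hx : x ∉ W)
    (hr : ∀ s ∈ S, r x s) : HP r (insert x W) {x} T := by
  have h1 : HP r ({x} : Finset α) {x} {x} := HP_singleton rfl rfl
  have h2 := h1.join h (by simpa using hx) (by
    intro t _ ht s _ hs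
    rw [Set.mem_singleton_iff.1 ht]
    exact hr s hs)
  have h3 : ({x} : Finset α) ∪ W = insert x W := by
    ext y; simp
  rwa [h3] at h2

/-- The three paths (the first one without its first vertex `a`) and the rest `W`. -/
structure FkC (r : α → α → Prop) (V W A B C : Finset α) (T : Set α) (a b c a2 a' b' c' : α) :
    Prop where
  hs : Semi r V
  mem : ∀ x, x ∈ V ↔ x = a ∨ x ∈ A ∨ x ∈ B ∨ x ∈ C ∨ x ∈ W
  aA : a ∉ A
  aB : a ∉ B
  aC : a ∉ C
  aW : a ∉ W
  AB : Disjoint A B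
  AC : Disjoint A C
  AW : Disjoint A W
  BC : Disjoint B C
  BW : Disjoint B W
  CW : Disjoint C W
  pA : HP r A {a2} {a'}
  pB : HP r B {b} {b'}
  pC : HP r C {c} {c'}
  ra2 : r a a2
  rac : r a c
  ta : a' ∈ T
  tb : b' ∈ T
  tc : c' ∈ T

section

variable {W A B C : Finset α} {a b c a2 a' b' c' : α}

theorem FkC.fin (h : FkC r V W A B C T a b c a2 a' b' c') {X : Finset α} {S U : Set α}
    (hp : HP r X S U) (hX : ∀ x, x ∈ X ↔ x = a ∨ x ∈ A ∨ x ∈ B ∨ x ∈ C ∨ x ∈ W)
    (hS : ∀ x ∈ S, x = a ∨ x = b) (hU : ∀ x ∈ U, x ∈ T) : HP r V {a, b} T := by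
  have hXV : X = V := by
    ext x
    rw [hX, h.mem]
  rw [hXV] at hp
  exact hp.mono (fun x _ hx => hS x hx) (fun x _ hx => hU x hx)

theorem FkC.semi (h : FkC r V W A B C T a b c a2 a' b' c') {X : Finset α}
    (hX : ∀ x ∈ X, x = a ∨ x ∈ A ∨ x ∈ B ∨ x ∈ C ∨ x ∈ W) : Semi r X :=
  h.hs.mono fun x hx => (h.mem x).2 (hX x hx)

theorem FkC.pAA (h : FkC r V W A B C T a b c a2 a' b' c') : HP r (insert a A) {a} {a'} :=
  fk_cons h.pA h.aA (by rintro s rfl; exact h.ra2)

/-- the path `a (A ∪ C)` -/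
theorem FkC.pAC (h : FkC r V W A B C T a b c a2 a' b' c') :
    HP r (insert a (A ∪ C)) {a} ({a'} ∪ {c'}) := by
  refine fk_cons (h.pA.merge h.pC h.AC (h.semi ?_)) ?_ ?_
  · intro x hx
    rw [Finset.mem_union] at hx
    tauto
  · have h1 := h.aA
    have h2 := h.aC
    rw [Finset.mem_union]
    tauto
  · rintro s (rfl | rfl)
    · exact h.ra2
    · exact h.rac

/-- `W` empty -/
theorem FkC.empty (h : FkC r V W A B C T a b c a2 a' b' c') (hW : W = ∅) :
    HP r V {a, b} T := by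
  subst hW
  have hd : Disjoint (insert a (A ∪ C)) B := by
    rw [Finset.disjoint_insert_left, Finset.disjoint_union_left]
    exact ⟨h.aB, h.AB, h.BC.symm⟩
  have hm := h.pAC.merge h.pB hd (h.semi (by
    intro x hx
    simp only [Finset.mem_union, Finset.mem_insert] at hx
    tauto))
  refine h.fin hm ?_ ?_ ?_
  · intro x
    simp only [Finset.mem_union, Finset.mem_insert, Finset.notMem_empty, or_false]
    tauto
  · rintro x (rfl | rfl)
    · exact Or.inl rfl
    · exact Or.inr rfl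
  · rintro x ((rfl | rfl) | rfl)
    · exact h.ta
    · exact h.tc
    · exact h.tb

/-- `A [W] C`, `B` merged -/
theorem FkC.patAC (h : FkC r V W A B C T a b c a2 a' b' c')
    (hp : HP r W {w | r a' w} {w | r w c}) : HP r V {a, b} T := by
  have h1 := h.pAA.join hp (by
    rw [Finset.disjoint_insert_left]
    exact ⟨h.aW, h.AW⟩) (by rintro t _ rfl s _ hs; exact hs)
  have h2 := h1.join h.pC (by
    rw [Finset.disjoint_union_left, Finset.disjoint_insert_left]
    exact ⟨⟨h.aC, h.AC⟩, h.CW.symm⟩) (by rintro t _ ht s _ rfl; exact ht)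
  have hd : Disjoint (insert a A ∪ W ∪ C) B := by
    rw [Finset.disjoint_union_left, Finset.disjoint_union_left, Finset.disjoint_insert_left]
    exact ⟨⟨⟨h.aB, h.AB⟩, h.BW.symm⟩, h.BC.symm⟩
  have hm := h2.merge h.pB hd (h.semi (by
    intro x hx
    simp only [Finset.mem_union, Finset.mem_insert] at hx
    tauto))
  refine h.fin hm ?_ ?_ ?_
  · intro x
    simp only [Finset.mem_union, Finset.mem_insert]
    tauto
  · rintro x (rfl | rfl)
    · exact Or.inl rfl
    · exact Or.inr rfl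
  · rintro x (rfl | rfl)
    · exact h.tc
    · exact h.tb

/-- `B [W] C`, `A` merged -/
theorem FkC.patBC (h : FkC r V W A B C T a b c a2 a' b' c')
    (hp : HP r W {w | r b' w} {w | r w c}) : HP r V {a, b} T := by
  have h1 := h.pB.join hp h.BW (by rintro t _ rfl s _ hs; exact hs)
  have h2 := h1.join h.pC (by
    rw [Finset.disjoint_union_left]
    exact ⟨h.BC, h.CW.symm⟩) (by rintro t _ ht s _ rfl; exact ht)
  have hd : Disjoint (B ∪ W ∪ C) (insert a A) := by
    rw [Finset.disjoint_union_left, Finset.disjoint_union_left, Finset.disjoint_insert_right,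
      Finset.disjoint_insert_right, Finset.disjoint_insert_right]
    exact ⟨⟨⟨h.aB, h.AB.symm⟩, h.aW, h.AW.symm⟩, h.aC, h.AC.symm⟩
  have hm := h2.merge h.pAA hd (h.semi (by
    intro x hx
    simp only [Finset.mem_union, Finset.mem_insert] at hx
    tauto))
  refine h.fin hm ?_ ?_ ?_
  · intro x
    simp only [Finset.mem_union, Finset.mem_insert]
    tauto
  · rintro x (rfl | rfl)
    · exact Or.inr rfl
    · exact Or.inl rfl
  · rintro x (rfl | rfl)
    · exact h.tc
    · exact h.ta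

/-- `A [W] B`, `C` merged behind `a` -/
theorem FkC.patAB (h : FkC r V W A B C T a b c a2 a' b' c')
    (hp : HP r W {w | r a' w} {w | r w b}) : HP r V {a, b} T := by
  have h1 := h.pA.join hp h.AW (by rintro t _ rfl s _ hs; exact hs)
  have h2 := h1.join h.pB (by
    rw [Finset.disjoint_union_left]
    exact ⟨h.AB, h.BW.symm⟩) (by rintro t _ ht s _ rfl; exact ht)
  have hd : Disjoint (A ∪ W ∪ B) C := by
    rw [Finset.disjoint_union_left, Finset.disjoint_union_left]
    exact ⟨⟨h.AC, h.CW.symm⟩, h.BC⟩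
  have hm := h2.merge h.pC hd (h.semi (by
    intro x hx
    simp only [Finset.mem_union] at hx
    tauto))
  have h3 := fk_cons (x := a) hm (by
    have h1 := h.aA
    have h2 := h.aB
    have h3 := h.aC
    have h4 := h.aW
    simp only [Finset.mem_union]
    tauto) (by
    rintro s (rfl | rfl)
    · exact h.ra2
    · exact h.rac)
  refine h.fin h3 ?_ ?_ ?_
  · intro x
    simp only [Finset.mem_union, Finset.mem_insert]
    tauto
  · rintro x rfl
    exact Or.inl rfl
  · rintro x (rfl | rfl)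
    · exact h.tb
    · exact h.tc

/-- `B [W] A`, `C` merged behind `a` -/
theorem FkC.patBA (h : FkC r V W A B C T a b c a2 a' b' c')
    (hp : HP r W {w | r b' w} {w | r w a}) : HP r V {a, b} T := by
  have h1 := h.pB.join hp h.BW (by rintro t _ rfl s _ hs; exact hs)
  have hd : Disjoint (B ∪ W) (insert a (A ∪ C)) := by
    rw [Finset.disjoint_union_left, Finset.disjoint_insert_right, Finset.disjoint_insert_right,
      Finset.disjoint_union_right, Finset.disjoint_union_right]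
    exact ⟨⟨h.aB, h.AB.symm, h.BC⟩, h.aW, h.AW.symm, h.CW.symm⟩
  have h2 := h1.join h.pAC hd (by rintro t _ ht s _ rfl; exact ht)
  refine h.fin h2 ?_ ?_ ?_
  · intro x
    simp only [Finset.mem_union, Finset.mem_insert]
    tauto
  · rintro x rfl
    exact Or.inr rfl
  · rintro x (rfl | rfl)
    · exact h.ta
    · exact h.tc

/-- `C [W] B`, merged with the tail of `A`, behind `a` -/
theorem FkC.patCB (h : FkC r V W A B C T a b c a2 a' b' c')
    (hp : HP r W {w | r c' w} {w | r w b}) : HP r V {a, b} T := by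
  have h1 := h.pC.join hp h.CW (by rintro t _ rfl s _ hs; exact hs)
  have h2 := h1.join h.pB (by
    rw [Finset.disjoint_union_left]
    exact ⟨h.BC.symm, h.BW.symm⟩) (by rintro t _ ht s _ rfl; exact ht)
  have hd : Disjoint (C ∪ W ∪ B) A := by
    rw [Finset.disjoint_union_left, Finset.disjoint_union_left]
    exact ⟨⟨h.AC.symm, h.AW.symm⟩, h.AB.symm⟩
  have hm := h2.merge h.pA hd (h.semi (by
    intro x hx
    simp only [Finset.mem_union] at hx
    tauto))
  have h3 := fk_cons (x := a) hm (by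
    have h1 := h.aA
    have h2 := h.aB
    have h3 := h.aC
    have h4 := h.aW
    simp only [Finset.mem_union]
    tauto) (by
    rintro s (rfl | rfl)
    · exact h.rac
    · exact h.ra2)
  refine h.fin h3 ?_ ?_ ?_
  · intro x
    simp only [Finset.mem_union, Finset.mem_insert]
    tauto
  · rintro x rfl
    exact Or.inl rfl
  · rintro x (rfl | rfl)
    · exact h.tb
    · exact h.ta

/-- `a C [W] A`, `B` merged -/
theorem FkC.patCA (h : FkC r V W A B C T a b c a2 a' b' c')
    (hp : HP r W {w | r c' w} {w | r w a2}) : HP r V {a, b} T := by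
  have h1 := h.pC.join hp h.CW (by rintro t _ rfl s _ hs; exact hs)
  have h2 := h1.join h.pA (by
    rw [Finset.disjoint_union_left]
    exact ⟨h.AC.symm, h.AW.symm⟩) (by rintro t _ ht s _ rfl; exact ht)
  have h3 := fk_cons (x := a) h2 (by
    have h1 := h.aA
    have h3 := h.aC
    have h4 := h.aW
    simp only [Finset.mem_union]
    tauto) (by
    rintro s rfl
    exact h.rac)
  have hd : Disjoint (insert a (C ∪ W ∪ A)) B := by
    rw [Finset.disjoint_insert_left, Finset.disjoint_union_left, Finset.disjoint_union_left]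
    exact ⟨h.aB, ⟨h.BC.symm, h.BW.symm⟩, h.AB⟩
  have hm := h3.merge h.pB hd (h.semi (by
    intro x hx
    simp only [Finset.mem_union, Finset.mem_insert] at hx
    tauto))
  refine h.fin hm ?_ ?_ ?_
  · intro x
    simp only [Finset.mem_union, Finset.mem_insert]
    tauto
  · rintro x (rfl | rfl)
    · exact Or.inl rfl
    · exact Or.inr rfl
  · rintro x (rfl | rfl)
    · exact h.ta
    · exact h.tb

/-- a path through five sets -/
theorem fk_five {X Y Z D E : Finset α} {S : Set α} {x' y y' z z' : α} (hX : HP r X S {x'})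
    (hY : HP r Y {y} {y'}) (hZ : HP r Z {z} {z'}) (hD : HP r D {w | r x' w} {w | r w y})
    (hE : HP r E {w | r y' w} {w | r w z}) (XD : Disjoint X D) (XY : Disjoint X Y)
    (XE : Disjoint X E) (XZ : Disjoint X Z) (DY : Disjoint D Y) (DE : Disjoint D E)
    (DZ : Disjoint D Z) (YE : Disjoint Y E) (YZ : Disjoint Y Z) (EZ : Disjoint E Z) :
    HP r (X ∪ D ∪ Y ∪ E ∪ Z) S {z'} := by
  have h1 := hX.join hD XD (by rintro t _ rfl s _ hs; exact hs)
  have h2 := h1.join hY (by
    rw [Finset.disjoint_union_left]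
    exact ⟨XY, DY⟩) (by rintro t _ ht s _ rfl; exact ht)
  have h3 := h2.join hE (by
    rw [Finset.disjoint_union_left, Finset.disjoint_union_left]
    exact ⟨⟨XE, DE⟩, YE⟩) (by rintro t _ rfl s _ hs; exact hs)
  exact h3.join hZ (by
    rw [Finset.disjoint_union_left, Finset.disjoint_union_left, Finset.disjoint_union_left]
    exact ⟨⟨⟨XZ, DZ⟩, YZ⟩, EZ⟩) (by rintro t _ ht s _ rfl; exact ht)

variable {D : Finset α}

/-- `B [D] A [W \ D] C` -/
theorem FkC.patBAC (h : FkC r V W A B C T a b c a2 a' b' c') (hDW : D ⊆ W)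
    (hD : HP r D {w | r b' w} {w | r w a}) (hE : HP r (W \ D) {w | r a' w} {w | r w c}) :
    HP r V {a, b} T := by
  have hEW : W \ D ⊆ W := Finset.sdiff_subset
  have h1 := fk_five h.pB h.pAA h.pC hD hE (h.BW.mono_right hDW)
    (by rw [Finset.disjoint_insert_right]; exact ⟨h.aB, h.AB.symm⟩)
    (h.BW.mono_right hEW) h.BC
    (by rw [Finset.disjoint_insert_right]; exact ⟨fun hh => h.aW (hDW hh), (h.AW.mono_right hDW).symm⟩)
    Finset.disjoint_sdiff (h.CW.mono_right hDW).symm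
    (by rw [Finset.disjoint_insert_left]; exact ⟨fun hh => h.aW (hEW hh), h.AW.mono_right hEW⟩)
    (by rw [Finset.disjoint_insert_left]; exact ⟨h.aC, h.AC⟩) (h.CW.mono_right hEW).symm
  refine h.fin h1 ?_ ?_ ?_
  · intro x
    have : x ∈ W ↔ x ∈ D ∨ (x ∈ W ∧ x ∉ D) := by
      constructor
      · intro hx; tauto
      · rintro (hx | hx)
        · exact hDW hx
        · exact hx.1
    simp only [Finset.mem_union, Finset.mem_insert, Finset.mem_sdiff]
    tauto
  · rintro x rfl
    exact Or.inr rfl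
  · rintro x rfl
    exact h.tc

/-- `a C [D] A [W \ D] B` -/
theorem FkC.patCAB (h : FkC r V W A B C T a b c a2 a' b' c') (hDW : D ⊆ W)
    (hD : HP r D {w | r c' w} {w | r w a2}) (hE : HP r (W \ D) {w | r a' w} {w | r w b}) :
    HP r V {a, b} T := by
  have hEW : W \ D ⊆ W := Finset.sdiff_subset
  have h1 := fk_five h.pC h.pA h.pB hD hE (h.CW.mono_right hDW)
    h.AC.symm (h.CW.mono_right hEW) h.BC.symm (h.AW.mono_right hDW).symm
    Finset.disjoint_sdiff (h.BW.mono_right hDW).symm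
    (h.AW.mono_right hEW) h.AB (h.BW.mono_right hEW).symm
  have h2 := fk_cons (x := a) h1 (by
    have h1 := h.aA
    have h2 := h.aB
    have h3 := h.aC
    have h4 := h.aW
    have h5 : a ∉ D := fun hh => h4 (hDW hh)
    simp only [Finset.mem_union, Finset.mem_sdiff]
    tauto) (by
    rintro s rfl
    exact h.rac)
  refine h.fin h2 ?_ ?_ ?_
  · intro x
    have : x ∈ W ↔ x ∈ D ∨ (x ∈ W ∧ x ∉ D) := by
      constructor
      · intro hx; tauto
      · rintro (hx | hx)
        · exact hDW hx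
        · exact hx.1
    simp only [Finset.mem_union, Finset.mem_insert, Finset.mem_sdiff]
    tauto
  · rintro x rfl
    exact Or.inl rfl
  · rintro x rfl
    exact h.tb

/-- `A [D] B [W \ D] C` -/
theorem FkC.patABC (h : FkC r V W A B C T a b c a2 a' b' c') (hDW : D ⊆ W)
    (hD : HP r D {w | r a' w} {w | r w b}) (hE : HP r (W \ D) {w | r b' w} {w | r w c}) :
    HP r V {a, b} T := by
  have hEW : W \ D ⊆ W := Finset.sdiff_subset
  have h1 := fk_five h.pAA h.pB h.pC hD hE
    (by rw [Finset.disjoint_insert_left]; exact ⟨fun hh => h.aW (hDW hh), h.AW.mono_right hDW⟩)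
    (by rw [Finset.disjoint_insert_left]; exact ⟨h.aB, h.AB⟩)
    (by rw [Finset.disjoint_insert_left]; exact ⟨fun hh => h.aW (hEW hh), h.AW.mono_right hEW⟩)
    (by rw [Finset.disjoint_insert_left]; exact ⟨h.aC, h.AC⟩)
    (h.BW.mono_right hDW).symm Finset.disjoint_sdiff (h.CW.mono_right hDW).symm
    (h.BW.mono_right hEW) h.BC (h.CW.mono_right hEW).symm
  refine h.fin h1 ?_ ?_ ?_
  · intro x
    have : x ∈ W ↔ x ∈ D ∨ (x ∈ W ∧ x ∉ D) := by
      constructor
      · intro hx; tauto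
      · rintro (hx | hx)
        · exact hDW hx
        · exact hx.1
    simp only [Finset.mem_union, Finset.mem_insert, Finset.mem_sdiff]
    tauto
  · rintro x rfl
    exact Or.inl rfl
  · rintro x rfl
    exact h.tc

/-- `a C [D] B [W \ D] A` -/
theorem FkC.patCBA (h : FkC r V W A B C T a b c a2 a' b' c') (hDW : D ⊆ W)
    (hD : HP r D {w | r c' w} {w | r w b}) (hE : HP r (W \ D) {w | r b' w} {w | r w a2}) :
    HP r V {a, b} T := by
  have hEW : W \ D ⊆ W := Finset.sdiff_subset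
  have h1 := fk_five h.pC h.pB h.pA hD hE (h.CW.mono_right hDW)
    h.BC.symm (h.CW.mono_right hEW) h.AC.symm (h.BW.mono_right hDW).symm
    Finset.disjoint_sdiff (h.AW.mono_right hDW).symm
    (h.BW.mono_right hEW) h.AB.symm (h.AW.mono_right hEW).symm
  have h2 := fk_cons (x := a) h1 (by
    have h1 := h.aA
    have h2 := h.aB
    have h3 := h.aC
    have h4 := h.aW
    have h5 : a ∉ D := fun hh => h4 (hDW hh)
    simp only [Finset.mem_union, Finset.mem_sdiff]
    tauto) (by
    rintro s rfl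
    exact h.rac)
  refine h.fin h2 ?_ ?_ ?_
  · intro x
    have : x ∈ W ↔ x ∈ D ∨ (x ∈ W ∧ x ∉ D) := by
      constructor
      · intro hx; tauto
      · rintro (hx | hx)
        · exact hDW hx
        · exact hx.1
    simp only [Finset.mem_union, Finset.mem_insert, Finset.mem_sdiff]
    tauto
  · rintro x rfl
    exact Or.inl rfl
  · rintro x rfl
    exact h.ta

/-- `A [D] C [W \ D] B` -/
theorem FkC.patACB (h : FkC r V W A B C T a b c a2 a' b' c') (hDW : D ⊆ W)
    (hD : HP r D {w | r a' w} {w | r w c}) (hE : HP r (W \ D) {w | r c' w} {w | r w b}) :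
    HP r V {a, b} T := by
  have hEW : W \ D ⊆ W := Finset.sdiff_subset
  have h1 := fk_five h.pAA h.pC h.pB hD hE
    (by rw [Finset.disjoint_insert_left]; exact ⟨fun hh => h.aW (hDW hh), h.AW.mono_right hDW⟩)
    (by rw [Finset.disjoint_insert_left]; exact ⟨h.aC, h.AC⟩)
    (by rw [Finset.disjoint_insert_left]; exact ⟨fun hh => h.aW (hEW hh), h.AW.mono_right hEW⟩)
    (by rw [Finset.disjoint_insert_left]; exact ⟨h.aB, h.AB⟩)
    (h.CW.mono_right hDW).symm Finset.disjoint_sdiff (h.BW.mono_right hDW).symm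
    (h.CW.mono_right hEW) h.BC.symm (h.BW.mono_right hEW).symm
  refine h.fin h1 ?_ ?_ ?_
  · intro x
    have : x ∈ W ↔ x ∈ D ∨ (x ∈ W ∧ x ∉ D) := by
      constructor
      · intro hx; tauto
      · rintro (hx | hx)
        · exact hDW hx
        · exact hx.1
    simp only [Finset.mem_union, Finset.mem_insert, Finset.mem_sdiff]
    tauto
  · rintro x rfl
    exact Or.inl rfl
  · rintro x rfl
    exact h.tb

/-- `B [D] C [W \ D] A` -/
theorem FkC.patBCA (h : FkC r V W A B C T a b c a2 a' b' c') (hDW : D ⊆ W)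
    (hD : HP r D {w | r b' w} {w | r w c}) (hE : HP r (W \ D) {w | r c' w} {w | r w a}) :
    HP r V {a, b} T := by
  have hEW : W \ D ⊆ W := Finset.sdiff_subset
  have h1 := fk_five h.pB h.pC h.pAA hD hE (h.BW.mono_right hDW) h.BC
    (h.BW.mono_right hEW)
    (by rw [Finset.disjoint_insert_right]; exact ⟨h.aB, h.AB.symm⟩)
    (h.CW.mono_right hDW).symm Finset.disjoint_sdiff
    (by rw [Finset.disjoint_insert_right]; exact ⟨fun hh => h.aW (hDW hh), (h.AW.mono_right hDW).symm⟩)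
    (h.CW.mono_right hEW)
    (by rw [Finset.disjoint_insert_right]; exact ⟨h.aC, h.AC.symm⟩)
    (by rw [Finset.disjoint_insert_right]; exact ⟨fun hh => h.aW (hEW hh), (h.AW.mono_right hEW).symm⟩)
  refine h.fin h1 ?_ ?_ ?_
  · intro x
    have : x ∈ W ↔ x ∈ D ∨ (x ∈ W ∧ x ∉ D) := by
      constructor
      · intro hx; tauto
      · rintro (hx | hx)
        · exact hDW hx
        · exact hx.1
    simp only [Finset.mem_union, Finset.mem_insert, Finset.mem_sdiff]
    tauto
  · rintro x rfl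
    exact Or.inr rfl
  · rintro x rfl
    exact h.ta

/-! ### Facts on the rest -/

/-- A vertex of `W` not dominated by the last vertex dominates the path. -/
theorem fk_notL {P : Finset α} {p q : α} (hs : Semi r V) (hP : P ⊆ V) (hW : W ⊆ V)
    (hd : Disjoint P W) (h : PD r W P p q) {w : α} (hw : w ∈ W) (hq : ¬ r q w) :
    ∀ x ∈ P, r w x := by
  intro x hx
  have hne : w ≠ x := by
    rintro rfl
    exact Finset.disjoint_left.1 hd hx hw
  rcases hs w (hW hw) x (hP hx) hne with h1 | h1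
  · exact h1
  · exact absurd (h.hout w hw ⟨x, hx, h1⟩) hq

/-- A vertex of `W` not dominating the first vertex is dominated by the path. -/
theorem fk_notF {P : Finset α} {p q : α} (hs : Semi r V) (hP : P ⊆ V) (hW : W ⊆ V)
    (hd : Disjoint P W) (h : PD r W P p q) {w : α} (hw : w ∈ W) (hp : ¬ r w p) :
    ∀ x ∈ P, r x w := by
  intro x hx
  have hne : w ≠ x := by
    rintro rfl
    exact Finset.disjoint_left.1 hd hx hw
  rcases hs w (hW hw) x (hP hx) hne with h1 | h1
  · exact absurd (h.hin w hw ⟨x, hx, h1⟩) hp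
  · exact h1

/-- The first vertex of a path lies on it. -/
theorem fk_first {P : Finset α} {p : α} {S : Set α} (h : HP r P {p} S) : p ∈ P := by
  obtain ⟨l, hl, ⟨x, hx, hxS⟩, _⟩ := h
  rw [Set.mem_singleton_iff] at hxS
  subst hxS
  exact (hl.mem x).1 (List.mem_of_mem_head? hx)

/-- The last vertex of a path lies on it. -/
theorem fk_last {P : Finset α} {q : α} {S : Set α} (h : HP r P S {q}) : q ∈ P := by
  obtain ⟨l, hl, _, ⟨y, hy, hyT⟩⟩ := h
  rw [Set.mem_singleton_iff] at hyT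
  subst hyT
  exact (hl.mem y).1 (List.mem_of_mem_getLast? hy)

/-- `To` in terms of the last component. -/
theorem fk_to {K : Finset α} (hK : ∀ D ⊆ W, D.Nonempty → Cl r W D → K ⊆ D) {F : Set α}
    (h : ∃ k ∈ K, k ∈ F) : To r W F := by
  intro U hU hne hUF
  by_contra hcon
  push Not at hcon
  have hcl : Cl r W U := by
    intro u hu v hv huv
    by_contra hvU
    exact hcon u hu v (Finset.mem_sdiff.2 ⟨hv, hvU⟩) huv
  obtain ⟨k, hk, hkF⟩ := h
  exact hUF k (hK U hU hne hcl hk) hkF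

/-- `From` in terms of the first component. -/
theorem fk_from {K : Finset α} (hK : ∀ D ⊆ W, D.Nonempty → Cl (fun a b => r b a) W D → K ⊆ D)
    {L : Set α} (h : ∃ k ∈ K, k ∈ L) : From r W L := by
  intro U hU hne hUF
  by_contra hcon
  push Not at hcon
  have hcl : Cl (fun a b => r b a) W U := by
    intro u hu v hv huv
    by_contra hvU
    exact hcon v (Finset.mem_sdiff.2 ⟨hv, hvU⟩) u hu huv
  obtain ⟨k, hk, hkF⟩ := h
  exact hUF k (hK U hU hne hcl hk) hkF

theorem fk_not_from {K : Finset α} (hKW : K ⊆ W) (hKne : K.Nonempty)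
    (hKc : Cl (fun a b => r b a) W K) {L : Set α} (h : ¬ ∃ k ∈ K, k ∈ L) : fwd r W L ≠ W := by
  have hcl : Cl r W (W \ K) := by
    intro u hu v hv huv
    rw [Finset.mem_sdiff] at hu ⊢
    exact ⟨hv, fun hvK => hu.2 (hKc v hvK u hu.1 huv)⟩
  have hsub : fwd r W L ⊆ W \ K := fwd_min Finset.sdiff_subset (by
    intro x hx hxL
    rw [Finset.mem_sdiff]
    exact ⟨hx, fun hxK => h ⟨x, hxK, hxL⟩⟩) hcl
  intro he
  obtain ⟨k, hk⟩ := hKne
  have h1 := hKW hk
  rw [← he] at h1
  exact (Finset.mem_sdiff.1 (hsub h1)).2 hk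

/-- the piece `[D_j]` -/
theorem fk_D (hs : Semi r W) {K : Finset α} (hKW : K ⊆ W) (hKne : K.Nonempty) (hKc : Cl r W K)
    (hK : ∀ D ⊆ W, D.Nonempty → Cl r W D → K ⊆ D) {L F : Set α} (hL : ∀ k ∈ K, k ∈ L)
    (hF : To r W F) : HP r (fwd r W L) L F := by
  have hne : (fwd r W L).Nonempty := by
    obtain ⟨k, hk⟩ := hKne
    exact ⟨k, subset_fwd k (hKW hk) (hL k hk)⟩
  refine HP_fwd hs hne hF ?_
  intro hst v hv
  have hKD : K ⊆ fwd r W L := hK _ fwd_subset hne fwd_cl
  by_cases hE : K = fwd r W L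
  · exact hL v (hE ▸ hv)
  · obtain ⟨x, hx, y, hy, hxy⟩ := hst K hKD hKne hE
    rw [Finset.mem_sdiff] at hy
    exact absurd (hKc x hx y (fwd_subset hy.1) hxy) hy.2

/-- the piece `[W \ D_j]` -/
theorem fk_E (hs : Semi r W) {L S F : Set α} (hS : From r W S) (hne : fwd r W L ≠ W)
    (hF : ∀ w ∈ W \ fwd r W L, w ∈ F) : HP r (W \ fwd r W L) S F := by
  have h1 : (W \ fwd r W L).Nonempty := by
    rw [Finset.sdiff_nonempty]
    intro h
    exact hne (Finset.Subset.antisymm fwd_subset h)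
  have h2 := HP_start (hs.mono Finset.sdiff_subset) h1 (hS.compl fwd_subset fwd_cl)
  exact h2.mono (fun _ _ h => h) (fun y hy _ => hF y hy)

theorem fk_out (h : FkC r V W A B C T a b c a2 a' b' c') {x : α} (hx : x ∈ V) (hxW : x ∉ W) :
    x ∈ insert a A ∨ x ∈ B ∨ x ∈ C := by
  have h1 := (h.mem x).1 hx
  rw [Finset.mem_insert]
  rcases h1 with h1 | h1 | h1 | h1 | h1
  · exact Or.inl (Or.inl h1)
  · exact Or.inl (Or.inr h1)
  · exact Or.inr (Or.inl h1)
  · exact Or.inr (Or.inr h1)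
  · exact absurd h1 hxW

theorem FkC.sub (h : FkC r V W A B C T a b c a2 a' b' c') :
    a ∈ V ∧ A ⊆ V ∧ B ⊆ V ∧ C ⊆ V ∧ W ⊆ V ∧ insert a A ⊆ V ∧ Disjoint (insert a A) W := by
  refine ⟨(h.mem a).2 (Or.inl rfl), fun x hx => (h.mem x).2 (Or.inr (Or.inl hx)),
    fun x hx => (h.mem x).2 (Or.inr (Or.inr (Or.inl hx))),
    fun x hx => (h.mem x).2 (Or.inr (Or.inr (Or.inr (Or.inl hx)))),
    fun x hx => (h.mem x).2 (Or.inr (Or.inr (Or.inr (Or.inr hx)))), ?_, ?_⟩
  · intro x hx
    rw [Finset.mem_insert] at hx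
    rcases hx with hx | hx
    · exact (h.mem x).2 (Or.inl hx)
    · exact (h.mem x).2 (Or.inr (Or.inl hx))
  · rw [Finset.disjoint_insert_left]
    exact ⟨h.aW, h.AW⟩

/-- the case of strong `W` -/
theorem fk_strong (ctx : FkC r V W A B C T a b c a2 a' b' c') (hst : Strong r V)
    (hA : PD r W (insert a A) a a') (hB : PD r W B b b') (hC : PD r W C c c')
    (hWne : W.Nonempty) (hWs : Strong r W) : HP r V {a, b} T := by
  classical
  obtain ⟨haV, hAV0, hBV, hCV, hWV, hAV, dAW⟩ := ctx.sub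
  have hs := ctx.hs
  have hsW : Semi r W := hs.mono hWV
  have dBW := ctx.BW
  have dCW := ctx.CW
  have haW := ctx.aW
  have nLA := fun {w : α} (hw : w ∈ W) (h : ¬ r a' w) => fk_notL hs hAV hWV dAW hA hw h
  have nLB := fun {w : α} (hw : w ∈ W) (h : ¬ r b' w) => fk_notL hs hBV hWV dBW hB hw h
  have nLC := fun {w : α} (hw : w ∈ W) (h : ¬ r c' w) => fk_notL hs hCV hWV dCW hC hw h
  have haA : a ∈ insert a A := Finset.mem_insert_self a A
  have hbB : b ∈ B := fk_first hB.hp
  have hcC : c ∈ C := fk_first hC.hp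
  obtain ⟨σ, hσ1, hσ2, -, hσ4⟩ := ham_succ hsW hWs hWne
  by_contra hcon
  have hAB' : ∀ v ∈ W, r v b → ¬ r a' (σ v) := fun v hv h1 h2 => hcon (ctx.patAB
    ((hσ2 v hv).mono (by rintro x _ rfl; exact h2) (by rintro x _ rfl; exact h1)))
  have hBA' : ∀ v ∈ W, r v a → ¬ r b' (σ v) := fun v hv h1 h2 => hcon (ctx.patBA
    ((hσ2 v hv).mono (by rintro x _ rfl; exact h2) (by rintro x _ rfl; exact h1)))
  have hAC' : ∀ v ∈ W, r v c → ¬ r a' (σ v) := fun v hv h1 h2 => hcon (ctx.patAC
    ((hσ2 v hv).mono (by rintro x _ rfl; exact h2) (by rintro x _ rfl; exact h1)))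
  have hBC' : ∀ v ∈ W, r v c → ¬ r b' (σ v) := fun v hv h1 h2 => hcon (ctx.patBC
    ((hσ2 v hv).mono (by rintro x _ rfl; exact h2) (by rintro x _ rfl; exact h1)))
  have hCB' : ∀ v ∈ W, r v b → ¬ r c' (σ v) := fun v hv h1 h2 => hcon (ctx.patCB
    ((hσ2 v hv).mono (by rintro x _ rfl; exact h2) (by rintro x _ rfl; exact h1)))
  clear hcon
  set Fa := W.filter (fun w => r w a) with hFa
  set Fb := W.filter (fun w => r w b) with hFb
  set Fc := W.filter (fun w => r w c) with hFc
  have i1 : Fb.image σ ⊆ Fa := by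
    intro y hy
    obtain ⟨v, hv, rfl⟩ := Finset.mem_image.1 hy
    rw [hFb, Finset.mem_filter] at hv
    rw [hFa, Finset.mem_filter]
    have hσv := (hσ1 v).1 hv.1
    exact ⟨hσv, nLA hσv (hAB' v hv.1 hv.2) a haA⟩
  have i2 : Fa.image σ ⊆ Fb := by
    intro y hy
    obtain ⟨v, hv, rfl⟩ := Finset.mem_image.1 hy
    rw [hFa, Finset.mem_filter] at hv
    rw [hFb, Finset.mem_filter]
    have hσv := (hσ1 v).1 hv.1
    exact ⟨hσv, nLB hσv (hBA' v hv.1 hv.2) b hbB⟩
  have i3 : Fc.image σ ⊆ Fa ∩ Fb := by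
    intro y hy
    obtain ⟨v, hv, rfl⟩ := Finset.mem_image.1 hy
    rw [hFc, Finset.mem_filter] at hv
    rw [Finset.mem_inter, hFa, hFb, Finset.mem_filter, Finset.mem_filter]
    have hσv := (hσ1 v).1 hv.1
    exact ⟨⟨hσv, nLA hσv (hAC' v hv.1 hv.2) a haA⟩, hσv, nLB hσv (hBC' v hv.1 hv.2) b hbB⟩
  have i4 : Fb.image σ ⊆ Fc := by
    intro y hy
    obtain ⟨v, hv, rfl⟩ := Finset.mem_image.1 hy
    rw [hFb, Finset.mem_filter] at hv
    rw [hFc, Finset.mem_filter]
    have hσv := (hσ1 v).1 hv.1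
    exact ⟨hσv, nLC hσv (hCB' v hv.1 hv.2) c hcC⟩
  have c1 := Finset.card_le_card i1
  have c2 := Finset.card_le_card i2
  have c3 := Finset.card_le_card i3
  rw [Finset.card_image_of_injective _ σ.injective] at c1 c2 c3
  have e1 : Fb.image σ = Fa := Finset.eq_of_subset_of_card_le i1 (by
    rw [Finset.card_image_of_injective _ σ.injective]; exact c2)
  have i5 : Fa ⊆ Fc := e1 ▸ i4
  have c4 := Finset.card_le_card (Finset.inter_subset_left : Fa ∩ Fb ⊆ Fa)
  have c5 := Finset.card_le_card i5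
  have e2 : Fa = Fc := Finset.eq_of_subset_of_card_le i5 (c3.trans c4)
  have e3 : Fa ∩ Fb = Fa := Finset.eq_of_subset_of_card_le Finset.inter_subset_left (by omega)
  have i6 : Fa ⊆ Fb := by
    rw [← e3]
    exact Finset.inter_subset_right
  have e4 : Fa = Fb := Finset.eq_of_subset_of_card_le i6 c1
  rcases Fa.eq_empty_or_nonempty with hE | hE
  · -- no arc leaves `W`
    obtain ⟨u, hu, w, hw, huw⟩ := hst W hWV hWne (by
      intro h
      exact haW (h ▸ haV))
    rw [Finset.mem_sdiff] at hw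
    rcases fk_out ctx hw.1 hw.2 with h | h | h
    · have : u ∈ Fa := Finset.mem_filter.2 ⟨hu, hA.hin u hu ⟨w, h, huw⟩⟩
      rw [hE] at this
      exact absurd this (Finset.notMem_empty u)
    · have : u ∈ Fb := Finset.mem_filter.2 ⟨hu, hB.hin u hu ⟨w, h, huw⟩⟩
      rw [← e4, hE] at this
      exact absurd this (Finset.notMem_empty u)
    · have : u ∈ Fc := Finset.mem_filter.2 ⟨hu, hC.hin u hu ⟨w, h, huw⟩⟩
      rw [← e2, hE] at this
      exact absurd this (Finset.notMem_empty u)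
  · -- no arc enters `W`
    have hFW : Fa = W := hσ4 Fa (Finset.filter_subset _ _) hE (by
      intro v hv
      have := i2 (Finset.mem_image_of_mem σ hv)
      rwa [← e4] at this)
    obtain ⟨u, hu, w, hw, huw⟩ := hst (V \ W) Finset.sdiff_subset
      ⟨a, Finset.mem_sdiff.2 ⟨haV, haW⟩⟩ (by
      intro h
      obtain ⟨x, hx⟩ := hWne
      have := hWV hx
      rw [← h, Finset.mem_sdiff] at this
      exact this.2 hx)
    rw [Finset.mem_sdiff] at hu
    rw [Finset.sdiff_sdiff_eq_self hWV] at hw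
    have hσs : σ (σ.symm w) = w := σ.apply_symm_apply w
    have hv : σ.symm w ∈ W := (hσ1 _).2 (by rw [hσs]; exact hw)
    have hva : r (σ.symm w) a := by
      have h : σ.symm w ∈ Fa := by rw [hFW]; exact hv
      exact (Finset.mem_filter.1 h).2
    have hvb : r (σ.symm w) b := by
      have h : σ.symm w ∈ Fb := by rw [← e4, hFW]; exact hv
      exact (Finset.mem_filter.1 h).2
    rcases fk_out ctx hu.1 hu.2 with h | h | h
    · have := hAB' _ hv hvb
      rw [hσs] at this
      exact this (hA.hout w hw ⟨u, h, huw⟩)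
    · have := hBA' _ hv hva
      rw [hσs] at this
      exact this (hB.hout w hw ⟨u, h, huw⟩)
    · have := hCB' _ hv hvb
      rw [hσs] at this
      exact this (hC.hout w hw ⟨u, h, huw⟩)

/-- the case of `W` not strong -/
theorem fk_nonstrong (ctx : FkC r V W A B C T a b c a2 a' b' c') (hst : Strong r V)
    (hA : PD r W (insert a A) a a') (hA' : PD r W A a2 a') (hB : PD r W B b b')
    (hC : PD r W C c c')
    (hT : ∀ w ∈ W, w ∈ T → ∀ x, x ∈ insert a A ∨ x ∈ B ∨ x ∈ C → ¬ r x w)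
    (h2 : ∀ U ⊆ V.erase a, U.Nonempty → (∀ u ∈ U, u ∉ T) → ∃ u ∈ U, ∃ w ∈ V.erase a \ U, r u w)
    (hWne : W.Nonempty) (hWs : ¬ Strong r W) : HP r V {a, b} T := by
  obtain ⟨haV, hAV0, hBV, hCV, hWV, hAV, dAW⟩ := ctx.sub
  have hs := ctx.hs
  have hsW : Semi r W := hs.mono hWV
  have dBW := ctx.BW
  have dCW := ctx.CW
  have haW := ctx.aW
  have haA : a ∈ insert a A := Finset.mem_insert_self a A
  have hbB : b ∈ B := fk_first hB.hp
  have hcC : c ∈ C := fk_first hC.hp
  have ha2A : a2 ∈ insert a A := Finset.mem_insert_of_mem (fk_first hA'.hp)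
  have ha'A : a' ∈ insert a A := fk_last hA.hp
  have ha'A' : a' ∈ A := fk_last hA'.hp
  have hb'B : b' ∈ B := fk_last hB.hp
  have hc'C : c' ∈ C := fk_last hC.hp
  obtain ⟨K, hKW, hKne, hKc, -, hKm⟩ := exists_last hsW hWne
  obtain ⟨K1, hK1W, hK1ne, hK1c, -, hK1m⟩ := exists_first hsW hWne
  -- `J` is not empty
  have hJ : (∃ k ∈ K, r k a) ∨ (∃ k ∈ K, r k b) ∨ ∃ k ∈ K, r k c := by
    obtain ⟨u, hu, w, hw, huw⟩ := hst K (hKW.trans hWV) hKne (by
      intro h
      exact haW (hKW (h ▸ haV)))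
    rw [Finset.mem_sdiff] at hw
    have hwW : w ∉ W := fun h => hw.2 (hKc u hu w h huw)
    rcases fk_out ctx hw.1 hwW with h | h | h
    · exact Or.inl ⟨u, hu, hA.hin u (hKW hu) ⟨w, h, huw⟩⟩
    · exact Or.inr (Or.inl ⟨u, hu, hB.hin u (hKW hu) ⟨w, h, huw⟩⟩)
    · exact Or.inr (Or.inr ⟨u, hu, hC.hin u (hKW hu) ⟨w, h, huw⟩⟩)
  -- `I` is not empty
  have hI : (∃ k ∈ K1, r a' k) ∨ (∃ k ∈ K1, r b' k) ∨ ∃ k ∈ K1, r c' k := by
    obtain ⟨u, hu, w, hw, huw⟩ := hst (V \ K1) Finset.sdiff_subset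
      ⟨a, Finset.mem_sdiff.2 ⟨haV, fun h => haW (hK1W h)⟩⟩ (by
      intro h
      obtain ⟨x, hx⟩ := hK1ne
      have := hWV (hK1W hx)
      rw [← h, Finset.mem_sdiff] at this
      exact this.2 hx)
    rw [Finset.mem_sdiff] at hu
    rw [Finset.sdiff_sdiff_eq_self (hK1W.trans hWV)] at hw
    have huW : u ∉ W := fun h => hu.2 (hK1c w hw u h huw)
    rcases fk_out ctx hu.1 huW with h | h | h
    · exact Or.inl ⟨w, hw, hA.hout w (hK1W hw) ⟨u, h, huw⟩⟩
    · exact Or.inr (Or.inl ⟨w, hw, hB.hout w (hK1W hw) ⟨u, h, huw⟩⟩)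
    · exact Or.inr (Or.inr ⟨w, hw, hC.hout w (hK1W hw) ⟨u, h, huw⟩⟩)
  have toF : ∀ x, (∃ k ∈ K, r k x) → To r W {w | r w x} := fun x h => fk_to hKm h
  have fromL : ∀ x, (∃ k ∈ K1, r x k) → From r W {w | r x w} := fun x h => fk_from hK1m h
  have neL : ∀ x, (¬ ∃ k ∈ K1, r x k) → fwd r W {w | r x w} ≠ W := fun x h =>
    fk_not_from hK1W hK1ne hK1c h
  -- vertices not in `J`
  have kB : (¬ ∃ k ∈ K, r k b) → ∀ k ∈ K, r b' k := fun h k hk =>
    fk_notF hs hBV hWV dBW hB (hKW hk) (fun h' => h ⟨k, hk, h'⟩) b' hb'B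
  have kC : (¬ ∃ k ∈ K, r k c) → ∀ k ∈ K, r c' k := fun h k hk =>
    fk_notF hs hCV hWV dCW hC (hKW hk) (fun h' => h ⟨k, hk, h'⟩) c' hc'C
  have kA : (¬ ∃ k ∈ K, r k a) → ∀ k ∈ K, r a' k := fun h k hk =>
    fk_notF hs hAV hWV dAW hA (hKW hk) (fun h' => h ⟨k, hk, h'⟩) a' ha'A
  have kA' : (¬ ∃ k ∈ K, r k a2) → ∀ k ∈ K, r a' k := fun h k hk =>
    fk_notF hs hAV0 hWV ctx.AW hA' (hKW hk) (fun h' => h ⟨k, hk, h'⟩) a' ha'A'
  -- complements of the closed sets
  have eA : ∀ w, w ∈ W → w ∉ fwd r W {w | r a' w} → ∀ x ∈ insert a A, r w x := fun w hw h =>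
    fk_notL hs hAV hWV dAW hA hw (fun h' => h (subset_fwd w hw h'))
  have eB : ∀ w, w ∈ W → w ∉ fwd r W {w | r b' w} → ∀ x ∈ B, r w x := fun w hw h =>
    fk_notL hs hBV hWV dBW hB hw (fun h' => h (subset_fwd w hw h'))
  have eC : ∀ w, w ∈ W → w ∉ fwd r W {w | r c' w} → ∀ x ∈ C, r w x := fun w hw h =>
    fk_notL hs hCV hWV dCW hC hw (fun h' => h (subset_fwd w hw h'))
  -- nested closed sets
  have nest : ∀ x y, fwd r W {w | r x w} ⊆ fwd r W {w | r y w} ∨
      fwd r W {w | r y w} ⊆ fwd r W {w | r x w} := fun x y =>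
    Cl.total hsW fwd_subset fwd_subset fwd_cl fwd_cl
  by_cases Jb : ∃ k ∈ K, r k b
  · -- `b ∈ J`
    by_cases Ia : ∃ k ∈ K1, r a' k
    · exact ctx.patAB (HP_nonstrong hsW hWs (fromL a' Ia) (toF b Jb))
    by_cases Ic : ∃ k ∈ K1, r c' k
    · exact ctx.patCB (HP_nonstrong hsW hWs (fromL c' Ic) (toF b Jb))
    have Ib : ∃ k ∈ K1, r b' k := (hI.resolve_left Ia).resolve_right Ic
    by_cases Ja : ∃ k ∈ K, r k a
    · exact ctx.patBA (HP_nonstrong hsW hWs (fromL b' Ib) (toF a Ja))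
    by_cases Jc : ∃ k ∈ K, r k c
    · exact ctx.patBC (HP_nonstrong hsW hWs (fromL b' Ib) (toF c Jc))
    -- `I = J = {b}`
    rcases nest c' a' with hn | hn
    · refine ctx.patABC (D := fwd r W {w | r a' w}) fwd_subset
        (fk_D hsW hKW hKne hKc hKm (kA Ja) (toF b Jb))
        (fk_E hsW (fromL b' Ib) (neL a' Ia) ?_)
      intro w hw
      rw [Finset.mem_sdiff] at hw
      exact eC w hw.1 (fun h => hw.2 (hn h)) c hcC
    · refine ctx.patCBA (D := fwd r W {w | r c' w}) fwd_subset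
        (fk_D hsW hKW hKne hKc hKm (kC Jc) (toF b Jb))
        (fk_E hsW (fromL b' Ib) (neL c' Ic) ?_)
      intro w hw
      rw [Finset.mem_sdiff] at hw
      exact eA w hw.1 (fun h => hw.2 (hn h)) a2 ha2A
  -- `b ∉ J`
  by_cases Jc : ∃ k ∈ K, r k c
  · by_cases Ia : ∃ k ∈ K1, r a' k
    · exact ctx.patAC (HP_nonstrong hsW hWs (fromL a' Ia) (toF c Jc))
    by_cases Ib : ∃ k ∈ K1, r b' k
    · exact ctx.patBC (HP_nonstrong hsW hWs (fromL b' Ib) (toF c Jc))
    have Ic : ∃ k ∈ K1, r c' k := (hI.resolve_left Ia).resolve_left Ib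
    by_cases Ja' : ∃ k ∈ K, r k a2
    · exact ctx.patCA (HP_nonstrong hsW hWs (fromL c' Ic) (toF a2 Ja'))
    rcases nest b' a' with hn | hn
    · refine ctx.patACB (D := fwd r W {w | r a' w}) fwd_subset
        (fk_D hsW hKW hKne hKc hKm (kA' Ja') (toF c Jc))
        (fk_E hsW (fromL c' Ic) (neL a' Ia) ?_)
      intro w hw
      rw [Finset.mem_sdiff] at hw
      exact eB w hw.1 (fun h => hw.2 (hn h)) b hbB
    · refine ctx.patBCA (D := fwd r W {w | r b' w}) fwd_subset
        (fk_D hsW hKW hKne hKc hKm (kB Jb) (toF c Jc))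
        (fk_E hsW (fromL c' Ic) (neL b' Ib) ?_)
      intro w hw
      rw [Finset.mem_sdiff] at hw
      exact eA w hw.1 (fun h => hw.2 (hn h)) a haA
  -- `J = {a}`
  have Ja : ∃ k ∈ K, r k a := by
    rcases hJ with h | h | h
    · exact h
    · exact absurd h Jb
    · exact absurd h Jc
  have Ja' : ∃ k ∈ K, r k a2 := by
    obtain ⟨u, hu, w, hw, huw⟩ := h2 K (by
      intro x hx
      rw [Finset.mem_erase]
      exact ⟨fun h => haW (h ▸ hKW hx), hWV (hKW hx)⟩) hKne (by
      intro u hu huT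
      exact hT u (hKW hu) huT b' (Or.inr (Or.inl hb'B)) (kB Jb u hu))
    rw [Finset.mem_sdiff, Finset.mem_erase] at hw
    have hwW : w ∉ W := fun h => hw.2 (hKc u hu w h huw)
    rcases fk_out ctx hw.1.2 hwW with h | h | h
    · rw [Finset.mem_insert] at h
      rcases h with h | h
      · exact absurd h hw.1.1
      · exact ⟨u, hu, hA'.hin u (hKW hu) ⟨w, h, huw⟩⟩
    · exact absurd ⟨u, hu, hB.hin u (hKW hu) ⟨w, h, huw⟩⟩ Jb
    · exact absurd ⟨u, hu, hC.hin u (hKW hu) ⟨w, h, huw⟩⟩ Jc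
  by_cases Ic : ∃ k ∈ K1, r c' k
  · exact ctx.patCA (HP_nonstrong hsW hWs (fromL c' Ic) (toF a2 Ja'))
  by_cases Ib : ∃ k ∈ K1, r b' k
  · exact ctx.patBA (HP_nonstrong hsW hWs (fromL b' Ib) (toF a Ja))
  have Ia : ∃ k ∈ K1, r a' k := by
    rcases hI with h | h | h
    · exact h
    · exact absurd h Ib
    · exact absurd h Ic
  rcases nest c' b' with hn | hn
  · refine ctx.patBAC (D := fwd r W {w | r b' w}) fwd_subset
      (fk_D hsW hKW hKne hKc hKm (kB Jb) (toF a Ja))
      (fk_E hsW (fromL a' Ia) (neL b' Ib) ?_)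
    intro w hw
    rw [Finset.mem_sdiff] at hw
    exact eC w hw.1 (fun h => hw.2 (hn h)) c hcC
  · refine ctx.patCAB (D := fwd r W {w | r c' w}) fwd_subset
      (fk_D hsW hKW hKne hKc hKm (kC Jc) (toF a2 Ja'))
      (fk_E hsW (fromL a' Ia) (neL c' Ic) ?_)
    intro w hw
    rw [Finset.mem_sdiff] at hw
    exact eB w hw.1 (fun h => hw.2 (hn h)) b hbB

end

theorem fork (hs : Semi r V) (hst : Strong r V) {a b c : α} (ha : a ∈ V) (hb : b ∈ V)
    (hc : c ∈ V) (hab : a ≠ b) (hac : a ≠ c) (hbc : b ≠ c) (haT : a ∉ T) (harc : r a c)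
    (h2 : ∀ v ∈ V, ∀ U ⊆ V.erase v, U.Nonempty → (∀ u ∈ U, u ∉ T) →
      ∃ u ∈ U, ∃ w ∈ V.erase v \ U, r u w)
    (h3 : Conn r V {a, b, c} T 3) : HP r V {a, b} T := by
  obtain ⟨A, B, C, a', b', c', hAV, hBV, hCV, hAB, hAC, hBC, ta, tb, tc, hA, hB, hC, hA2, hT⟩ :=
    fork_paths hs hab hac hbc h3
  have haa' : a ≠ a' := by
    rintro rfl
    exact haT ta
  obtain ⟨a2, ra2, hA'⟩ := hA2 haa'
  have haA : a ∈ A := fk_first hA.hp
  have hA'A : A.erase a ⊆ A := Finset.erase_subset a A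
  have dis : ∀ X : Finset α, X ⊆ A ∪ B ∪ C → Disjoint X (V \ (A ∪ B ∪ C)) := fun X hX =>
    Finset.disjoint_sdiff.mono_left hX
  have ctx : FkC r V (V \ (A ∪ B ∪ C)) (A.erase a) B C T a b c a2 a' b' c' :=
    { hs := hs
      mem := by
        intro x
        rw [Finset.mem_sdiff, Finset.mem_erase]
        simp only [Finset.mem_union]
        constructor
        · intro hx
          tauto
        · rintro (h | h | h | h | h)
          · exact h ▸ ha
          · exact hAV h.2
          · exact hBV h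
          · exact hCV h
          · exact h.1
      aA := Finset.notMem_erase a A
      aB := Finset.disjoint_left.1 hAB haA
      aC := Finset.disjoint_left.1 hAC haA
      aW := fun h => (Finset.mem_sdiff.1 h).2 (Finset.mem_union_left _ (Finset.mem_union_left _ haA))
      AB := hAB.mono_left hA'A
      AC := hAC.mono_left hA'A
      AW := dis _ (hA'A.trans (Finset.subset_union_left.trans Finset.subset_union_left))
      BC := hBC
      BW := dis _ (Finset.subset_union_right.trans Finset.subset_union_left)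
      CW := dis _ Finset.subset_union_right
      pA := hA'.hp
      pB := hB.hp
      pC := hC.hp
      ra2 := ra2
      rac := harc
      ta := ta
      tb := tb
      tc := tc }
  rcases (V \ (A ∪ B ∪ C)).eq_empty_or_nonempty with hW0 | hWne
  · exact ctx.empty hW0
  have hAi : insert a (A.erase a) = A := Finset.insert_erase haA
  by_cases hWs : Strong r (V \ (A ∪ B ∪ C))
  · exact fk_strong ctx hst (by rw [hAi]; exact hA) hB hC hWne hWs
  · refine fk_nonstrong ctx hst (by rw [hAi]; exact hA) hA' hB hC ?_ (h2 a ha) hWne hWs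
    intro w hw hwT x hx
    refine hT w hw hwT x ?_
    rw [hAi] at hx
    simp only [Finset.mem_union]
    tauto

end Pool.Agent.Helper944_HC
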