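import Pool.Agent.Helper944_HC.Paths

/-!
# The linkage theorem
-/

namespace Pool.Agent.Helper944_HC

variable {α : Type*} [DecidableEq α] {r : α → α → Prop} {V : Finset α}

/-! ### Tools -/

theorem lk_front {A : Finset α} {a : α} {T : Set α} (h : HP r A {a} T) (hA : A ≠ {a}) :
    ∃ a2, r a a2 ∧ HP r (A.erase a) {a2} T := by
  obtain ⟨l, hl, ⟨x, hx, hxa⟩, ⟨y, hy, hyT⟩⟩ := h
  obtain rfl : x = a := hxa
  cases l with
  | nil => simp at hx
  | cons b l =>
    obtain rfl : b = x := by simpa using hx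
    cases l with
    | nil =>
      exfalso
      apply hA
      ext v
      rw [← hl.mem v]
      simp
    | cons c l =>
      have hn := hl.nodup
      have hc := hl.chain
      refine ⟨c, (List.isChain_cons_cons.1 hc).1, c :: l, ⟨(List.nodup_cons.1 hn).2,
        (List.isChain_cons_cons.1 hc).2, fun v => ?_⟩, ⟨c, rfl, rfl⟩, ⟨y, ?_, hyT⟩⟩
      · rw [Finset.mem_erase, ← hl.mem v, List.mem_cons (a := v) (b := b)]
        constructor
        · intro hv
          refine ⟨?_, Or.inr hv⟩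
          rintro rfl
          exact (List.nodup_cons.1 hn).1 hv
        · rintro ⟨h1, h2 | h2⟩
          · exact absurd h2 h1
          · exact h2
      · simpa using hy

theorem lk_back {A : Finset α} {e : α} {S : Set α} (h : HP r A S {e}) (hA : A ≠ {e}) :
    ∃ e2, r e2 e ∧ HP r (A.erase e) S {e2} := by
  obtain ⟨e2, h1, h2⟩ := lk_front (r := fun a b => r b a) (HP_rev.2 h) hA
  exact ⟨e2, h1, HP_rev.1 h2⟩

theorem lk_cons {A : Finset α} {a : α} {S T : Set α} (h : HP r A S T) (ha : a ∉ A)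
    (hS : ∀ x ∈ A, x ∈ S → r a x) : HP r (insert a A) {a} T := by
  have h1 : HP r {a} {a} {a} := HP_singleton rfl rfl
  have h2 := h1.join h (by simpa using ha) (by
    intro t _ ht s hs hsS
    obtain rfl : t = a := ht
    exact hS s hs hsS)
  rwa [← Finset.insert_eq] at h2

theorem lk_snoc {A : Finset α} {e : α} {S T : Set α} (h : HP r A S T) (he : e ∉ A)
    (hT : ∀ x ∈ A, x ∈ T → r x e) : HP r (insert e A) S {e} := by
  have := lk_cons (r := fun a b => r b a) (HP_rev.2 h) he hT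
  exact HP_rev.1 this

/-- Insert the path `C` in the middle of `A`. -/
theorem lk_mid {A C : Finset α} {a e c d : α} (hA : HP r A {a} {e}) (hC : HP r C {c} {d})
    (hae : a ≠ e) (haA : a ∈ A) (heA : e ∈ A) (hd : Disjoint A C) (hs : Semi r (A ∪ C))
    (hac : r a c) (hde : r d e) : HP r (A ∪ C) {a} {e} := by
  obtain ⟨a2, h1, h2⟩ := lk_front hA (by
    rintro rfl
    exact hae (Finset.mem_singleton.1 heA).symm)
  have haC : a ∉ C := Finset.disjoint_left.1 hd haA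
  have heC : e ∉ C := Finset.disjoint_left.1 hd heA
  by_cases hE : A.erase a = {e}
  · have h3 := lk_snoc hC heC (fun x _ hx => by
      obtain rfl : x = d := hx
      exact hde)
    have h4 := lk_cons h3 (a := a) (by grind) (fun x _ hx => by
      obtain rfl : x = c := hx
      exact hac)
    have e1 : insert a (insert e C) = A ∪ C := by
      ext x
      have := Finset.ext_iff.1 hE x
      grind
    rwa [e1] at h4
  · obtain ⟨e2, h3, h4⟩ := lk_back h2 hE
    have h5 := h4.merge hC (by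
      rw [Finset.disjoint_left] at hd ⊢
      grind) (hs.mono (by
        intro x
        grind))
    have h6 := lk_snoc h5 (e := e) (by grind) (fun x _ hx => by
      rcases hx with hx | hx
      · obtain rfl : x = e2 := hx
        exact h3
      · obtain rfl : x = d := hx
        exact hde)
    have h7 := lk_cons h6 (a := a) (by grind) (fun x _ hx => by
      rcases hx with hx | hx
      · obtain rfl : x = a2 := hx
        exact h1
      · obtain rfl : x = c := hx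
        exact hac)
    have e1 : insert a (insert e (((A.erase a).erase e) ∪ C)) = A ∪ C := by
      ext x
      grind
    rwa [e1] at h7

/-- First and last strong components. -/
structure LkE (r : α → α → Prop) (W K F : Finset α) : Prop where
  hs : Semi r W
  hK : K ⊆ W
  hKn : K.Nonempty
  hKc : Cl r W K
  hKs : Strong r K
  hKm : ∀ D ⊆ W, D.Nonempty → Cl r W D → K ⊆ D
  hF : F ⊆ W
  hFn : F.Nonempty
  hFc : Cl (fun a b => r b a) W F
  hFs : Strong r F
  hFm : ∀ D ⊆ W, D.Nonempty → Cl (fun a b => r b a) W D → F ⊆ D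
  hns : ¬ Strong r W

theorem LkE.rev {W K F : Finset α} (h : LkE r W K F) : LkE (fun a b => r b a) W F K :=
  ⟨h.hs.rev, h.hF, h.hFn, h.hFc, Strong.rev.2 h.hFs, h.hFm, h.hK, h.hKn, h.hKc,
    Strong.rev.2 h.hKs, h.hKm, fun h1 => h.hns (Strong.rev.1 h1)⟩

theorem lk_exE {W : Finset α} (hs : Semi r W) (hW : W.Nonempty) (hns : ¬ Strong r W) :
    ∃ K F, LkE r W K F := by
  obtain ⟨K, h1, h2, h3, h4, h5⟩ := exists_last hs hW
  obtain ⟨F, g1, g2, g3, g4, g5⟩ := exists_first hs hW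
  exact ⟨K, F, hs, h1, h2, h3, h4, h5, g1, g2, g3, g4, g5, hns⟩

theorem LkE.to {W K F : Finset α} (h : LkE r W K F) {T : Set α} (hT : ∃ k ∈ K, k ∈ T) :
    To r W T := by
  intro U hU hne hUT
  by_contra! hc
  have hcl : Cl r W U := by
    intro u hu v hv huv
    by_contra hvU
    exact hc u hu v (Finset.mem_sdiff.2 ⟨hv, hvU⟩) huv
  obtain ⟨k, hk, hkT⟩ := hT
  exact hUT k (h.hKm U hU hne hcl hk) hkT

theorem LkE.from {W K F : Finset α} (h : LkE r W K F) {S : Set α} (hS : ∃ k ∈ F, k ∈ S) :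
    From r W S := (h.rev.to hS).rev

/-- The last component is not the first one. -/
theorem LkE.disj {W K F : Finset α} (h : LkE r W K F) : ∀ k ∈ K, k ∉ F := by
  intro k hk hkF
  have hKF : K ⊆ F := by
    by_contra hn
    obtain ⟨x, hx, hxF⟩ := Finset.not_subset.1 hn
    obtain ⟨p, hp, q, hq, hpq⟩ := h.hKs (K.filter (· ∉ F)) (Finset.filter_subset _ _)
      ⟨x, Finset.mem_filter.2 ⟨hx, hxF⟩⟩ (by
        intro h1
        rw [← h1] at hk
        exact (Finset.mem_filter.1 hk).2 hkF)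
    have hp' := Finset.mem_filter.1 hp
    have hqK : q ∈ K := (Finset.mem_sdiff.1 hq).1
    have hqF : q ∈ F := by
      by_contra h3
      exact (Finset.mem_sdiff.1 hq).2 (Finset.mem_filter.2 ⟨hqK, h3⟩)
    exact hp'.2 (h.hFc q hqF p (h.hK hp'.1) hpq)
  have hFK : F ⊆ K := by
    by_contra hn
    obtain ⟨x, hx, hxF⟩ := Finset.not_subset.1 hn
    obtain ⟨p, hp, q, hq, hpq⟩ := h.hFs K hKF ⟨k, hk⟩ (by
        rintro rfl
        exact hxF hx)
    exact (Finset.mem_sdiff.1 hq).2 (h.hKc p hp q (h.hF (Finset.mem_sdiff.1 hq).1) hpq)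
  have hEq : K = F := Finset.Subset.antisymm hKF hFK
  apply h.hns
  have : K = W := by
    refine Finset.Subset.antisymm h.hK fun x hx => ?_
    by_contra hxK
    have hkx : k ≠ x := by
      rintro rfl
      exact hxK hk
    rcases h.hs k (h.hK hk) x hx hkx with h1 | h1
    · exact hxK (h.hKc k hk x hx h1)
    · exact hxK (hFK (h.hFc k hkF x hx h1))
  rw [← this]
  exact h.hKs

/-- A Hamiltonian path of the closure of `L`. -/
theorem LkE.HPfwd {W K F : Finset α} (h : LkE r W K F) {L T : Set α} (hKL : ∀ k ∈ K, k ∈ L)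
    (hT : To r W T) : HP r (fwd r W L) L T := by
  have hsub : K ⊆ fwd r W L := fun k hk => subset_fwd k (h.hK hk) (hKL k hk)
  refine HP_fwd h.hs (h.hKn.mono hsub) hT ?_
  intro hst v hv
  by_cases hEq : K = fwd r W L
  · rw [← hEq] at hv
    exact hKL v hv
  · exfalso
    obtain ⟨p, hp, q, hq, hpq⟩ := hst K hsub h.hKn hEq
    exact (Finset.mem_sdiff.1 hq).2 (h.hKc p hp q (fwd_subset (Finset.mem_sdiff.1 hq).1) hpq)

/-- A Hamiltonian path of the complement of a closed set, with free end. -/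
theorem lk_compl {W D : Finset α} {S : Set α} (hs : Semi r W) (hD : D ⊆ W) (hc : Cl r W D)
    (hne : (W \ D).Nonempty) (hS : From r W S) : HP r (W \ D) S Set.univ :=
  HP_start (hs.mono Finset.sdiff_subset) hne (From.compl hS hD hc)

theorem lk_ne {W : Finset α} {L : Set α} (h : ¬ From r W L) : (W \ fwd r W L).Nonempty := by
  rw [Finset.sdiff_nonempty]
  intro h1
  have h2 : fwd r W L = W := Finset.Subset.antisymm fwd_subset h1
  apply h
  have := fwd_from (r := r) (W := W) (L := L)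
  rwa [h2] at this

/-- An arc entering the first component from outside of `W`. -/
theorem LkE.in {W K F U : Finset α} (h : LkE r W K F) (hU : Strong r U) (hF : F ⊆ U)
    (hne : ∃ x ∈ U, x ∉ W) : ∃ u ∈ U, u ∉ W ∧ ∃ w ∈ F, r u w := by
  obtain ⟨x, hx, hxW⟩ := hne
  obtain ⟨w, hw, u, hu, huw⟩ := (Strong.rev.2 hU) F hF h.hFn (by
    rintro rfl
    exact hxW (h.hF hx))
  refine ⟨u, (Finset.mem_sdiff.1 hu).1, fun huW => ?_, w, hw, huw⟩
  exact (Finset.mem_sdiff.1 hu).2 (h.hFc w hw u huW huw)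

theorem LkE.out {W K F U : Finset α} (h : LkE r W K F) (hU : Strong r U) (hK : K ⊆ U)
    (hne : ∃ x ∈ U, x ∉ W) : ∃ u ∈ U, u ∉ W ∧ ∃ w ∈ K, r w u :=
  h.rev.in (Strong.rev.2 hU) hK hne

theorem PD.lk_rev {W P : Finset α} {p q : α} (h : PD r W P p q) :
    PD (fun a b => r b a) W P q p := ⟨HP_rev.2 h.hp, h.hout, h.hin⟩

/-- A subset mapped into itself by a permutation is mapped onto itself. -/
theorem lk_onto {σ : Equiv.Perm α} {S : Finset α} (h : ∀ v ∈ S, σ v ∈ S) : ∀ v, σ v ∈ S → v ∈ S := by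
  have h1 : S.image σ = S := by
    refine Finset.eq_of_subset_of_card_le ?_ ?_
    · intro x hx
      obtain ⟨v, hv, rfl⟩ := Finset.mem_image.1 hx
      exact h v hv
    · rw [Finset.card_image_of_injective _ σ.injective]
  intro v hv
  rw [← h1] at hv
  obtain ⟨w, hw, hwv⟩ := Finset.mem_image.1 hv
  rwa [← σ.injective hwv]

/-- The alternating structure in the strong case. -/
theorem lk_alt {W : Finset α} {σ : Equiv.Perm α} (hσ : ∀ v, v ∈ W ↔ σ v ∈ W)
    (hcyc : ∀ U ⊆ W, U.Nonempty → (∀ v ∈ U, σ v ∈ U) → U = W)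
    {LP FP LQ FQ Lf Ff : Set α} (hP : ∀ w ∈ W, w ∈ LP ∨ w ∈ FP) (hQ : ∀ w ∈ W, w ∈ LQ ∨ w ∈ FQ)
    (hf : ∀ w ∈ W, w ∈ Lf ∨ w ∈ Ff) (h1 : ∀ v ∈ W, v ∈ FP → σ v ∉ Lf)
    (h2 : ∀ v ∈ W, v ∈ FQ → σ v ∉ Lf) (h3 : ∀ v ∈ W, v ∈ Ff → σ v ∉ LP)
    (h4 : ∀ v ∈ W, v ∈ Ff → σ v ∉ LQ) (hin : ∃ w ∈ W, w ∈ LP ∨ w ∈ LQ ∨ w ∈ Lf)
    (hout : ∃ w ∈ W, w ∈ FP ∨ w ∈ FQ ∨ w ∈ Ff) :
    ∃ w ∈ W, w ∉ LP ∧ w ∉ LQ ∧ w ∈ FP ∧ w ∈ FQ ∧ σ w ∈ LP ∧ σ w ∈ LQ := by
  classical
  have hσ1 : ∀ v ∈ W, σ v ∈ W := fun v hv => (hσ v).1 hv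
  have a1 : ∀ v ∈ W, v ∈ FP → σ v ∈ Ff := fun v hv h =>
    (hf _ (hσ1 v hv)).resolve_left (h1 v hv h)
  have a2 : ∀ v ∈ W, v ∈ FQ → σ v ∈ Ff := fun v hv h =>
    (hf _ (hσ1 v hv)).resolve_left (h2 v hv h)
  have a3 : ∀ v ∈ W, v ∈ Ff → σ v ∈ FP := fun v hv h =>
    (hP _ (hσ1 v hv)).resolve_left (h3 v hv h)
  have a4 : ∀ v ∈ W, v ∈ Ff → σ v ∈ FQ := fun v hv h =>
    (hQ _ (hσ1 v hv)).resolve_left (h4 v hv h)
  have b1 : ∀ v ∈ W, σ (σ v) ∈ FP → v ∈ FP := by
    intro v hv h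
    have := lk_onto (σ := σ.trans σ) (S := W.filter (· ∈ FP)) (by
      intro x hx
      obtain ⟨hx1, hx2⟩ := Finset.mem_filter.1 hx
      exact Finset.mem_filter.2 ⟨hσ1 _ (hσ1 _ hx1), a3 _ (hσ1 _ hx1) (a1 _ hx1 hx2)⟩) v
      (Finset.mem_filter.2 ⟨hσ1 _ (hσ1 _ hv), h⟩)
    exact (Finset.mem_filter.1 this).2
  have b2 : ∀ v ∈ W, σ (σ v) ∈ FQ → v ∈ FQ := by
    intro v hv h
    have := lk_onto (σ := σ.trans σ) (S := W.filter (· ∈ FQ)) (by
      intro x hx
      obtain ⟨hx1, hx2⟩ := Finset.mem_filter.1 hx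
      exact Finset.mem_filter.2 ⟨hσ1 _ (hσ1 _ hx1), a4 _ (hσ1 _ hx1) (a2 _ hx1 hx2)⟩) v
      (Finset.mem_filter.2 ⟨hσ1 _ (hσ1 _ hv), h⟩)
    exact (Finset.mem_filter.1 this).2
  have b3 : ∀ v ∈ W, σ (σ v) ∈ Ff → v ∈ Ff := by
    intro v hv h
    have := lk_onto (σ := σ.trans σ) (S := W.filter (· ∈ Ff)) (by
      intro x hx
      obtain ⟨hx1, hx2⟩ := Finset.mem_filter.1 hx
      exact Finset.mem_filter.2 ⟨hσ1 _ (hσ1 _ hx1), a1 _ (hσ1 _ hx1) (a3 _ hx1 hx2)⟩) v
      (Finset.mem_filter.2 ⟨hσ1 _ (hσ1 _ hv), h⟩)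
    exact (Finset.mem_filter.1 this).2
  -- equivalences
  have c1 : ∀ v ∈ W, σ v ∈ Ff → v ∈ FP := fun v hv h => b1 v hv (a3 _ (hσ1 _ hv) h)
  have c2 : ∀ v ∈ W, σ v ∈ Ff → v ∈ FQ := fun v hv h => b2 v hv (a4 _ (hσ1 _ hv) h)
  have c3 : ∀ v ∈ W, σ v ∈ FP → v ∈ Ff := fun v hv h => b3 v hv (a1 _ (hσ1 _ hv) h)
  have hsur : ∀ w ∈ W, ∃ v ∈ W, σ v = w := by
    intro w hw
    refine ⟨σ.symm w, ?_, by simp⟩
    rw [hσ]
    simpa using hw
  have d1 : ∀ w ∈ W, w ∈ Ff → w ∉ Lf := by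
    intro w hw h
    obtain ⟨v, hv, rfl⟩ := hsur w hw
    exact h1 v hv (c1 v hv h)
  have d2 : ∀ w ∈ W, w ∈ FP → w ∉ LP := by
    intro w hw h
    obtain ⟨v, hv, rfl⟩ := hsur w hw
    exact h3 v hv (c3 v hv h)
  have d3 : ∀ w ∈ W, w ∈ FP → w ∉ LQ := by
    intro w hw h
    obtain ⟨v, hv, rfl⟩ := hsur w hw
    exact h4 v hv (c3 v hv h)
  have e1 : ∀ w ∈ W, w ∈ FP → w ∈ FQ := fun w hw h => c2 w hw (a1 w hw h)
  have e2 : ∀ w ∈ W, w ∈ FQ → w ∈ FP := fun w hw h => c1 w hw (a2 w hw h)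
  -- the two sets are disjoint
  have f1 : ∀ w ∈ W, w ∈ FP → w ∉ Ff := by
    intro w hw hwP hwf
    have h5 := hcyc (W.filter (fun v => v ∈ FP ∧ v ∈ Ff)) (Finset.filter_subset _ _)
      ⟨w, Finset.mem_filter.2 ⟨hw, hwP, hwf⟩⟩ (by
        intro v hv
        obtain ⟨g1, g2, g3⟩ := Finset.mem_filter.1 hv
        exact Finset.mem_filter.2 ⟨hσ1 v g1, a3 v g1 g3, a1 v g1 g2⟩)
    obtain ⟨u, hu, huL⟩ := hin
    have hu' : u ∈ W.filter (fun v => v ∈ FP ∧ v ∈ Ff) := by rw [h5]; exact hu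
    obtain ⟨-, g2, g3⟩ := Finset.mem_filter.1 hu'
    rcases huL with h | h | h
    · exact d2 u hu g2 h
    · exact d3 u hu g2 h
    · exact d1 u hu g3 h
  have f2 : ∃ w ∈ W, w ∈ FP := by
    obtain ⟨u, hu, huF⟩ := hout
    rcases huF with h | h | h
    · exact ⟨u, hu, h⟩
    · exact ⟨u, hu, e2 u hu h⟩
    · exact ⟨σ u, hσ1 u hu, a3 u hu h⟩
  obtain ⟨w, hw, hwP⟩ := f2
  have g1 : σ w ∉ FP := fun h => f1 _ (hσ1 w hw) h (a1 w hw hwP)
  refine ⟨w, hw, d2 w hw hwP, d3 w hw hwP, hwP, e1 w hw hwP,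
    (hP _ (hσ1 w hw)).resolve_right g1, (hQ _ (hσ1 w hw)).resolve_right fun h => g1 (e2 _ (hσ1 w hw) h)⟩

theorem lk_mem_start {A : Finset α} {a : α} {T : Set α} (h : HP r A {a} T) : a ∈ A := by
  obtain ⟨l, hl, ⟨x, hx, hxa⟩, _⟩ := h
  obtain rfl : x = a := hxa
  exact (hl.mem x).1 (List.mem_of_mem_head? hx)

theorem lk_mem_end {A : Finset α} {a : α} {S : Set α} (h : HP r A S {a}) : a ∈ A :=
  lk_mem_start (HP_rev.2 h)

theorem lk_enter {U W : Finset α} (hU : Strong r U) (hW : W ⊆ U) (hne : W.Nonempty)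
    (h : ∃ x ∈ U, x ∉ W) : ∃ u ∈ U, u ∉ W ∧ ∃ w ∈ W, r u w := by
  obtain ⟨x, hx, hxW⟩ := h
  obtain ⟨w, hw, u, hu, huw⟩ := (Strong.rev.2 hU) W hW hne (by
    rintro rfl
    exact hxW hx)
  exact ⟨u, (Finset.mem_sdiff.1 hu).1, (Finset.mem_sdiff.1 hu).2, w, hw, huw⟩

theorem lk_leave {U W : Finset α} (hU : Strong r U) (hW : W ⊆ U) (hne : W.Nonempty)
    (h : ∃ x ∈ U, x ∉ W) : ∃ u ∈ U, u ∉ W ∧ ∃ w ∈ W, r w u :=
  lk_enter (Strong.rev.2 hU) hW hne h

/-! ### The type M1 -/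

/-- Data of the type M1. -/
structure LkM1 (r : α → α → Prop) (V W A C : Finset α) (a e f c d a2 e2 : α) : Prop where
  hs : Semi r V
  h2 : TwoStrong r V
  hf : f ∈ V
  hA : ∀ x ∈ A, x ∈ V ∧ x ≠ f
  hC : ∀ x ∈ C, x ∈ V ∧ x ≠ f
  dAC : ∀ x ∈ A, x ∉ C
  hW : ∀ x, x ∈ W ↔ x ∈ V ∧ x ≠ f ∧ x ∉ A ∧ x ∉ C
  ae : a ≠ e
  hac : r a c
  hde : r d e
  pA : PD r W A a e
  pC : PD r W C c d
  ha2 : r a a2
  pA2 : PD r W (A.erase a) a2 e
  he2 : r e2 e
  pA3 : PD r W (A.erase e) a e2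

namespace LkM1

variable {W A C : Finset α} {a e f c d a2 e2 : α}

theorem rev (h : LkM1 r V W A C a e f c d a2 e2) :
    LkM1 (fun x y => r y x) V W A C e a f d c e2 a2 :=
  ⟨h.hs.rev, h.h2.rev, h.hf, h.hA, h.hC, h.dAC, h.hW, h.ae.symm, h.hde, h.hac, h.pA.lk_rev, h.pC.lk_rev,
    h.he2, h.pA3.lk_rev, h.ha2, h.pA2.lk_rev⟩

theorem dual (h : HP (fun x y => r y x) V {e, f} {f, a}) : HP r V {a, f} {f, e} := by
  rw [HP_rev, Set.pair_comm f a, Set.pair_comm e f] at h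
  exact h

theorem ma (h : LkM1 r V W A C a e f c d a2 e2) : a ∈ A := lk_mem_start h.pA.hp
theorem me (h : LkM1 r V W A C a e f c d a2 e2) : e ∈ A := lk_mem_end h.pA.hp
theorem mc (h : LkM1 r V W A C a e f c d a2 e2) : c ∈ C := lk_mem_start h.pC.hp
theorem md (h : LkM1 r V W A C a e f c d a2 e2) : d ∈ C := lk_mem_end h.pC.hp

theorem lP (h : LkM1 r V W A C a e f c d a2 e2) : ∀ w ∈ W, r e w ∨ r w a := by
  intro w hw
  have h1 := (h.hW w).1 hw
  rcases h.hs w h1.1 a (h.hA a h.ma).1 (by rintro rfl; exact h1.2.2.1 h.ma) with h2 | h2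
  · exact Or.inr h2
  · exact Or.inl (h.pA.hout w hw ⟨a, h.ma, h2⟩)

theorem lQ (h : LkM1 r V W A C a e f c d a2 e2) : ∀ w ∈ W, r d w ∨ r w c := by
  intro w hw
  have h1 := (h.hW w).1 hw
  rcases h.hs w h1.1 c (h.hC c h.mc).1 (by rintro rfl; exact h1.2.2.2 h.mc) with h2 | h2
  · exact Or.inr h2
  · exact Or.inl (h.pC.hout w hw ⟨c, h.mc, h2⟩)

theorem lf (h : LkM1 r V W A C a e f c d a2 e2) : ∀ w ∈ W, r f w ∨ r w f := by
  intro w hw
  have h1 := (h.hW w).1 hw
  exact (h.hs w h1.1 f h.hf h1.2.1).symm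

theorem fin (h : LkM1 r V W A C a e f c d a2 e2) {U : Finset α} {S T : Set α} (hU : HP r U S T)
    (hUV : ∀ x, x ∈ U ↔ x ∈ V) (hS : ∀ x ∈ S, x = a ∨ x = f) (hT : ∀ x ∈ T, x = f ∨ x = e) :
    HP r V {a, f} {f, e} := by
  have : U = V := Finset.ext hUV
  subst this
  exact hU.mono (fun x _ hx => hS x hx) (fun x _ hx => hT x hx)

theorem mergef (h : LkM1 r V W A C a e f c d a2 e2) {U : Finset α} (hU : HP r U {a} {e})
    (hUV : ∀ x, x ∈ U ↔ x ∈ V ∧ x ≠ f) : HP r V {a, f} {f, e} := by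
  have h1 : HP r {f} {f} {f} := HP_singleton rfl rfl
  have h2 := hU.merge h1 (by
    rw [Finset.disjoint_left]
    intro x hx
    have := (hUV x).1 hx
    simpa using this.2) (h.hs.mono (by
      intro x hx
      have := h.hf
      have := hUV x
      grind))
  refine h.fin h2 ?_ ?_ ?_
  · intro x
    have := h.hf
    have := hUV x
    grind
  · rintro x (hx | hx)
    · exact Or.inl hx
    · exact Or.inr hx
  · rintro x (hx | hx)
    · exact Or.inr hx
    · exact Or.inl hx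

theorem mid (h : LkM1 r V W A C a e f c d a2 e2) : HP r (A ∪ C) {a} {e} := by
  refine lk_mid h.pA.hp h.pC.hp h.ae h.ma h.me (Finset.disjoint_left.2 fun x hx => h.dAC x hx)
    (h.hs.mono ?_) h.hac h.hde
  intro x hx
  rcases Finset.mem_union.1 hx with hx | hx
  · exact (h.hA x hx).1
  · exact (h.hC x hx).1

theorem pat0 (h : LkM1 r V W A C a e f c d a2 e2) (hW : W = ∅) : HP r V {a, f} {f, e} := by
  refine h.mergef h.mid ?_
  intro x
  have h1 := h.hA x
  have h2 := h.hC x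
  have h3 := h.hW x
  subst hW
  grind

theorem pat1 (h : LkM1 r V W A C a e f c d a2 e2) (hp : HP r W {w | r f w} {w | r w a}) :
    HP r V {a, f} {f, e} := by
  have h1 := h.hA
  have h2 := h.hC
  have h3 := h.hW
  have h4 := h.hf
  have g1 := hp.join h.mid (by
    rw [Finset.disjoint_left]
    grind) (by
    intro t _ ht s _ hs
    obtain rfl : s = a := hs
    exact ht)
  have g2 := lk_cons g1 (a := f) (by grind) (fun x _ hx => hx)
  refine h.fin g2 (by grind) (fun x hx => Or.inr hx) (fun x hx => Or.inr hx)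

theorem pat2 (h : LkM1 r V W A C a e f c d a2 e2) (hp : HP r W {w | r e w} {w | r w f}) :
    HP r V {a, f} {f, e} := dual (h.rev.pat1 (HP_rev.2 hp))

theorem pat4 (h : LkM1 r V W A C a e f c d a2 e2) (hp : HP r W {w | r f w} {w | r w c}) :
    HP r V {a, f} {f, e} := by
  have h1 := h.hA
  have h2 := h.hC
  have h3 := h.hW
  have h4 := h.hf
  have h5 := h.dAC
  have h6 := h.ma
  have h7 := h.me
  have h8 := h.mc
  have h9 := h.md
  have g1 := hp.join h.pC.hp (by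
    rw [Finset.disjoint_left]
    grind) (by
    intro t _ ht s _ hs
    obtain rfl : s = c := hs
    exact ht)
  have g2 := lk_cons g1 (a := f) (by grind) (fun x _ hx => hx)
  have g3 := g2.merge h.pA3.hp (by
    rw [Finset.disjoint_left]
    grind) (h.hs.mono (by intro x; grind))
  have g4 := lk_snoc g3 (e := e) (by grind) (fun x _ hx => by
    rcases hx with hx | hx
    · obtain rfl : x = d := hx
      exact h.hde
    · obtain rfl : x = e2 := hx
      exact h.he2)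
  refine h.fin g4 (by grind) ?_ (fun x hx => Or.inr hx)
  rintro x (hx | hx)
  · exact Or.inr hx
  · exact Or.inl hx

theorem pat3 (h : LkM1 r V W A C a e f c d a2 e2) (hp : HP r W {w | r d w} {w | r w f}) :
    HP r V {a, f} {f, e} := dual (h.rev.pat4 (HP_rev.2 hp))

theorem pat5 (h : LkM1 r V W A C a e f c d a2 e2) (hp : HP r W {w | r e2 w} {w | r w c}) :
    HP r V {a, f} {f, e} := by
  have h1 := h.hA
  have h2 := h.hC
  have h3 := h.hW
  have h4 := h.hf
  have h5 := h.dAC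
  have h6 := h.ma
  have h7 := h.me
  have h8 := h.mc
  have h9 := h.md
  have g1 := h.pA3.hp.join hp (by
    rw [Finset.disjoint_left]
    grind) (by
    intro t _ ht s _ hs
    obtain rfl : t = e2 := ht
    exact hs)
  have g2 := g1.join h.pC.hp (by
    rw [Finset.disjoint_left]
    grind) (by
    intro t _ ht s _ hs
    obtain rfl : s = c := hs
    exact ht)
  have g3 := lk_snoc g2 (e := e) (by grind) (fun x _ hx => by
    obtain rfl : x = d := hx
    exact h.hde)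
  exact h.mergef g3 (by grind)

theorem pat6 (h : LkM1 r V W A C a e f c d a2 e2) (hp : HP r W {w | r d w} {w | r w a2}) :
    HP r V {a, f} {f, e} := dual (h.rev.pat5 (HP_rev.2 hp))

theorem pat7 (h : LkM1 r V W A C a e f c d a2 e2) {D D' : Finset α} (hD : ∀ x, x ∈ W ↔ x ∈ D ∨ x ∈ D')
    (hDD : ∀ x ∈ D, x ∉ D') (hp : HP r D {w | r f w} {w | r w a})
    (hq : HP r D' {w | r e2 w} {w | r w c}) : HP r V {a, f} {f, e} := by
  have h1 := h.hA
  have h2 := h.hC
  have h3 := h.hW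
  have h4 := h.hf
  have h5 := h.dAC
  have h6 := h.ma
  have h7 := h.me
  have h8 := h.mc
  have h9 := h.md
  have g1 := lk_cons hp (a := f) (by grind) (fun x _ hx => hx)
  have g2 := g1.join h.pA3.hp (by
    rw [Finset.disjoint_left]
    grind) (by
    intro t _ ht s _ hs
    obtain rfl : s = a := hs
    exact ht)
  have g3 := g2.join hq (by
    rw [Finset.disjoint_left]
    grind) (by
    intro t _ ht s _ hs
    obtain rfl : t = e2 := ht
    exact hs)
  have g4 := g3.join h.pC.hp (by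
    rw [Finset.disjoint_left]
    grind) (by
    intro t _ ht s _ hs
    obtain rfl : s = c := hs
    exact ht)
  have g5 := lk_snoc g4 (e := e) (by grind) (fun x _ hx => by
    obtain rfl : x = d := hx
    exact h.hde)
  exact h.fin g5 (by grind) (fun x hx => Or.inr hx) (fun x hx => Or.inr hx)

theorem pat8 (h : LkM1 r V W A C a e f c d a2 e2) {D D' : Finset α} (hD : ∀ x, x ∈ W ↔ x ∈ D ∨ x ∈ D')
    (hDD : ∀ x ∈ D, x ∉ D') (hp : HP r D {w | r d w} {w | r w a2})
    (hq : HP r D' {w | r e w} {w | r w f}) : HP r V {a, f} {f, e} := by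
  refine dual (h.rev.pat7 (D := D') (D' := D) ?_ ?_ (HP_rev.2 hq) (HP_rev.2 hp))
  · intro x
    rw [hD x, or_comm]
  · intro x hx hx'
    exact hDD x hx' hx

theorem pat9 (h : LkM1 r V W A C a e f c d a2 e2) {D D' : Finset α} (hD : ∀ x, x ∈ W ↔ x ∈ D ∨ x ∈ D')
    (hDD : ∀ x ∈ D, x ∉ D') (hp : HP r D {w | r f w} {w | r w c})
    (hq : HP r D' {w | r d w} {w | r w a}) : HP r V {a, f} {f, e} := by
  have h1 := h.hA
  have h2 := h.hC
  have h3 := h.hW
  have h4 := h.hf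
  have h5 := h.dAC
  have h6 := h.ma
  have h7 := h.me
  have h8 := h.mc
  have h9 := h.md
  have g1 := lk_cons hp (a := f) (by grind) (fun x _ hx => hx)
  have g2 := g1.join h.pC.hp (by
    rw [Finset.disjoint_left]
    grind) (by
    intro t _ ht s _ hs
    obtain rfl : s = c := hs
    exact ht)
  have g3 := g2.join hq (by
    rw [Finset.disjoint_left]
    grind) (by
    intro t _ ht s _ hs
    obtain rfl : t = d := ht
    exact hs)
  have g4 := g3.join h.pA.hp (by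
    rw [Finset.disjoint_left]
    grind) (by
    intro t _ ht s _ hs
    obtain rfl : s = a := hs
    exact ht)
  exact h.fin g4 (by grind) (fun x hx => Or.inr hx) (fun x hx => Or.inr hx)

theorem pat10 (h : LkM1 r V W A C a e f c d a2 e2) {D D' : Finset α} (hD : ∀ x, x ∈ W ↔ x ∈ D ∨ x ∈ D')
    (hDD : ∀ x ∈ D, x ∉ D') (hp : HP r D {w | r e w} {w | r w c})
    (hq : HP r D' {w | r d w} {w | r w f}) : HP r V {a, f} {f, e} := by
  refine dual (h.rev.pat9 (D := D') (D' := D) ?_ ?_ (HP_rev.2 hq) (HP_rev.2 hp))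
  · intro x
    rw [hD x, or_comm]
  · intro x hx hx'
    exact hDD x hx' hx

theorem subV (h : LkM1 r V W A C a e f c d a2 e2) : W ⊆ V := fun x hx => ((h.hW x).1 hx).1

theorem strong (h : LkM1 r V W A C a e f c d a2 e2) (hne : W.Nonempty) (hst : Strong r W) :
    HP r V {a, f} {f, e} := by
  obtain ⟨σ, hσ, hp, -, hcyc⟩ := ham_succ (h.hs.mono h.subV) hst hne
  by_contra hG
  have key : ∀ (S T : Set α), (HP r W S T → HP r V {a, f} {f, e}) → ∀ v ∈ W, v ∈ T → σ v ∉ S := by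
    intro S T hST v hv hvT hvS
    refine hG (hST ((hp v hv).mono ?_ ?_))
    · intro x _ hx
      obtain rfl : x = σ v := hx
      exact hvS
    · intro x _ hx
      obtain rfl : x = v := hx
      exact hvT
  have hfW : f ∉ W := fun hx => ((h.hW f).1 hx).2.1 rfl
  obtain ⟨w, hw, w1, w2, w3, w4, w5, w6⟩ := lk_alt hσ hcyc (LP := {w | r e w}) (FP := {w | r w a})
    (LQ := {w | r d w}) (FQ := {w | r w c}) (Lf := {w | r f w}) (Ff := {w | r w f})
    h.lP h.lQ h.lf (key _ _ h.pat1) (key _ _ h.pat4) (key _ _ h.pat2) (key _ _ h.pat3) (by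
      obtain ⟨u, hu, huW, w, hw, huw⟩ := lk_enter h.h2.1 h.subV hne ⟨f, h.hf, hfW⟩
      refine ⟨w, hw, ?_⟩
      by_cases h1 : u = f
      · subst h1
        exact Or.inr (Or.inr huw)
      · by_cases h2 : u ∈ A
        · exact Or.inl (h.pA.hout w hw ⟨u, h2, huw⟩)
        · by_cases h3 : u ∈ C
          · exact Or.inr (Or.inl (h.pC.hout w hw ⟨u, h3, huw⟩))
          · exact absurd ((h.hW u).2 ⟨hu, h1, h2, h3⟩) huW) (by
      obtain ⟨u, hu, huW, w, hw, huw⟩ := lk_leave h.h2.1 h.subV hne ⟨f, h.hf, hfW⟩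
      refine ⟨w, hw, ?_⟩
      by_cases h1 : u = f
      · subst h1
        exact Or.inr (Or.inr huw)
      · by_cases h2 : u ∈ A
        · exact Or.inl (h.pA.hin w hw ⟨u, h2, huw⟩)
        · by_cases h3 : u ∈ C
          · exact Or.inr (Or.inl (h.pC.hin w hw ⟨u, h3, huw⟩))
          · exact absurd ((h.hW u).2 ⟨hu, h1, h2, h3⟩) huW)
  have hwe : r w e := by
    have hw1 := (h.hW w).1 hw
    rcases h.hs w hw1.1 e (h.hA e h.me).1 (by rintro rfl; exact hw1.2.2.1 h.me) with h1 | h1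
    · exact h1
    · exact absurd h1 w1
  have hwa : r w a2 := h.pA2.hin w hw ⟨e, Finset.mem_erase.2 ⟨h.ae.symm, h.me⟩, hwe⟩
  exact key {w | r d w} {w | r w a2} h.pat6 w hw hwa w6

theorem nonstrong (h : LkM1 r V W A C a e f c d a2 e2) (hne : W.Nonempty) (hns : ¬ Strong r W) :
    HP r V {a, f} {f, e} := by
  have hsW : Semi r W := h.hs.mono h.subV
  obtain ⟨K, F, E⟩ := lk_exE hsW hne hns
  have hW : ∀ x, x ∉ W → x ∈ V → x = f ∨ x ∈ A ∨ x ∈ C := by
    intro x hx hxV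
    by_contra! hc
    exact hx ((h.hW x).2 ⟨hxV, hc.1, hc.2.1, hc.2.2⟩)
  have hfW : f ∉ W := fun hx => ((h.hW f).1 hx).2.1 rfl
  have haW : a ∉ W := fun hx => ((h.hW a).1 hx).2.2.1 h.ma
  have heW : e ∉ W := fun hx => ((h.hW e).1 hx).2.2.1 h.me
  have hcW : c ∉ W := fun hx => ((h.hW c).1 hx).2.2.2 h.mc
  have sub : ∀ z ∉ W, ∀ U ⊆ W, U ⊆ V.erase z := by
    intro z hz U hU x hx
    refine Finset.mem_erase.2 ⟨?_, h.subV (hU hx)⟩
    rintro rfl
    exact hz (hU hx)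
  have maV := (h.hA a h.ma)
  have meV := (h.hA e h.me)
  have eI : From r W {w | r e w} ∨ From r W {w | r d w} := by
    obtain ⟨u, hu, huW, w, hw, huw⟩ := E.in (h.h2.2 f h.hf) (sub f hfW _ E.hF)
      ⟨a, Finset.mem_erase.2 ⟨maV.2, maV.1⟩, haW⟩
    obtain ⟨hu1, hu2⟩ := Finset.mem_erase.1 hu
    rcases hW u huW hu2 with h1 | h1 | h1
    · exact absurd h1 hu1
    · exact Or.inl (E.from ⟨w, hw, h.pA.hout w (E.hF hw) ⟨u, h1, huw⟩⟩)
    · exact Or.inr (E.from ⟨w, hw, h.pC.hout w (E.hF hw) ⟨u, h1, huw⟩⟩)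
  have eJ : To r W {w | r w a} ∨ To r W {w | r w c} := by
    obtain ⟨u, hu, huW, w, hw, huw⟩ := E.out (h.h2.2 f h.hf) (sub f hfW _ E.hK)
      ⟨a, Finset.mem_erase.2 ⟨maV.2, maV.1⟩, haW⟩
    obtain ⟨hu1, hu2⟩ := Finset.mem_erase.1 hu
    rcases hW u huW hu2 with h1 | h1 | h1
    · exact absurd h1 hu1
    · exact Or.inl (E.to ⟨w, hw, h.pA.hin w (E.hK hw) ⟨u, h1, huw⟩⟩)
    · exact Or.inr (E.to ⟨w, hw, h.pC.hin w (E.hK hw) ⟨u, h1, huw⟩⟩)
  by_cases hfI : From r W {w | r f w}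
  · rcases eJ with h1 | h1
    · exact h.pat1 (HP_nonstrong hsW hns hfI h1)
    · exact h.pat4 (HP_nonstrong hsW hns hfI h1)
  by_cases hfJ : To r W {w | r w f}
  · rcases eI with h1 | h1
    · exact h.pat2 (HP_nonstrong hsW hns h1 hfJ)
    · exact h.pat3 (HP_nonstrong hsW hns h1 hfJ)
  have he : From r W {w | r e2 w} ∨ From r W {w | r d w} := by
    obtain ⟨u, hu, huW, w, hw, huw⟩ := E.in (h.h2.2 e meV.1) (sub e heW _ E.hF)
      ⟨a, Finset.mem_erase.2 ⟨h.ae, maV.1⟩, haW⟩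
    obtain ⟨hu1, hu2⟩ := Finset.mem_erase.1 hu
    rcases hW u huW hu2 with h1 | h1 | h1
    · subst h1
      exact absurd (E.from ⟨w, hw, huw⟩) hfI
    · exact Or.inl (E.from ⟨w, hw, h.pA3.hout w (E.hF hw) ⟨u, Finset.mem_erase.2 ⟨hu1, h1⟩, huw⟩⟩)
    · exact Or.inr (E.from ⟨w, hw, h.pC.hout w (E.hF hw) ⟨u, h1, huw⟩⟩)
  have ha' : To r W {w | r w a2} ∨ To r W {w | r w c} := by
    obtain ⟨u, hu, huW, w, hw, huw⟩ := E.out (h.h2.2 a maV.1) (sub a haW _ E.hK)
      ⟨e, Finset.mem_erase.2 ⟨h.ae.symm, meV.1⟩, heW⟩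
    obtain ⟨hu1, hu2⟩ := Finset.mem_erase.1 hu
    rcases hW u huW hu2 with h1 | h1 | h1
    · subst h1
      exact absurd (E.to ⟨w, hw, huw⟩) hfJ
    · exact Or.inl (E.to ⟨w, hw, h.pA2.hin w (E.hK hw) ⟨u, Finset.mem_erase.2 ⟨hu1, h1⟩, huw⟩⟩)
    · exact Or.inr (E.to ⟨w, hw, h.pC.hin w (E.hK hw) ⟨u, h1, huw⟩⟩)
  have hKf : ∀ k ∈ K, r f k := by
    intro k hk
    rcases h.lf k (E.hK hk) with h1 | h1
    · exact h1
    · exact absurd (E.to ⟨k, hk, h1⟩) hfJ
  have hDf : ∀ w ∈ W, w ∉ fwd r W {w | r f w} → r w f := by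
    intro w hw hwD
    rcases h.lf w hw with h1 | h1
    · exact absurd (subset_fwd w hw h1) hwD
    · exact h1
  have hne1 := lk_ne hfI
  by_cases hQJ : To r W {w | r w c}
  · by_cases hP2 : From r W {w | r e2 w}
    · exact h.pat5 (HP_nonstrong hsW hns hP2 hQJ)
    have hQI : From r W {w | r d w} := he.resolve_left hP2
    by_cases hP1 : To r W {w | r w a2}
    · exact h.pat6 (HP_nonstrong hsW hns hQI hP1)
    have hKe : ∀ k ∈ K, r e k := by
      intro k hk
      have hk1 := (h.hW k).1 (E.hK hk)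
      rcases h.hs k hk1.1 e meV.1 (by rintro rfl; exact hk1.2.2.1 h.me) with h1 | h1
      · exact absurd (E.to ⟨k, hk, h.pA2.hin k (E.hK hk)
          ⟨e, Finset.mem_erase.2 ⟨h.ae.symm, h.me⟩, h1⟩⟩) hP1
      · exact h1
    have hKL : ∀ k ∈ K, k ∈ {w | w ∉ F ∧ r e w} := fun k hk => ⟨E.disj k hk, hKe k hk⟩
    have hDF : fwd r W {w | w ∉ F ∧ r e w} ⊆ W \ F := by
      refine fwd_min Finset.sdiff_subset ?_ ?_
      · intro x hx hxL
        exact Finset.mem_sdiff.2 ⟨hx, hxL.1⟩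
      · intro u hu v hv huv
        obtain ⟨hu1, hu2⟩ := Finset.mem_sdiff.1 hu
        refine Finset.mem_sdiff.2 ⟨hv, fun hvF => hu2 (E.hFc v hvF u hu1 huv)⟩
    have hDa : ∀ w ∈ W, w ∉ fwd r W {w | w ∉ F ∧ r e w} → r w a := by
      intro w hw hwD
      have hw1 := (h.hW w).1 hw
      by_cases hwF : w ∈ F
      · rcases h.hs w hw1.1 a maV.1 (by rintro rfl; exact hw1.2.2.1 h.ma) with h1 | h1
        · exact h1
        · exact absurd (E.from ⟨w, hwF, h.pA3.hout w hw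
            ⟨a, Finset.mem_erase.2 ⟨h.ae, h.ma⟩, h1⟩⟩) hP2
      · rcases h.lP w hw with h1 | h1
        · exact absurd (subset_fwd (r := r) (L := {w | w ∉ F ∧ r e w}) w hw ⟨hwF, h1⟩) hwD
        · exact h1
    have hne2 : (W \ fwd r W {w | w ∉ F ∧ r e w}).Nonempty := by
      obtain ⟨x, hx⟩ := E.hFn
      exact ⟨x, Finset.mem_sdiff.2 ⟨E.hF hx, fun h1 => (Finset.mem_sdiff.1 (hDF h1)).2 hx⟩⟩
    rcases Cl.total hsW (fwd_subset (r := r) (L := {w | r f w}))
      (fwd_subset (r := r) (L := {w | w ∉ F ∧ r e w})) fwd_cl fwd_cl with ht | ht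
    · refine h.pat10 (D := fwd r W {w | w ∉ F ∧ r e w}) (D' := W \ fwd r W {w | w ∉ F ∧ r e w})
        ?_ ?_ ?_ ?_
      · intro x
        have := @fwd_subset α _ r W {w | w ∉ F ∧ r e w} x
        rw [Finset.mem_sdiff]
        tauto
      · intro x hx hx'
        exact (Finset.mem_sdiff.1 hx').2 hx
      · exact (E.HPfwd hKL hQJ).mono (fun x _ hx => hx.2) (fun x _ hx => hx)
      · refine (lk_compl hsW fwd_subset fwd_cl hne2 hQI).mono (fun x _ hx => hx) ?_
        intro y hy _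
        obtain ⟨hy1, hy2⟩ := Finset.mem_sdiff.1 hy
        exact hDf y hy1 fun h1 => hy2 (ht h1)
    · refine h.pat9 (D := fwd r W {w | r f w}) (D' := W \ fwd r W {w | r f w}) ?_ ?_ ?_ ?_
      · intro x
        have := @fwd_subset α _ r W {w | r f w} x
        rw [Finset.mem_sdiff]
        tauto
      · intro x hx hx'
        exact (Finset.mem_sdiff.1 hx').2 hx
      · exact E.HPfwd hKf hQJ
      · refine (lk_compl hsW fwd_subset fwd_cl hne1 hQI).mono (fun x _ hx => hx) ?_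
        intro y hy _
        obtain ⟨hy1, hy2⟩ := Finset.mem_sdiff.1 hy
        exact hDa y hy1 fun h1 => hy2 (ht h1)
  · have hP1 : To r W {w | r w a2} := ha'.resolve_right hQJ
    have hPJ : To r W {w | r w a} := eJ.resolve_right hQJ
    by_cases hQI : From r W {w | r d w}
    · exact h.pat6 (HP_nonstrong hsW hns hQI hP1)
    have hP2 : From r W {w | r e2 w} := he.resolve_right hQI
    have hPI : From r W {w | r e w} := eI.resolve_right hQI
    have hKd : ∀ k ∈ K, r d k := by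
      intro k hk
      rcases h.lQ k (E.hK hk) with h1 | h1
      · exact h1
      · exact absurd (E.to ⟨k, hk, h1⟩) hQJ
    have hDQ : ∀ w ∈ W, w ∉ fwd r W {w | r d w} → r w c := by
      intro w hw hwD
      rcases h.lQ w hw with h1 | h1
      · exact absurd (subset_fwd w hw h1) hwD
      · exact h1
    have hne2 := lk_ne hQI
    rcases Cl.total hsW (fwd_subset (r := r) (L := {w | r f w}))
      (fwd_subset (r := r) (L := {w | r d w})) fwd_cl fwd_cl with ht | ht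
    · refine h.pat8 (D := fwd r W {w | r d w}) (D' := W \ fwd r W {w | r d w}) ?_ ?_ ?_ ?_
      · intro x
        have := @fwd_subset α _ r W {w | r d w} x
        rw [Finset.mem_sdiff]
        tauto
      · intro x hx hx'
        exact (Finset.mem_sdiff.1 hx').2 hx
      · exact E.HPfwd hKd hP1
      · refine (lk_compl hsW fwd_subset fwd_cl hne2 hPI).mono (fun x _ hx => hx) ?_
        intro y hy _
        obtain ⟨hy1, hy2⟩ := Finset.mem_sdiff.1 hy
        exact hDf y hy1 fun h1 => hy2 (ht h1)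
    · refine h.pat7 (D := fwd r W {w | r f w}) (D' := W \ fwd r W {w | r f w}) ?_ ?_ ?_ ?_
      · intro x
        have := @fwd_subset α _ r W {w | r f w} x
        rw [Finset.mem_sdiff]
        tauto
      · intro x hx hx'
        exact (Finset.mem_sdiff.1 hx').2 hx
      · exact E.HPfwd hKf hPJ
      · refine (lk_compl hsW fwd_subset fwd_cl hne1 hP2).mono (fun x _ hx => hx) ?_
        intro y hy _
        obtain ⟨hy1, hy2⟩ := Finset.mem_sdiff.1 hy
        exact hDQ y hy1 fun h1 => hy2 (ht h1)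

theorem goal (h : LkM1 r V W A C a e f c d a2 e2) : HP r V {a, f} {f, e} := by
  rcases W.eq_empty_or_nonempty with hW | hW
  · exact h.pat0 hW
  · by_cases hst : Strong r W
    · exact h.strong hW hst
    · exact h.nonstrong hW hst

end LkM1

/-! ### The type M5 -/

/-- Data of the type M5. -/
structure LkM5 (r : α → α → Prop) (V W A C : Finset α) (a e f c d a2 e2 : α) : Prop where
  hs : Semi r V
  h2 : TwoStrong r V
  hf : f ∈ V
  hA : ∀ x ∈ A, x ∈ V ∧ x ≠ f
  hC : ∀ x ∈ C, x ∈ V ∧ x ≠ f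
  dAC : ∀ x ∈ A, x ∉ C
  hW : ∀ x, x ∈ W ↔ x ∈ V ∧ x ≠ f ∧ x ∉ A ∧ x ∉ C
  ad : a ≠ d
  ce : c ≠ e
  hac : r a c
  hde : r d e
  pA : PD r W A a d
  pC : PD r W C c e
  ha2 : r a a2
  pA2 : PD r W (A.erase a) a2 d
  he2 : r e2 e
  pC2 : PD r W (C.erase e) c e2

namespace LkM5

variable {W A C : Finset α} {a e f c d a2 e2 : α}

theorem rev (h : LkM5 r V W A C a e f c d a2 e2) :
    LkM5 (fun x y => r y x) V W C A e a f d c e2 a2 :=
  ⟨h.hs.rev, h.h2.rev, h.hf, h.hC, h.hA, fun x hx hx' => h.dAC x hx' hx, fun x => by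
    rw [h.hW x]; tauto, h.ce.symm, h.ad.symm, h.hde, h.hac, h.pC.lk_rev, h.pA.lk_rev,
    h.he2, h.pC2.lk_rev, h.ha2, h.pA2.lk_rev⟩

theorem dual (h : HP (fun x y => r y x) V {e, f} {f, a}) : HP r V {a, f} {f, e} := by
  rw [HP_rev, Set.pair_comm f a, Set.pair_comm e f] at h
  exact h

theorem ma (h : LkM5 r V W A C a e f c d a2 e2) : a ∈ A := lk_mem_start h.pA.hp
theorem me (h : LkM5 r V W A C a e f c d a2 e2) : e ∈ C := lk_mem_end h.pC.hp
theorem mc (h : LkM5 r V W A C a e f c d a2 e2) : c ∈ C := lk_mem_start h.pC.hp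
theorem md (h : LkM5 r V W A C a e f c d a2 e2) : d ∈ A := lk_mem_end h.pA.hp

theorem lP (h : LkM5 r V W A C a e f c d a2 e2) : ∀ w ∈ W, r d w ∨ r w a := by
  intro w hw
  have h1 := (h.hW w).1 hw
  rcases h.hs w h1.1 a (h.hA a h.ma).1 (by rintro rfl; exact h1.2.2.1 h.ma) with h2 | h2
  · exact Or.inr h2
  · exact Or.inl (h.pA.hout w hw ⟨a, h.ma, h2⟩)

theorem lQ (h : LkM5 r V W A C a e f c d a2 e2) : ∀ w ∈ W, r e w ∨ r w c := by
  intro w hw
  have h1 := (h.hW w).1 hw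
  rcases h.hs w h1.1 c (h.hC c h.mc).1 (by rintro rfl; exact h1.2.2.2 h.mc) with h2 | h2
  · exact Or.inr h2
  · exact Or.inl (h.pC.hout w hw ⟨c, h.mc, h2⟩)

theorem lf (h : LkM5 r V W A C a e f c d a2 e2) : ∀ w ∈ W, r f w ∨ r w f := by
  intro w hw
  have h1 := (h.hW w).1 hw
  exact (h.hs w h1.1 f h.hf h1.2.1).symm

theorem fin (h : LkM5 r V W A C a e f c d a2 e2) {U : Finset α} {S T : Set α} (hU : HP r U S T)
    (hUV : ∀ x, x ∈ U ↔ x ∈ V) (hS : ∀ x ∈ S, x = a ∨ x = f) (hT : ∀ x ∈ T, x = f ∨ x = e) :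
    HP r V {a, f} {f, e} := by
  have : U = V := Finset.ext hUV
  subst this
  exact hU.mono (fun x _ hx => hS x hx) (fun x _ hx => hT x hx)

theorem mergef (h : LkM5 r V W A C a e f c d a2 e2) {U : Finset α} (hU : HP r U {a} {e})
    (hUV : ∀ x, x ∈ U ↔ x ∈ V ∧ x ≠ f) : HP r V {a, f} {f, e} := by
  have h1 : HP r {f} {f} {f} := HP_singleton rfl rfl
  have h2 := hU.merge h1 (by
    rw [Finset.disjoint_left]
    intro x hx
    have := (hUV x).1 hx
    simpa using this.2) (h.hs.mono (by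
      intro x hx
      have := h.hf
      have := hUV x
      grind))
  refine h.fin h2 ?_ ?_ ?_
  · intro x
    have := h.hf
    have := hUV x
    grind
  · rintro x (hx | hx)
    · exact Or.inl hx
    · exact Or.inr hx
  · rintro x (hx | hx)
    · exact Or.inr hx
    · exact Or.inl hx

theorem mid (h : LkM5 r V W A C a e f c d a2 e2) : HP r (A ∪ C) {a} {e} := by
  have h1 := h.hA
  have h2 := h.hC
  have h3 := h.hW
  have h4 := h.hf
  have h5 := h.dAC
  have h6 := h.ma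
  have h7 := h.me
  have h8 := h.mc
  have h9 := h.md
  have g1 := h.pA2.hp.merge h.pC2.hp (by
    rw [Finset.disjoint_left]
    grind) (h.hs.mono (by intro x; grind))
  have g2 := lk_snoc g1 (e := e) (by grind) (fun x _ hx => by
    rcases hx with hx | hx
    · obtain rfl : x = d := hx
      exact h.hde
    · obtain rfl : x = e2 := hx
      exact h.he2)
  have g3 := lk_cons g2 (a := a) (by grind) (fun x _ hx => by
    rcases hx with hx | hx
    · obtain rfl : x = a2 := hx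
      exact h.ha2
    · obtain rfl : x = c := hx
      exact h.hac)
  have e1 : insert a (insert e ((A.erase a) ∪ (C.erase e))) = A ∪ C := by
    ext x
    grind
  rwa [e1] at g3

theorem pat0 (h : LkM5 r V W A C a e f c d a2 e2) (hW : W = ∅) : HP r V {a, f} {f, e} := by
  refine h.mergef h.mid ?_
  intro x
  have h1 := h.hA x
  have h2 := h.hC x
  have h3 := h.hW x
  subst hW
  grind

theorem q1 (h : LkM5 r V W A C a e f c d a2 e2) (hp : HP r W {w | r f w} {w | r w a}) :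
    HP r V {a, f} {f, e} := by
  have h1 := h.hA
  have h2 := h.hC
  have h3 := h.hW
  have h4 := h.hf
  have g1 := hp.join h.mid (by
    rw [Finset.disjoint_left]
    grind) (by
    intro t _ ht s _ hs
    obtain rfl : s = a := hs
    exact ht)
  have g2 := lk_cons g1 (a := f) (by grind) (fun x _ hx => hx)
  refine h.fin g2 (by grind) (fun x hx => Or.inr hx) (fun x hx => Or.inr hx)

theorem q2 (h : LkM5 r V W A C a e f c d a2 e2) (hp : HP r W {w | r e w} {w | r w f}) :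
    HP r V {a, f} {f, e} := dual (h.rev.q1 (HP_rev.2 hp))

theorem q3 (h : LkM5 r V W A C a e f c d a2 e2) (hp : HP r W {w | r f w} {w | r w c}) :
    HP r V {a, f} {f, e} := by
  have h1 := h.hA
  have h2 := h.hC
  have h3 := h.hW
  have h4 := h.hf
  have h5 := h.dAC
  have h6 := h.ma
  have h7 := h.me
  have h8 := h.mc
  have h9 := h.md
  have g1 := hp.join h.pC2.hp (by
    rw [Finset.disjoint_left]
    grind) (by
    intro t _ ht s _ hs
    obtain rfl : s = c := hs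
    exact ht)
  have g2 := lk_cons g1 (a := f) (by grind) (fun x _ hx => hx)
  have g3 := g2.merge h.pA.hp (by
    rw [Finset.disjoint_left]
    grind) (h.hs.mono (by intro x; grind))
  have g4 := lk_snoc g3 (e := e) (by grind) (fun x _ hx => by
    rcases hx with hx | hx
    · obtain rfl : x = e2 := hx
      exact h.he2
    · obtain rfl : x = d := hx
      exact h.hde)
  refine h.fin g4 (by grind) ?_ (fun x hx => Or.inr hx)
  rintro x (hx | hx)
  · exact Or.inr hx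
  · exact Or.inl hx

theorem q4 (h : LkM5 r V W A C a e f c d a2 e2) (hp : HP r W {w | r d w} {w | r w f}) :
    HP r V {a, f} {f, e} := dual (h.rev.q3 (HP_rev.2 hp))

theorem q5 (h : LkM5 r V W A C a e f c d a2 e2) (hp : HP r W {w | r d w} {w | r w c}) :
    HP r V {a, f} {f, e} := by
  have h1 := h.hA
  have h2 := h.hC
  have h3 := h.hW
  have h4 := h.hf
  have h5 := h.dAC
  have g1 := h.pA.hp.join hp (by
    rw [Finset.disjoint_left]
    grind) (by
    intro t _ ht s _ hs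
    obtain rfl : t = d := ht
    exact hs)
  have g2 := g1.join h.pC.hp (by
    rw [Finset.disjoint_left]
    grind) (by
    intro t _ ht s _ hs
    obtain rfl : s = c := hs
    exact ht)
  exact h.mergef g2 (by grind)

theorem q6 (h : LkM5 r V W A C a e f c d a2 e2) (hp : HP r W {w | r e2 w} {w | r w a2}) :
    HP r V {a, f} {f, e} := by
  have h1 := h.hA
  have h2 := h.hC
  have h3 := h.hW
  have h4 := h.hf
  have h5 := h.dAC
  have h6 := h.ma
  have h7 := h.me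
  have h8 := h.mc
  have h9 := h.md
  have g1 := h.pC2.hp.join hp (by
    rw [Finset.disjoint_left]
    grind) (by
    intro t _ ht s _ hs
    obtain rfl : t = e2 := ht
    exact hs)
  have g2 := g1.join h.pA2.hp (by
    rw [Finset.disjoint_left]
    grind) (by
    intro t _ ht s _ hs
    obtain rfl : s = a2 := hs
    exact ht)
  have g3 := lk_snoc g2 (e := e) (by grind) (fun x _ hx => by
    obtain rfl : x = d := hx
    exact h.hde)
  have g4 := lk_cons g3 (a := a) (by grind) (fun x _ hx => by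
    obtain rfl : x = c := hx
    exact h.hac)
  exact h.mergef g4 (by grind)

theorem q7 (h : LkM5 r V W A C a e f c d a2 e2) {D D' : Finset α} (hD : ∀ x, x ∈ W ↔ x ∈ D ∨ x ∈ D')
    (hDD : ∀ x ∈ D, x ∉ D') (hp : HP r D {w | r f w} {w | r w c})
    (hq : HP r D' {w | r e2 w} {w | r w a}) : HP r V {a, f} {f, e} := by
  have h1 := h.hA
  have h2 := h.hC
  have h3 := h.hW
  have h4 := h.hf
  have h5 := h.dAC
  have h6 := h.ma
  have h7 := h.me
  have h8 := h.mc
  have h9 := h.md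
  have g1 := lk_cons hp (a := f) (by grind) (fun x _ hx => hx)
  have g2 := g1.join h.pC2.hp (by
    rw [Finset.disjoint_left]
    grind) (by
    intro t _ ht s _ hs
    obtain rfl : s = c := hs
    exact ht)
  have g3 := g2.join hq (by
    rw [Finset.disjoint_left]
    grind) (by
    intro t _ ht s _ hs
    obtain rfl : t = e2 := ht
    exact hs)
  have g4 := g3.join h.pA.hp (by
    rw [Finset.disjoint_left]
    grind) (by
    intro t _ ht s _ hs
    obtain rfl : s = a := hs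
    exact ht)
  have g5 := lk_snoc g4 (e := e) (by grind) (fun x _ hx => by
    obtain rfl : x = d := hx
    exact h.hde)
  exact h.fin g5 (by grind) (fun x hx => Or.inr hx) (fun x hx => Or.inr hx)

theorem q8 (h : LkM5 r V W A C a e f c d a2 e2) {D D' : Finset α} (hD : ∀ x, x ∈ W ↔ x ∈ D ∨ x ∈ D')
    (hDD : ∀ x ∈ D, x ∉ D') (hp : HP r D {w | r d w} {w | r w c})
    (hq : HP r D' {w | r e w} {w | r w f}) : HP r V {a, f} {f, e} := by
  have h1 := h.hA
  have h2 := h.hC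
  have h3 := h.hW
  have h4 := h.hf
  have h5 := h.dAC
  have g1 := h.pA.hp.join hp (by
    rw [Finset.disjoint_left]
    grind) (by
    intro t _ ht s _ hs
    obtain rfl : t = d := ht
    exact hs)
  have g2 := g1.join h.pC.hp (by
    rw [Finset.disjoint_left]
    grind) (by
    intro t _ ht s _ hs
    obtain rfl : s = c := hs
    exact ht)
  have g3 := g2.join hq (by
    rw [Finset.disjoint_left]
    grind) (by
    intro t _ ht s _ hs
    obtain rfl : t = e := ht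
    exact hs)
  have g4 := lk_snoc g3 (e := f) (by grind) (fun x _ hx => hx)
  exact h.fin g4 (by grind) (fun x hx => Or.inl hx) (fun x hx => Or.inl hx)

theorem subV (h : LkM5 r V W A C a e f c d a2 e2) : W ⊆ V := fun x hx => ((h.hW x).1 hx).1

theorem strong (h : LkM5 r V W A C a e f c d a2 e2) (hne : W.Nonempty) (hst : Strong r W) :
    HP r V {a, f} {f, e} := by
  obtain ⟨σ, hσ, hp, -, hcyc⟩ := ham_succ (h.hs.mono h.subV) hst hne
  by_contra hG
  have key : ∀ (S T : Set α), (HP r W S T → HP r V {a, f} {f, e}) → ∀ v ∈ W, v ∈ T → σ v ∉ S := by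
    intro S T hST v hv hvT hvS
    refine hG (hST ((hp v hv).mono ?_ ?_))
    · intro x _ hx
      obtain rfl : x = σ v := hx
      exact hvS
    · intro x _ hx
      obtain rfl : x = v := hx
      exact hvT
  have hfW : f ∉ W := fun hx => ((h.hW f).1 hx).2.1 rfl
  obtain ⟨w, hw, w1, w2, w3, w4, w5, w6⟩ := lk_alt hσ hcyc (LP := {w | r d w}) (FP := {w | r w a})
    (LQ := {w | r e w}) (FQ := {w | r w c}) (Lf := {w | r f w}) (Ff := {w | r w f})
    h.lP h.lQ h.lf (key _ _ h.q1) (key _ _ h.q3) (key _ _ h.q4) (key _ _ h.q2) (by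
      obtain ⟨u, hu, huW, w, hw, huw⟩ := lk_enter h.h2.1 h.subV hne ⟨f, h.hf, hfW⟩
      refine ⟨w, hw, ?_⟩
      by_cases h1 : u = f
      · subst h1
        exact Or.inr (Or.inr huw)
      · by_cases h2 : u ∈ A
        · exact Or.inl (h.pA.hout w hw ⟨u, h2, huw⟩)
        · by_cases h3 : u ∈ C
          · exact Or.inr (Or.inl (h.pC.hout w hw ⟨u, h3, huw⟩))
          · exact absurd ((h.hW u).2 ⟨hu, h1, h2, h3⟩) huW) (by
      obtain ⟨u, hu, huW, w, hw, huw⟩ := lk_leave h.h2.1 h.subV hne ⟨f, h.hf, hfW⟩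
      refine ⟨w, hw, ?_⟩
      by_cases h1 : u = f
      · subst h1
        exact Or.inr (Or.inr huw)
      · by_cases h2 : u ∈ A
        · exact Or.inl (h.pA.hin w hw ⟨u, h2, huw⟩)
        · by_cases h3 : u ∈ C
          · exact Or.inr (Or.inl (h.pC.hin w hw ⟨u, h3, huw⟩))
          · exact absurd ((h.hW u).2 ⟨hu, h1, h2, h3⟩) huW)
  exact key {w | r d w} {w | r w c} h.q5 w hw w4 w5

/-- The facts used in the nonstrong case. -/
structure Ns (r : α → α → Prop) (W : Finset α) (f a c d e a2 e2 : α) : Prop where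
  eI : From r W {w | r d w} ∨ From r W {w | r e w}
  eJ : To r W {w | r w a} ∨ To r W {w | r w c}
  fI : ¬ From r W {w | r f w}
  fJ : ¬ To r W {w | r w f}
  he : From r W {w | r d w} ∨ From r W {w | r e2 w}
  ha : To r W {w | r w a2} ∨ To r W {w | r w c}

theorem half (h : LkM5 r V W A C a e f c d a2 e2) (hns : ¬ Strong r W)
    {K F : Finset α} (E : LkE r W K F) (N : Ns r W f a c d e a2 e2)
    (hP : ¬ From r W {w | r d w}) : HP r V {a, f} {f, e} := by
  have hsW : Semi r W := h.hs.mono h.subV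
  have mdV := (h.hA d h.md)
  have hQ : From r W {w | r e w} := N.eI.resolve_left hP
  have hQ2 : From r W {w | r e2 w} := N.he.resolve_left hP
  by_cases hP1 : To r W {w | r w a2}
  · exact h.q6 (HP_nonstrong hsW hns hQ2 hP1)
  have hQJ : To r W {w | r w c} := N.ha.resolve_left hP1
  have hKf : ∀ k ∈ K, r f k := by
    intro k hk
    rcases h.lf k (E.hK hk) with h1 | h1
    · exact h1
    · exact absurd (E.to ⟨k, hk, h1⟩) N.fJ
  have hDf : ∀ w ∈ W, w ∉ fwd r W {w | r f w} → r w f := by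
    intro w hw hwD
    rcases h.lf w hw with h1 | h1
    · exact absurd (subset_fwd w hw h1) hwD
    · exact h1
  have hKd : ∀ k ∈ K, r d k := by
    intro k hk
    have hk1 := (h.hW k).1 (E.hK hk)
    rcases h.hs k hk1.1 d mdV.1 (by rintro rfl; exact hk1.2.2.1 h.md) with h1 | h1
    · exact absurd (E.to ⟨k, hk, h.pA2.hin k (E.hK hk)
        ⟨d, Finset.mem_erase.2 ⟨h.ad.symm, h.md⟩, h1⟩⟩) hP1
    · exact h1
  have hDP : ∀ w ∈ W, w ∉ fwd r W {w | r d w} → r w a := by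
    intro w hw hwD
    rcases h.lP w hw with h1 | h1
    · exact absurd (subset_fwd w hw h1) hwD
    · exact h1
  have hne1 := lk_ne N.fI
  have hne2 := lk_ne hP
  rcases Cl.total hsW (fwd_subset (r := r) (L := {w | r f w}))
    (fwd_subset (r := r) (L := {w | r d w})) fwd_cl fwd_cl with ht | ht
  · refine h.q8 (D := fwd r W {w | r d w}) (D' := W \ fwd r W {w | r d w}) ?_ ?_ ?_ ?_
    · intro x
      have := @fwd_subset α _ r W {w | r d w} x
      rw [Finset.mem_sdiff]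
      tauto
    · intro x hx hx'
      exact (Finset.mem_sdiff.1 hx').2 hx
    · exact E.HPfwd hKd hQJ
    · refine (lk_compl hsW fwd_subset fwd_cl hne2 hQ).mono (fun x _ hx => hx) ?_
      intro y hy _
      obtain ⟨hy1, hy2⟩ := Finset.mem_sdiff.1 hy
      exact hDf y hy1 fun h1 => hy2 (ht h1)
  · refine h.q7 (D := fwd r W {w | r f w}) (D' := W \ fwd r W {w | r f w}) ?_ ?_ ?_ ?_
    · intro x
      have := @fwd_subset α _ r W {w | r f w} x
      rw [Finset.mem_sdiff]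
      tauto
    · intro x hx hx'
      exact (Finset.mem_sdiff.1 hx').2 hx
    · exact E.HPfwd hKf hQJ
    · refine (lk_compl hsW fwd_subset fwd_cl hne1 hQ2).mono (fun x _ hx => hx) ?_
      intro y hy _
      obtain ⟨hy1, hy2⟩ := Finset.mem_sdiff.1 hy
      exact hDP y hy1 fun h1 => hy2 (ht h1)

theorem Ns.rev {f a c d e a2 e2 : α} (N : Ns r W f a c d e a2 e2) :
    Ns (fun x y => r y x) W f e d c a e2 a2 := by
  obtain ⟨n1, n2, n3, n4, n5, n6⟩ := N
  refine ⟨?_, ?_, fun h1 => n4 h1.rev, fun h1 => n3 h1.rev, ?_, ?_⟩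
  · exact n2.symm.imp (fun h1 => h1.rev) (fun h1 => h1.rev)
  · exact n1.symm.imp (fun h1 => h1.rev) (fun h1 => h1.rev)
  · exact n6.symm.imp (fun h1 => h1.rev) (fun h1 => h1.rev)
  · exact n5.symm.imp (fun h1 => h1.rev) (fun h1 => h1.rev)

theorem nonstrong (h : LkM5 r V W A C a e f c d a2 e2) (hne : W.Nonempty) (hns : ¬ Strong r W) :
    HP r V {a, f} {f, e} := by
  have hsW : Semi r W := h.hs.mono h.subV
  obtain ⟨K, F, E⟩ := lk_exE hsW hne hns
  have hW : ∀ x, x ∉ W → x ∈ V → x = f ∨ x ∈ A ∨ x ∈ C := by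
    intro x hx hxV
    by_contra! hc
    exact hx ((h.hW x).2 ⟨hxV, hc.1, hc.2.1, hc.2.2⟩)
  have hfW : f ∉ W := fun hx => ((h.hW f).1 hx).2.1 rfl
  have haW : a ∉ W := fun hx => ((h.hW a).1 hx).2.2.1 h.ma
  have heW : e ∉ W := fun hx => ((h.hW e).1 hx).2.2.2 h.me
  have sub : ∀ z ∉ W, ∀ U ⊆ W, U ⊆ V.erase z := by
    intro z hz U hU x hx
    refine Finset.mem_erase.2 ⟨?_, h.subV (hU hx)⟩
    rintro rfl
    exact hz (hU hx)
  have maV := (h.hA a h.ma)
  have meV := (h.hC e h.me)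
  have hae : a ≠ e := by
    rintro rfl
    exact h.dAC a h.ma h.me
  have eI : From r W {w | r d w} ∨ From r W {w | r e w} := by
    obtain ⟨u, hu, huW, w, hw, huw⟩ := E.in (h.h2.2 f h.hf) (sub f hfW _ E.hF)
      ⟨a, Finset.mem_erase.2 ⟨maV.2, maV.1⟩, haW⟩
    obtain ⟨hu1, hu2⟩ := Finset.mem_erase.1 hu
    rcases hW u huW hu2 with h1 | h1 | h1
    · exact absurd h1 hu1
    · exact Or.inl (E.from ⟨w, hw, h.pA.hout w (E.hF hw) ⟨u, h1, huw⟩⟩)
    · exact Or.inr (E.from ⟨w, hw, h.pC.hout w (E.hF hw) ⟨u, h1, huw⟩⟩)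
  have eJ : To r W {w | r w a} ∨ To r W {w | r w c} := by
    obtain ⟨u, hu, huW, w, hw, huw⟩ := E.out (h.h2.2 f h.hf) (sub f hfW _ E.hK)
      ⟨a, Finset.mem_erase.2 ⟨maV.2, maV.1⟩, haW⟩
    obtain ⟨hu1, hu2⟩ := Finset.mem_erase.1 hu
    rcases hW u huW hu2 with h1 | h1 | h1
    · exact absurd h1 hu1
    · exact Or.inl (E.to ⟨w, hw, h.pA.hin w (E.hK hw) ⟨u, h1, huw⟩⟩)
    · exact Or.inr (E.to ⟨w, hw, h.pC.hin w (E.hK hw) ⟨u, h1, huw⟩⟩)
  by_cases hfI : From r W {w | r f w}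
  · rcases eJ with h1 | h1
    · exact h.q1 (HP_nonstrong hsW hns hfI h1)
    · exact h.q3 (HP_nonstrong hsW hns hfI h1)
  by_cases hfJ : To r W {w | r w f}
  · rcases eI with h1 | h1
    · exact h.q4 (HP_nonstrong hsW hns h1 hfJ)
    · exact h.q2 (HP_nonstrong hsW hns h1 hfJ)
  have he : From r W {w | r d w} ∨ From r W {w | r e2 w} := by
    obtain ⟨u, hu, huW, w, hw, huw⟩ := E.in (h.h2.2 e meV.1) (sub e heW _ E.hF)
      ⟨a, Finset.mem_erase.2 ⟨hae, maV.1⟩, haW⟩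
    obtain ⟨hu1, hu2⟩ := Finset.mem_erase.1 hu
    rcases hW u huW hu2 with h1 | h1 | h1
    · subst h1
      exact absurd (E.from ⟨w, hw, huw⟩) hfI
    · exact Or.inl (E.from ⟨w, hw, h.pA.hout w (E.hF hw) ⟨u, h1, huw⟩⟩)
    · exact Or.inr (E.from ⟨w, hw, h.pC2.hout w (E.hF hw) ⟨u, Finset.mem_erase.2 ⟨hu1, h1⟩, huw⟩⟩)
  have ha' : To r W {w | r w a2} ∨ To r W {w | r w c} := by
    obtain ⟨u, hu, huW, w, hw, huw⟩ := E.out (h.h2.2 a maV.1) (sub a haW _ E.hK)
      ⟨e, Finset.mem_erase.2 ⟨hae.symm, meV.1⟩, heW⟩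
    obtain ⟨hu1, hu2⟩ := Finset.mem_erase.1 hu
    rcases hW u huW hu2 with h1 | h1 | h1
    · subst h1
      exact absurd (E.to ⟨w, hw, huw⟩) hfJ
    · exact Or.inl (E.to ⟨w, hw, h.pA2.hin w (E.hK hw) ⟨u, Finset.mem_erase.2 ⟨hu1, h1⟩, huw⟩⟩)
    · exact Or.inr (E.to ⟨w, hw, h.pC.hin w (E.hK hw) ⟨u, h1, huw⟩⟩)
  have N : Ns r W f a c d e a2 e2 := ⟨eI, eJ, hfI, hfJ, he, ha'⟩
  by_cases hP : From r W {w | r d w}
  · by_cases hQ : To r W {w | r w c}
    · exact h.q5 (HP_nonstrong hsW hns hP hQ)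
    · refine dual (h.rev.half (fun h1 => hns (Strong.rev.1 h1)) E.rev N.rev fun h1 => hQ ?_)
      exact h1.rev
  · exact h.half hns E N hP

theorem goal (h : LkM5 r V W A C a e f c d a2 e2) : HP r V {a, f} {f, e} := by
  rcases W.eq_empty_or_nonempty with hW | hW
  · exact h.pat0 hW
  · by_cases hst : Strong r W
    · exact h.strong hW hst
    · exact h.nonstrong hW hst

end LkM5

/-! ### The theorem -/

theorem linkage (hs : Semi r V) (h2 : TwoStrong r V) {a e f c d : α} (ha : a ∈ V) (he : e ∈ V)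
    (hf : f ∈ V) (hc : c ∈ V) (hd : d ∈ V) (hae : a ≠ e) (haf : a ≠ f) (hef : e ≠ f) (hca : c ≠ a)
    (hce : c ≠ e) (hcf : c ≠ f) (hda : d ≠ a) (hde : d ≠ e) (hdf : d ≠ f) (hac : r a c)
    (hder : r d e) (h : Conn r (V.erase f) {a, c} {e, d} 2) : HP r V {a, f} {f, e} := by
  obtain ⟨A, C, hA, hC, hAC, h1⟩ := link_paths (hs.mono (Finset.erase_subset f V)) hca.symm
    hde.symm hae hda.symm hce h
  have hA' : ∀ x ∈ A, x ∈ V ∧ x ≠ f := fun x hx => by
    have := Finset.mem_erase.1 (hA hx)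
    exact ⟨this.2, this.1⟩
  have hC' : ∀ x ∈ C, x ∈ V ∧ x ≠ f := fun x hx => by
    have := Finset.mem_erase.1 (hC hx)
    exact ⟨this.2, this.1⟩
  have hW : ∀ x, x ∈ V.erase f \ (A ∪ C) ↔ x ∈ V ∧ x ≠ f ∧ x ∉ A ∧ x ∉ C := by
    intro x
    rw [Finset.mem_sdiff, Finset.mem_erase, Finset.mem_union]
    tauto
  rcases h1 with ⟨p1, p2, ⟨a2, p3, p4⟩, ⟨e2, p5, p6⟩⟩ | ⟨p1, p2, ⟨a2, p3, p4⟩, ⟨e2, p5, p6⟩⟩
  · exact LkM1.goal ⟨hs, h2, hf, hA', hC', fun x hx => Finset.disjoint_left.1 hAC hx, hW, hae, hac,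
      hder, p1, p2, p3, p4, p5, p6⟩
  · exact LkM5.goal ⟨hs, h2, hf, hA', hC', fun x hx => Finset.disjoint_left.1 hAC hx, hW, hda.symm,
      hce, hac, hder, p1, p2, p3, p4, p5, p6⟩

end Pool.Agent.Helper944_HC
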