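import Pool.Agent.Helper944_HC.Basic

/-!
# Hamiltonian paths between two vertices, in one of the two directions
-/

namespace Pool.Agent.Helper944_HC

variable {α : Type*} [DecidableEq α] {r : α → α → Prop} {V : Finset α}

theorem wk_strong_singleton (a : α) : Strong r {a} := by
  intro U hU hne hU'
  exact absurd ((Finset.Nonempty.subset_singleton_iff hne).1 hU) hU'

theorem wk_strong_insert {U : Finset α} {w : α} (hU : Strong r U)
    (h1 : ∃ u ∈ U, r u w) (h2 : ∃ u ∈ U, r w u) : Strong r (insert w U) := by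
  intro A hA hne hA'
  obtain ⟨u1, hu1, h1⟩ := h1
  obtain ⟨u2, hu2, h2⟩ := h2
  have hAw : ∀ x ∈ A, x ≠ w → x ∈ U := by
    intro x hx hxw
    rcases Finset.mem_insert.1 (hA hx) with h | h
    · exact absurd h hxw
    · exact h
  by_cases hc : (A ∩ U).Nonempty
  · by_cases hc' : A ∩ U = U
    · have hwA : w ∉ A := by
        intro hwA
        apply hA'
        apply Finset.Subset.antisymm hA
        intro x hx
        rcases Finset.mem_insert.1 hx with h | h
        · rw [h]; exact hwA
        · rw [← hc'] at h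
          exact (Finset.mem_inter.1 h).1
      refine ⟨u1, ?_, w, ?_, h1⟩
      · rw [← hc'] at hu1
        exact (Finset.mem_inter.1 hu1).1
      · exact Finset.mem_sdiff.2 ⟨Finset.mem_insert_self _ _, hwA⟩
    · obtain ⟨x, hx, y, hy, hxy⟩ := hU (A ∩ U) Finset.inter_subset_right hc hc'
      rw [Finset.mem_sdiff] at hy
      refine ⟨x, (Finset.mem_inter.1 hx).1, y, Finset.mem_sdiff.2 ⟨Finset.mem_insert_of_mem hy.1, ?_⟩, hxy⟩
      intro hyA
      exact hy.2 (Finset.mem_inter.2 ⟨hyA, hy.1⟩)
  · rw [Finset.not_nonempty_iff_eq_empty] at hc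
    obtain ⟨x, hx⟩ := hne
    have hxw : x = w := by
      by_contra hxw
      have : x ∈ A ∩ U := Finset.mem_inter.2 ⟨hx, hAw x hx hxw⟩
      rw [hc] at this
      exact absurd this (Finset.notMem_empty x)
    refine ⟨w, hxw ▸ hx, u2, Finset.mem_sdiff.2 ⟨Finset.mem_insert_of_mem hu2, ?_⟩, h2⟩
    intro hu2A
    have : u2 ∈ A ∩ U := Finset.mem_inter.2 ⟨hu2A, hu2⟩
    rw [hc] at this
    exact absurd this (Finset.notMem_empty u2)

theorem wk_triangle {U : Finset α} {w w' : α} (hne : U.Nonempty)
    (h1 : ∀ u ∈ U, r u w) (h2 : r w w') (h3 : ∀ u ∈ U, r w' u) :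
    Strong r (insert w (insert w' U)) := by
  intro A hA hAne hA'
  by_contra hcon
  push Not at hcon
  have hcl : ∀ x ∈ A, ∀ y ∈ insert w (insert w' U), r x y → y ∈ A := by
    intro x hx y hy hxy
    by_contra hyA
    exact hcon x hx y (Finset.mem_sdiff.2 ⟨hy, hyA⟩) hxy
  have hw_w' : w ∈ A → w' ∈ A := fun h => hcl w h w' (by simp) h2
  have hw'_U : w' ∈ A → ∀ u ∈ U, u ∈ A := fun h u hu => hcl w' h u (by simp [hu]) (h3 u hu)
  have hU_w : ∀ u ∈ U, u ∈ A → w ∈ A := fun u hu h => hcl u h w (by simp) (h1 u hu)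
  obtain ⟨u0, hu0⟩ := hne
  have hwA : w ∈ A := by
    obtain ⟨x, hx⟩ := hAne
    have := hA hx
    rw [Finset.mem_insert, Finset.mem_insert] at this
    rcases this with h | h | h
    · rw [← h]; exact hx
    · have hw' : w' ∈ A := by rw [← h]; exact hx
      exact hU_w u0 hu0 (hw'_U hw' u0 hu0)
    · exact hU_w x h hx
  apply hA'
  apply Finset.Subset.antisymm hA
  intro y hy
  rw [Finset.mem_insert, Finset.mem_insert] at hy
  rcases hy with h | h | h
  · rw [h]; exact hwA
  · rw [h]; exact hw_w' hwA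
  · exact hw'_U (hw_w' hwA) y h

/-- Moon: a strong semicomplete digraph with at least four vertices has a vertex whose deletion
leaves it strong. -/
theorem moon (hs : Semi r V) (hst : Strong r V) (hn : 4 ≤ V.card) :
    ∃ v ∈ V, Strong r (V.erase v) := by
  classical
  -- the family of the proper nonempty strong subsets
  let F : Finset (Finset α) := V.powerset.filter (fun U => U.Nonempty ∧ U ≠ V ∧ Strong r U)
  have hF : F.Nonempty := by
    have hVne : V.Nonempty := Finset.card_pos.1 (by omega)
    obtain ⟨x, hx⟩ := hVne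
    refine ⟨{x}, ?_⟩
    simp only [F, Finset.mem_filter, Finset.mem_powerset]
    refine ⟨Finset.singleton_subset_iff.2 hx, Finset.singleton_nonempty x, ?_, wk_strong_singleton x⟩
    intro h
    have := congrArg Finset.card h
    rw [Finset.card_singleton] at this
    omega
  obtain ⟨U, hUF, hmax⟩ := Finset.exists_max_image F Finset.card hF
  simp only [F, Finset.mem_filter, Finset.mem_powerset] at hUF hmax
  obtain ⟨hUV, hUne, hUV', hUs⟩ := hUF
  have hlt : U.card < V.card := Finset.card_lt_card (Finset.ssubset_iff_subset_ne.2 ⟨hUV, hUV'⟩)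
  by_cases hc : U.card + 1 = V.card
  · -- `U = V.erase v`
    have h1 : (V \ U).card = 1 := by
      rw [Finset.card_sdiff_of_subset hUV]
      omega
    obtain ⟨v, hv⟩ := Finset.card_eq_one.1 h1
    have hvV : v ∈ V \ U := by rw [hv]; simp
    refine ⟨v, (Finset.mem_sdiff.1 hvV).1, ?_⟩
    have h2 : V.erase v = U := by
      ext x
      rw [Finset.mem_erase]
      constructor
      · rintro ⟨hxv, hxV⟩
        by_contra hxU
        have : x ∈ V \ U := Finset.mem_sdiff.2 ⟨hxV, hxU⟩
        rw [hv, Finset.mem_singleton] at this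
        exact hxv this
      · intro hx
        refine ⟨?_, hUV hx⟩
        rintro rfl
        exact (Finset.mem_sdiff.1 hvV).2 hx
    rw [h2]
    exact hUs
  · have hc2 : U.card + 2 ≤ V.card := by omega
    have hcls : ∀ w ∈ V \ U, (∀ u ∈ U, ¬ r u w) ∨ (∀ u ∈ U, ¬ r w u) := by
      intro w hw
      rw [Finset.mem_sdiff] at hw
      by_contra hcon
      push Not at hcon
      have hst' : Strong r (insert w U) := wk_strong_insert hUs hcon.1 hcon.2
      have h3 : (insert w U).card = U.card + 1 := Finset.card_insert_of_notMem hw.2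
      have := hmax (insert w U) ⟨Finset.insert_subset hw.1 hUV, Finset.insert_nonempty _ _, by
        intro h
        rw [h] at h3
        omega, hst'⟩
      omega
    -- an arc leaving `U`
    obtain ⟨u0, hu0, w0, hw0, h0⟩ := hst U hUV hUne hUV'
    let P : Finset α := (V \ U).filter (fun w => ∀ u ∈ U, ¬ r w u)
    have hPV : P ⊆ V := (Finset.filter_subset _ _).trans Finset.sdiff_subset
    have hPU : ∀ x ∈ P, x ∉ U := fun x hx => (Finset.mem_sdiff.1 (Finset.mem_filter.1 hx).1).2
    have hw0P : w0 ∈ P := by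
      refine Finset.mem_filter.2 ⟨hw0, ?_⟩
      rcases hcls w0 hw0 with h | h
      · exact absurd h0 (h u0 hu0)
      · exact h
    obtain ⟨w, hw, w', hw', hww'⟩ := hst P hPV ⟨w0, hw0P⟩ (by
      intro h
      have : u0 ∈ P := by rw [h]; exact hUV hu0
      exact hPU u0 this hu0)
    have hwf := Finset.mem_filter.1 hw
    rw [Finset.mem_sdiff] at hw' hwf
    have hw'U : w' ∉ U := fun h => hwf.2 w' h hww'
    have hw'N : ∀ u ∈ U, ¬ r u w' := by
      rcases hcls w' (Finset.mem_sdiff.2 ⟨hw'.1, hw'U⟩) with h | h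
      · exact h
      · exact absurd (Finset.mem_filter.2 ⟨Finset.mem_sdiff.2 ⟨hw'.1, hw'U⟩, h⟩) hw'.2
    have hneww' : w ≠ w' := by
      rintro rfl
      exact hw'.2 hw
    have hUw : ∀ u ∈ U, r u w := by
      intro u hu
      have hne : u ≠ w := by rintro rfl; exact hwf.1.2 hu
      rcases hs u (hUV hu) w hwf.1.1 hne with h | h
      · exact h
      · exact absurd h (hwf.2 u hu)
    have hw'U2 : ∀ u ∈ U, r w' u := by
      intro u hu
      have hne : u ≠ w' := by rintro rfl; exact hw'U hu
      rcases hs u (hUV hu) w' hw'.1 hne with h | h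
      · exact absurd h (hw'N u hu)
      · exact h
    have hst1 : Strong r (insert w (insert w' U)) := wk_triangle hUne hUw hww' hw'U2
    have hcard : (insert w (insert w' U)).card = U.card + 2 := by
      rw [Finset.card_insert_of_notMem, Finset.card_insert_of_notMem hw'U]
      rw [Finset.mem_insert]
      rintro (h | h)
      · exact hneww' h
      · exact hwf.1.2 h
    have hsub : insert w (insert w' U) ⊆ V :=
      Finset.insert_subset hwf.1.1 (Finset.insert_subset hw'.1 hUV)
    have hV : insert w (insert w' U) = V := by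
      by_contra hne
      have := hmax (insert w (insert w' U)) ⟨hsub, Finset.insert_nonempty _ _, hne, hst1⟩
      omega
    have hUc : 2 ≤ U.card := by
      rw [hV] at hcard
      omega
    refine ⟨u0, hUV hu0, ?_⟩
    have hne0 : (U.erase u0).Nonempty := by
      rw [← Finset.card_pos, Finset.card_erase_of_mem hu0]
      omega
    have h5 : V.erase u0 = insert w (insert w' (U.erase u0)) := by
      rw [← hV]
      ext x
      simp only [Finset.mem_erase, Finset.mem_insert]
      constructor
      · rintro ⟨h1, h2 | h2 | h2⟩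
        · exact Or.inl h2
        · exact Or.inr (Or.inl h2)
        · exact Or.inr (Or.inr ⟨h1, h2⟩)
      · rintro (h2 | h2 | h2)
        · refine ⟨?_, Or.inl h2⟩
          rintro rfl
          exact hwf.1.2 (h2 ▸ hu0)
        · refine ⟨?_, Or.inr (Or.inl h2)⟩
          rintro rfl
          exact hw'U (h2 ▸ hu0)
        · exact ⟨h2.1, Or.inr (Or.inr h2.2)⟩
    rw [h5]
    exact wk_triangle hne0 (fun u hu => hUw u (Finset.mem_of_mem_erase hu)) hww'
      (fun u hu => hw'U2 u (Finset.mem_of_mem_erase hu))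

/-- Put `a` in front and `b` behind. -/
theorem wk_ends {a b : α} (ha : a ∈ V) (hb : b ∈ V) (hab : a ≠ b)
    (h : HP r ((V.erase a).erase b) {v | r a v} {v | r v b}) : HP r V {a} {b} := by
  have h1 : HP r {a} {a} {a} := HP_singleton rfl rfl
  have h2 : HP r {b} {b} {b} := HP_singleton rfl rfl
  have h3 : HP r ({a} ∪ (V.erase a).erase b) {a} {v | r v b} := by
    refine h1.join h ?_ ?_
    · rw [Finset.disjoint_singleton_left]
      simp
    · intro t _ ht s _ hs
      rw [Set.mem_singleton_iff] at ht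
      rw [ht]
      exact hs
  have h4 : HP r (({a} ∪ (V.erase a).erase b) ∪ {b}) {a} {b} := by
    refine h3.join h2 ?_ ?_
    · rw [Finset.disjoint_singleton_right]
      simp [Ne.symm hab]
    · intro t _ ht s _ hs
      rw [Set.mem_singleton_iff] at hs
      rw [hs]
      exact ht
  have h5 : ({a} ∪ (V.erase a).erase b) ∪ {b} = V := by
    ext x
    simp only [Finset.mem_union, Finset.mem_singleton, Finset.mem_erase]
    constructor
    · rintro ((h | h) | h)
      · rw [h]; exact ha
      · exact h.2.2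
      · rw [h]; exact hb
    · intro hx
      by_cases hxa : x = a
      · exact Or.inl (Or.inl hxa)
      · by_cases hxb : x = b
        · exact Or.inr hxb
        · exact Or.inl (Or.inr ⟨hxb, hxa, hx⟩)
  rw [h5] at h4
  exact h4

omit [DecidableEq α] in
theorem wk_perm {W : Finset α} {l l' : List α} (h : Tr r W l) (hp : l'.Perm l)
    (hc : l'.IsChain r) : Tr r W l' :=
  ⟨hp.nodup_iff.2 h.nodup, hc, fun v => by rw [hp.mem_iff]; exact h.mem v⟩

/-- `a` reaches all of `G - a - b` if `G - b` is strong. -/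
theorem wk_from {a b : α} (ha : a ∈ V) (hab : a ≠ b) (h : Strong r (V.erase b)) :
    From r ((V.erase a).erase b) {v | r a v} := by
  intro U hU hne hUa
  have hsub : ∀ x ∈ U, x ∈ V ∧ x ≠ a ∧ x ≠ b := by
    intro x hx
    have := hU hx
    simp only [Finset.mem_erase] at this
    exact ⟨this.2.2, this.2.1, this.1⟩
  obtain ⟨x, hx, y, hy, hxy⟩ := h (V.erase b \ U) Finset.sdiff_subset
    ⟨a, Finset.mem_sdiff.2 ⟨Finset.mem_erase.2 ⟨hab, ha⟩, fun h => (hsub a h).2.1 rfl⟩⟩ (by
      intro h
      obtain ⟨u, hu⟩ := hne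
      have h1 : u ∈ V.erase b := Finset.mem_erase.2 ⟨(hsub u hu).2.2, (hsub u hu).1⟩
      rw [← h] at h1
      exact (Finset.mem_sdiff.1 h1).2 hu)
  have hyU : y ∈ U := by
    by_contra hyU
    rw [Finset.mem_sdiff] at hy
    exact hy.2 (Finset.mem_sdiff.2 ⟨hy.1, hyU⟩)
  rw [Finset.mem_sdiff, Finset.mem_erase] at hx
  refine ⟨x, ?_, y, hyU, hxy⟩
  rw [Finset.mem_sdiff, Finset.mem_erase, Finset.mem_erase]
  refine ⟨⟨hx.1.1, ?_, hx.1.2⟩, hx.2⟩
  rintro rfl
  exact hUa y hyU hxy

theorem wk_to {a b : α} (hb : b ∈ V) (hab : a ≠ b) (h : Strong r (V.erase a)) :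
    To r ((V.erase a).erase b) {v | r v b} := by
  intro U hU hne hUb
  have hsub : ∀ x ∈ U, x ∈ V ∧ x ≠ a ∧ x ≠ b := by
    intro x hx
    have := hU hx
    simp only [Finset.mem_erase] at this
    exact ⟨this.2.2, this.2.1, this.1⟩
  obtain ⟨x, hx, y, hy, hxy⟩ := h U (fun x hx => Finset.mem_erase.2 ⟨(hsub x hx).2.1, (hsub x hx).1⟩)
    hne (by
      intro h
      have h1 : b ∈ V.erase a := Finset.mem_erase.2 ⟨hab.symm, hb⟩
      rw [← h] at h1
      exact (hsub b h1).2.2 rfl)
  rw [Finset.mem_sdiff] at hy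
  refine ⟨x, hx, y, ?_, hxy⟩
  rw [Finset.mem_sdiff, Finset.mem_erase]
  refine ⟨⟨?_, hy.1⟩, hy.2⟩
  rintro rfl
  exact hUb x hx hxy

/-- In a strong semicomplete digraph with at least five vertices, for every 2-colouring there is a
Hamiltonian path whose ends have the same colour. -/
theorem wk_colour {W : Finset α} (hs : Semi r W) (hst : Strong r W) (hn : 5 ≤ W.card)
    (c : α → Prop) (hc : ∀ l x y, Tr r W l → l.head? = some x → l.getLast? = some y →
      (c x ↔ ¬ c y)) : False := by
  obtain ⟨v, hv, hst'⟩ := moon hs hst (by omega)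
  have hcard : (W.erase v).card = W.card - 1 := Finset.card_erase_of_mem hv
  have hne' : (W.erase v).Nonempty := Finset.card_pos.1 (by omega)
  have hs' : Semi r (W.erase v) := hs.mono (Finset.erase_subset _ _)
  obtain ⟨τ, hτ1, hτ2, hτ3, hτ4⟩ := ham_succ hs' hst' hne'
  -- a place where `v` can be inserted
  have hins : ∃ u ∈ W.erase v, r u v ∧ r v (τ u) := by
    by_contra hcon
    push Not at hcon
    have hcl : ∀ u ∈ W.erase v, r u v → r (τ u) v := by
      intro u hu huv
      have h1 := (hτ1 u).1 hu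
      rw [Finset.mem_erase] at h1
      rcases hs (τ u) h1.2 v hv h1.1 with h | h
      · exact h
      · exact absurd h (hcon u hu huv)
    classical
    have hU : (W.erase v).filter (fun u => r u v) = W.erase v := by
      apply hτ4 _ (Finset.filter_subset _ _)
      · obtain ⟨x, hx, y, hy, hxy⟩ := hst (W.erase v) (Finset.erase_subset _ _) hne' (by
          intro h
          have : v ∈ W.erase v := by rw [h]; exact hv
          exact absurd this (Finset.notMem_erase v W))
        have hyv : y = v := by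
          by_contra hyv
          rw [Finset.mem_sdiff] at hy
          exact hy.2 (Finset.mem_erase.2 ⟨hyv, hy.1⟩)
        exact ⟨x, Finset.mem_filter.2 ⟨hx, hyv ▸ hxy⟩⟩
      · intro x hx
        rw [Finset.mem_filter] at hx ⊢
        exact ⟨(hτ1 x).1 hx.1, hcl x hx.1 hx.2⟩
    obtain ⟨x, hx, y, hy, hxy⟩ := hst {v} (Finset.singleton_subset_iff.2 hv)
      (Finset.singleton_nonempty v) (by
        intro h
        have := congrArg Finset.card h
        rw [Finset.card_singleton] at this
        omega)
    rw [Finset.mem_singleton] at hx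
    rw [Finset.mem_sdiff, Finset.mem_singleton] at hy
    have hyW : y ∈ W.erase v := Finset.mem_erase.2 ⟨hy.2, hy.1⟩
    have hz : τ.symm y ∈ W.erase v := by
      rw [hτ1, Equiv.apply_symm_apply]
      exact hyW
    have hzv : r (τ.symm y) v := by
      rw [← hU] at hz
      exact (Finset.mem_filter.1 hz).2
    apply hcon _ hz hzv
    rw [Equiv.apply_symm_apply, ← hx]
    exact hxy
  obtain ⟨u, hu, huv, hvu⟩ := hins
  obtain ⟨l, hl, ⟨x, hx, hx'⟩, ⟨y, hy, hy'⟩⟩ := hτ2 u hu
  rw [Set.mem_singleton_iff] at hx' hy'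
  have huτ : r u (τ u) := (hτ3 (by omega) u hu).2
  -- length of `l`
  have hlen : l.length = (W.erase v).card := by
    rw [← List.toFinset_card_of_nodup hl.nodup]
    congr 1
    ext z
    rw [List.mem_toFinset]
    exact hl.mem z
  rw [hcard] at hlen
  match l, hl, hx, hy, hlen with
  | [], _, _, _, hlen => simp at hlen; omega
  | [_], _, _, _, hlen => simp at hlen; omega
  | [_, _], _, _, _, hlen => simp at hlen; omega
  | [_, _, _], _, _, _, hlen => simp at hlen; omega
  | c1 :: c2 :: c3 :: c4 :: t, hl, hx, hy, hlen =>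
    have hc1 : c1 = τ u := by
      rw [← hx']
      simpa using hx
    obtain ⟨h12, h23, h34, hq⟩ : r c1 c2 ∧ r c2 c3 ∧ r c3 c4 ∧ (c4 :: t).IsChain r := by
      have := hl.chain
      rw [List.isChain_cons_cons, List.isChain_cons_cons, List.isChain_cons_cons] at this
      exact this
    have hqu : (c4 :: t).getLast? = some u := by
      rw [← hy']
      simpa [List.getLast?_cons_cons] using hy
    have huc1 : r u c1 := by rw [hc1]; exact huτ
    have hvc1 : r v c1 := by rw [hc1]; exact hvu
    generalize hqd : c4 :: t = q at *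
    have hqh : q.head? = some c4 := by rw [← hqd]; rfl
    -- the Hamiltonian cycle through `v`
    have hvl : v ∉ c1 :: c2 :: c3 :: q := by
      intro h
      have := (hl.mem v).1 h
      exact absurd this (Finset.notMem_erase v W)
    have hTr : ∀ l', l'.Perm (v :: c1 :: c2 :: c3 :: q) → l'.IsChain r → Tr r W l' := by
      intro l' hp hc'
      refine ⟨hp.nodup_iff.2 (List.nodup_cons.2 ⟨hvl, hl.nodup⟩), hc', ?_⟩
      intro z
      rw [hp.mem_iff, List.mem_cons, hl.mem z, Finset.mem_erase]
      constructor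
      · rintro (h | h)
        · rw [h]; exact hv
        · exact h.2
      · intro h
        by_cases hzv : z = v
        · exact Or.inl hzv
        · exact Or.inr ⟨hzv, h⟩
    have hqv : ∀ s : List α, ∀ z, s.IsChain r → s.head? = some z → r u z → (q ++ s).IsChain r := by
      intro s z hs1 hs2 hs3
      rw [List.isChain_append]
      refine ⟨hq, hs1, ?_⟩
      intro p hp p' hp'
      rw [Option.mem_def] at hp hp'
      rw [hqu] at hp
      rw [hs2] at hp'
      cases hp
      cases hp'
      exact hs3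
    have hcons : ∀ z s, s.head? = some c4 → s.IsChain r → r z c4 → (z :: s).IsChain r := by
      intro z s hs1 hs2 hs3
      cases s with
      | nil => simp at hs1
      | cons p s =>
        have : p = c4 := by simpa using hs1
        rw [List.isChain_cons_cons]
        exact ⟨this ▸ hs3, hs2⟩
    have hhq : ∀ s : List α, (q ++ s).head? = some c4 := by
      intro s
      rw [List.head?_append, hqh]
      rfl
    have hlast : ∀ s : List α, ∀ z, s.getLast? = some z → ∀ p : List α,
        (p ++ (q ++ s)).getLast? = some z := by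
      intro s z hz p
      rw [List.getLast?_append, List.getLast?_append, hz]
      rfl
    -- colours
    have e1 : c c1 ↔ ¬ c v := by
      refine hc (c1 :: c2 :: c3 :: (q ++ [v])) c1 v (hTr _ ?_ ?_) rfl
        (hlast [v] v rfl [c1, c2, c3])
      · rw [List.perm_iff_count]; intro z
        simp only [List.count_cons, List.count_append, List.count_nil]; ring
      · rw [List.isChain_cons_cons, List.isChain_cons_cons]
        exact ⟨h12, h23, hcons _ _ (hhq _) (hqv _ v (by simp) rfl huv) h34⟩
    have e2 : c c2 ↔ ¬ c c1 := by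
      refine hc (c2 :: c3 :: (q ++ [v, c1])) c2 c1 (hTr _ ?_ ?_) rfl
        (hlast [v, c1] c1 rfl [c2, c3])
      · rw [List.perm_iff_count]; intro z
        simp only [List.count_cons, List.count_append, List.count_nil]; ring
      · rw [List.isChain_cons_cons]
        exact ⟨h23, hcons _ _ (hhq _) (hqv _ v (by simp [hvc1]) rfl huv) h34⟩
    have e3 : c c3 ↔ ¬ c c2 := by
      refine hc (c3 :: (q ++ [v, c1, c2])) c3 c2 (hTr _ ?_ ?_) rfl
        (hlast [v, c1, c2] c2 rfl [c3])
      · rw [List.perm_iff_count]; intro z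
        simp only [List.count_cons, List.count_append, List.count_nil]; ring
      · exact hcons _ _ (hhq _) (hqv _ v (by simp [hvc1, h12]) rfl huv) h34
    have e4 : c c4 ↔ ¬ c c3 := by
      refine hc (q ++ [v, c1, c2, c3]) c4 c3 (hTr _ ?_ ?_) (hhq _)
        (hlast [v, c1, c2, c3] c3 rfl [])
      · rw [List.perm_iff_count]; intro z
        simp only [List.count_cons, List.count_append, List.count_nil]; ring
      · exact hqv _ v (by simp [hvc1, h12, h23]) rfl huv
    have hc3W : c3 ∈ W.erase v := (hl.mem c3).1 (by simp)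
    rw [Finset.mem_erase] at hc3W
    rcases hs v hv c3 hc3W.2 (Ne.symm hc3W.1) with h | h
    · have e5 : c v ↔ ¬ c c2 := by
        refine hc (v :: c3 :: (q ++ [c1, c2])) v c2 (hTr _ ?_ ?_) rfl
          (hlast [c1, c2] c2 rfl [v, c3])
        · rw [List.perm_iff_count]; intro z
          simp only [List.count_cons, List.count_append, List.count_nil]; ring
        · rw [List.isChain_cons_cons]
          exact ⟨h, hcons _ _ (hhq _) (hqv _ c1 (by simp [h12]) rfl huc1) h34⟩
      tauto
    · have e5 : c c4 ↔ ¬ c v := by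
        refine hc (q ++ [c1, c2, c3, v]) c4 v (hTr _ ?_ ?_) (hhq _)
          (hlast [c1, c2, c3, v] v rfl [])
        · rw [List.perm_iff_count]; intro z
          simp only [List.count_cons, List.count_append, List.count_nil]; ring
        · exact hqv _ c1 (by simp [h12, h23, h]) rfl huc1
      tauto

theorem weak (hs : Semi r V) (h2 : TwoStrong r V) {a b : α} (ha : a ∈ V) (hb : b ∈ V)
    (hab : a ≠ b) (hn : 7 ≤ V.card) : HP r V {a, b} {a, b} := by
  have hcard : ((V.erase a).erase b).card = V.card - 2 := by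
    rw [Finset.card_erase_of_mem (Finset.mem_erase.2 ⟨hab.symm, hb⟩), Finset.card_erase_of_mem ha]
    omega
  have hcomm : (V.erase b).erase a = (V.erase a).erase b := Finset.erase_right_comm
  have hsub : (V.erase a).erase b ⊆ V := (Finset.erase_subset _ _).trans (Finset.erase_subset _ _)
  have hs0 : Semi r ((V.erase a).erase b) := hs.mono hsub
  have hmem : ∀ v ∈ (V.erase a).erase b, v ∈ V ∧ v ≠ a ∧ v ≠ b := by
    intro v hv
    rw [Finset.mem_erase, Finset.mem_erase] at hv
    exact ⟨hv.2.2, hv.2.1, hv.1⟩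
  have hFa := wk_from ha hab (h2.2 b hb)
  have hTb := wk_to hb hab (h2.2 a ha)
  have hFb := wk_from hb hab.symm (h2.2 a ha)
  have hTa := wk_to ha hab.symm (h2.2 b hb)
  rw [hcomm] at hFb hTa
  by_contra hno
  have hno1 : ¬ HP r ((V.erase a).erase b) {v | r a v} {v | r v b} := by
    intro h
    exact hno ((wk_ends ha hb hab h).mono (fun x _ hx => Or.inl hx) (fun x _ hx => Or.inr hx))
  have hno2 : ¬ HP r ((V.erase a).erase b) {v | r b v} {v | r v a} := by
    intro h
    rw [← hcomm] at h
    exact hno ((wk_ends hb ha hab.symm h).mono (fun x _ hx => Or.inr hx) (fun x _ hx => Or.inl hx))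
  have hst0 : Strong r ((V.erase a).erase b) := by
    by_contra hns
    exact hno1 (HP_nonstrong hs0 hns hFa hTb)
  generalize hG : (V.erase a).erase b = G0 at *
  have hne0 : G0.Nonempty := Finset.card_pos.1 (by omega)
  obtain ⟨σ, hσ1, hσ2, hσ3, hσ4⟩ := ham_succ hs0 hst0 hne0
  have hσab : ∀ v ∈ G0, ¬ (r a (σ v) ∧ r v b) := by
    rintro v hv ⟨h, h'⟩
    exact hno1 ((hσ2 v hv).mono (fun x _ hx => by
      rw [Set.mem_singleton_iff] at hx; rw [hx]; exact h) (fun x _ hx => by
      rw [Set.mem_singleton_iff] at hx; rw [hx]; exact h'))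
  have hσba : ∀ v ∈ G0, ¬ (r b (σ v) ∧ r v a) := by
    rintro v hv ⟨h, h'⟩
    exact hno2 ((hσ2 v hv).mono (fun x _ hx => by
      rw [Set.mem_singleton_iff] at hx; rw [hx]; exact h) (fun x _ hx => by
      rw [Set.mem_singleton_iff] at hx; rw [hx]; exact h'))
  classical
  -- an arc leaves `a` inside `G0`, an arc enters `a` from `G0`
  have hout : ∃ v ∈ G0, r a v := by
    by_contra hcon
    push Not at hcon
    obtain ⟨x, hx, _⟩ := hFa G0 (Finset.Subset.refl _) hne0 hcon
    simp at hx
  have hin : ∃ v ∈ G0, r v a := by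
    by_contra hcon
    push Not at hcon
    obtain ⟨x, _, y, hy, _⟩ := hTa G0 (Finset.Subset.refl _) hne0 hcon
    simp at hy
  have hsa : ∀ v ∈ G0, r a v ∨ r v a := fun v hv => hs a ha v (hmem v hv).1 (hmem v hv).2.1.symm
  have hsb : ∀ v ∈ G0, r b v ∨ r v b := fun v hv => hs b hb v (hmem v hv).1 (hmem v hv).2.2.symm
  have hA : ∀ v ∈ G0, r a v ∨ r b v := by
    by_contra hcon
    push Not at hcon
    obtain ⟨v, hv, hav, hbv⟩ := hcon
    have hU : G0.filter (fun v => ¬ r a v ∧ ¬ r b v) = G0 := by
      apply hσ4 _ (Finset.filter_subset _ _) ⟨v, Finset.mem_filter.2 ⟨hv, hav, hbv⟩⟩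
      intro x hx
      rw [Finset.mem_filter] at hx ⊢
      refine ⟨(hσ1 x).1 hx.1, ?_, ?_⟩
      · intro h
        refine hσab x hx.1 ⟨h, ?_⟩
        rcases hsb x hx.1 with h' | h'
        · exact absurd h' hx.2.2
        · exact h'
      · intro h
        refine hσba x hx.1 ⟨h, ?_⟩
        rcases hsa x hx.1 with h' | h'
        · exact absurd h' hx.2.1
        · exact h'
    obtain ⟨w, hw, haw⟩ := hout
    rw [← hU, Finset.mem_filter] at hw
    exact hw.2.1 haw
  have hstep : ∀ v ∈ G0, r a (σ v) ∧ r b (σ v) → r a v ∧ r b v ∧ ¬ r v a := by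
    rintro v hv ⟨h, h'⟩
    have h1 : ¬ r v b := fun h1 => hσab v hv ⟨h, h1⟩
    have h2 : ¬ r v a := fun h2 => hσba v hv ⟨h', h2⟩
    refine ⟨?_, ?_, h2⟩
    · rcases hsa v hv with h3 | h3
      · exact h3
      · exact absurd h3 h2
    · rcases hsb v hv with h3 | h3
      · exact h3
      · exact absurd h3 h1
  have hB : ∀ v ∈ G0, ¬ (r a v ∧ r b v) := by
    by_contra hcon
    push Not at hcon
    obtain ⟨v, hv, hav, hbv⟩ := hcon
    by_cases hne : (G0.filter (fun v => ¬ (r a v ∧ r b v))).Nonempty
    · have hU : G0.filter (fun v => ¬ (r a v ∧ r b v)) = G0 := by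
        apply hσ4 _ (Finset.filter_subset _ _) hne
        intro x hx
        rw [Finset.mem_filter] at hx ⊢
        refine ⟨(hσ1 x).1 hx.1, fun h => ?_⟩
        have := hstep x hx.1 h
        exact hx.2 ⟨this.1, this.2.1⟩
      rw [← hU, Finset.mem_filter] at hv
      exact hv.2 ⟨hav, hbv⟩
    · rw [Finset.not_nonempty_iff_eq_empty, Finset.filter_eq_empty_iff] at hne
      obtain ⟨w, hw, hwa⟩ := hin
      have h1 : r a (σ w) ∧ r b (σ w) := by
        by_contra h1
        exact hne ((hσ1 w).1 hw) h1
      exact (hstep w hw h1).2.2 hwa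
  refine wk_colour hs0 hst0 (by omega) (fun v => r a v) ?_
  intro l x y hl hx hy
  have hxW := (hl.mem x).1 (List.mem_of_mem_head? hx)
  have hyW := (hl.mem y).1 (List.mem_of_mem_getLast? hy)
  have h1 : ¬ (r a x ∧ r y b) := by
    rintro ⟨h, h'⟩
    exact hno1 ⟨l, hl, ⟨x, hx, h⟩, ⟨y, hy, h'⟩⟩
  have h2 : ¬ (r b x ∧ r y a) := by
    rintro ⟨h, h'⟩
    exact hno2 ⟨l, hl, ⟨x, hx, h⟩, ⟨y, hy, h'⟩⟩
  have h3 := hA x hxW
  have h4 := hA y hyW
  have h5 := hB x hxW
  have h6 := hB y hyW
  have h7 := hsa y hyW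
  have h8 := hsb y hyW
  constructor
  · intro h9 h10
    exact h1 ⟨h9, h8.resolve_left (fun h11 => h6 ⟨h10, h11⟩)⟩
  · intro h9
    by_contra h10
    exact h2 ⟨h3.resolve_left h10, h7.resolve_left h9⟩

end Pool.Agent.Helper944_HC
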