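import Pool.Agent.Helper944_HC.ThmA
import Pool.Agent.Helper944_HC.Fork
import Pool.Agent.Helper944_HC.Link
import Pool.Agent.Helper944_HC.Weak

/-!
# The rule for 2-strong digraphs with trivial separators only
-/

namespace Pool.Agent.Helper944_HC

variable {α : Type*} [DecidableEq α] {r : α → α → Prop} {V : Finset α}

/-- All sets of two vertices separating `X` from `Y` contain `X` or `Y`. -/
def Triv (r : α → α → Prop) (V : Finset α) (X Y : Finset α) : Prop :=
  ∀ S ⊆ V, S.card = 2 → ¬ X ⊆ S → ¬ Y ⊆ S → ∀ U ⊆ V \ S, (∀ x ∈ V \ S, x ∈ X → x ∈ U) →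
    Cl r (V \ S) U → ∃ u ∈ U, u ∈ Y

theorem Conn.rev {X Y : Set α} {k : ℕ} (h : Conn r V X Y k) :
    Conn (fun a b => r b a) V Y X k := by
  intro S hS hk U hU hUY hcl
  by_contra hcon
  push Not at hcon
  obtain ⟨u, hu, huY⟩ := h S hS hk ((V \ S) \ U) Finset.sdiff_subset
    (fun x hx hxX => Finset.mem_sdiff.2 ⟨hx, fun h => hcon x h hxX⟩)
    (fun a ha b hb hab => Finset.mem_sdiff.2 ⟨hb, fun h => (Finset.mem_sdiff.1 ha).2
      (hcl b h a (Finset.mem_sdiff.1 ha).1 hab)⟩)
  exact (Finset.mem_sdiff.1 hu).2 (hUY u (Finset.mem_sdiff.1 hu).1 huY)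

theorem Triv.rev {X Y : Finset α} (h : Triv r V X Y) : Triv (fun a b => r b a) V Y X := by
  intro S hS hk hY hX U hU hUY hcl
  by_contra hcon
  push Not at hcon
  obtain ⟨u, hu, huY⟩ := h S hS hk hX hY ((V \ S) \ U) Finset.sdiff_subset
    (fun x hx hxX => Finset.mem_sdiff.2 ⟨hx, fun h => hcon x h hxX⟩)
    (fun a ha b hb hab => Finset.mem_sdiff.2 ⟨hb, fun h => (Finset.mem_sdiff.1 ha).2
      (hcl b h a (Finset.mem_sdiff.1 ha).1 hab)⟩)
  exact (Finset.mem_sdiff.1 hu).2 (hUY u (Finset.mem_sdiff.1 hu).1 huY)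

/-- A set with two elements containing `a`. -/
theorem a6_pair {X : Finset α} (hX2 : X.card = 2) {a : α} (ha : a ∈ X) :
    ∃ b, b ≠ a ∧ X = {a, b} := by
  obtain ⟨x, z, hxz, rfl⟩ := Finset.card_eq_two.1 hX2
  rw [Finset.mem_insert, Finset.mem_singleton] at ha
  rcases ha with rfl | rfl
  · exact ⟨z, hxz.symm, rfl⟩
  · exact ⟨x, hxz, Finset.pair_comm _ _⟩

/-- An out-neighbour of `a` outside `{a, b}` from which `y` can be reached outside `{a, b}`. -/
theorem a6_nbr (h2 : TwoStrong r V) {a b y : α} (ha : a ∈ V) (hb : b ∈ V) (hab : a ≠ b)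
    (hy : y ∈ V) (hyX : y ∉ ({a, b} : Finset α)) :
    ∃ c ∈ V \ {a, b}, r a c ∧ y ∈ fwd r (V \ {a, b}) {c} := by
  classical
  by_contra hcon
  push Not at hcon
  set U : Finset α := insert a ((V \ {a, b}).filter
    (fun v => ∃ c ∈ V \ {a, b}, r a c ∧ v ∈ fwd r (V \ {a, b}) {c})) with hU
  have hyab : y ≠ a ∧ y ≠ b := by
    rw [Finset.mem_insert, Finset.mem_singleton, not_or] at hyX
    exact hyX
  have hyU : y ∉ U := by
    rw [hU, Finset.mem_insert, Finset.mem_filter, not_or]
    refine ⟨hyab.1, ?_⟩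
    rintro ⟨_, c, hc, hac, hyc⟩
    exact hcon c hc hac hyc
  have hUV : U ⊆ V.erase b := by
    intro v hv
    rw [hU, Finset.mem_insert, Finset.mem_filter] at hv
    rw [Finset.mem_erase]
    rcases hv with rfl | ⟨hv, _⟩
    · exact ⟨hab, ha⟩
    · rw [Finset.mem_sdiff, Finset.mem_insert, Finset.mem_singleton, not_or] at hv
      exact ⟨hv.2.2, hv.1⟩
  have hUne : U ≠ V.erase b := by
    intro h
    apply hyU
    rw [h, Finset.mem_erase]
    exact ⟨hyab.2, hy⟩
  have haU : a ∈ U := by rw [hU]; exact Finset.mem_insert_self _ _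
  obtain ⟨u, hu, w, hw, huw⟩ := h2.2 b hb U hUV ⟨a, haU⟩ hUne
  rw [Finset.mem_sdiff, Finset.mem_erase] at hw
  obtain ⟨⟨hwb, hwV⟩, hwU⟩ := hw
  have hwa : w ≠ a := fun h => hwU (h ▸ haU)
  have hwX : w ∈ V \ {a, b} := by
    rw [Finset.mem_sdiff, Finset.mem_insert, Finset.mem_singleton, not_or]
    exact ⟨hwV, hwa, hwb⟩
  apply hwU
  rw [hU, Finset.mem_insert, Finset.mem_filter]
  right
  refine ⟨hwX, ?_⟩
  rw [hU, Finset.mem_insert, Finset.mem_filter] at hu
  rcases hu with rfl | ⟨_, c, hc, hac, huc⟩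
  · exact ⟨w, hwX, huw, subset_fwd w hwX rfl⟩
  · exact ⟨c, hc, hac, fwd_cl u huc w hwX huw⟩

/-- 6.3 -/
theorem case_three (hs : Semi r V) (h2 : TwoStrong r V) {X Y : Finset α} (hX : X ⊆ V) (hY : Y ⊆ V)
    (hc : Conn r V ↑X ↑Y 2) (ht : Triv r V X Y) (hX2 : X.card = 2) (hY3 : 3 ≤ Y.card)
    {a : α} (ha : a ∈ X) (haY : a ∉ Y) : HP r V ↑X ↑Y := by
  obtain ⟨b, hba, rfl⟩ := a6_pair hX2 ha
  have haV : a ∈ V := hX (by simp)
  have hbV : b ∈ V := hX (by simp)
  obtain ⟨y, hyY, hyX⟩ : ∃ y ∈ Y, y ∉ ({a, b} : Finset α) :=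
    Finset.exists_mem_notMem_of_card_lt_card (by omega)
  obtain ⟨c, hcV, hac, hyc⟩ := a6_nbr h2 haV hbV hba.symm (hY hyY) hyX
  rw [Finset.mem_sdiff] at hcV
  obtain ⟨hcV, hcX⟩ := hcV
  have hca : c ≠ a := fun h => hcX (by simp [h])
  have hcb : c ≠ b := fun h => hcX (by simp [h])
  have key : HP r V ({a, b} : Set α) ↑Y := by
    refine fork hs h2.1 haV hbV hcV hba.symm hca.symm hcb.symm (by simpa using haY) hac ?_ ?_
    · intro v hv U hU hne hUY
      refine h2.2 v hv U hU hne ?_
      intro hUv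
      obtain ⟨z, hzY, hzv⟩ : ∃ z ∈ Y, z ∉ ({v} : Finset α) :=
        Finset.exists_mem_notMem_of_card_lt_card (by simp; omega)
      have hzU : z ∈ U := by
        rw [hUv, Finset.mem_erase]
        exact ⟨by simpa using hzv, hY hzY⟩
      exact hUY z hzU (by simpa using hzY)
    · intro S hS hS3 U hU hXU hcl
      have hXU' : ∀ x ∈ V \ S, x ∈ ({a, b} : Finset α) → x ∈ U := by
        intro x hx hxX
        refine hXU x hx ?_
        rw [Finset.mem_insert, Finset.mem_singleton] at hxX
        rcases hxX with h | h <;> simp [h]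
      rcases Nat.lt_or_ge S.card 2 with hS2 | hS2
      · exact hc S hS hS2 U hU (fun x hx hxX => hXU' x hx (by simpa using hxX)) hcl
      · have hS2' : S.card = 2 := by omega
        by_cases hXS : ({a, b} : Finset α) ⊆ S
        · have hSX : ({a, b} : Finset α) = S := Finset.eq_of_subset_of_card_le hXS (by omega)
          refine ⟨y, ?_, by simpa using hyY⟩
          have hcU : c ∈ U := hXU c (Finset.mem_sdiff.2 ⟨hcV, by rw [← hSX]; exact hcX⟩) (by simp)
          have hsub : fwd r (V \ S) {c} ⊆ U := by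
            refine fwd_min hU ?_ hcl
            intro x _ hxc
            rw [Set.mem_singleton_iff] at hxc
            rw [hxc]
            exact hcU
          rw [← hSX] at hsub
          exact hsub hyc
        · by_cases hYS : Y ⊆ S
          · have := Finset.card_le_card hYS
            omega
          · obtain ⟨u, hu, huY⟩ := ht S hS hS2' hXS hYS U hU hXU' hcl
            exact ⟨u, hu, by simpa using huY⟩
  have hco : ((({a, b} : Finset α) : Set α)) = {a, b} := by simp
  rw [hco]
  exact key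

/-! ### Auxiliary lemmas for 6.4 -/

theorem cd_cons {W : Finset α} {S T : Set α} {x : α} (h : HP r W S T) (hx : x ∉ W)
    (ha : ∀ s ∈ W, s ∈ S → r x s) : HP r (insert x W) {x} T := by
  have h1 : HP r {x} {x} {x} := HP_singleton rfl rfl
  have h2 := h1.join h (Finset.disjoint_singleton_left.2 hx) (by
    intro t _ ht s hs hS
    rw [Set.mem_singleton_iff.1 ht]
    exact ha s hs hS)
  rwa [← Finset.insert_eq] at h2

theorem cd_snoc {W : Finset α} {S T : Set α} {x : α} (h : HP r W S T) (hx : x ∉ W)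
    (ha : ∀ s ∈ W, s ∈ T → r s x) : HP r (insert x W) S {x} := by
  have h1 : HP r {x} {x} {x} := HP_singleton rfl rfl
  have h2 := h.join h1 (Finset.disjoint_singleton_right.2 hx) (by
    intro t ht hT s _ hs
    rw [Set.mem_singleton_iff.1 hs]
    exact ha t ht hT)
  rwa [Finset.union_comm, ← Finset.insert_eq] at h2

/-- A vertex reachable from a set of vertices is reachable from one of them. -/
theorem cd_fwd_single {W : Finset α} {L : Set α} {e : α} (he : e ∈ fwd r W L) :
    ∃ c ∈ W, c ∈ L ∧ e ∈ fwd r W {c} := by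
  classical
  by_contra hcon
  push Not at hcon
  have heW : e ∈ W := fwd_subset he
  have h1 := fwd_min (r := r) (W := W) (L := L) (U := W.filter (fun w => e ∉ fwd r W {w}))
    (Finset.filter_subset _ _) (fun x hx hxL => Finset.mem_filter.2 ⟨hx, hcon x hx hxL⟩) (by
      intro u hu v hv huv
      rw [Finset.mem_filter] at hu ⊢
      refine ⟨hv, fun h => hu.2 ?_⟩
      have h2 : u ∈ fwd r W {u} := subset_fwd u hu.1 rfl
      have h3 : v ∈ fwd r W {u} := fwd_cl u h2 v hv huv
      exact fwd_min fwd_subset (fun x _ hx => by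
        rw [Set.mem_singleton_iff.1 hx]
        exact h3) fwd_cl h)
  exact (Finset.mem_filter.1 (h1 he)).2 (subset_fwd e heW rfl)

/-- The first claim of 6.4. -/
theorem cd_claim (hs : Semi r V) (h2 : TwoStrong r V) {x0 x1 e e' : α} (hx0 : x0 ∈ V) (hx1 : x1 ∈ V)
    (he : e ∈ V) (hx01 : x0 ≠ x1) (h0e : x0 ≠ e) (h1e : x1 ≠ e)
    (hee : r e' e) (hc : Conn r V {x0, x1} {e, e'} 2) (ht : Triv r V {x0, x1} {e, e'})
    (h : ¬ r x0 e) : HP r V {x0, x1} {e, e'} := by
  classical
  -- the vertex `c`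
  have hU0 : e ∈ fwd r (V \ {x0, x1}) {v | r x0 v} := by
    by_contra hcon
    obtain ⟨u, hu, w, hw, huw⟩ := h2.2 x1 hx1 (insert x0 (fwd r (V \ {x0, x1}) {v | r x0 v}))
      (by
        intro z hz
        rw [Finset.mem_insert] at hz
        rcases hz with rfl | hz
        · exact Finset.mem_erase.2 ⟨hx01, hx0⟩
        · have := fwd_subset hz
          simp only [Finset.mem_sdiff, Finset.mem_insert, Finset.mem_singleton, not_or] at this
          exact Finset.mem_erase.2 ⟨this.2.2, this.1⟩)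
      (Finset.insert_nonempty _ _)
      (by
        intro h3
        have h4 : e ∈ V.erase x1 := Finset.mem_erase.2 ⟨Ne.symm h1e, he⟩
        rw [← h3, Finset.mem_insert] at h4
        rcases h4 with h4 | h4
        · exact h0e h4.symm
        · exact hcon h4)
    rw [Finset.mem_sdiff, Finset.mem_erase, Finset.mem_insert, not_or] at hw
    have hwV : w ∈ V \ {x0, x1} := by
      simp only [Finset.mem_sdiff, Finset.mem_insert, Finset.mem_singleton, not_or]
      exact ⟨hw.1.2, hw.2.1, hw.1.1⟩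
    rw [Finset.mem_insert] at hu
    rcases hu with rfl | hu
    · exact hw.2.2 (subset_fwd w hwV huw)
    · exact hw.2.2 (fwd_cl u hu w hwV huw)
  obtain ⟨c, hcV, hxc, hce⟩ := cd_fwd_single hU0
  have hcV' : c ∈ V ∧ c ≠ x0 ∧ c ≠ x1 := by
    simpa only [Finset.mem_sdiff, Finset.mem_insert, Finset.mem_singleton, not_or] using hcV
  have hce' : c ≠ e := by
    rintro rfl
    exact h hxc
  have key : HP r (V.erase e) {x0, x1} {v | r v e} := by
    refine fork (hs.mono (Finset.erase_subset _ _)) (h2.2 e he)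
      (Finset.mem_erase.2 ⟨h0e, hx0⟩) (Finset.mem_erase.2 ⟨h1e, hx1⟩)
      (Finset.mem_erase.2 ⟨hce', hcV'.1⟩) hx01 (Ne.symm hcV'.2.1) (Ne.symm hcV'.2.2) h hxc ?_ ?_
    · intro v hv U hU hne hUT
      have heU : e ∉ U := fun h => (Finset.mem_erase.1 (Finset.mem_erase.1 (hU h)).2).1 rfl
      have hve := Finset.mem_erase.1 hv
      obtain ⟨u, hu, w, hw, huw⟩ := h2.2 v hve.2 U
        (fun x hx => Finset.mem_erase.2 ⟨(Finset.mem_erase.1 (hU hx)).1,
          (Finset.mem_erase.1 (Finset.mem_erase.1 (hU hx)).2).2⟩) hne (by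
          intro h3
          apply heU
          rw [h3]
          exact Finset.mem_erase.2 ⟨Ne.symm hve.1, he⟩)
      rw [Finset.mem_sdiff, Finset.mem_erase] at hw
      refine ⟨u, hu, w, ?_, huw⟩
      rw [Finset.mem_sdiff, Finset.mem_erase, Finset.mem_erase]
      refine ⟨⟨hw.1.1, ?_, hw.1.2⟩, hw.2⟩
      rintro rfl
      exact hUT u hu huw
    · intro S hS hk U hU hXU hcl
      by_contra hcon
      push Not at hcon
      have hUV : U ⊆ V \ S := fun x hx => by
        have := hU hx
        rw [Finset.mem_sdiff, Finset.mem_erase] at this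
        exact Finset.mem_sdiff.2 ⟨this.1.2, this.2⟩
      have hcl' : Cl r (V \ S) U := by
        intro u hu v hv huv
        refine hcl u hu v ?_ huv
        rw [Finset.mem_sdiff] at hv
        rw [Finset.mem_sdiff, Finset.mem_erase]
        refine ⟨⟨?_, hv.1⟩, hv.2⟩
        rintro rfl
        exact hcon u hu huv
      have hXU' : ∀ x ∈ V \ S, x ∈ ({x0, x1} : Set α) → x ∈ U := by
        intro x hx hxX
        rw [Finset.mem_sdiff] at hx
        apply hXU x
        · rw [Finset.mem_sdiff, Finset.mem_erase]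
          refine ⟨⟨?_, hx.1⟩, hx.2⟩
          rintro rfl
          rcases hxX with h3 | h3
          · exact h0e h3.symm
          · exact h1e (Set.mem_singleton_iff.1 h3).symm
        · rcases hxX with h3 | h3
          · exact Or.inl h3
          · exact Or.inr (Or.inl h3)
      have hUY : ∀ u ∈ U, ¬ (u = e ∨ u = e') := by
        rintro u hu (rfl | rfl)
        · exact (Finset.mem_erase.1 (Finset.mem_sdiff.1 (hU hu)).1).1 rfl
        · exact hcon u hu hee
      have hSV : S ⊆ V := hS.trans (Finset.erase_subset _ _)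
      rcases Nat.lt_or_ge S.card 2 with hlt | hge
      · obtain ⟨u, hu, huY⟩ := hc S hSV hlt U hUV hXU' hcl'
        exact hUY u hu huY
      · have hS2 : S.card = 2 := by omega
        by_cases hXS : ({x0, x1} : Finset α) ⊆ S
        · have hSX : ({x0, x1} : Finset α) = S :=
            Finset.eq_of_subset_of_card_le hXS (by rw [hS2, Finset.card_pair hx01])
          have hcU : c ∈ U := by
            apply hXU c
            · rw [← hSX, Finset.mem_sdiff, Finset.mem_erase]
              exact ⟨⟨hce', hcV'.1⟩, (Finset.mem_sdiff.1 hcV).2⟩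
            · exact Or.inr (Or.inr rfl)
          have h3 : fwd r (V \ {x0, x1}) {c} ⊆ U := by
            apply fwd_min
            · rw [hSX]
              exact hUV
            · intro x _ hx
              rw [Set.mem_singleton_iff.1 hx]
              exact hcU
            · rw [hSX]
              exact hcl'
          exact hUY e (h3 hce) (Or.inl rfl)
        · obtain ⟨u, hu, huY⟩ := ht S hSV hS2 hXS (fun h3 =>
            (Finset.mem_erase.1 (hS (h3 (Finset.mem_insert_self _ _)))).1 rfl) U hUV (by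
              intro x hx hxX
              apply hXU' x hx
              simpa using hxX) hcl'
          exact hUY u hu (by simpa using huY)
  have h3 := cd_snoc key (Finset.notMem_erase e V) (fun s _ hs => hs)
  rw [Finset.insert_erase he] at h3
  exact h3.mono (fun x _ hx => hx) (fun y _ hy => Or.inl hy)

/-- The second claim of 6.4. -/
theorem cd_claim' (hs : Semi r V) (h2 : TwoStrong r V) {a b y0 y1 : α} (ha : a ∈ V) (hy0 : y0 ∈ V)
    (hy1 : y1 ∈ V) (hy01 : y0 ≠ y1) (h0e : y0 ≠ a) (h1e : y1 ≠ a)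
    (hab : r a b) (hc : Conn r V {a, b} {y0, y1} 2) (ht : Triv r V {a, b} {y0, y1})
    (h : ¬ r a y0) : HP r V {a, b} {y0, y1} :=
  HP_rev.1 (cd_claim (r := fun a b => r b a) hs.rev h2.rev hy0 hy1 ha hy01 h0e h1e hab hc.rev ht.rev h)

/-- A Hamiltonian path starting in a given set which meets the first component. -/
theorem cd_start {B K : Finset α} (hs : Semi r B) (hB : B.Nonempty)
    (hK : ∀ D ⊆ B, D.Nonempty → Cl (fun a b => r b a) B D → K ⊆ D) {w : α} (hw : ∃ u ∈ K, r w u) :
    HP r B {v | r w v} Set.univ := by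
  refine HP_start hs hB ?_
  intro U hU hne hUS
  by_contra hcon
  push Not at hcon
  obtain ⟨u, hu, hwu⟩ := hw
  have h1 := hK U hU hne (by
    intro u hu v hv huv
    by_contra hvU
    exact hcon v (Finset.mem_sdiff.2 ⟨hv, hvU⟩) u hu huv)
  exact hUS u (h1 hu) hwu

/-- A Hamiltonian path ending in a given set which meets the last component. -/
theorem cd_end {A K : Finset α} (hs : Semi r A) (hA : A.Nonempty)
    (hK : ∀ D ⊆ A, D.Nonempty → Cl r A D → K ⊆ D) {w : α} (hw : ∃ u ∈ K, r u w) :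
    HP r A Set.univ {v | r v w} := by
  refine HP_end hs hA ?_
  intro U hU hne hUS
  by_contra hcon
  push Not at hcon
  obtain ⟨u, hu, hwu⟩ := hw
  have h1 := hK U hU hne (by
    intro u hu v hv huv
    by_contra hvU
    exact hcon u hu v (Finset.mem_sdiff.2 ⟨hv, hvU⟩) huv)
  exact hUS u (h1 hu) hwu

/-- Path with the middle part `W`: `x y [W] z w`. -/
theorem cd_two_two {W : Finset α} {x y z w : α} (h : HP r W {v | r y v} {v | r v z})
    (hx : x ∉ W) (hy : y ∉ W) (hz : z ∉ W) (hw : w ∉ W) (hxy : x ≠ y) (hxz : x ≠ z) (hxw : x ≠ w)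
    (hyz : y ≠ z) (hyw : y ≠ w) (hzw : z ≠ w) (h1 : r x y) (h2 : r z w)
    (hV : ∀ v, v ∈ V ↔ v = x ∨ v = y ∨ v = z ∨ v = w ∨ v ∈ W) : HP r V {x} {w} := by
  have k1 := cd_cons h hy (fun s _ hs => hs)
  have k2 := cd_cons (x := x) k1 (by simp [hx, hxy]) (fun s _ hs => by
    rw [Set.mem_singleton_iff.1 hs]
    exact h1)
  have k3 := cd_snoc (x := z) k2 (by simp [hz, Ne.symm hxz, Ne.symm hyz]) (fun s _ hs => hs)
  have k4 := cd_snoc (x := w) k3 (by simp [hw, Ne.symm hxw, Ne.symm hyw, Ne.symm hzw]) (fun s _ hs => by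
    rw [Set.mem_singleton_iff.1 hs]
    exact h2)
  have e : insert w (insert z (insert x (insert y W))) = V := by
    ext v
    rw [hV]
    simp only [Finset.mem_insert]
    tauto
  rwa [e] at k4

/-- `x [W] y z w`. -/
theorem cd_one_three {W : Finset α} {x y z w : α} (h : HP r W {v | r x v} {v | r v y})
    (hx : x ∉ W) (hy : y ∉ W) (hz : z ∉ W) (hw : w ∉ W) (hxy : x ≠ y) (hxz : x ≠ z) (hxw : x ≠ w)
    (hyz : y ≠ z) (hyw : y ≠ w) (hzw : z ≠ w) (h1 : r y z) (h2 : r z w)
    (hV : ∀ v, v ∈ V ↔ v = x ∨ v = y ∨ v = z ∨ v = w ∨ v ∈ W) : HP r V {x} {w} := by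
  have k1 := cd_cons h hx (fun s _ hs => hs)
  have k2 := cd_snoc (x := y) k1 (by simp [hy, Ne.symm hxy]) (fun s _ hs => hs)
  have k3 := cd_snoc (x := z) k2 (by simp [hz, Ne.symm hxz, Ne.symm hyz]) (fun s _ hs => by
    rw [Set.mem_singleton_iff.1 hs]
    exact h1)
  have k4 := cd_snoc (x := w) k3 (by simp [hw, Ne.symm hxw, Ne.symm hyw, Ne.symm hzw]) (fun s _ hs => by
    rw [Set.mem_singleton_iff.1 hs]
    exact h2)
  have e : insert w (insert z (insert y (insert x W))) = V := by
    ext v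
    rw [hV]
    simp only [Finset.mem_insert]
    tauto
  rwa [e] at k4

/-- `x y z [W] w`. -/
theorem cd_three_one {W : Finset α} {x y z w : α} (h : HP r W {v | r z v} {v | r v w})
    (hx : x ∉ W) (hy : y ∉ W) (hz : z ∉ W) (hw : w ∉ W) (hxy : x ≠ y) (hxz : x ≠ z) (hxw : x ≠ w)
    (hyz : y ≠ z) (hyw : y ≠ w) (hzw : z ≠ w) (h1 : r x y) (h2 : r y z)
    (hV : ∀ v, v ∈ V ↔ v = x ∨ v = y ∨ v = z ∨ v = w ∨ v ∈ W) : HP r V {x} {w} := by
  have k1 := cd_cons h hz (fun s _ hs => hs)
  have k2 := cd_cons (x := y) k1 (by simp [hy, hyz]) (fun s _ hs => by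
    rw [Set.mem_singleton_iff.1 hs]
    exact h2)
  have k3 := cd_cons (x := x) k2 (by simp [hx, hxz, hxy]) (fun s _ hs => by
    rw [Set.mem_singleton_iff.1 hs]
    exact h1)
  have k4 := cd_snoc (x := w) k3 (by simp [hw, Ne.symm hxw, Ne.symm hyw, Ne.symm hzw]) (fun s _ hs => hs)
  have e : insert w (insert x (insert y (insert z W))) = V := by
    ext v
    rw [hV]
    simp only [Finset.mem_insert]
    tauto
  rwa [e] at k4

theorem cd_or1 {p q s t u : Prop} : (p ∨ q ∨ s ∨ t ∨ u) ↔ (p ∨ q ∨ t ∨ s ∨ u) := by tauto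

theorem cd_or2 {p q s t u : Prop} : (p ∨ q ∨ s ∨ t ∨ u) ↔ (p ∨ t ∨ q ∨ s ∨ u) := by tauto

theorem cd_or3 {p q s t u : Prop} : (p ∨ q ∨ s ∨ t ∨ u) ↔ (q ∨ p ∨ t ∨ s ∨ u) := by tauto

theorem cd_or5 {p q s t u : Prop} : (p ∨ q ∨ s ∨ t ∨ u) ↔ (q ∨ s ∨ p ∨ t ∨ u) := by tauto

/-- 6.4, with names for the vertices. -/
theorem cd_main (hs : Semi r V) (h2 : TwoStrong r V) (hn : 5 ≤ V.card) {a b e e' : α}
    (ha : a ∈ V) (hb : b ∈ V) (he : e ∈ V) (he' : e' ∈ V) (hab : a ≠ b) (hee : e ≠ e')
    (hae : a ≠ e) (hae' : a ≠ e') (hbe : b ≠ e) (hbe' : b ≠ e') (rab : r a b) (ree : r e' e)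
    (hc : Conn r V {a, b} {e, e'} 2) (ht : Triv r V {a, b} {e, e'}) : HP r V {a, b} {e, e'} := by
  classical
  by_cases rae : r a e
  swap
  · exact cd_claim hs h2 ha hb he hab hae hbe ree hc ht rae
  by_cases rbe : r b e
  swap
  · have hc' : Conn r V {b, a} {e, e'} 2 := by rwa [Set.pair_comm]
    have ht' : Triv r V {b, a} {e, e'} := by rwa [Finset.pair_comm]
    have := cd_claim hs h2 hb ha he (Ne.symm hab) hbe hae ree hc' ht' rbe
    rwa [Set.pair_comm] at this
  by_cases rae' : r a e'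
  swap
  · have hc' : Conn r V {a, b} {e', e} 2 := by rwa [Set.pair_comm e' e]
    have ht' : Triv r V {a, b} {e', e} := by rwa [Finset.pair_comm e' e]
    have := cd_claim' hs h2 ha he' he (Ne.symm hee) (Ne.symm hae') (Ne.symm hae) rab hc' ht' rae'
    rwa [Set.pair_comm e' e] at this
  -- the set `G2`
  have hmemG : ∀ v, v ∈ V \ {a, e} ↔ v ∈ V ∧ v ≠ a ∧ v ≠ e := by
    intro v
    simp only [Finset.mem_sdiff, Finset.mem_insert, Finset.mem_singleton, not_or]
  have haG : a ∉ V \ {a, e} := fun h => ((hmemG a).1 h).2.1 rfl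
  have heG : e ∉ V \ {a, e} := fun h => ((hmemG e).1 h).2.2 rfl
  have fin : HP r (V \ {a, e}) {v | r a v} {v | r v e} → HP r V {a, b} {e, e'} := by
    intro h
    have k1 := cd_cons h haG (fun s _ hs => hs)
    have k2 := cd_snoc (x := e) k1 (by simp [Ne.symm hae]) (fun s _ hs => hs)
    have e1 : insert e (insert a (V \ {a, e})) = V := by
      ext v
      rw [Finset.mem_insert, Finset.mem_insert, hmemG]
      constructor
      · rintro (rfl | rfl | h)
        · exact he
        · exact ha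
        · exact h.1
      · intro hv
        by_cases h1 : v = e
        · exact Or.inl h1
        · by_cases h3 : v = a
          · exact Or.inr (Or.inl h3)
          · exact Or.inr (Or.inr ⟨hv, h3, h1⟩)
    rw [e1] at k2
    exact k2.mono (fun x _ hx => Or.inl hx) (fun y _ hy => Or.inl hy)
  have hsG : Semi r (V \ {a, e}) := hs.mono Finset.sdiff_subset
  by_cases hst : Strong r (V \ {a, e})
  swap
  · refine fin (HP_nonstrong hsG hst ?_ ?_)
    · intro U hU hne hUS
      obtain ⟨x, hx, y, hy, hxy⟩ := h2.2 e he ((V.erase e) \ U) Finset.sdiff_subset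
        ⟨a, Finset.mem_sdiff.2 ⟨Finset.mem_erase.2 ⟨hae, ha⟩, fun h => haG (hU h)⟩⟩ (by
          intro h3
          obtain ⟨u, hu⟩ := hne
          have h4 : u ∈ V.erase e := Finset.mem_erase.2 ⟨((hmemG u).1 (hU hu)).2.2,
            ((hmemG u).1 (hU hu)).1⟩
          rw [← h3] at h4
          exact (Finset.mem_sdiff.1 h4).2 hu)
      have hyU : y ∈ U := by
        by_contra h
        rw [Finset.mem_sdiff] at hy
        exact hy.2 (Finset.mem_sdiff.2 ⟨hy.1, h⟩)
      rw [Finset.mem_sdiff, Finset.mem_erase] at hx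
      refine ⟨x, ?_, y, hyU, hxy⟩
      rw [Finset.mem_sdiff, hmemG]
      refine ⟨⟨hx.1.2, ?_, hx.1.1⟩, hx.2⟩
      rintro rfl
      exact hUS y hyU hxy
    · intro U hU hne hUS
      obtain ⟨x, hx, y, hy, hxy⟩ := h2.2 a ha U (fun u hu => Finset.mem_erase.2
        ⟨((hmemG u).1 (hU hu)).2.1, ((hmemG u).1 (hU hu)).1⟩) hne (by
          intro h3
          apply heG
          apply hU
          rw [h3]
          exact Finset.mem_erase.2 ⟨Ne.symm hae, he⟩)
      rw [Finset.mem_sdiff, Finset.mem_erase] at hy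
      refine ⟨x, hx, y, ?_, hxy⟩
      rw [Finset.mem_sdiff, hmemG]
      refine ⟨⟨hy.1.2, hy.1.1, ?_⟩, hy.2⟩
      rintro rfl
      exact hUS x hx hxy
  by_cases hcon : Conn r (V \ {a, e}) {v | r a v} {v | r v e} 3
  · exact fin (thmA hsG hst hcon)
  unfold Conn at hcon
  push Not at hcon
  obtain ⟨S, hS, hS3, A, hA, hAX, hAcl, hAY⟩ := hcon
  have hbG : b ∈ V \ {a, e} := (hmemG b).2 ⟨hb, Ne.symm hab, hbe⟩
  have heG' : e' ∈ V \ {a, e} := (hmemG e').2 ⟨he', Ne.symm hae', Ne.symm hee⟩
  have hbS : b ∈ S := by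
    by_contra h
    exact hAY b (hAX b (Finset.mem_sdiff.2 ⟨hbG, h⟩) rab) rbe
  have heS : e' ∈ S := by
    by_contra h
    exact hAY e' (hAX e' (Finset.mem_sdiff.2 ⟨heG', h⟩) rae') ree
  have hSe : S = {b, e'} := by
    symm
    apply Finset.eq_of_subset_of_card_le
    · intro x hx
      rw [Finset.mem_insert, Finset.mem_singleton] at hx
      rcases hx with rfl | rfl
      · exact hbS
      · exact heS
    · rw [Finset.card_pair hbe']
      omega
  -- membership
  have hmemA : ∀ v ∈ A, v ∈ V ∧ v ≠ a ∧ v ≠ e ∧ v ≠ b ∧ v ≠ e' := by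
    intro v hv
    have h3 := hA hv
    rw [hSe] at h3
    simp only [Finset.mem_sdiff, Finset.mem_insert, Finset.mem_singleton, not_or] at h3
    exact ⟨h3.1.1, h3.1.2.1, h3.1.2.2, h3.2.1, h3.2.2⟩
  obtain ⟨B, hB⟩ : ∃ B, B = ((V \ {a, e}) \ S) \ A := ⟨_, rfl⟩
  have hmemB : ∀ v, v ∈ B ↔ v ∈ V ∧ v ≠ a ∧ v ≠ e ∧ v ≠ b ∧ v ≠ e' ∧ v ∉ A := by
    intro v
    rw [hB, hSe]
    simp only [Finset.mem_sdiff, Finset.mem_insert, Finset.mem_singleton, not_or, and_assoc, ne_eq]
  have hGS : ∀ v, v ∈ (V \ {a, e}) \ S ↔ v ∈ V ∧ v ≠ a ∧ v ≠ e ∧ v ≠ b ∧ v ≠ e' := by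
    intro v
    rw [hSe]
    simp only [Finset.mem_sdiff, Finset.mem_insert, Finset.mem_singleton, not_or, and_assoc, ne_eq]
  have hdisj : Disjoint B A := by
    rw [Finset.disjoint_left]
    intro v hv hvA
    exact ((hmemB v).1 hv).2.2.2.2.2 hvA
  have hAB : ∀ x ∈ A, ∀ y ∈ B, ¬ r x y := by
    intro x hx y hy hxy
    have h3 := (hmemB y).1 hy
    exact h3.2.2.2.2.2 (hAcl x hx y ((hGS y).2 ⟨h3.1, h3.2.1, h3.2.2.1, h3.2.2.2.1, h3.2.2.2.2.1⟩) hxy)
  have hBA : ∀ y ∈ B, ∀ x ∈ A, r y x := by
    intro y hy x hx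
    rcases hs y ((hmemB y).1 hy).1 x (hmemA x hx).1 (by
      rintro rfl
      exact ((hmemB y).1 hy).2.2.2.2.2 hx) with h | h
    · exact h
    · exact absurd h (hAB x hx y hy)
  have haB : ∀ y ∈ B, ¬ r a y := by
    intro y hy hay
    have h3 := (hmemB y).1 hy
    exact h3.2.2.2.2.2 (hAX y ((hGS y).2 ⟨h3.1, h3.2.1, h3.2.2.1, h3.2.2.2.1, h3.2.2.2.2.1⟩) hay)
  have hBa : ∀ y ∈ B, r y a := by
    intro y hy
    rcases hs y ((hmemB y).1 hy).1 a ha ((hmemB y).1 hy).2.1 with h | h
    · exact h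
    · exact absurd h (haB y hy)
  have heA : ∀ x ∈ A, r e x := by
    intro x hx
    rcases hs e he x (hmemA x hx).1 (Ne.symm (hmemA x hx).2.2.1) with h | h
    · exact h
    · exact absurd h (hAY x hx)
  have hsA : Semi r A := hs.mono fun v hv => (hmemA v hv).1
  have hsB : Semi r B := hs.mono fun v hv => ((hmemB v).1 hv).1
  -- the last component of `A`
  have lastA : A.Nonempty → ∃ K ⊆ A, (∀ D ⊆ A, D.Nonempty → Cl r A D → K ⊆ D) ∧
      ∀ z ∈ V, z = a ∨ z = b ∨ z = e' → ∃ w, (w = a ∨ w = b ∨ w = e') ∧ w ≠ z ∧ ∃ u ∈ K, r u w := by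
    intro hAne
    obtain ⟨K, hKA, hKne, hKcl, -, hKmin⟩ := exists_last hsA hAne
    refine ⟨K, hKA, hKmin, ?_⟩
    intro z hz hz3
    have hzK : ∀ v ∈ K, v ≠ z := by
      intro v hv hvz
      have h3 := hmemA v (hKA hv)
      rcases hz3 with rfl | rfl | rfl
      · exact h3.2.1 hvz
      · exact h3.2.2.2.1 hvz
      · exact h3.2.2.2.2 hvz
    have hez : e ≠ z := by
      rcases hz3 with rfl | rfl | rfl
      · exact Ne.symm hae
      · exact Ne.symm hbe
      · exact hee
    obtain ⟨u, hu, w, hw, huw⟩ := h2.2 z hz K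
      (fun v hv => Finset.mem_erase.2 ⟨hzK v hv, (hmemA v (hKA hv)).1⟩) hKne (by
        intro h3
        have h4 : e ∈ V.erase z := Finset.mem_erase.2 ⟨hez, he⟩
        rw [← h3] at h4
        exact (hmemA e (hKA h4)).2.2.1 rfl)
    rw [Finset.mem_sdiff, Finset.mem_erase] at hw
    refine ⟨w, ?_, hw.1.1, u, hu, huw⟩
    by_contra hcon
    push Not at hcon
    have hwe : w ≠ e := by
      rintro rfl
      exact hAY u (hKA hu) huw
    by_cases hwA : w ∈ A
    · exact hw.2 (hKcl u hu w hwA huw)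
    · exact hAB u (hKA hu) w ((hmemB w).2 ⟨hw.1.2, hcon.1, hwe, hcon.2.1, hcon.2.2, hwA⟩) huw
  -- the first component of `B`
  have firstB : B.Nonempty → ∃ K ⊆ B, (∀ D ⊆ B, D.Nonempty → Cl (fun a b => r b a) B D → K ⊆ D) ∧
      ∀ z ∈ V, z = e ∨ z = b ∨ z = e' → ∃ w, (w = e ∨ w = b ∨ w = e') ∧ w ≠ z ∧ ∃ u ∈ K, r w u := by
    intro hBne
    obtain ⟨K, hKB, hKne, hKcl, -, hKmin⟩ := exists_first hsB hBne
    refine ⟨K, hKB, hKmin, ?_⟩
    intro z hz hz3
    have hzK : ∀ v ∈ K, v ≠ z := by
      intro v hv hvz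
      have h3 := (hmemB v).1 (hKB hv)
      rcases hz3 with rfl | rfl | rfl
      · exact h3.2.2.1 hvz
      · exact h3.2.2.2.1 hvz
      · exact h3.2.2.2.2.1 hvz
    have haz : a ≠ z := by
      rcases hz3 with rfl | rfl | rfl
      · exact hae
      · exact hab
      · exact hae'
    obtain ⟨u, hu, w, hw, huw⟩ := (Strong.rev.2 (h2.2 z hz)) K
      (fun v hv => Finset.mem_erase.2 ⟨hzK v hv, ((hmemB v).1 (hKB hv)).1⟩) hKne (by
        intro h3
        have h4 : a ∈ V.erase z := Finset.mem_erase.2 ⟨haz, ha⟩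
        rw [← h3] at h4
        exact ((hmemB a).1 (hKB h4)).2.1 rfl)
    rw [Finset.mem_sdiff, Finset.mem_erase] at hw
    refine ⟨w, ?_, hw.1.1, u, hu, huw⟩
    by_contra hcon
    push Not at hcon
    have hwa : w ≠ a := by
      rintro rfl
      exact haB u (hKB hu) huw
    by_cases hwA : w ∈ A
    · exact hAB w hwA u (hKB hu) huw
    · exact hw.2 (hKcl u hu w ((hmemB w).2 ⟨hw.1.2, hwa, hcon.1, hcon.2.1, hcon.2.2, hwA⟩) huw)
  -- the five forms of the path
  have aW : a ∉ B ∪ A := by
    rw [Finset.mem_union, not_or]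
    exact ⟨fun h => ((hmemB a).1 h).2.1 rfl, fun h => (hmemA a h).2.1 rfl⟩
  have bW : b ∉ B ∪ A := by
    rw [Finset.mem_union, not_or]
    exact ⟨fun h => ((hmemB b).1 h).2.2.2.1 rfl, fun h => (hmemA b h).2.2.2.1 rfl⟩
  have eW : e ∉ B ∪ A := by
    rw [Finset.mem_union, not_or]
    exact ⟨fun h => ((hmemB e).1 h).2.2.1 rfl, fun h => (hmemA e h).2.2.1 rfl⟩
  have eW' : e' ∉ B ∪ A := by
    rw [Finset.mem_union, not_or]
    exact ⟨fun h => ((hmemB e').1 h).2.2.2.2.1 rfl, fun h => (hmemA e' h).2.2.2.2 rfl⟩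
  have hW : ∀ v, v ∈ V ↔ v = a ∨ v = b ∨ v = e ∨ v = e' ∨ v ∈ B ∪ A := by
    intro v
    constructor
    · intro hv
      by_cases q1 : v = a
      · exact Or.inl q1
      by_cases q2 : v = b
      · exact Or.inr (Or.inl q2)
      by_cases q3 : v = e
      · exact Or.inr (Or.inr (Or.inl q3))
      by_cases q4 : v = e'
      · exact Or.inr (Or.inr (Or.inr (Or.inl q4)))
      refine Or.inr (Or.inr (Or.inr (Or.inr (Finset.mem_union.2 ?_))))
      by_cases h3 : v ∈ A
      · exact Or.inr h3
      · exact Or.inl ((hmemB v).2 ⟨hv, q1, q3, q2, q4, h3⟩)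
    · rintro (rfl | rfl | rfl | rfl | h)
      · exact ha
      · exact hb
      · exact he
      · exact he'
      · rcases Finset.mem_union.1 h with h | h
        · exact ((hmemB v).1 h).1
        · exact (hmemA v h).1
  have form1 : HP r (B ∪ A) {v | r b v} {v | r v e'} → HP r V {a, b} {e, e'} := by
    intro h
    have := cd_two_two (V := V) h aW bW eW' eW hab hae' hae hbe' hbe (Ne.symm hee) rab ree
      (fun v => (hW v).trans cd_or1)
    exact this.mono (fun x _ hx => Or.inl hx) (fun y _ hy => Or.inl hy)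
  have form2 : HP r (B ∪ A) {v | r e' v} {v | r v b} → HP r V {a, b} {e, e'} := by
    intro h
    have := cd_two_two (V := V) h aW eW' bW eW hae' hab hae (Ne.symm hbe') (Ne.symm hee) hbe rae' rbe
      (fun v => (hW v).trans cd_or2)
    exact this.mono (fun x _ hx => Or.inl hx) (fun y _ hy => Or.inl hy)
  have form3 : HP r (B ∪ A) {v | r b v} {v | r v a} → HP r V {a, b} {e, e'} := by
    intro h
    have := cd_one_three (V := V) h bW aW eW' eW (Ne.symm hab) hbe' hbe hae' hae (Ne.symm hee) rae' ree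
      (fun v => (hW v).trans cd_or3)
    exact this.mono (fun x _ hx => Or.inr hx) (fun y _ hy => Or.inl hy)
  have form4 : HP r (B ∪ A) {v | r e v} {v | r v e'} → HP r V {a, b} {e, e'} := by
    intro h
    have := cd_three_one (V := V) h aW bW eW eW' hab hae hae' hbe hbe' hee rab rbe
      hW
    exact this.mono (fun x _ hx => Or.inl hx) (fun y _ hy => Or.inr hy)
  have form5 : HP r (B ∪ A) {v | r e v} {v | r v a} → HP r V {a, b} {e, e'} := by
    intro h
    have := cd_two_two (V := V) h bW eW aW eW' hbe (Ne.symm hab) hbe' (Ne.symm hae) hee hae' rbe rae'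
      (fun v => (hW v).trans cd_or5)
    exact this.mono (fun x _ hx => Or.inr hx) (fun y _ hy => Or.inr hy)
  rcases A.eq_empty_or_nonempty with hA0 | hAne
  · -- `A` is empty
    have hBne : B.Nonempty := by
      by_contra hB0
      rw [Finset.not_nonempty_iff_eq_empty] at hB0
      have h3 : V ⊆ {a, b, e, e'} := by
        intro v hv
        have := (hW v).1 hv
        rw [hA0, hB0] at this
        simpa using this
      have h4 := Finset.card_le_card h3
      have h5 : ({a, b, e, e'} : Finset α).card ≤ 4 := Finset.card_le_four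
      omega
    obtain ⟨K, hKB, hKmin, hK2⟩ := firstB hBne
    have hBA' : B ∪ A = B := by rw [hA0, Finset.union_empty]
    rw [hBA'] at form3 form5
    by_cases hbK : ∃ u ∈ K, r b u
    · exact form3 ((cd_start hsB hBne hKmin hbK).mono (fun x _ hx => hx) (fun y hy _ => hBa y hy))
    · have heK : ∃ u ∈ K, r e u := by
        obtain ⟨w, hw, hwz, hwK⟩ := hK2 e' he' (Or.inr (Or.inr rfl))
        rcases hw with rfl | rfl | rfl
        · exact hwK
        · exact absurd hwK hbK
        · exact absurd rfl hwz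
      exact form5 ((cd_start hsB hBne hKmin heK).mono (fun x _ hx => hx) (fun y hy _ => hBa y hy))
  rcases B.eq_empty_or_nonempty with hB0 | hBne
  · -- `B` is empty
    obtain ⟨K, hKA, hKmin, hK2⟩ := lastA hAne
    have hBA' : B ∪ A = A := by rw [hB0, Finset.empty_union]
    rw [hBA'] at form4 form5
    by_cases hbK : ∃ u ∈ K, r u e'
    · exact form4 ((cd_end hsA hAne hKmin hbK).mono (fun x hx _ => heA x hx) (fun y _ hy => hy))
    · have heK : ∃ u ∈ K, r u a := by
        obtain ⟨w, hw, hwz, hwK⟩ := hK2 b hb (Or.inr (Or.inl rfl))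
        rcases hw with rfl | rfl | rfl
        · exact hwK
        · exact absurd rfl hwz
        · exact absurd hwK hbK
      exact form5 ((cd_end hsA hAne hKmin heK).mono (fun x hx _ => heA x hx) (fun y _ hy => hy))
  -- both nonempty
  obtain ⟨KB, hKB, hKBmin, hKB2⟩ := firstB hBne
  obtain ⟨KA, hKA, hKAmin, hKA2⟩ := lastA hAne
  have mid : ∀ w w' : α, (∃ u ∈ KB, r w u) → (∃ u ∈ KA, r u w') →
      HP r (B ∪ A) {v | r w v} {v | r v w'} := by
    intro w w' hw hw'
    exact (cd_start hsB hBne hKBmin hw).join (cd_end hsA hAne hKAmin hw') hdisj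
      (fun t ht _ s hs _ => hBA t ht s hs)
  have hA1 : (∃ u ∈ KA, r u b) ∨ ∃ u ∈ KA, r u e' := by
    obtain ⟨w, hw, hwz, hwK⟩ := hKA2 a ha (Or.inl rfl)
    rcases hw with rfl | rfl | rfl
    · exact absurd rfl hwz
    · exact Or.inl hwK
    · exact Or.inr hwK
  have hA2 : (∃ u ∈ KA, r u a) ∨ ∃ u ∈ KA, r u e' := by
    obtain ⟨w, hw, hwz, hwK⟩ := hKA2 b hb (Or.inr (Or.inl rfl))
    rcases hw with rfl | rfl | rfl
    · exact Or.inl hwK
    · exact absurd rfl hwz
    · exact Or.inr hwK
  have hA3 : (∃ u ∈ KA, r u a) ∨ ∃ u ∈ KA, r u b := by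
    obtain ⟨w, hw, hwz, hwK⟩ := hKA2 e' he' (Or.inr (Or.inr rfl))
    rcases hw with rfl | rfl | rfl
    · exact Or.inl hwK
    · exact Or.inr hwK
    · exact absurd rfl hwz
  have hB1 : (∃ u ∈ KB, r b u) ∨ ∃ u ∈ KB, r e' u := by
    obtain ⟨w, hw, hwz, hwK⟩ := hKB2 e he (Or.inl rfl)
    rcases hw with rfl | rfl | rfl
    · exact absurd rfl hwz
    · exact Or.inl hwK
    · exact Or.inr hwK
  have hB2 : (∃ u ∈ KB, r e u) ∨ ∃ u ∈ KB, r e' u := by
    obtain ⟨w, hw, hwz, hwK⟩ := hKB2 b hb (Or.inr (Or.inl rfl))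
    rcases hw with rfl | rfl | rfl
    · exact Or.inl hwK
    · exact absurd rfl hwz
    · exact Or.inr hwK
  have hB3 : (∃ u ∈ KB, r e u) ∨ ∃ u ∈ KB, r b u := by
    obtain ⟨w, hw, hwz, hwK⟩ := hKB2 e' he' (Or.inr (Or.inr rfl))
    rcases hw with rfl | rfl | rfl
    · exact Or.inl hwK
    · exact Or.inr hwK
    · exact absurd rfl hwz
  by_cases c1 : ∃ u ∈ KB, r b u
  · by_cases c2 : ∃ u ∈ KA, r u e'
    · exact form1 (mid b e' c1 c2)
    · exact form3 (mid b a c1 (hA2.resolve_right c2))
  · have c3 : ∃ u ∈ KB, r e' u := hB1.resolve_left c1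
    by_cases c2 : ∃ u ∈ KA, r u b
    · exact form2 (mid e' b c3 c2)
    · exact form4 (mid e e' (hB3.resolve_right c1) (hA1.resolve_left c2))

/-- 6.4 -/
theorem case_disjoint (hs : Semi r V) (h2 : TwoStrong r V) (hn : 5 ≤ V.card) {X Y : Finset α}
    (hX : X ⊆ V) (hY : Y ⊆ V) (hc : Conn r V ↑X ↑Y 2) (ht : Triv r V X Y) (hX2 : X.card = 2)
    (hY2 : Y.card = 2) (hXY : Disjoint X Y) : HP r V ↑X ↑Y := by
  obtain ⟨a, b, hab, rfl⟩ := Finset.card_eq_two.1 hX2
  obtain ⟨e, e', hee, rfl⟩ := Finset.card_eq_two.1 hY2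
  have key : ∀ a b e e' : α, a ≠ b → e ≠ e' → ({a, b} : Finset α) ⊆ V → ({e, e'} : Finset α) ⊆ V →
      Disjoint ({a, b} : Finset α) {e, e'} → Conn r V {a, b} {e, e'} 2 → Triv r V {a, b} {e, e'} →
      r a b → r e' e → HP r V {a, b} {e, e'} := by
    intro a b e e' hab hee hX hY hXY hc ht rab ree
    have h1 := Finset.disjoint_left.1 hXY
    simp only [Finset.mem_insert, Finset.mem_singleton, not_or] at h1
    exact cd_main hs h2 hn (hX (by simp)) (hX (by simp)) (hY (by simp)) (hY (by simp)) hab hee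
      (h1 (Or.inl rfl)).1 (h1 (Or.inl rfl)).2 (h1 (Or.inr rfl)).1 (h1 (Or.inr rfl)).2 rab ree hc ht
  have haV : a ∈ V := hX (by simp)
  have hbV : b ∈ V := hX (by simp)
  have heV : e ∈ V := hY (by simp)
  have heV' : e' ∈ V := hY (by simp)
  rw [Finset.coe_pair, Finset.coe_pair] at hc ⊢
  rcases hs a haV b hbV hab with rab | rba
  · rcases hs e' heV' e heV (Ne.symm hee) with ree | ree
    · exact key a b e e' hab hee hX hY hXY hc ht rab ree
    · have := key a b e' e hab (Ne.symm hee) hX (by rwa [Finset.pair_comm])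
        (by rwa [Finset.pair_comm e' e]) (by rwa [Set.pair_comm e' e]) (by rwa [Finset.pair_comm e' e])
        rab ree
      rwa [Set.pair_comm e' e] at this
  · rcases hs e' heV' e heV (Ne.symm hee) with ree | ree
    · have := key b a e e' (Ne.symm hab) hee (by rwa [Finset.pair_comm]) hY
        (by rwa [Finset.pair_comm b a]) (by rwa [Set.pair_comm b a]) (by rwa [Finset.pair_comm b a])
        rba ree
      rwa [Set.pair_comm b a] at this
    · have := key b a e' e (Ne.symm hab) (Ne.symm hee) (by rwa [Finset.pair_comm])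
        (by rwa [Finset.pair_comm])
        (by rwa [Finset.pair_comm b a, Finset.pair_comm e' e])
        (by rwa [Set.pair_comm b a, Set.pair_comm e' e])
        (by rwa [Finset.pair_comm b a, Finset.pair_comm e' e])
        rba ree
      rwa [Set.pair_comm b a, Set.pair_comm e' e] at this

theorem cc_fwd_union {W : Finset α} {L : Set α} {e : α} (he : e ∈ fwd r W L) :
    ∃ c ∈ W, c ∈ L ∧ e ∈ fwd r W {c} := by
  classical
  have h : fwd r W L ⊆ W.filter (fun w => ∃ c ∈ W, c ∈ L ∧ w ∈ fwd r W {c}) := by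
    refine fwd_min (Finset.filter_subset _ _) ?_ ?_
    · intro x hx hL
      rw [Finset.mem_filter]
      exact ⟨hx, x, hx, hL, subset_fwd x hx rfl⟩
    · intro u hu v hv huv
      rw [Finset.mem_filter] at hu ⊢
      obtain ⟨_, c, hc, hcL, hcu⟩ := hu
      exact ⟨hv, c, hc, hcL, fwd_cl u hcu v hv huv⟩
  exact (Finset.mem_filter.1 (h he)).2

/-- (E1) -/
theorem cc_E1 (hs : Semi r V) (h2 : TwoStrong r V) (hn : 4 ≤ V.card) {a e f : α}
    (ha : a ∈ V) (he : e ∈ V) (hf : f ∈ V) (hae : a ≠ e) (haf : a ≠ f) (hef : e ≠ f)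
    (h : ¬ ∃ c ∈ V, c ≠ a ∧ c ≠ f ∧ c ≠ e ∧ r a c ∧ e ∈ fwd r (V \ {a, f}) {c}) :
    HP r V {a, f} {f, e} := by
  classical
  set U := fwd r (V \ {a, f}) {v | r a v ∧ v ≠ e} with hU
  have hUW : ∀ u ∈ U, u ∈ V ∧ u ≠ a ∧ u ≠ f := by
    intro u hu
    have := fwd_subset hu
    simp only [Finset.mem_sdiff, Finset.mem_insert, Finset.mem_singleton, not_or] at this
    exact this
  have heU : e ∉ U := by
    intro h0
    obtain ⟨c, hc, hcL, hce⟩ := cc_fwd_union h0
    simp only [Finset.mem_sdiff, Finset.mem_insert, Finset.mem_singleton, not_or] at hc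
    exact h ⟨c, hc.1, hc.2.1, hc.2.2, hcL.2, hcL.1, hce⟩
  have hWm : ∀ v ∈ V, v ≠ a → v ≠ f → v ∈ V \ {a, f} := by
    intro v hv h1 h3
    simp only [Finset.mem_sdiff, Finset.mem_insert, Finset.mem_singleton, not_or]
    exact ⟨hv, h1, h3⟩
  have hUR : ∀ u ∈ U, ∀ v ∈ V, v ≠ a → v ≠ f → v ∉ U → ¬ r u v := by
    intro u hu v hv h1 h3 h4 h5
    exact h4 (fwd_cl u hu v (hWm v hv h1 h3) h5)
  have haR : ∀ v ∈ V, v ≠ a → v ≠ f → v ≠ e → v ∉ U → ¬ r a v := by
    intro v hv h1 h3 h4 h5 h6
    exact h5 (subset_fwd v (hWm v hv h1 h3) ⟨h6, h4⟩)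
  have hrae : r a e := by
    obtain ⟨x, hx, y, hy, hxy⟩ := h2.2 f hf (insert a U) (by
        intro x hx
        rw [Finset.mem_insert] at hx
        rcases hx with rfl | hx
        · exact Finset.mem_erase.2 ⟨haf, ha⟩
        · exact Finset.mem_erase.2 ⟨(hUW x hx).2.2, (hUW x hx).1⟩)
      (Finset.insert_nonempty _ _) (by
        intro h0
        have : e ∈ insert a U := by rw [h0]; exact Finset.mem_erase.2 ⟨hef, he⟩
        rw [Finset.mem_insert] at this
        rcases this with h1 | h1
        · exact hae h1.symm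
        · exact heU h1)
    simp only [Finset.mem_sdiff, Finset.mem_erase, Finset.mem_insert, not_or] at hx hy
    obtain ⟨⟨hyf, hyV⟩, hya, hyU⟩ := hy
    rcases hx with rfl | hx
    · by_contra hcon
      by_cases hye : y = e
      · rw [hye] at hxy; exact hcon hxy
      · exact haR y hyV hya hyf hye hyU hxy
    · exact absurd hxy (hUR x hx y hyV hya hyf hyU)
  have heUc : ∀ u ∈ U, r e u := by
    intro u hu
    rcases hs e he u (hUW u hu).1 (by rintro rfl; exact heU hu) with h1 | h1
    · exact h1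
    · exact absurd h1 (hUR u hu e he hae.symm hef heU)
  set R := V.filter (fun v => v ≠ a ∧ v ≠ f ∧ v ≠ e ∧ v ∉ U) with hR
  have hRm : ∀ v, v ∈ R ↔ v ∈ V ∧ v ≠ a ∧ v ≠ f ∧ v ≠ e ∧ v ∉ U := by
    intro v; rw [hR, Finset.mem_filter]
  have hRV : R ⊆ V := Finset.filter_subset _ _
  have hUV : U ⊆ V := fun u hu => (hUW u hu).1
  have hRU : ∀ v ∈ R, ∀ u ∈ U, r v u := by
    intro v hv u hu
    obtain ⟨h1, h3, h4, h5, h6⟩ := (hRm v).1 hv
    rcases hs v h1 u (hUW u hu).1 (by rintro rfl; exact h6 hu) with h7 | h7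
    · exact h7
    · exact absurd h7 (hUR u hu v h1 h3 h4 h6)
  have hRa : ∀ v ∈ R, r v a := by
    intro v hv
    obtain ⟨h1, h3, h4, h5, h6⟩ := (hRm v).1 hv
    rcases hs v h1 a ha h3 with h7 | h7
    · exact h7
    · exact absurd h7 (haR v h1 h3 h4 h5 h6)
  -- the first part of the path reaches all of `R`
  have hRe : From r R {x | r e x} := by
    intro D hD hne hD'
    obtain ⟨x, hx, y, hy, hxy⟩ := h2.2 f hf ((V.erase f) \ D) Finset.sdiff_subset
      ⟨a, Finset.mem_sdiff.2 ⟨Finset.mem_erase.2 ⟨haf, ha⟩, fun h0 => ((hRm a).1 (hD h0)).2.1 rfl⟩⟩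
      (by
        intro h0
        obtain ⟨d, hd⟩ := hne
        have h1 := (hRm d).1 (hD hd)
        have : d ∈ (V.erase f) \ D := by rw [h0]; exact Finset.mem_erase.2 ⟨h1.2.2.1, h1.1⟩
        exact (Finset.mem_sdiff.1 this).2 hd)
    simp only [Finset.mem_sdiff, Finset.mem_erase, not_and, not_not] at hx hy
    have hyD : y ∈ D := hy.2 hy.1
    obtain ⟨h1, h3, h4, h5, h6⟩ := (hRm y).1 (hD hyD)
    have hxa : x ≠ a := by rintro rfl; exact haR y h1 h3 h4 h5 h6 hxy
    have hxe : x ≠ e := by rintro rfl; exact hD' y hyD hxy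
    have hxU : x ∉ U := fun h0 => hUR x h0 y h1 h3 h4 h6 hxy
    exact ⟨x, Finset.mem_sdiff.2 ⟨(hRm x).2 ⟨hx.1.2, hxa, hx.1.1, hxe, hxU⟩, hx.2⟩, y, hyD, hxy⟩
  rcases U.eq_empty_or_nonempty with hU0 | hU0
  · -- `f [R] a e`
    have hRne : R.Nonempty := by
      rw [Finset.nonempty_iff_ne_empty]
      intro h0
      have h1 : V ⊆ {a, f, e} := by
        intro v hv
        by_contra h3
        simp only [Finset.mem_insert, Finset.mem_singleton, not_or] at h3
        have : v ∈ R := (hRm v).2 ⟨hv, h3.1, h3.2.1, h3.2.2, by rw [hU0]; simp⟩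
        rw [h0] at this
        simp at this
      have h3 := Finset.card_le_card h1
      have h4 : ({a, f, e} : Finset α).card ≤ 3 := Finset.card_le_three
      omega
    have hRf : From r R {x | r f x} := by
      intro D hD hne hD'
      obtain ⟨x, hx, y, hy, hxy⟩ := h2.2 e he ((V.erase e) \ D) Finset.sdiff_subset
        ⟨a, Finset.mem_sdiff.2 ⟨Finset.mem_erase.2 ⟨hae, ha⟩, fun h0 => ((hRm a).1 (hD h0)).2.1 rfl⟩⟩
        (by
          intro h0
          obtain ⟨d, hd⟩ := hne
          have h1 := (hRm d).1 (hD hd)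
          have : d ∈ (V.erase e) \ D := by rw [h0]; exact Finset.mem_erase.2 ⟨h1.2.2.2.1, h1.1⟩
          exact (Finset.mem_sdiff.1 this).2 hd)
      simp only [Finset.mem_sdiff, Finset.mem_erase, not_and, not_not] at hx hy
      have hyD : y ∈ D := hy.2 hy.1
      obtain ⟨h1, h3, h4, h5, h6⟩ := (hRm y).1 (hD hyD)
      have hxa : x ≠ a := by rintro rfl; exact haR y h1 h3 h4 h5 h6 hxy
      have hxf : x ≠ f := by rintro rfl; exact hD' y hyD hxy
      exact ⟨x, Finset.mem_sdiff.2 ⟨(hRm x).2 ⟨hx.1.2, hxa, hxf, hx.1.1, by rw [hU0]; simp⟩, hx.2⟩,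
        y, hyD, hxy⟩
    have p0 : HP r {e} {e} {f, e} := HP_singleton rfl (by simp)
    have p1 : HP r ({a} ∪ {e}) {a} {f, e} := by
      refine HP.join (HP_singleton (T := {a}) rfl rfl) p0 ?_ ?_
      · rw [Finset.disjoint_singleton]; exact hae
      · intro t _ ht s _ hs'
        rw [Set.mem_singleton_iff] at ht hs'
        rw [ht, hs']; exact hrae
    have p2 : HP r (R ∪ ({a} ∪ {e})) {x | r f x} {f, e} := by
      refine HP.join (HP_start (hs.mono hRV) hRne hRf) p1 ?_ ?_
      · rw [Finset.disjoint_left]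
        intro v hv hv'
        simp only [Finset.mem_union, Finset.mem_singleton] at hv'
        have := (hRm v).1 hv
        rcases hv' with h0 | h0
        · exact this.2.1 h0
        · exact this.2.2.2.1 h0
      · intro t ht _ s _ hs'
        rw [Set.mem_singleton_iff] at hs'
        rw [hs']; exact hRa t ht
    have p3 : HP r ({f} ∪ (R ∪ ({a} ∪ {e}))) {a, f} {f, e} := by
      refine HP.join (HP_singleton (T := {f}) (by simp) rfl) p2 ?_ ?_
      · rw [Finset.disjoint_left]
        intro v hv hv'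
        simp only [Finset.mem_union, Finset.mem_singleton] at hv hv'
        subst hv
        rcases hv' with h0 | h0 | h0
        · exact ((hRm v).1 h0).2.2.1 rfl
        · exact haf h0.symm
        · exact hef h0.symm
      · intro t _ ht s _ hs'
        rw [Set.mem_singleton_iff] at ht
        rw [ht]; exact hs'
    have hV : {f} ∪ (R ∪ ({a} ∪ {e})) = V := by
      ext v
      simp only [Finset.mem_union, Finset.mem_singleton, hRm]
      constructor
      · rintro (rfl | h0 | rfl | rfl)
        · exact hf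
        · exact h0.1
        · exact ha
        · exact he
      · intro hv
        by_cases c1 : v = f
        · exact Or.inl c1
        · by_cases c2 : v = a
          · exact Or.inr (Or.inr (Or.inl c2))
          · by_cases c3 : v = e
            · exact Or.inr (Or.inr (Or.inr c3))
            · exact Or.inr (Or.inl ⟨hv, c2, c1, c3, by rw [hU0]; simp⟩)
    rw [← hV]
    exact p3
  · -- `a e [R] [U] f`
    have hUf : To r U {x | r x f} := by
      intro D hD hne hD'
      obtain ⟨x, hx, y, hy, hxy⟩ := h2.2 a ha D (by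
          intro d hd
          exact Finset.mem_erase.2 ⟨(hUW d (hD hd)).2.1, (hUW d (hD hd)).1⟩) hne (by
          intro h0
          have : f ∈ D := by rw [h0]; exact Finset.mem_erase.2 ⟨haf.symm, hf⟩
          exact (hUW f (hD this)).2.2 rfl)
      simp only [Finset.mem_sdiff, Finset.mem_erase] at hy
      refine ⟨x, hx, y, Finset.mem_sdiff.2 ⟨?_, hy.2⟩, hxy⟩
      have hyf : y ≠ f := by rintro rfl; exact hD' x hx hxy
      by_contra h0
      exact hUR x (hD hx) y hy.1.2 hy.1.1 hyf h0 hxy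
    have p0 : HP r {f} {f} {f, e} := HP_singleton rfl (by simp)
    have p1 : HP r (U ∪ {f}) {x | x ∈ U} {f, e} := by
      refine HP.join ((HP_end (hs.mono hUV) hU0 hUf).mono (S' := {x | x ∈ U})
        (T' := {x | r x f}) (fun x hx _ => hx) (fun x _ hx => hx)) p0 ?_ ?_
      · rw [Finset.disjoint_singleton_right]
        intro h0
        exact (hUW f h0).2.2 rfl
      · intro t _ ht s _ hs'
        rw [Set.mem_singleton_iff] at hs'
        rw [hs']; exact ht
    have key : ∀ (Z : Finset α), HP r Z {x | r e x} {f, e} → a ∉ Z → e ∉ Z → {a} ∪ ({e} ∪ Z) = V →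
        HP r V {a, f} {f, e} := by
      intro Z hZ haZ heZ hV
      have q1 : HP r ({e} ∪ Z) {e} {f, e} := by
        refine HP.join (HP_singleton (T := {e}) rfl rfl) hZ ?_ ?_
        · rw [Finset.disjoint_singleton_left]; exact heZ
        · intro t _ ht s _ hs'
          rw [Set.mem_singleton_iff] at ht
          rw [ht]; exact hs'
      have q2 : HP r ({a} ∪ ({e} ∪ Z)) {a, f} {f, e} := by
        refine HP.join (HP_singleton (T := {a}) (by simp) rfl) q1 ?_ ?_
        · rw [Finset.disjoint_singleton_left, Finset.mem_union, Finset.mem_singleton]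
          rintro (h0 | h0)
          · exact hae h0
          · exact haZ h0
        · intro t _ ht s _ hs'
          rw [Set.mem_singleton_iff] at ht hs'
          rw [ht, hs']; exact hrae
      rw [← hV]; exact q2
    have haU : a ∉ U := fun h0 => (hUW a h0).2.1 rfl
    rcases R.eq_empty_or_nonempty with hR0 | hR0
    · refine key (U ∪ {f}) (p1.mono (fun x _ hx => heUc x hx) (fun x _ hx => hx)) ?_ ?_ ?_
      · rw [Finset.mem_union, Finset.mem_singleton]
        rintro (h0 | h0)
        · exact haU h0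
        · exact haf h0
      · rw [Finset.mem_union, Finset.mem_singleton]
        rintro (h0 | h0)
        · exact heU h0
        · exact hef h0
      · ext v
        simp only [Finset.mem_union, Finset.mem_singleton]
        constructor
        · rintro (rfl | rfl | h0 | rfl)
          · exact ha
          · exact he
          · exact hUV h0
          · exact hf
        · intro hv
          by_contra hcon
          simp only [not_or] at hcon
          have : v ∈ R := (hRm v).2 ⟨hv, hcon.1, hcon.2.2.2, hcon.2.1, hcon.2.2.1⟩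
          rw [hR0] at this
          simp at this
    · have p2 : HP r (R ∪ (U ∪ {f})) {x | r e x} {f, e} := by
        refine HP.join (HP_start (hs.mono hRV) hR0 hRe) p1 ?_ ?_
        · rw [Finset.disjoint_left]
          intro v hv hv'
          simp only [Finset.mem_union, Finset.mem_singleton] at hv'
          have := (hRm v).1 hv
          rcases hv' with h0 | h0
          · exact this.2.2.2.2 h0
          · exact this.2.2.1 h0
        · intro t ht _ s _ hs'
          exact hRU t ht s hs'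
      refine key _ p2 ?_ ?_ ?_
      · simp only [Finset.mem_union, Finset.mem_singleton]
        rintro (h0 | h0 | h0)
        · exact ((hRm a).1 h0).2.1 rfl
        · exact haU h0
        · exact haf h0
      · simp only [Finset.mem_union, Finset.mem_singleton]
        rintro (h0 | h0 | h0)
        · exact ((hRm e).1 h0).2.2.2.1 rfl
        · exact heU h0
        · exact hef h0
      · ext v
        simp only [Finset.mem_union, Finset.mem_singleton]
        constructor
        · rintro (rfl | rfl | h0 | h0 | rfl)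
          · exact ha
          · exact he
          · exact hRV h0
          · exact hUV h0
          · exact hf
        · intro hv
          by_contra hcon
          simp only [not_or] at hcon
          exact hcon.2.2.1 ((hRm v).2 ⟨hv, hcon.1, hcon.2.2.2.2, hcon.2.1, hcon.2.2.2.1⟩)

/-- 6.5 -/
theorem case_common (hs : Semi r V) (h2 : TwoStrong r V) (hn : 4 ≤ V.card) {a e f : α}
    (ha : a ∈ V) (he : e ∈ V) (hf : f ∈ V) (hae : a ≠ e) (haf : a ≠ f) (hef : e ≠ f)
    (ht : Triv r V {a, f} {f, e}) : HP r V {a, f} {f, e} := by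
  classical
  by_cases h1 : ∃ c ∈ V, c ≠ a ∧ c ≠ f ∧ c ≠ e ∧ r a c ∧ e ∈ fwd r (V \ {a, f}) {c}
  swap
  · exact cc_E1 hs h2 hn ha he hf hae haf hef h1
  by_cases h3 : ∃ d ∈ V, d ≠ e ∧ d ≠ f ∧ d ≠ a ∧ r d e ∧
      a ∈ fwd (fun x y => r y x) (V \ {e, f}) {d}
  swap
  · have h4 := cc_E1 (r := fun x y => r y x) hs.rev h2.rev hn he ha hf hae.symm hef haf h3
    have h5 := HP_rev.1 h4
    exact h5.mono (fun x _ hx => by rwa [Set.pair_comm] at hx) (fun x _ hx => by rwa [Set.pair_comm] at hx)
  obtain ⟨c, hc, hca, hcf, hce, hac, hec⟩ := h1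
  obtain ⟨d, hd, hde, hdf, hda, hder, had⟩ := h3
  refine linkage hs h2 ha he hf hc hd hae haf hef hca hce hcf hda hde hdf hac hder ?_
  intro S hS hSc U hU hUX hcl
  by_contra hcon
  push Not at hcon
  have heU : e ∉ U := fun h0 => hcon e h0 (by simp)
  have hdU : d ∉ U := fun h0 => hcon d h0 (by simp)
  have hS' : S = ∅ ∨ ∃ s, S = {s} := by
    have h0 : S.card = 0 ∨ S.card = 1 := by omega
    rcases h0 with h0 | h0
    · exact Or.inl (Finset.card_eq_zero.1 h0)
    · exact Or.inr (Finset.card_eq_one.1 h0)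
  rcases hS' with rfl | ⟨s, rfl⟩
  · rw [Finset.sdiff_empty] at hU hUX hcl
    have haU : a ∈ U := hUX a (Finset.mem_erase.2 ⟨haf, ha⟩) (by simp)
    obtain ⟨x, hx, y, hy, hxy⟩ := h2.2 f hf U hU ⟨a, haU⟩ (by
      rintro rfl
      exact heU (Finset.mem_erase.2 ⟨hef, he⟩))
    exact (Finset.mem_sdiff.1 hy).2 (hcl x hx y (Finset.mem_sdiff.1 hy).1 hxy)
  · have hsf : s ≠ f := by
      have := hS (Finset.mem_singleton_self s)
      exact (Finset.mem_erase.1 this).1
    have hsV : s ∈ V := by
      have := hS (Finset.mem_singleton_self s)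
      exact (Finset.mem_erase.1 this).2
    have hset : ∀ v, v ∈ (V.erase f) \ {s} ↔ v ∈ V ∧ v ≠ f ∧ v ≠ s := by
      intro v
      simp only [Finset.mem_sdiff, Finset.mem_erase, Finset.mem_singleton]
      tauto
    by_cases hsa : s = a
    · subst hsa
      have hsub : fwd r (V \ {s, f}) {c} ⊆ U := by
        have hW : V \ {s, f} = (V.erase f) \ {s} := by
          ext v
          rw [hset]
          simp only [Finset.mem_sdiff, Finset.mem_insert, Finset.mem_singleton, not_or]
          tauto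
        rw [hW]
        refine fwd_min hU ?_ hcl
        intro x hx hxc
        exact hUX x hx (by rw [Set.mem_singleton_iff] at hxc; simp [hxc])
      exact heU (hsub hec)
    · by_cases hse : s = e
      · subst hse
        have haU : a ∈ U := hUX a ((hset a).2 ⟨ha, haf, hae⟩) (by simp)
        have hsub : fwd (fun x y => r y x) (V \ {s, f}) {d} ⊆ (V \ {s, f}) \ U := by
          refine fwd_min Finset.sdiff_subset ?_ ?_
          · intro x hx hxd
            rw [Set.mem_singleton_iff] at hxd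
            rw [hxd] at hx ⊢
            exact Finset.mem_sdiff.2 ⟨hx, hdU⟩
          · intro u hu v hv huv
            refine Finset.mem_sdiff.2 ⟨hv, fun h0 => ?_⟩
            have hu' := Finset.mem_sdiff.1 hu
            refine hu'.2 (hcl v h0 u ?_ huv)
            have := hu'.1
            simp only [Finset.mem_sdiff, Finset.mem_insert, Finset.mem_singleton, not_or] at this
            exact (hset u).2 ⟨this.1, this.2.2, this.2.1⟩
        exact (Finset.mem_sdiff.1 (hsub had)).2 haU
      · have haU : a ∈ U := hUX a ((hset a).2 ⟨ha, haf, fun h0 => hsa h0.symm⟩) (by simp)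
        have hW : (V.erase f) \ {s} = V \ {f, s} := by
          ext v
          rw [hset]
          simp only [Finset.mem_sdiff, Finset.mem_insert, Finset.mem_singleton, not_or]
        rw [hW] at hU hUX hcl
        obtain ⟨u, hu, hu'⟩ := ht {f, s} (by
            intro v hv
            simp only [Finset.mem_insert, Finset.mem_singleton] at hv
            rcases hv with rfl | rfl
            · exact hf
            · exact hsV) (Finset.card_pair (Ne.symm hsf)) (by
            intro h0
            have := h0 (by simp : a ∈ ({a, f} : Finset α))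
            simp only [Finset.mem_insert, Finset.mem_singleton] at this
            rcases this with h0 | h0
            · exact haf h0
            · exact hsa h0.symm) (by
            intro h0
            have := h0 (by simp : e ∈ ({f, e} : Finset α))
            simp only [Finset.mem_insert, Finset.mem_singleton] at this
            rcases this with h0 | h0
            · exact hef h0
            · exact hse h0.symm) U hU (by
            intro x hx hxa
            simp only [Finset.mem_insert, Finset.mem_singleton] at hxa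
            rcases hxa with rfl | rfl
            · exact haU
            · simp at hx) hcl
        simp only [Finset.mem_insert, Finset.mem_singleton] at hu'
        rcases hu' with rfl | rfl
        · have := hU hu
          simp at this
        · exact heU hu

/-- Sets that cannot be separated by one vertex have at least two vertices. -/
theorem a6_two {X : Finset α} {T : Set α} (hX : X ⊆ V) (hc : Conn r V ↑X T 2) : 2 ≤ X.card := by
  by_contra hcon
  obtain ⟨u, hu, _⟩ := hc X hX (by omega) ∅ (Finset.empty_subset _)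
    (fun x hx hxX => absurd (by simpa using hxX) (Finset.mem_sdiff.1 hx).2)
    (fun u hu => absurd hu (Finset.notMem_empty u))
  exact absurd hu (Finset.notMem_empty u)

/-- Rule R6 in the case that `X` has two vertices. -/
theorem a6_main (hs : Semi r V) (h2 : TwoStrong r V) (hn : 7 ≤ V.card) {X Y : Finset α}
    (hX : X ⊆ V) (hY : Y ⊆ V) (hc : Conn r V ↑X ↑Y 2) (ht : Triv r V X Y) (hX2 : X.card = 2) :
    HP r V ↑X ↑Y := by
  have hY2 : 2 ≤ Y.card := a6_two hY hc.rev
  by_cases hXY : X ⊆ Y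
  · obtain ⟨a, b, hab, rfl⟩ := Finset.card_eq_two.1 hX2
    have h := weak hs h2 (hX (by simp) : a ∈ V) (hX (by simp) : b ∈ V) hab hn
    refine h.mono ?_ ?_
    · intro x _ hx
      simpa using hx
    · intro x _ hx
      rw [Finset.mem_coe]
      apply hXY
      simpa using hx
  · obtain ⟨a, haX, haY⟩ := Finset.not_subset.1 hXY
    rcases Nat.lt_or_ge Y.card 3 with hY3 | hY3
    · have hY2' : Y.card = 2 := by omega
      by_cases hd : Disjoint X Y
      · exact case_disjoint hs h2 (by omega) hX hY hc ht hX2 hY2' hd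
      · rw [Finset.not_disjoint_iff] at hd
        obtain ⟨f, hfX, hfY⟩ := hd
        obtain ⟨f', hf'a, rfl⟩ := a6_pair hX2 haX
        have hff' : f = f' := by
          rw [Finset.mem_insert, Finset.mem_singleton] at hfX
          rcases hfX with h | h
          · exact absurd (h ▸ hfY) haY
          · exact h
        subst hff'
        obtain ⟨e, hef, rfl⟩ := a6_pair hY2' hfY
        have hae : a ≠ e := by
          rintro rfl
          exact haY (by simp)
        have h := case_common hs h2 (by omega) (hX (by simp) : a ∈ V) (hY (by simp) : e ∈ V)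
          (hX (by simp) : f ∈ V) hae hf'a.symm hef ht
        have h1 : ((({a, f} : Finset α) : Set α)) = {a, f} := by simp
        have h2 : ((({f, e} : Finset α) : Set α)) = {f, e} := by simp
        rw [h1, h2]
        exact h
    · exact case_three hs h2 hX hY hc ht hX2 hY3 haX haY

/-- Rule R6. -/
theorem rule6 (hs : Semi r V) (h2 : TwoStrong r V) (hn : 7 ≤ V.card) {X Y : Finset α}
    (hX : X ⊆ V) (hY : Y ⊆ V) (hc : Conn r V ↑X ↑Y 2) (ht : Triv r V X Y) : HP r V ↑X ↑Y := by
  by_cases h3 : Conn r V (↑X : Set α) ↑Y 3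
  · exact thmA hs h2.1 h3
  have hcard : X.card = 2 ∨ Y.card = 2 := by
    by_contra hcon
    rw [not_or] at hcon
    have hX2 := a6_two hX hc
    have hY2 := a6_two hY hc.rev
    apply h3
    intro S hS hS3 U hU hXU hcl
    rcases Nat.lt_or_ge S.card 2 with hS2 | hS2
    · exact hc S hS hS2 U hU hXU hcl
    · have hS2' : S.card = 2 := by omega
      have hXS : ¬ X ⊆ S := by
        intro h
        have := Finset.card_le_card h
        omega
      have hYS : ¬ Y ⊆ S := by
        intro h
        have := Finset.card_le_card h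
        omega
      obtain ⟨u, hu, huY⟩ := ht S hS hS2' hXS hYS U hU
        (fun x hx hxX => hXU x hx (by simpa using hxX)) hcl
      exact ⟨u, hu, by simpa using huY⟩
  rcases hcard with h | h
  · exact a6_main hs h2 hn hX hY hc ht h
  · exact HP_rev.1 (a6_main hs.rev h2.rev hn hY hX hc.rev ht.rev h)

end Pool.Agent.Helper944_HC
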