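import Pool.Agent.Helper944_HC.Basic

/-!
# The simple rules
-/

namespace Pool.Agent.Helper944_HC

variable {α : Type*} [DecidableEq α] {r : α → α → Prop} {V : Finset α} {X Y : Set α}

/-- A chain starting in a closed set stays there. -/
theorem ru_chain {W U : Finset α} (hU : Cl r W U) : ∀ (l : List α) (x : α), (x :: l).IsChain r →
    (∀ v ∈ l, v ∈ W) → x ∈ U → ∀ v ∈ x :: l, v ∈ U
  | [], x, _, _, hx, v, hv => by
    rw [List.mem_singleton] at hv
    rw [hv]
    exact hx
  | a :: l, x, hc, hW, hx, v, hv => by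
    obtain ⟨h1, h2⟩ := List.isChain_cons_cons.1 hc
    rcases List.mem_cons.1 hv with rfl | hv
    · exact hx
    · exact ru_chain hU l a h2 (fun v hv => hW v (List.mem_cons_of_mem _ hv))
        (hU x hx a (hW a (by simp)) h1) v hv

theorem ru_reach (h : HP r V X Y) :
    ∃ x ∈ V, x ∈ X ∧ ∀ U ⊆ V, x ∈ U → Cl r V U → U = V := by
  obtain ⟨l, hl, ⟨x, hx, hxX⟩, _⟩ := h
  have hxl : x ∈ l := List.mem_of_mem_head? hx
  refine ⟨x, (hl.mem x).1 hxl, hxX, ?_⟩
  intro U hU hxU hcl
  refine Finset.Subset.antisymm hU ?_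
  intro v hv
  cases l with
  | nil => simp at hx
  | cons a l =>
    have hax : a = x := by simpa using hx
    subst hax
    exact ru_chain hcl l a hl.chain (fun w hw => (hl.mem w).1 (List.mem_cons_of_mem _ hw)) hxU v
      ((hl.mem v).2 hv)

theorem ru_from (h : ∃ x ∈ V, x ∈ X ∧ ∀ U ⊆ V, x ∈ U → Cl r V U → U = V) : From r V X := by
  obtain ⟨x, hx, hxX, hc⟩ := h
  intro U hU hne hUX
  by_contra hcon
  push Not at hcon
  have h1 := hc (V \ U) Finset.sdiff_subset (Finset.mem_sdiff.2 ⟨hx, fun h => hUX x h hxX⟩) (by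
    intro a ha b hb hab
    rw [Finset.mem_sdiff]
    exact ⟨hb, fun hbU => hcon a ha b hbU hab⟩)
  obtain ⟨u, hu⟩ := hne
  have h2 := hU hu
  rw [← h1] at h2
  exact (Finset.mem_sdiff.1 h2).2 hu

/-- Rule R1. -/
theorem rule1 (hs : Semi r V) (hns : ¬ Strong r V) :
    HP r V X Y ↔ (∃ x ∈ V, x ∈ X ∧ ∀ U ⊆ V, x ∈ U → Cl r V U → U = V) ∧
      (∃ y ∈ V, y ∈ Y ∧ ∀ U ⊆ V, y ∈ U → Cl (fun a b => r b a) V U → U = V) := by
  constructor
  · intro h
    exact ⟨ru_reach h, ru_reach (HP_rev.2 h)⟩
  · rintro ⟨h1, h2⟩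
    exact HP_nonstrong hs hns (ru_from h1) (ru_from h2).rev

theorem ru_split {s : α} (hs : s ∈ V) {A : Finset α} (hA : A ⊆ V.erase s)
    (hXA : ∀ x ∈ V.erase s, x ∈ X → x ∈ A) (hcl : Cl r (V.erase s) A) (hAY : ∀ u ∈ A, u ∉ Y)
    (h : HP r V X Y) : ∃ l1 l2 : List α, Tr r A l1 ∧ Tr r (V.erase s \ A) l2 ∧
      (l1 ++ s :: l2).IsChain r ∧ (∃ x, (l1 ++ s :: l2).head? = some x ∧ x ∈ X) ∧
      (∃ y, (l1 ++ s :: l2).getLast? = some y ∧ y ∈ Y) := by
  obtain ⟨l, hl, hX, hY⟩ := h
  obtain ⟨l1, l2, rfl⟩ := List.append_of_mem ((hl.mem s).2 hs)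
  have hnd := hl.nodup
  rw [List.nodup_append] at hnd
  obtain ⟨hn1, hn2, hn3⟩ := hnd
  rw [List.nodup_cons] at hn2
  have hs1 : s ∉ l1 := fun h => hn3 s h s (by simp) rfl
  have hch := hl.chain
  rw [List.isChain_append] at hch
  obtain ⟨hc1, hc2, hc3⟩ := hch
  have hc2' : l2.IsChain r := by
    cases l2 with
    | nil => exact List.isChain_nil
    | cons b l2 => exact (List.isChain_cons_cons.1 hc2).2
  have hm1 : ∀ v ∈ l1, v ∈ V.erase s := by
    intro v hv
    rw [Finset.mem_erase]
    refine ⟨?_, (hl.mem v).1 (by simp [hv])⟩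
    rintro rfl
    exact hs1 hv
  have hm2 : ∀ v ∈ l2, v ∈ V.erase s := by
    intro v hv
    rw [Finset.mem_erase]
    refine ⟨?_, (hl.mem v).1 (by simp [hv])⟩
    rintro rfl
    exact hn2.1 hv
  have hl1 : ∀ v ∈ l1, v ∈ A := by
    cases l1 with
    | nil => intro v hv; simp at hv
    | cons a l1 =>
      obtain ⟨x, hx, hxX⟩ := hX
      have hax : a = x := by simpa using hx
      subst hax
      exact ru_chain hcl l1 a hc1 (fun v hv => hm1 v (List.mem_cons_of_mem _ hv))
        (hXA a (hm1 a (by simp)) hxX)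
  have hclB : Cl (fun a b => r b a) (V.erase s) (V.erase s \ A) := by
    intro u hu v hv hvu
    rw [Finset.mem_sdiff] at hu ⊢
    exact ⟨hv, fun hvA => hu.2 (hcl v hvA u hu.1 hvu)⟩
  have hl2 : ∀ v ∈ l2, v ∈ V.erase s \ A := by
    intro v hv
    have hne : l2 ≠ [] := List.ne_nil_of_mem hv
    obtain ⟨y, hy, hyY⟩ := hY
    obtain ⟨l3, z, rfl⟩ := List.eq_nil_or_concat l2 |>.resolve_left hne
    have hzy : z = y := by
      simpa [List.getLast?_append, List.getLast?_cons] using hy
    subst hzy
    have hr : (z :: l3.reverse).IsChain (fun a b => r b a) := by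
      have h1 : (z :: l3.reverse) = (l3 ++ [z]).reverse := by simp
      rw [h1, List.isChain_reverse]
      simpa using hc2'
    refine ru_chain hclB l3.reverse z hr (fun w hw => hm2 w (by simp at hw ⊢; exact Or.inl hw)) ?_ v
      (by simp at hv ⊢; tauto)
    have hz : z ∈ V.erase s := hm2 z (by simp)
    exact Finset.mem_sdiff.2 ⟨hz, fun hzA => hAY z hzA hyY⟩
  refine ⟨l1, l2, ⟨hn1, hc1, fun v => ⟨hl1 v, fun hv => ?_⟩⟩,
    ⟨hn2.2, hc2', fun v => ⟨hl2 v, fun hv => ?_⟩⟩, hl.chain, hX, hY⟩
  · have h1 := Finset.mem_erase.1 (hA hv)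
    have h2 := (hl.mem v).2 h1.2
    rw [List.mem_append, List.mem_cons] at h2
    rcases h2 with h2 | h2 | h2
    · exact h2
    · exact absurd h2 h1.1
    · exact absurd hv (Finset.mem_sdiff.1 (hl2 v h2)).2
  · have h0 := Finset.mem_sdiff.1 hv
    have h1 := Finset.mem_erase.1 h0.1
    have h2 := (hl.mem v).2 h1.2
    rw [List.mem_append, List.mem_cons] at h2
    rcases h2 with h2 | h2 | h2
    · exact absurd (hl1 v h2) h0.2
    · exact absurd h2 h1.1
    · exact h2

/-- Rule R2. -/
theorem rule2 {s : α} (hs : s ∈ V) {A : Finset α} (hA : A ⊆ V.erase s)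
    (hXA : ∀ x ∈ V.erase s, x ∈ X → x ∈ A) (hcl : Cl r (V.erase s) A) (hAY : ∀ u ∈ A, u ∉ Y) :
    HP r V X Y ↔ ((A.Nonempty → HP r A X {u | r u s}) ∧ (A = ∅ → s ∈ X)) ∧
      (((V.erase s \ A).Nonempty → HP r (V.erase s \ A) {u | r s u} Y) ∧
        (V.erase s \ A = ∅ → s ∈ Y)) := by
  constructor
  · intro h
    obtain ⟨l1, l2, h1, h2, hc, hX, hY⟩ := ru_split hs hA hXA hcl hAY h
    rw [List.isChain_append] at hc
    obtain ⟨-, hc2, hc3⟩ := hc
    refine ⟨⟨?_, ?_⟩, ?_, ?_⟩
    · rintro ⟨u, hu⟩
      have hne : l1 ≠ [] := List.ne_nil_of_mem ((h1.mem u).2 hu)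
      obtain ⟨l3, z, rfl⟩ := List.eq_nil_or_concat l1 |>.resolve_left hne
      refine ⟨_, h1, ?_, z, by simp, ?_⟩
      · obtain ⟨x, hx, hxX⟩ := hX
        refine ⟨x, ?_, hxX⟩
        cases l3 with
        | nil => simpa using hx
        | cons a l => simpa using hx
      · exact hc3 z (by simp) s (by simp)
    · intro hA0
      have hnil : l1 = [] := by
        rw [List.eq_nil_iff_forall_not_mem]
        intro v hv
        have := (h1.mem v).1 hv
        rw [hA0] at this
        simp at this
      subst hnil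
      obtain ⟨x, hx, hxX⟩ := hX
      have hsx : s = x := by simpa using hx
      rw [hsx]
      exact hxX
    · rintro ⟨u, hu⟩
      have hne : l2 ≠ [] := List.ne_nil_of_mem ((h2.mem u).2 hu)
      cases l2 with
      | nil => exact absurd rfl hne
      | cons b l2 =>
        refine ⟨_, h2, ⟨b, rfl, (List.isChain_cons_cons.1 hc2).1⟩, ?_⟩
        obtain ⟨y, hy, hyY⟩ := hY
        refine ⟨y, ?_, hyY⟩
        rw [← hy, List.getLast?_append]
        simp [List.getLast?_cons]
    · intro hB0
      have hnil : l2 = [] := by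
        rw [List.eq_nil_iff_forall_not_mem]
        intro v hv
        have := (h2.mem v).1 hv
        rw [hB0] at this
        simp at this
      subst hnil
      obtain ⟨y, hy, hyY⟩ := hY
      have hsy : s = y := by simpa using hy
      rw [hsy]
      exact hyY
  · rintro ⟨⟨h1, h2⟩, h3, h4⟩
    have hsA : s ∉ A := fun h => (Finset.mem_erase.1 (hA h)).1 rfl
    have hP : HP r (A ∪ {s}) X {s} := by
      rcases A.eq_empty_or_nonempty with hA0 | hA0
      · rw [hA0, Finset.empty_union]
        exact HP_singleton (h2 hA0) rfl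
      · refine HP.join (h1 hA0) (HP_singleton (S := {s}) (T := {s}) rfl rfl)
          (by simpa using hsA) ?_
        intro t _ ht u _ hu
        rw [Set.mem_singleton_iff.1 hu]
        exact ht
    have hV : V = (A ∪ {s}) ∪ (V.erase s \ A) := by
      ext v
      simp only [Finset.mem_union, Finset.mem_singleton, Finset.mem_sdiff, Finset.mem_erase]
      constructor
      · intro hv
        by_cases h5 : v = s
        · exact Or.inl (Or.inr h5)
        · by_cases h6 : v ∈ A
          · exact Or.inl (Or.inl h6)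
          · exact Or.inr ⟨⟨h5, hv⟩, h6⟩
      · rintro ((h5 | h5) | h5)
        · exact (Finset.mem_erase.1 (hA h5)).2
        · rw [h5]
          exact hs
        · exact h5.1.2
    rcases (V.erase s \ A).eq_empty_or_nonempty with hB0 | hB0
    · rw [hV, hB0, Finset.union_empty]
      exact hP.mono (fun _ _ h => h) (fun y _ hy => by
        rw [Set.mem_singleton_iff.1 hy]
        exact h4 hB0)
    · rw [hV]
      refine HP.join hP (h3 hB0) ?_ ?_
      · rw [Finset.disjoint_left]
        intro v hv hvB
        rw [Finset.mem_sdiff, Finset.mem_erase] at hvB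
        rcases Finset.mem_union.1 hv with hv | hv
        · exact hvB.2 hv
        · exact hvB.1.1 (Finset.mem_singleton.1 hv)
      · intro t _ ht u _ hu
        rw [Set.mem_singleton_iff.1 ht]
        exact hu

theorem r3_last (l m : List α) (z b : α) (q : List α) :
    (l ++ z :: (m ++ b :: q)).getLast? = (b :: q).getLast? := by
  have h : l ++ z :: (m ++ b :: q) = (l ++ z :: m) ++ b :: q := by simp
  rw [h, List.getLast?_append_of_ne_nil _ (List.cons_ne_nil b q)]

theorem r3_chain {z : α} {l1 l2 : List α} (hz : z ∉ l1)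
    (h : (l1 ++ l2).IsChain (fun a b => a = z ∨ r a b)) (h2 : l2.IsChain r) :
    (l1 ++ l2).IsChain r := by
  induction l1 with
  | nil => exact h2
  | cons a l ih =>
    rw [List.cons_append, List.isChain_cons] at h ⊢
    refine ⟨fun y hy => ?_, ih (fun h' => hz (List.mem_cons_of_mem _ h')) h.2⟩
    rcases h.1 y hy with h3 | h3
    · exact absurd (h3 ▸ List.mem_cons_self) hz
    · exact h3

theorem r3_split {C R : Finset α} (hCR : ∀ a ∈ R, ∀ u ∈ C, ¬ r a u) (l : List α)
    (hl : l.IsChain r) (hm : ∀ v ∈ l, v ∈ C ∨ v ∈ R) :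
    ∃ q1 q2, l = q1 ++ q2 ∧ (∀ v ∈ q1, v ∈ C) ∧ ∀ v ∈ q2, v ∈ R := by
  induction l with
  | nil => exact ⟨[], [], rfl, by simp, by simp⟩
  | cons a t ih =>
    rw [List.isChain_cons] at hl
    obtain ⟨q1, q2, h1, h2, h3⟩ := ih hl.2 (fun v hv => hm v (List.mem_cons_of_mem _ hv))
    rcases hm a List.mem_cons_self with ha | ha
    · refine ⟨a :: q1, q2, by rw [h1]; rfl, fun v hv => ?_, h3⟩
      rcases List.mem_cons.1 hv with rfl | hv
      · exact ha
      · exact h2 v hv
    · cases q1 with
      | nil =>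
        refine ⟨[], a :: q2, by rw [h1]; rfl, by simp, fun v hv => ?_⟩
        rcases List.mem_cons.1 hv with rfl | hv
        · exact ha
        · exact h3 v hv
      | cons b q =>
        exfalso
        refine hCR a ha b (h2 b List.mem_cons_self) (hl.1 b ?_)
        rw [h1]
        rfl

/-- Rule R3. -/
theorem rule3 (hs : Semi r V) (hst : Strong r V) {z : α} (hz : z ∈ V) {C : Finset α}
    (hC : C ⊆ V.erase z) (hne : C.Nonempty) (hne' : (V.erase z \ C).Nonempty)
    (hin : ∀ a ∈ V.erase z \ C, ∀ u ∈ C, ¬ r a u) (hCs : Strong r C) (hXC : ∀ u ∈ C, u ∉ X) :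
    HP r V X Y ↔ HP (fun a b => a = z ∨ r a b) (V \ C) X
      {y | (y ≠ z ∧ y ∈ Y) ∨ (y = z ∧ HP r C {u | r z u} Y)} := by
  classical
  have hCV : C ⊆ V := hC.trans (Finset.erase_subset _ _)
  have hzC : z ∉ C := fun h => (Finset.mem_erase.1 (hC h)).1 rfl
  have hmemR : ∀ v ∈ V, v ≠ z → v ∉ C → v ∈ V.erase z \ C := fun v hv hvz hvC =>
    Finset.mem_sdiff.2 ⟨Finset.mem_erase.2 ⟨hvz, hv⟩, hvC⟩
  constructor
  · rintro ⟨l, hl, ⟨x, hx, hxX⟩, ⟨y, hy, hyY⟩⟩
    have hzl : z ∈ l := (hl.mem z).2 hz
    obtain ⟨l1, l2, rfl⟩ := List.append_of_mem hzl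
    have hnd := hl.nodup
    have hch := hl.chain
    have hmem := hl.mem
    rw [List.nodup_append, List.nodup_cons] at hnd
    obtain ⟨hnd1, ⟨hz2, hnd2⟩, hnd12⟩ := hnd
    rw [List.isChain_append, List.isChain_cons] at hch
    obtain ⟨hch1, ⟨hchz, hch2⟩, hch12⟩ := hch
    have hz1 : z ∉ l1 := fun h => hnd12 z h z List.mem_cons_self rfl
    have hm1 : ∀ v ∈ l1, v ∈ C ∨ v ∈ V.erase z \ C := by
      intro v hv
      by_cases hvC : v ∈ C
      · exact Or.inl hvC
      · refine Or.inr (hmemR v ((hmem v).1 (List.mem_append_left _ hv)) ?_ hvC)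
        rintro rfl
        exact hz1 hv
    have hm2 : ∀ v ∈ l2, v ∈ C ∨ v ∈ V.erase z \ C := by
      intro v hv
      by_cases hvC : v ∈ C
      · exact Or.inl hvC
      · refine Or.inr (hmemR v ((hmem v).1 (List.mem_append_right _
          (List.mem_cons_of_mem _ hv))) ?_ hvC)
        rintro rfl
        exact hz2 hv
    obtain ⟨p1, p2, hp, hp1, hp2⟩ := r3_split hin l1 hch1 hm1
    obtain ⟨q1, q2, hq, hq1, hq2⟩ := r3_split hin l2 hch2 hm2
    have hp1' : p1 = [] := by
      cases p1 with
      | nil => rfl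
      | cons b p =>
        exfalso
        rw [hp] at hx
        have hbx : b = x := by simpa using hx
        exact hXC b (hp1 b List.mem_cons_self) (hbx ▸ hxX)
    subst hp1'
    rw [List.nil_append] at hp
    subst hp
    subst hq
    have hq1C : ∀ v, v ∈ q1 ↔ v ∈ C := by
      intro v
      refine ⟨hq1 v, fun hv => ?_⟩
      have h1 := (hmem v).2 (hCV hv)
      rcases List.mem_append.1 h1 with h1 | h1
      · exact absurd hv (Finset.mem_sdiff.1 (hp2 v h1)).2
      · rcases List.mem_cons.1 h1 with rfl | h1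
        · exact absurd hv hzC
        · rcases List.mem_append.1 h1 with h1 | h1
          · exact h1
          · exact absurd hv (Finset.mem_sdiff.1 (hq2 v h1)).2
    rw [List.isChain_append] at hch2
    rw [List.nodup_append] at hnd2
    refine ⟨l1 ++ z :: q2, ⟨?_, ?_, ?_⟩, ⟨x, ?_, hxX⟩, ?_⟩
    · rw [List.nodup_append, List.nodup_cons]
      refine ⟨hnd1, ⟨fun h => hz2 (List.mem_append_right _ h), hnd2.2.1⟩, fun a ha b hb => ?_⟩
      refine hnd12 a ha b ?_
      rcases List.mem_cons.1 hb with rfl | hb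
      · exact List.mem_cons_self
      · exact List.mem_cons_of_mem _ (List.mem_append_right _ hb)
    · rw [List.isChain_append, List.isChain_cons]
      refine ⟨hch1.imp (fun a b h => Or.inr h), ⟨fun y _ => Or.inl rfl,
        hch2.2.1.imp (fun a b h => Or.inr h)⟩, fun a ha b hb => Or.inr (hch12 a ha b hb)⟩
    · intro v
      rw [Finset.mem_sdiff, ← hmem v]
      constructor
      · intro hv
        rcases List.mem_append.1 hv with hv | hv
        · exact ⟨List.mem_append_left _ hv, (Finset.mem_sdiff.1 (hp2 v hv)).2⟩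
        · rcases List.mem_cons.1 hv with rfl | hv
          · exact ⟨List.mem_append_right _ List.mem_cons_self, hzC⟩
          · exact ⟨List.mem_append_right _ (List.mem_cons_of_mem _ (List.mem_append_right _ hv)),
              (Finset.mem_sdiff.1 (hq2 v hv)).2⟩
      · rintro ⟨hv, hvC⟩
        rcases List.mem_append.1 hv with hv | hv
        · exact List.mem_append_left _ hv
        · rcases List.mem_cons.1 hv with rfl | hv
          · exact List.mem_append_right _ List.mem_cons_self
          · rcases List.mem_append.1 hv with hv | hv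
            · exact absurd (hq1 v hv) hvC
            · exact List.mem_append_right _ (List.mem_cons_of_mem _ hv)
    · cases l1 with
      | nil => simpa using hx
      | cons b l => simpa using hx
    · cases hq2e : q2 with
      | nil =>
        refine ⟨z, by simp, Or.inr ⟨rfl, ?_⟩⟩
        subst hq2e
        rw [List.append_nil] at hchz hy
        obtain ⟨c, hc⟩ := hne
        have hcq := (hq1C c).2 hc
        refine ⟨q1, ⟨hnd2.1, hch2.1, hq1C⟩, ?_, ⟨y, ?_, hyY⟩⟩
        · cases q1 with
          | nil => simp at hcq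
          | cons b q => exact ⟨b, rfl, hchz b rfl⟩
        · rw [List.getLast?_append, List.getLast?_cons] at hy
          cases hq1e : q1.getLast? with
          | none =>
            rw [List.getLast?_eq_none_iff] at hq1e
            rw [hq1e] at hcq
            simp at hcq
          | some w =>
            rw [hq1e] at hy
            simpa using hy
      | cons b q =>
        subst hq2e
        have hlast : (l1 ++ z :: (b :: q)).getLast? = (l1 ++ z :: (q1 ++ b :: q)).getLast? :=
          (r3_last l1 [] z b q).trans (r3_last l1 q1 z b q).symm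
        refine ⟨y, hlast.trans hy, Or.inl ⟨?_, hyY⟩⟩
        rintro rfl
        have h1 : (b :: q).getLast? = some y := (r3_last l1 q1 y b q).symm.trans hy
        exact hz2 (List.mem_append_right _ (List.mem_of_mem_getLast? h1))
  · rintro ⟨l, hl, ⟨x, hx, hxX⟩, ⟨y, hy, hyY⟩⟩
    have hzl : z ∈ l := (hl.mem z).2 (Finset.mem_sdiff.2 ⟨hz, hzC⟩)
    obtain ⟨l1, l2, rfl⟩ := List.append_of_mem hzl
    have hnd := hl.nodup
    have hch := hl.chain
    have hmem := hl.mem
    rw [List.nodup_append, List.nodup_cons] at hnd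
    obtain ⟨hnd1, ⟨hz2, hnd2⟩, hnd12⟩ := hnd
    have hz1 : z ∉ l1 := fun h => hnd12 z h z List.mem_cons_self rfl
    have hch0 := hch
    rw [List.isChain_append, List.isChain_cons] at hch
    obtain ⟨hch1, ⟨hchz, hch2⟩, hch12⟩ := hch
    -- the first part
    have hc1 : (l1 ++ [z]).IsChain r := by
      refine r3_chain hz1 ?_ (List.isChain_singleton z)
      rw [List.isChain_append]
      refine ⟨hch1, List.isChain_singleton z, fun a ha b hb => hch12 a ha b ?_⟩
      simpa using hb
    have hc2 : l2.IsChain r := by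
      have h1 : (l2 ++ []).IsChain r := r3_chain hz2 (by rw [List.append_nil]; exact hch2)
        List.isChain_nil
      rwa [List.append_nil] at h1
    have hW1 : HP r (l1 ++ [z]).toFinset X {z} := by
      refine ⟨l1 ++ [z], ⟨?_, hc1, fun v => by rw [List.mem_toFinset]⟩, ⟨x, ?_, hxX⟩,
        ⟨z, by simp, rfl⟩⟩
      · rw [List.nodup_append]
        refine ⟨hnd1, by simp, fun a ha b hb => hnd12 a ha b ?_⟩
        rw [List.mem_singleton] at hb
        rw [hb]
        exact List.mem_cons_self
      · cases l1 with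
        | nil => simpa using hx
        | cons b l => simpa using hx
    have hd1 : Disjoint (l1 ++ [z]).toFinset C := by
      rw [Finset.disjoint_left]
      intro v hv hvC
      rw [List.mem_toFinset, List.mem_append, List.mem_singleton] at hv
      have h1 : v ∈ l1 ++ z :: l2 := by
        rcases hv with hv | rfl
        · exact List.mem_append_left _ hv
        · exact List.mem_append_right _ List.mem_cons_self
      exact (Finset.mem_sdiff.1 ((hmem v).1 h1)).2 hvC
    cases l2 with
    | nil =>
      have hyz : z = y := by simpa using hy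
      have hHP : HP r C {u | r z u} Y := by
        rcases hyY with ⟨h1, _⟩ | ⟨_, h1⟩
        · exact absurd hyz.symm h1
        · exact h1
      have h1 := hW1.join hHP hd1 (by
        intro t _ ht s _ hs
        rw [Set.mem_singleton_iff.1 ht]
        exact hs)
      have h2 : (l1 ++ [z]).toFinset ∪ C = V := by
        ext v
        rw [Finset.mem_union, List.mem_toFinset, hmem, Finset.mem_sdiff]
        constructor
        · rintro (h | h)
          · exact h.1
          · exact hCV h
        · intro h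
          by_cases hvC : v ∈ C
          · exact Or.inr hvC
          · exact Or.inl ⟨h, hvC⟩
      rwa [h2] at h1
    | cons b q =>
      have hylast : (b :: q).getLast? = some y := (r3_last l1 [] z b q).symm.trans hy
      have hyz : y ≠ z := by
        rintro rfl
        exact hz2 (List.mem_of_mem_getLast? hylast)
      have hyY' : y ∈ Y := by
        rcases hyY with ⟨_, h1⟩ | ⟨h1, _⟩
        · exact h1
        · exact absurd h1 hyz
      have hzarc : ∃ s ∈ C, s ∈ {u | r z u} := by
        obtain ⟨a, ha, c, hc, hac⟩ := hst (V \ C) Finset.sdiff_subset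
          ⟨z, Finset.mem_sdiff.2 ⟨hz, hzC⟩⟩ (by
            intro h
            obtain ⟨c, hc⟩ := hne
            have h1 := hCV hc
            rw [← h] at h1
            exact (Finset.mem_sdiff.1 h1).2 hc)
        rw [Finset.sdiff_sdiff_eq_self hCV] at hc
        have haz : a = z := by
          by_contra haz
          exact hin a (hmemR a (Finset.mem_sdiff.1 ha).1 haz (Finset.mem_sdiff.1 ha).2) c hc hac
        rw [haz] at hac
        exact ⟨c, hc, hac⟩
      have hCpath : HP r C {u | r z u} Set.univ := HP_start (hs.mono hCV) hne (hCs.from hzarc)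
      have h1 := hW1.join hCpath hd1 (by
        intro t _ ht s _ hs
        rw [Set.mem_singleton_iff.1 ht]
        exact hs)
      have hR : ∀ v ∈ b :: q, v ∈ V.erase z \ C := by
        intro v hv
        have h2 := (hmem v).1 (List.mem_append_right _ (List.mem_cons_of_mem _ hv))
        refine hmemR v (Finset.mem_sdiff.1 h2).1 ?_ (Finset.mem_sdiff.1 h2).2
        rintro rfl
        exact hz2 hv
      have hW2 : HP r (b :: q).toFinset Set.univ Y :=
        ⟨b :: q, ⟨hnd2, hc2, fun v => by rw [List.mem_toFinset]⟩, ⟨b, rfl, trivial⟩,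
          ⟨y, hylast, hyY'⟩⟩
      have hd2 : Disjoint ((l1 ++ [z]).toFinset ∪ C) (b :: q).toFinset := by
        rw [Finset.disjoint_left]
        intro v hv hv'
        rw [List.mem_toFinset] at hv'
        rcases Finset.mem_union.1 hv with hv | hv
        · rw [List.mem_toFinset, List.mem_append, List.mem_singleton] at hv
          rcases hv with hv | rfl
          · exact hnd12 v hv v (List.mem_cons_of_mem _ hv') rfl
          · exact hz2 hv'
        · exact (Finset.mem_sdiff.1 (hR v hv')).2 hv
      have h2 : HP r ((l1 ++ [z]).toFinset ∪ C) X (C : Set α) := by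
        obtain ⟨L1, hL1, hh1, hh1'⟩ := hW1
        obtain ⟨L2, hL2, ⟨a2, ha2, ha2'⟩, ⟨b2, hb2, hb2'⟩⟩ := hCpath
        have h3 : HP r C {u | r z u} (C : Set α) :=
          ⟨L2, hL2, ⟨a2, ha2, ha2'⟩, ⟨b2, hb2, (hL2.mem b2).1 (List.mem_of_mem_getLast? hb2)⟩⟩
        exact HP.join ⟨L1, hL1, hh1, hh1'⟩ h3 hd1 (by
          intro t _ ht s _ hs
          rw [Set.mem_singleton_iff.1 ht]
          exact hs)
      have h3 := h2.join hW2 hd2 (by
        intro t _ ht s hs' _
        have htC : t ∈ C := ht
        have hsR := hR s (by rwa [List.mem_toFinset] at hs')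
        have hsV : s ∈ V := (Finset.mem_erase.1 (Finset.mem_sdiff.1 hsR).1).2
        have hne2 : t ≠ s := by
          rintro rfl
          exact (Finset.mem_sdiff.1 hsR).2 htC
        rcases hs t (hCV htC) s hsV hne2 with h4 | h4
        · exact h4
        · exact absurd h4 (hin s hsR t htC))
      have h4 : (l1 ++ [z]).toFinset ∪ C ∪ (b :: q).toFinset = V := by
        ext v
        rw [Finset.mem_union, Finset.mem_union, List.mem_toFinset, List.mem_toFinset]
        have h5 : v ∈ l1 ++ [z] ∨ v ∈ b :: q ↔ v ∈ l1 ++ z :: (b :: q) := by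
          simp only [List.mem_append, List.mem_cons, List.not_mem_nil, or_false]
          tauto
        constructor
        · rintro ((h | h) | h)
          · exact (Finset.mem_sdiff.1 ((hmem v).1 (h5.1 (Or.inl h)))).1
          · exact hCV h
          · exact (Finset.mem_sdiff.1 ((hmem v).1 (h5.1 (Or.inr h)))).1
        · intro h
          by_cases hvC : v ∈ C
          · exact Or.inl (Or.inr hvC)
          · rcases h5.2 ((hmem v).2 (Finset.mem_sdiff.2 ⟨h, hvC⟩)) with h6 | h6
            · exact Or.inl (Or.inl h6)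
            · exact Or.inr h6
      rwa [h4] at h3

end Pool.Agent.Helper944_HC
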