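import Pool.Agent.Helper944_HC.Reach
import Pool.Agent.Helper944_HC.AR
import Pool.Agent.Helper944_HC.Rules
import Pool.Agent.Helper944_HC.Chain
import Pool.Agent.Helper944_HC.Rule5
import Pool.Agent.Helper944_HC.Rule6

/-!
# Correctness of the rules as implemented
-/

namespace Pool.Agent.Helper944_HC

/-- The procedure `g` (next question or answer, depending on the answers so far) is correct for the
instance `I`, and its questions are well-formed and small enough. -/
def RuleOK (I : Inst) (g : List Bool → Bool ⊕ Inst) : Prop :=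
  ∀ rs js, Hist g Truth rs js → (∀ b, g rs = Sum.inl b → (b = true ↔ Truth I)) ∧
    ∀ J, g rs = Sum.inr J →
      wfB J = true ∧ (∀ v ∈ J.1, v ∈ I.1) ∧ (js.map pot).sum + pot J + 1 ≤ pot I

theorem RuleOK.rev {I : Inst} {g : List Bool → Bool ⊕ Inst} (h : RuleOK (revI I) g) :
    RuleOK I g := by
  intro rs js hh
  obtain ⟨h1, h2⟩ := h rs js hh
  exact ⟨fun b hb => (h1 b hb).trans truth_rev, fun J hJ => h2 J hJ⟩

/-- Shorthands: the relation and the vertex set of an instance. -/
abbrev rl (I : Inst) : ℕ → ℕ → Prop := rel I.2.1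
/-- The vertex set. -/
abbrev vt (I : Inst) : Finset ℕ := I.1.toFinset

theorem c1_rel_rev (E : List (ℕ × ℕ)) : rel (revE E) = fun a b => rel E b a := by
  funext a b
  apply propext
  unfold rel revE
  rw [List.mem_map]
  constructor
  · rintro ⟨e, he, hab⟩
    obtain ⟨h1, h2⟩ := Prod.mk.inj hab
    rw [← h1, ← h2]
    exact he
  · intro h
    exact ⟨(b, a), h, rfl⟩

theorem ok1 {I : Inst} (h : WF I) {x : Bool ⊕ Inst} (hx : alg1 I = some x) :
    RuleOK I (fun _ => x) := by
  unfold alg1 at hx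
  split_ifs at hx with hst
  have hx' := (Option.some.inj hx).symm
  subst hx'
  intro rs js _
  constructor
  · intro b hb
    have hb' := (Sum.inl.inj hb).symm
    have hns : ¬ Strong (rel I.2.1) I.1.toFinset := by
      rw [← strongB_iff I.2.1 h.nodup]
      exact hst
    unfold Truth
    rw [rule1 h.semi hns, hb', Bool.and_eq_true, List.any_eq_true, List.any_eq_true]
    refine and_congr (exists_congr fun v => ?_) (exists_congr fun v => ?_)
    · rw [Bool.and_eq_true, decide_eq_true_iff, List.mem_toFinset]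
      constructor
      · rintro ⟨hv, hvX, hsrc⟩
        exact ⟨hv, hvX, (src_iff I.2.1 h.nodup hv).1 hsrc⟩
      · rintro ⟨hv, hvX, hsrc⟩
        exact ⟨hv, hvX, (src_iff I.2.1 h.nodup hv).2 hsrc⟩
    · rw [Bool.and_eq_true, decide_eq_true_iff, List.mem_toFinset]
      constructor
      · rintro ⟨hv, hvX, hsrc⟩
        refine ⟨hv, hvX, ?_⟩
        have := (src_iff (revE I.2.1) h.nodup hv).1 hsrc
        rw [c1_rel_rev] at this
        exact this
      · rintro ⟨hv, hvX, hsrc⟩
        refine ⟨hv, hvX, (src_iff (revE I.2.1) h.nodup hv).2 ?_⟩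
        rw [c1_rel_rev]
        exact hsrc
  · intro J hJ
    exact absurd hJ (by simp)

theorem none1 {I : Inst} (h : WF I) (hx : alg1 I = none) : Strong (rl I) (vt I) := by
  unfold alg1 at hx
  split_ifs at hx with hst
  exact (strongB_iff I.2.1 h.nodup).1 hst

theorem c1_nil {J : Type} {f : List Bool → Bool ⊕ J} {P : J → Prop} {js : List J}
    (h : Hist f P [] js) : js = [] := by
  generalize hrs : ([] : List Bool) = rs at h
  cases h with
  | nil => rfl
  | snoc h hj hb => exact absurd hrs (by simp)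

theorem c1_cons {J : Type} {f : List Bool → Bool ⊕ J} {P : J → Prop} {rs : List Bool}
    {js : List J} (h : Hist f P rs js) (a : Bool) (rs' : List Bool) (hrs : rs = a :: rs') :
    ∃ j js', js = j :: js' ∧ f [] = Sum.inr j ∧ (a = true ↔ P j) ∧
      Hist (fun l => f (a :: l)) P rs' js' := by
  induction h generalizing rs' with
  | nil => exact absurd hrs (by simp)
  | @snoc rs0 js0 j b h hj hb ih =>
    cases rs0 with
    | nil =>
      rw [List.nil_append] at hrs
      obtain ⟨rfl, h2⟩ := List.cons.inj hrs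
      subst h2
      have h3 := c1_nil h
      subst h3
      exact ⟨j, [], rfl, hj, hb, Hist.nil⟩
    | cons a' rs1 =>
      rw [List.cons_append] at hrs
      obtain ⟨rfl, h2⟩ := List.cons.inj hrs
      subst h2
      obtain ⟨j1, js1, h3, h4, h5, h6⟩ := ih rs1 rfl
      subst h3
      exact ⟨j1, js1 ++ [j], rfl, h4, h5, Hist.snoc h6 hj hb⟩

theorem c1_pow (a b : ℕ) : a ^ 4 + b ^ 4 + 1 ≤ (a + b + 1) ^ 4 := by
  have h : (a + b + 1) ^ 4 = a ^ 4 + b ^ 4 + 1 + (4 * a ^ 3 * b + 4 * a ^ 3 + 6 * a ^ 2 * b ^ 2 +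
    12 * a ^ 2 * b + 6 * a ^ 2 + 4 * a * b ^ 3 + 12 * a * b ^ 2 + 12 * a * b + 4 * a +
    4 * b ^ 3 + 6 * b ^ 2 + 4 * b) := by ring
  rw [h]
  exact Nat.le_add_right _ _

theorem c1_del (V : List ℕ) (s : ℕ) : (del V s).toFinset = V.toFinset.erase s := by
  ext v
  unfold del
  rw [List.mem_toFinset, List.mem_filter, Finset.mem_erase, List.mem_toFinset,
    decide_eq_true_iff, and_comm]

theorem c1_sdf (V A : List ℕ) : (sdf V A).toFinset = V.toFinset \ A.toFinset := by
  ext v
  unfold sdf
  rw [List.mem_toFinset, List.mem_filter, Finset.mem_sdiff, List.mem_toFinset, List.mem_toFinset,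
    decide_eq_true_iff]

theorem c1_ins {V : List ℕ} {E : List (ℕ × ℕ)} {s v : ℕ} :
    v ∈ ins V E s ↔ v ∈ V ∧ rel E v s := by
  unfold ins ar
  rw [List.mem_filter, decide_eq_true_iff]
  exact Iff.rfl

theorem c1_outs {V : List ℕ} {E : List (ℕ × ℕ)} {s v : ℕ} :
    v ∈ outs V E s ↔ v ∈ V ∧ rel E s v := by
  unfold outs ar
  rw [List.mem_filter, decide_eq_true_iff]
  exact Iff.rfl

theorem c1_empty (A : List ℕ) : A.isEmpty = true ↔ A.toFinset = ∅ := by
  rw [List.isEmpty_iff, List.toFinset_eq_empty_iff]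

/-- Everything about the set `A` and the vertex `s` of rule 2. -/
theorem c1_facts {I : Inst} (h : WF I) {s : ℕ} (hs : s ∈ I.1) (hc : cond2 I s = true)
    {A B : List ℕ} (hA : A = reach I.2.1 (del I.1 s) I.2.2.1) (hB : B = sdf (del I.1 s) A) :
    (Truth I ↔ ((A.toFinset.Nonempty → Truth (mk A I.2.1 I.2.2.1 (ins I.1 I.2.1 s))) ∧
        (A.toFinset = ∅ → s ∈ I.2.2.1)) ∧
      ((B.toFinset.Nonempty → Truth (mk B I.2.1 (outs I.1 I.2.1 s) I.2.2.2)) ∧
        (B.toFinset = ∅ → s ∈ I.2.2.2))) ∧ A.length + B.length + 1 = I.1.length ∧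
    (∀ v ∈ A, v ∈ I.1) ∧ (∀ v ∈ B, v ∈ I.1) ∧ A.Nodup ∧ B.Nodup := by
  have hdn : (del I.1 s).Nodup := h.nodup.filter _
  obtain ⟨h1, h2⟩ := reach_spec I.2.1 hdn I.2.2.1
  rw [← hA] at h1 h2
  rw [c1_del] at h1
  have hAV : A.toFinset ⊆ I.1.toFinset.erase s := by
    rw [h1]
    exact fwd_subset
  have hBf : B.toFinset = I.1.toFinset.erase s \ A.toFinset := by
    rw [hB, c1_sdf, c1_del]
  have hBn : B.Nodup := by
    rw [hB]
    exact hdn.filter _
  have hsV : s ∈ I.1.toFinset := List.mem_toFinset.2 hs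
  have hAm : ∀ v ∈ A, v ∈ I.1 := fun v hv =>
    List.mem_toFinset.1 (Finset.mem_of_mem_erase (hAV (List.mem_toFinset.2 hv)))
  have hBm : ∀ v ∈ B, v ∈ I.1 := by
    intro v hv
    have h3 := List.mem_toFinset.2 hv
    rw [hBf] at h3
    exact List.mem_toFinset.1 (Finset.mem_of_mem_erase (Finset.mem_sdiff.1 h3).1)
  refine ⟨?_, ?_, hAm, hBm, h2, hBn⟩
  · have h3 := rule2 (r := rel I.2.1) (V := I.1.toFinset) (X := {x | x ∈ I.2.2.1})
      (Y := {y | y ∈ I.2.2.2}) hsV hAV
      (by rw [h1]; exact subset_fwd) (by rw [h1]; exact fwd_cl) (by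
        intro u hu
        have h4 : u ∈ reach I.2.1 (del I.1 s) I.2.2.1 := by
          rw [← hA]
          exact List.mem_toFinset.1 hu
        unfold cond2 at hc
        have h5 := List.all_eq_true.1 hc u h4
        exact of_decide_eq_true h5)
    rw [← hBf] at h3
    have eA : Truth (mk A I.2.1 I.2.2.1 (ins I.1 I.2.1 s)) ↔
        HP (rel I.2.1) A.toFinset {x | x ∈ I.2.2.1} {u | rel I.2.1 u s} := by
      rw [truth_mk]
      constructor
      · intro h6
        exact h6.mono (fun _ _ hx => hx) (fun y _ hyT => (c1_ins.1 hyT).2)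
      · intro h6
        exact h6.mono (fun _ _ hx => hx)
          (fun y hy hyT => c1_ins.2 ⟨hAm y (List.mem_toFinset.1 hy), hyT⟩)
    have eB : Truth (mk B I.2.1 (outs I.1 I.2.1 s) I.2.2.2) ↔
        HP (rel I.2.1) B.toFinset {u | rel I.2.1 s u} {y | y ∈ I.2.2.2} := by
      rw [truth_mk]
      constructor
      · intro h6
        exact h6.mono (fun x _ hxT => (c1_outs.1 hxT).2) (fun _ _ hx => hx)
      · intro h6
        exact h6.mono (fun x hx hxT => c1_outs.2 ⟨hBm x (List.mem_toFinset.1 hx), hxT⟩)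
          (fun _ _ hx => hx)
    rw [eA, eB]
    exact h3
  · rw [← List.toFinset_card_of_nodup h2, ← List.toFinset_card_of_nodup hBn,
      ← List.toFinset_card_of_nodup h.nodup, hBf, Finset.card_sdiff_of_subset hAV,
      Finset.card_erase_of_mem hsV]
    have h6 := Finset.card_le_card hAV
    rw [Finset.card_erase_of_mem hsV] at h6
    have h7 := Finset.card_pos.2 ⟨s, hsV⟩
    omega

theorem ok2 {I : Inst} (h : WF I) (hn : 2 ≤ I.1.length) {g : List Bool → Bool ⊕ Inst}
    (hg : ∀ rs, alg2 I rs = some (g rs)) : RuleOK I g := by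
  have hg' := hg
  unfold alg2 at hg'
  cases hhd : (I.1.filter (cond2 I)).head? with
  | none =>
    rw [hhd] at hg'
    exact absurd (hg' []) (by simp)
  | some s =>
    rw [hhd] at hg'
    have hmem := List.mem_of_mem_head? hhd
    rw [List.mem_filter] at hmem
    obtain ⟨hs, hc⟩ := hmem
    obtain ⟨A, hA⟩ : ∃ A, A = reach I.2.1 (del I.1 s) I.2.2.1 := ⟨_, rfl⟩
    obtain ⟨B, hB⟩ : ∃ B, B = sdf (del I.1 s) A := ⟨_, rfl⟩
    obtain ⟨qA, hqA⟩ : ∃ qA, qA = mk A I.2.1 I.2.2.1 (ins I.1 I.2.1 s) := ⟨_, rfl⟩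
    obtain ⟨qB, hqB⟩ : ∃ qB, qB = mk B I.2.1 (outs I.1 I.2.1 s) I.2.2.2 := ⟨_, rfl⟩
    obtain ⟨hT, hlen, hAm, hBm, hAn, hBn⟩ := c1_facts h hs hc hA hB
    rw [← hqA, ← hqB] at hT
    have hgr : ∀ rs, g rs = (if A.isEmpty then
        (if s ∉ I.2.2.1 then Sum.inl false
        else if B.isEmpty then Sum.inl (decide (s ∈ I.2.2.2))
        else match rs with
          | [] => Sum.inr qB
          | b :: _ => Sum.inl b)
      else match rs with
        | [] => Sum.inr qA
        | a :: rs' =>
          if !a then Sum.inl false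
          else if B.isEmpty then Sum.inl (decide (s ∈ I.2.2.2))
          else match rs' with
            | [] => Sum.inr qB
            | b :: _ => Sum.inl b) := by
      intro rs
      have h1 := Option.some.inj (hg' rs)
      rw [← h1, hqA, hqB, hB, hA]
      cases rs with
      | nil => rfl
      | cons a rs' => cases rs' <;> rfl
    clear hg hg'
    have hpA : pot qA = A.length ^ 4 := by rw [hqA]; rfl
    have hpB : pot qB = B.length ^ 4 := by rw [hqB]; rfl
    have hpI : pot I = (A.length + B.length + 1) ^ 4 := by rw [hlen]; rfl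
    have hpow := c1_pow A.length B.length
    have hwA : A.isEmpty = false → wfB qA = true := by
      intro hne
      rw [hqA]
      refine wf_mk _ _ (fun h0 => ?_) hAn (h.semi.mono fun v hv => List.mem_toFinset.2
        (hAm v (List.mem_toFinset.1 hv)))
      rw [h0] at hne
      exact absurd hne (by simp)
    have hwB : B.isEmpty = false → wfB qB = true := by
      intro hne
      rw [hqB]
      refine wf_mk _ _ (fun h0 => ?_) hBn (h.semi.mono fun v hv => List.mem_toFinset.2
        (hBm v (List.mem_toFinset.1 hv)))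
      rw [h0] at hne
      exact absurd hne (by simp)
    have hvA : ∀ v ∈ qA.1, v ∈ I.1 := by rw [hqA]; exact hAm
    have hvB : ∀ v ∈ qB.1, v ∈ I.1 := by rw [hqB]; exact hBm
    have hne : ∀ L : List ℕ, L.isEmpty = false → L.toFinset.Nonempty := by
      intro L hL
      rw [Finset.nonempty_iff_ne_empty, Ne, ← c1_empty, hL]
      simp
    have hem : ∀ L : List ℕ, L.isEmpty = true → L.toFinset = ∅ := fun L hL => (c1_empty L).1 hL
    have hnn : ∀ L : List ℕ, L.toFinset.Nonempty → ¬ L.toFinset = ∅ := fun L hL =>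
      Finset.nonempty_iff_ne_empty.1 hL
    intro rs js hh
    cases hAe : A.isEmpty with
    | true =>
      have hA0 := hem A hAe
      have hA1 : ¬ A.toFinset.Nonempty := fun h1 => hnn A h1 hA0
      rw [hgr rs, if_pos hAe]
      by_cases hsX : s ∈ I.2.2.1
      · rw [if_neg (not_not.2 hsX)]
        cases hBe : B.isEmpty with
        | true =>
          have hB0 := hem B hBe
          have hB1 : ¬ B.toFinset.Nonempty := fun h1 => hnn B h1 hB0
          rw [if_pos rfl]
          refine ⟨fun b hb => ?_, fun J hJ => absurd hJ (by simp)⟩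
          rw [← Sum.inl.inj hb, decide_eq_true_iff, hT]
          constructor
          · intro h1
            exact ⟨⟨fun h2 => absurd h2 hA1, fun _ => hsX⟩, fun h2 => absurd h2 hB1, fun _ => h1⟩
          · intro h1
            exact h1.2.2 hB0
        | false =>
          have hB1 := hne B hBe
          have hB0 := hnn B hB1
          rw [if_neg (by simp)]
          have hTB : Truth I ↔ Truth qB := by
            rw [hT]
            constructor
            · intro h1
              exact h1.2.1 hB1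
            · intro h1
              exact ⟨⟨fun h2 => absurd h2 hA1, fun _ => hsX⟩, fun _ => h1, fun h2 => absurd h2 hB0⟩
          cases rs with
          | nil =>
            refine ⟨fun b hb => absurd hb (by simp), fun J hJ => ?_⟩
            rw [← Sum.inr.inj hJ, c1_nil hh]
            refine ⟨hwB hBe, hvB, ?_⟩
            rw [List.map_nil, List.sum_nil, hpB, hpI]
            omega
          | cons a rs' =>
            refine ⟨fun b hb => ?_, fun J hJ => absurd hJ (by simp)⟩
            rw [← Sum.inl.inj hb]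
            obtain ⟨j, js', -, h4, h5, -⟩ := c1_cons hh a rs' rfl
            rw [hgr, hAe, hBe, if_pos rfl, if_neg (not_not.2 hsX), if_neg (by simp)] at h4
            rw [h5, hTB, ← Sum.inr.inj h4]
      · rw [if_pos hsX]
        refine ⟨fun b hb => ?_, fun J hJ => absurd hJ (by simp)⟩
        rw [← Sum.inl.inj hb, hT]
        constructor
        · intro h1
          exact absurd h1 (by simp)
        · intro h1
          exact absurd (h1.1.2 hA0) hsX
    | false =>
      have hA1 := hne A hAe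
      have hA0 := hnn A hA1
      have hv1 : g [] = Sum.inr qA := by simp [hgr, hAe]
      have hv2 : ∀ rs', g (false :: rs') = Sum.inl false := by intro rs'; simp [hgr, hAe]
      cases rs with
      | nil =>
        rw [hv1]
        refine ⟨fun b hb => absurd hb (by simp), fun J hJ => ?_⟩
        rw [← Sum.inr.inj hJ, c1_nil hh]
        refine ⟨hwA hAe, hvA, ?_⟩
        rw [List.map_nil, List.sum_nil, hpA, hpI]
        omega
      | cons a rs' =>
        obtain ⟨j, js', h3, h4, h5, h6⟩ := c1_cons hh a rs' rfl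
        rw [hv1] at h4
        have hj : qA = j := Sum.inr.inj h4
        subst hj
        cases a with
        | false =>
          rw [hv2]
          refine ⟨fun b hb => ?_, fun J hJ => absurd hJ (by simp)⟩
          rw [← Sum.inl.inj hb, hT]
          constructor
          · intro h1
            exact absurd h1 (by simp)
          · intro h1
            exact h5.2 (h1.1.1 hA1)
        | true =>
          have hTA : Truth qA := h5.1 rfl
          cases hBe : B.isEmpty with
          | true =>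
            have hB0 := hem B hBe
            have hB1 : ¬ B.toFinset.Nonempty := fun h1 => hnn B h1 hB0
            have hv3 : g (true :: rs') = Sum.inl (decide (s ∈ I.2.2.2)) := by
              simp [hgr, hAe, hBe]
            rw [hv3]
            refine ⟨fun b hb => ?_, fun J hJ => absurd hJ (by simp)⟩
            rw [← Sum.inl.inj hb, decide_eq_true_iff, hT]
            constructor
            · intro h1
              exact ⟨⟨fun _ => hTA, fun h2 => absurd h2 hA0⟩, fun h2 => absurd h2 hB1, fun _ => h1⟩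
            · intro h1
              exact h1.2.2 hB0
          | false =>
            have hB1 := hne B hBe
            have hB0 := hnn B hB1
            have hTB : Truth I ↔ Truth qB := by
              rw [hT]
              constructor
              · intro h1
                exact h1.2.1 hB1
              · intro h1
                exact ⟨⟨fun _ => hTA, fun h2 => absurd h2 hA0⟩, fun _ => h1,
                  fun h2 => absurd h2 hB0⟩
            have hv4 : g [true] = Sum.inr qB := by simp [hgr, hAe, hBe]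
            cases rs' with
            | nil =>
              rw [hv4]
              refine ⟨fun b hb => absurd hb (by simp), fun J hJ => ?_⟩
              rw [← Sum.inr.inj hJ, h3, c1_nil h6]
              refine ⟨hwB hBe, hvB, ?_⟩
              rw [List.map_cons, List.map_nil, List.sum_cons, List.sum_nil, hpA, hpB, hpI]
              omega
            | cons a' rs'' =>
              have hv5 : g (true :: a' :: rs'') = Sum.inl a' := by simp [hgr, hAe, hBe]
              rw [hv5]
              refine ⟨fun b hb => ?_, fun J hJ => absurd hJ (by simp)⟩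
              rw [← Sum.inl.inj hb]
              obtain ⟨j, js2, -, h7, h8, -⟩ := c1_cons h6 a' rs'' rfl
              rw [hv4] at h7
              rw [h8, hTB, ← Sum.inr.inj h7]

theorem none2 {I : Inst} (h : WF I) (hx : alg2 I [] = none) :
    Conn (rl I) (vt I) {x | x ∈ I.2.2.1} {y | y ∈ I.2.2.2} 2 := by
  have key : ∀ s ∈ I.1, ∃ v ∈ fwd (rel I.2.1) (I.1.toFinset.erase s) {x | x ∈ I.2.2.1},
      v ∈ I.2.2.2 := by
    intro s hs
    cases hhd : (I.1.filter (cond2 I)).head? with
    | none =>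
      rw [List.head?_eq_none_iff, List.filter_eq_nil_iff] at hhd
      have h1 := hhd s hs
      unfold cond2 at h1
      rw [List.all_eq_true] at h1
      push Not at h1
      obtain ⟨v, hv, hvY⟩ := h1
      have h2 := (reach_spec I.2.1 (W := del I.1 s) (h.nodup.filter _) I.2.2.1).1
      rw [c1_del] at h2
      refine ⟨v, ?_, ?_⟩
      · rw [← h2]
        exact List.mem_toFinset.2 hv
      · by_contra hc
        exact hvY (decide_eq_true hc)
    | some s =>
      unfold alg2 at hx
      rw [hhd] at hx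
      exact absurd hx (by simp)
  intro S hS hcard U hU hX hcl
  rcases Nat.lt_succ_iff_lt_or_eq.1 hcard with h0 | h1
  · have hS0 : S = ∅ := Finset.card_eq_zero.1 (by omega)
    subst hS0
    rw [Finset.sdiff_empty] at hU hX hcl
    obtain ⟨s, hs⟩ := List.exists_mem_of_ne_nil _ h.ne
    obtain ⟨v, hv, hvY⟩ := key s hs
    have h2 : fwd (rel I.2.1) (I.1.toFinset.erase s) {x | x ∈ I.2.2.1} ⊆ U.erase s := by
      apply fwd_min
      · exact Finset.erase_subset_erase s hU
      · intro x hx1 hx2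
        exact Finset.mem_erase.2 ⟨(Finset.mem_erase.1 hx1).1,
          hX x (Finset.mem_erase.1 hx1).2 hx2⟩
      · intro u hu v hv huv
        exact Finset.mem_erase.2 ⟨(Finset.mem_erase.1 hv).1,
          hcl u (Finset.mem_erase.1 hu).2 v (Finset.mem_erase.1 hv).2 huv⟩
    exact ⟨v, Finset.mem_of_mem_erase (h2 hv), hvY⟩
  · obtain ⟨s, rfl⟩ := Finset.card_eq_one.1 h1
    have hs : s ∈ I.1 := List.mem_toFinset.1 (hS (Finset.mem_singleton_self s))
    obtain ⟨v, hv, hvY⟩ := key s hs
    rw [Finset.sdiff_singleton_eq_erase] at hU hX hcl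
    exact ⟨v, fwd_min hU hX hcl hv, hvY⟩

theorem c2_mem_del {V : List ℕ} {v w : ℕ} : w ∈ del V v ↔ w ∈ V ∧ w ≠ v := by
  simp [del]

theorem c2_mem_sdf {V A : List ℕ} {w : ℕ} : w ∈ sdf V A ↔ w ∈ V ∧ w ∉ A := by
  simp [sdf]

theorem c2_del_toFinset (V : List ℕ) (z : ℕ) : (del V z).toFinset = V.toFinset.erase z := by
  ext w
  rw [List.mem_toFinset, c2_mem_del, Finset.mem_erase, List.mem_toFinset, and_comm]

theorem c2_sdf_toFinset (V A : List ℕ) : (sdf V A).toFinset = V.toFinset \ A.toFinset := by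
  ext w
  rw [List.mem_toFinset, c2_mem_sdf, Finset.mem_sdiff, List.mem_toFinset, List.mem_toFinset]

theorem c2_del_nodup {V : List ℕ} (h : V.Nodup) (z : ℕ) : (del V z).Nodup := h.filter _

theorem c2_sdf_nodup {V : List ℕ} (h : V.Nodup) (A : List ℕ) : (sdf V A).Nodup := h.filter _

/-- The first question of rule R3. -/
def c2_J1 (I : Inst) (z : ℕ) : Inst :=
  mk (firstC I.2.1 (del I.1 z)) I.2.1 (outs I.1 I.2.1 z) I.2.2.2

/-- The second question of rule R3. -/
def c2_J2 (I : Inst) (z : ℕ) (h : Bool) : Inst :=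
  mk (sdf I.1 (firstC I.2.1 (del I.1 z)))
    (I.2.1 ++ (sdf I.1 (firstC I.2.1 (del I.1 z))).map (fun v => (z, v))) I.2.2.1
    (if h then z :: I.2.2.2 else del I.2.2.2 z)

theorem c2_some {I : Inst} {g : List Bool → Bool ⊕ Inst}
    (hg : ∀ rs, alg3 I rs = some (g rs)) :
    ∃ z ∈ I.1, cond3 I z = true ∧ g [] = Sum.inr (c2_J1 I z) ∧
      (∀ h, g [h] = Sum.inr (c2_J2 I z h)) ∧ ∀ h b rs, g (h :: b :: rs) = Sum.inl b := by
  cases hh : (I.1.filter (cond3 I)).head? with
  | none =>
    have := hg []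
    rw [alg3, hh] at this
    simp at this
  | some z =>
    have hz : z ∈ I.1.filter (cond3 I) := List.mem_of_mem_head? hh
    rw [List.mem_filter] at hz
    refine ⟨z, hz.1, hz.2, ?_, ?_, ?_⟩
    · have := hg []
      rw [alg3, hh] at this
      exact (Option.some.inj this).symm
    · intro h
      have := hg [h]
      rw [alg3, hh] at this
      exact (Option.some.inj this).symm
    · intro h b rs
      have := hg (h :: b :: rs)
      rw [alg3, hh] at this
      exact (Option.some.inj this).symm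

theorem c2_strong_empty (r : ℕ → ℕ → Prop) : Strong r ∅ := by
  intro U hU hne _
  obtain ⟨u, hu⟩ := hne
  exact absurd (hU hu) (Finset.notMem_empty u)

/-- Facts on the first component of `V - z`, if `V - z` is not strong. -/
theorem c2_facts {I : Inst} (h : WF I) {z : ℕ}
    (hns : ¬ Strong (rl I) ((vt I).erase z)) :
    (firstC I.2.1 (del I.1 z)).Nodup ∧ firstC I.2.1 (del I.1 z) ≠ [] ∧
      (∀ v ∈ firstC I.2.1 (del I.1 z), v ∈ I.1 ∧ v ≠ z) ∧
      Strong (rl I) (firstC I.2.1 (del I.1 z)).toFinset ∧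
      (∀ a ∈ (vt I).erase z \ (firstC I.2.1 (del I.1 z)).toFinset,
        ∀ u ∈ (firstC I.2.1 (del I.1 z)).toFinset, ¬ rl I a u) ∧
      ((vt I).erase z \ (firstC I.2.1 (del I.1 z)).toFinset).Nonempty ∧
      ∀ D ⊆ (vt I).erase z, D.Nonempty → (∀ a ∈ (vt I).erase z \ D, ∀ u ∈ D, ¬ rl I a u) →
        (firstC I.2.1 (del I.1 z)).toFinset ⊆ D := by
  have hW : (del I.1 z).toFinset = (vt I).erase z := c2_del_toFinset _ _
  have hne : del I.1 z ≠ [] := by
    intro h0
    apply hns
    rw [← hW, h0]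
    exact c2_strong_empty _
  have hsub : (del I.1 z).toFinset ⊆ I.1.toFinset := by
    rw [hW]
    exact Finset.erase_subset _ _
  obtain ⟨h1, h2, h3, h4, h5, h6⟩ := firstC_spec I.2.1 (c2_del_nodup h.nodup z) hne
    (h.semi.mono hsub)
  rw [hW] at h5 h6
  refine ⟨h1, h2, fun v hv => c2_mem_del.1 (h3 v hv), h4, ?_, ?_, ?_⟩
  · intro a ha u hu hau
    rw [Finset.mem_sdiff] at ha
    exact ha.2 (h5 u hu a ha.1 hau)
  · rw [Finset.sdiff_nonempty]
    intro h7
    apply hns
    have : (firstC I.2.1 (del I.1 z)).toFinset = (vt I).erase z := by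
      refine Finset.Subset.antisymm ?_ h7
      intro v hv
      rw [← hW, List.mem_toFinset]
      exact h3 v (List.mem_toFinset.1 hv)
    rw [← this]
    exact h4
  · intro D hD hDne hcl
    refine h6 D hD hDne ?_
    intro u hu v hv hvu
    by_contra hvD
    exact hcl v (Finset.mem_sdiff.2 ⟨hv, hvD⟩) u hu hvu

theorem c2_notstrong {I : Inst} (h : WF I) {z : ℕ} (hc : cond3 I z = true) :
    ¬ Strong (rl I) ((vt I).erase z) ∧
      ∀ v ∈ firstC I.2.1 (del I.1 z), v ∉ I.2.2.1 := by
  rw [cond3, Bool.and_eq_true] at hc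
  constructor
  · intro hs
    rw [← c2_del_toFinset, ← strongB_iff I.2.1 (c2_del_nodup h.nodup z)] at hs
    rw [hs] at hc
    simp at hc
  · have := hc.2
    rw [List.all_eq_true] at this
    intro v hv
    have := this v hv
    simpa using this

theorem c2_cond3_iff {I : Inst} (h : WF I) {z : ℕ} :
    cond3 I z = true ↔ ¬ Strong (rl I) ((vt I).erase z) ∧
      ∀ v ∈ firstC I.2.1 (del I.1 z), v ∉ I.2.2.1 := by
  constructor
  · exact c2_notstrong h
  · rintro ⟨h1, h2⟩
    rw [cond3, Bool.and_eq_true]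
    constructor
    · rw [Bool.not_eq_true']
      by_contra h3
      rw [Bool.not_eq_false, strongB_iff I.2.1 (c2_del_nodup h.nodup z), c2_del_toFinset] at h3
      exact h1 h3
    · rw [List.all_eq_true]
      intro v hv
      simpa using h2 v hv

theorem c2_truth1 (I : Inst) (z : ℕ) (hsub : ∀ v ∈ firstC I.2.1 (del I.1 z), v ∈ I.1) :
    Truth (c2_J1 I z) ↔ HP (rl I) (firstC I.2.1 (del I.1 z)).toFinset {u | rl I z u}
      {y | y ∈ I.2.2.2} := by
  rw [c2_J1, truth_mk]
  constructor
  · intro h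
    refine h.mono ?_ (fun y _ hy => hy)
    intro x _ hx
    have hx' : x ∈ outs I.1 I.2.1 z := hx
    rw [outs, List.mem_filter] at hx'
    have h1 : (z, x) ∈ I.2.1 := by simpa [ar] using hx'.2
    exact h1
  · intro h
    refine h.mono ?_ (fun y _ hy => hy)
    intro x hx hx'
    change x ∈ outs I.1 I.2.1 z
    rw [outs, List.mem_filter]
    refine ⟨hsub x (List.mem_toFinset.1 hx), ?_⟩
    have : (z, x) ∈ I.2.1 := hx'
    simpa [ar] using this

theorem c2_rel2 {E : List (ℕ × ℕ)} {V' : List ℕ} {z a b : ℕ} :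
    rel (E ++ V'.map (fun v => (z, v))) a b ↔ rel E a b ∨ (a = z ∧ b ∈ V') := by
  unfold rel
  rw [List.mem_append, List.mem_map]
  constructor
  · rintro (h | ⟨v, hv, he⟩)
    · exact Or.inl h
    · rw [Prod.mk.injEq] at he
      exact Or.inr ⟨he.1.symm, he.2 ▸ hv⟩
  · rintro (h | ⟨h1, h2⟩)
    · exact Or.inl h
    · exact Or.inr ⟨b, h2, by rw [h1]⟩

theorem c2_truth2 (I : Inst) (z : ℕ) (h : Bool) (H : Prop) (hH : h = true ↔ H) :
    Truth (c2_J2 I z h) ↔ HP (fun a b => a = z ∨ rl I a b)
      (vt I \ (firstC I.2.1 (del I.1 z)).toFinset) {x | x ∈ I.2.2.1}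
      {y | (y ≠ z ∧ y ∈ {y | y ∈ I.2.2.2}) ∨ (y = z ∧ H)} := by
  rw [c2_J2, truth_mk, c2_sdf_toFinset]
  constructor
  · intro hp
    refine (hp.congr (r' := fun a b => a = z ∨ rl I a b) ?_).mono (fun x _ hx => hx) ?_
    · intro a _ b _ _ hab
      rcases c2_rel2.1 hab with h1 | h1
      · exact Or.inr h1
      · exact Or.inl h1.1
    · intro y _ hy
      have hy' : y ∈ (if h then z :: I.2.2.2 else del I.2.2.2 z) := hy
      by_cases hyz : y = z
      · subst hyz
        cases h with
        | true => exact Or.inr ⟨rfl, hH.1 rfl⟩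
        | false =>
          simp [c2_mem_del] at hy'
      · left
        refine ⟨hyz, ?_⟩
        cases h with
        | true =>
          simp [hyz] at hy'
          exact hy'
        | false =>
          simp [c2_mem_del] at hy'
          exact hy'.1
  · intro hp
    refine (hp.congr (r' := rel (I.2.1 ++
      (sdf I.1 (firstC I.2.1 (del I.1 z))).map (fun v => (z, v)))) ?_).mono (fun x _ hx => hx) ?_
    · intro a _ b hb _ hab
      rw [c2_rel2]
      rcases hab with h1 | h1
      · refine Or.inr ⟨h1, ?_⟩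
        rw [← List.mem_toFinset, c2_sdf_toFinset]
        exact hb
      · exact Or.inl h1
    · intro y _ hy
      change y ∈ (if h then z :: I.2.2.2 else del I.2.2.2 z)
      rcases hy with ⟨h1, h2⟩ | ⟨h1, h2⟩
      · have h2' : y ∈ I.2.2.2 := h2
        cases h with
        | true => simp [h2']
        | false => simp [c2_mem_del, h1, h2']
      · have := hH.2 h2
        subst this
        simp [h1]

theorem c2_pow {a b n : ℕ} (h : a + b = n) (ha : 1 ≤ a) (hb : 1 ≤ b) :
    a ^ 4 + b ^ 4 + 1 ≤ n ^ 4 := by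
  subst h
  have h1 : 1 ≤ a ^ 3 * b := Nat.one_le_iff_ne_zero.2 (by positivity)
  nlinarith [h1, Nat.zero_le (a ^ 2 * b ^ 2), Nat.zero_le (a * b ^ 3)]

theorem ok3 {I : Inst} (h : WF I) (hst : Strong (rl I) (vt I))
    {g : List Bool → Bool ⊕ Inst} (hg : ∀ rs, alg3 I rs = some (g rs)) : RuleOK I g := by
  obtain ⟨z, hz, hc, g0, g1, g2⟩ := c2_some hg
  obtain ⟨hns, hXC⟩ := c2_notstrong h hc
  obtain ⟨f1, f2, f3, f4, f5, f6, f7⟩ := c2_facts h hns
  have hzV : z ∈ vt I := List.mem_toFinset.2 hz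
  have hsubC : (firstC I.2.1 (del I.1 z)).toFinset ⊆ (vt I).erase z := by
    intro v hv
    have := f3 v (List.mem_toFinset.1 hv)
    exact Finset.mem_erase.2 ⟨this.2, List.mem_toFinset.2 this.1⟩
  have hneC : (firstC I.2.1 (del I.1 z)).toFinset.Nonempty := by
    rw [List.toFinset_nonempty_iff]
    exact f2
  have hR := rule3 (X := {x | x ∈ I.2.2.1}) (Y := {y | y ∈ I.2.2.2}) h.semi hst hzV hsubC hneC f6
    f5 f4 (fun u hu => hXC u (List.mem_toFinset.1 hu))
  have hT1 := c2_truth1 I z (fun v hv => (f3 v hv).1)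
  -- lengths
  have hlC : 1 ≤ (firstC I.2.1 (del I.1 z)).length := List.length_pos_iff.2 f2
  have hVz : z ∈ sdf I.1 (firstC I.2.1 (del I.1 z)) :=
    c2_mem_sdf.2 ⟨hz, fun h0 => (f3 z h0).2 rfl⟩
  have hlV : 1 ≤ (sdf I.1 (firstC I.2.1 (del I.1 z))).length :=
    List.length_pos_iff.2 (List.ne_nil_of_mem hVz)
  have hsum : (firstC I.2.1 (del I.1 z)).length +
      (sdf I.1 (firstC I.2.1 (del I.1 z))).length = I.1.length := by
    rw [← List.toFinset_card_of_nodup f1, ← List.toFinset_card_of_nodup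
      (c2_sdf_nodup h.nodup _), ← List.toFinset_card_of_nodup h.nodup, c2_sdf_toFinset]
    have : (firstC I.2.1 (del I.1 z)).toFinset ⊆ I.1.toFinset :=
      hsubC.trans (Finset.erase_subset _ _)
    rw [add_comm]
    exact Finset.card_sdiff_add_card_eq_card this
  have hpow := c2_pow hsum hlC hlV
  have hp1 : pot (c2_J1 I z) = (firstC I.2.1 (del I.1 z)).length ^ 4 := rfl
  have hp2 : ∀ b, pot (c2_J2 I z b) = (sdf I.1 (firstC I.2.1 (del I.1 z))).length ^ 4 :=
    fun _ => rfl
  have hp : pot I = I.1.length ^ 4 := rfl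
  -- well-formedness
  have hw1 : wfB (c2_J1 I z) = true := by
    refine wf_mk _ _ f2 f1 (h.semi.mono ?_)
    exact hsubC.trans (Finset.erase_subset _ _)
  have hw2 : ∀ b, wfB (c2_J2 I z b) = true := by
    intro b
    refine wf_mk _ _ (List.ne_nil_of_mem hVz) (c2_sdf_nodup h.nodup _) ?_
    intro u hu v hv huv
    rw [c2_sdf_toFinset] at hu hv
    rcases h.semi u (Finset.sdiff_subset hu) v (Finset.sdiff_subset hv) huv with h1 | h1
    · exact Or.inl (c2_rel2.2 (Or.inl h1))
    · exact Or.inr (c2_rel2.2 (Or.inl h1))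
  -- history
  intro rs js hH
  have key : (rs = [] ∧ js = []) ∨ (∃ b, rs = [b] ∧ js = [c2_J1 I z] ∧
      (b = true ↔ Truth (c2_J1 I z))) ∨ ∃ b b', rs = [b, b'] ∧ js = [c2_J1 I z, c2_J2 I z b] ∧
      (b = true ↔ Truth (c2_J1 I z)) ∧ (b' = true ↔ Truth (c2_J2 I z b)) := by
    induction hH with
    | nil => exact Or.inl ⟨rfl, rfl⟩
    | snoc hh hj hb ih =>
      rcases ih with ⟨h1, h2⟩ | ⟨b, h1, h2, h3⟩ | ⟨b, b', h1, h2, h3, h4⟩
      · subst h1 h2
        rw [g0] at hj
        have := Sum.inr.inj hj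
        subst this
        exact Or.inr (Or.inl ⟨_, rfl, rfl, hb⟩)
      · subst h1 h2
        rw [g1] at hj
        have := Sum.inr.inj hj
        subst this
        exact Or.inr (Or.inr ⟨b, _, rfl, rfl, h3, hb⟩)
      · subst h1
        rw [g2] at hj
        cases hj
  rcases key with ⟨rfl, rfl⟩ | ⟨b, rfl, rfl, hb⟩ | ⟨b, b', rfl, rfl, hb, hb'⟩
  · constructor
    · intro b hb
      rw [g0] at hb
      cases hb
    · intro J hJ
      rw [g0] at hJ
      have := Sum.inr.inj hJ
      subst this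
      refine ⟨hw1, fun v hv => (f3 v hv).1, ?_⟩
      rw [hp1, hp]
      simp only [List.map_nil, List.sum_nil]
      omega
  · constructor
    · intro b hb
      rw [g1] at hb
      cases hb
    · intro J hJ
      rw [g1] at hJ
      have := Sum.inr.inj hJ
      subst this
      refine ⟨hw2 b, fun v hv => (c2_mem_sdf.1 hv).1, ?_⟩
      rw [hp2, hp, List.map_cons, List.map_nil, List.sum_cons, List.sum_nil, hp1]
      omega
  · constructor
    · intro b'' hb''
      rw [g2] at hb''
      have := Sum.inl.inj hb''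
      subst this
      rw [hb', c2_truth2 I z b _ (hb.trans hT1)]
      exact hR.symm
    · intro J hJ
      rw [g2] at hJ
      cases hJ

theorem none3 {I : Inst} (h : WF I) (hx : alg3 I [] = none) :
    ∀ v ∈ vt I, ∀ U ⊆ (vt I).erase v, U.Nonempty → ((vt I).erase v \ U).Nonempty →
      (∀ a ∈ (vt I).erase v \ U, ∀ u ∈ U, ¬ rl I a u) → ∃ u ∈ U, u ∈ I.2.2.1 := by
  intro v hv U hU hne hne' hcl
  have hf : I.1.filter (cond3 I) = [] := by
    cases hh : (I.1.filter (cond3 I)).head? with
    | none => exact List.head?_eq_none_iff.1 hh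
    | some z =>
      rw [alg3, hh] at hx
      cases hx
  have hc : ¬ cond3 I v = true := by
    intro hc
    have : v ∈ I.1.filter (cond3 I) := List.mem_filter.2 ⟨List.mem_toFinset.1 hv, hc⟩
    rw [hf] at this
    cases this
  have hns : ¬ Strong (rl I) ((vt I).erase v) := by
    intro hs
    obtain ⟨a, ha, b, hb, hab⟩ := hs ((vt I).erase v \ U) Finset.sdiff_subset hne' (by
      intro h1
      obtain ⟨u, hu⟩ := hne
      have := hU hu
      rw [← h1] at this
      exact (Finset.mem_sdiff.1 this).2 hu)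
    rw [Finset.sdiff_sdiff_eq_self hU] at hb
    exact hcl a ha b hb hab
  rw [c2_cond3_iff h] at hc
  push Not at hc
  obtain ⟨u, hu, huX⟩ := hc hns
  obtain ⟨-, -, -, -, -, -, f7⟩ := c2_facts h hns
  exact ⟨u, f7 U hU hne hcl (List.mem_toFinset.2 hu), huX⟩

theorem none3' {I : Inst} (h : WF I) (hx : alg3 (revI I) [] = none) :
    ∀ v ∈ vt I, ∀ U ⊆ (vt I).erase v, U.Nonempty → ((vt I).erase v \ U).Nonempty →
      (∀ u ∈ U, ∀ a ∈ (vt I).erase v \ U, ¬ rl I u a) → ∃ u ∈ U, u ∈ I.2.2.2 := by
  intro v hv U hU hne hne' hcl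
  refine none3 h.rev hx v hv U hU hne hne' ?_
  intro a ha u hu hau
  refine hcl u hu a ha ?_
  have h1 : (a, u) ∈ revE I.2.1 := hau
  rw [revE, List.mem_map] at h1
  obtain ⟨e, he, he'⟩ := h1
  rw [Prod.mk.injEq] at he'
  change (u, a) ∈ I.2.1
  rw [← he'.1, ← he'.2]
  exact he

theorem none4 {I : Inst} (h : WF I) (hst : Strong (rl I) (vt I)) (hx : alg4 I = none) :
    TwoStrong (rl I) (vt I) := by
  refine ⟨hst, ?_⟩
  intro v hv
  have h1 : I.1.all (fun z => strongB I.2.1 (del I.1 z)) = true := by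
    by_contra h2
    rw [alg4, if_neg h2] at hx
    cases hx
  rw [List.all_eq_true] at h1
  have := h1 v (List.mem_toFinset.1 hv)
  rw [strongB_iff I.2.1 (c2_del_nodup h.nodup v), c2_del_toFinset] at this
  exact this

theorem ok4 {I : Inst} (h : WF I) (hn : 5 ≤ I.1.length) (hst : Strong (rl I) (vt I))
    (hc : Conn (rl I) (vt I) {x | x ∈ I.2.2.1} {y | y ∈ I.2.2.2} 2)
    (h3 : alg3 I [] = none) (h3' : alg3 (revI I) [] = none) {x : Bool ⊕ Inst}
    (hx : alg4 I = some x) : x = Sum.inl true ∧ Truth I := by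
  have h1 : ¬ (I.1.all (fun z => strongB I.2.1 (del I.1 z)) = true) := by
    intro h2
    rw [alg4, if_pos h2] at hx
    cases hx
  constructor
  · rw [alg4, if_neg h1] at hx
    exact (Option.some.inj hx).symm
  · rw [List.all_eq_true] at h1
    push Not at h1
    obtain ⟨z, hz, hz'⟩ := h1
    rw [ne_eq, strongB_iff I.2.1 (c2_del_nodup h.nodup z), c2_del_toFinset] at hz'
    have hcard : 5 ≤ (vt I).card := by
      rw [List.toFinset_card_of_nodup h.nodup]
      exact hn
    have hR := rule4 (X := vt I ∩ I.2.2.1.toFinset) (Y := vt I ∩ I.2.2.2.toFinset) h.semi hst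
      Finset.inter_subset_left Finset.inter_subset_left hcard ?_ ?_ ?_
      (List.mem_toFinset.2 hz) hz'
    · refine hR.mono ?_ ?_
      · intro x _ hx
        have hx' : x ∈ vt I ∩ I.2.2.1.toFinset := hx
        exact List.mem_toFinset.1 (Finset.mem_inter.1 hx').2
      · intro x _ hx
        have hx' : x ∈ vt I ∩ I.2.2.2.toFinset := hx
        exact List.mem_toFinset.1 (Finset.mem_inter.1 hx').2
    · intro S hS hSc U hU hXU hcl
      obtain ⟨u, hu, huY⟩ := hc S hS hSc U hU (by
        intro x hx hxX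
        refine hXU x hx ?_
        rw [Finset.mem_coe, Finset.mem_inter]
        exact ⟨Finset.sdiff_subset hx, List.mem_toFinset.2 hxX⟩) hcl
      refine ⟨u, hu, ?_⟩
      rw [Finset.mem_coe, Finset.mem_inter]
      exact ⟨Finset.sdiff_subset (hU hu), List.mem_toFinset.2 huY⟩
    · intro v hv U hU hne hne' hcl
      obtain ⟨u, hu, huX⟩ := none3 h h3 v hv U hU hne hne' hcl
      refine ⟨u, hu, ?_⟩
      rw [Finset.mem_inter]
      exact ⟨Finset.erase_subset _ _ (hU hu), List.mem_toFinset.2 huX⟩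
    · intro v hv U hU hne hne' hcl
      obtain ⟨u, hu, huX⟩ := none3' h h3' v hv U hU hne hne' hcl
      refine ⟨u, hu, ?_⟩
      rw [Finset.mem_inter]
      exact ⟨Finset.erase_subset _ _ (hU hu), List.mem_toFinset.2 huX⟩

/-! ### Part 3: rule R5 -/

/-- A version of `RuleOK` with a budget `c` already used. -/
def c3_OK (I : Inst) (g : List Bool → Bool ⊕ Inst) (c : ℕ) : Prop :=
  ∀ rs js, Hist g Truth rs js → (∀ b, g rs = Sum.inl b → (b = true ↔ Truth I)) ∧
    ∀ J, g rs = Sum.inr J →
      wfB J = true ∧ (∀ v ∈ J.1, v ∈ I.1) ∧ c + (js.map pot).sum + pot J + 1 ≤ pot I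

theorem c3_hist_nil {g : List Bool → Bool ⊕ Inst} {P : Inst → Prop} {js : List Inst}
    (h : Hist g P [] js) : js = [] := by
  generalize hr : ([] : List Bool) = rs at h
  cases h with
  | nil => rfl
  | snoc h hj hb => simp at hr

theorem c3_hist_cons {g : List Bool → Bool ⊕ Inst} {P : Inst → Prop} {rs : List Bool}
    {js : List Inst} (h : Hist g P rs js) : ∀ b rs', rs = b :: rs' →
      ∃ j js', js = j :: js' ∧ g [] = Sum.inr j ∧ (b = true ↔ P j) ∧
        Hist (fun l => g (b :: l)) P rs' js' := by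
  induction h with
  | nil => intro b rs' h; simp at h
  | @snoc rs js j b h hj hb ih =>
    intro b' rs' he
    cases rs with
    | nil =>
      have h1 := c3_hist_nil h
      subst h1
      simp only [List.nil_append, List.cons.injEq] at he
      obtain ⟨rfl, rfl⟩ := he
      exact ⟨j, [], rfl, hj, hb, Hist.nil⟩
    | cons a rs =>
      simp only [List.cons_append, List.cons.injEq] at he
      obtain ⟨rfl, rfl⟩ := he
      obtain ⟨j0, js0, h1, h2, h3, h4⟩ := ih a rs rfl
      subst h1
      exact ⟨j0, js0 ++ [j], by simp, h2, h3, Hist.snoc h4 hj hb⟩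

theorem c3_step {I : Inst} {g : List Bool → Bool ⊕ Inst} {c : ℕ} {J : Inst}
    (h0 : g [] = Sum.inr J) (h1 : wfB J = true) (h2 : ∀ v ∈ J.1, v ∈ I.1)
    (h3 : c + pot J + 1 ≤ pot I)
    (h4 : ∀ b : Bool, (b = true ↔ Truth J) → c3_OK I (fun rs => g (b :: rs)) (c + pot J)) :
    c3_OK I g c := by
  intro rs js h
  cases rs with
  | nil =>
    have h5 := c3_hist_nil h
    subst h5
    refine ⟨fun b hb => ?_, fun J' hJ' => ?_⟩
    · rw [h0] at hb; cases hb
    · rw [h0] at hJ'
      cases hJ'
      refine ⟨h1, h2, ?_⟩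
      simpa using h3
  | cons b rs =>
    obtain ⟨j, js', h5, h6, h7, h8⟩ := c3_hist_cons h b rs rfl
    rw [h0] at h6
    cases h6
    obtain ⟨h9, h10⟩ := h4 b h7 rs js' h8
    refine ⟨h9, fun J' hJ' => ?_⟩
    obtain ⟨h11, h12, h13⟩ := h10 J' hJ'
    refine ⟨h11, h12, ?_⟩
    subst h5
    simp only [List.map_cons, List.sum_cons]
    omega

theorem c3_done {I : Inst} {g : List Bool → Bool ⊕ Inst} {c : ℕ} {b : Bool}
    (h : ∀ rs, g rs = Sum.inl b) (hb : b = true ↔ Truth I) : c3_OK I g c := by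
  intro rs js _
  refine ⟨fun b' hb' => ?_, fun J hJ => ?_⟩
  · rw [h] at hb'; cases hb'; exact hb
  · rw [h] at hJ; cases hJ

theorem c3_mem_del {V : List ℕ} {v w : ℕ} : w ∈ del V v ↔ w ∈ V ∧ w ≠ v := by simp [del]

theorem c3_mem_sdf {V A : List ℕ} {w : ℕ} : w ∈ sdf V A ↔ w ∈ V ∧ w ∉ A := by simp [sdf]

theorem c3_del2 (V : List ℕ) (s t : ℕ) : (del (del V s) t).toFinset = V.toFinset \ {s, t} := by
  ext w
  simp only [List.mem_toFinset, c3_mem_del, Finset.mem_sdiff, Finset.mem_insert,
    Finset.mem_singleton]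
  tauto

theorem c3_mem_prs {V : List ℕ} {a b : ℕ} : (a, b) ∈ prs V ↔ a ∈ V ∧ b ∈ V := by
  simp [prs]

theorem c3_del2_nodup {V : List ℕ} (h : V.Nodup) (s t : ℕ) : (del (del V s) t).Nodup :=
  (h.filter _).filter _

theorem c3_card {V : List ℕ} (h : V.Nodup) : V.toFinset.card = V.length :=
  List.toFinset_card_of_nodup h

/-- everything about the separator found by rule R5 -/
structure c3_S (I : Inst) (s t : ℕ) (A B : List ℕ) : Prop where
  sep : Sep2 (rl I) (vt I) (vt I ∩ I.2.2.1.toFinset) (vt I ∩ I.2.2.2.toFinset) s t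
    A.toFinset B.toFinset
  nA : A.Nodup
  nB : B.Nodup
  le : A.length ≤ B.length
  len : A.length + B.length + 2 = I.1.length

theorem c3_S.symm {I : Inst} {s t : ℕ} {A B : List ℕ} (h : c3_S I s t A B) : c3_S I t s A B :=
  ⟨⟨h.sep.ht, h.sep.hs, h.sep.hst.symm, h.sep.hA, h.sep.hB, h.sep.hd,
    by rw [h.sep.hu, Finset.pair_comm], h.sep.harc, h.sep.hX, h.sep.hY⟩, h.nA, h.nB, h.le, h.len⟩

theorem c3_sep {I : Inst} (h : WF I) {p : ℕ × ℕ} (hp : p ∈ prs I.1) (hc : cond5 I p = true) :
    c3_S I p.1 p.2 (sideA I p) (sideB I p) := by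
  obtain ⟨s, t⟩ := p
  rw [c3_mem_prs] at hp
  obtain ⟨hs, ht⟩ := hp
  simp only [cond5, Bool.and_eq_true, decide_eq_true_eq] at hc
  obtain ⟨⟨⟨⟨h1, h2⟩, h3⟩, h4⟩, h5⟩ := hc
  have hW := c3_del2_nodup h.nodup s t
  obtain ⟨hA1, hA2⟩ := reach_spec I.2.1 hW I.2.2.1
  have hAdef : sideA I (s, t) = reach I.2.1 (del (del I.1 s) t) I.2.2.1 := rfl
  have hBdef : sideB I (s, t) = sdf (del (del I.1 s) t) (sideA I (s, t)) := rfl
  rw [← hAdef] at hA1 hA2
  rw [c3_del2] at hA1
  have hAsub : (sideA I (s, t)).toFinset ⊆ vt I \ {s, t} := by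
    rw [hA1]; exact fwd_subset
  have hB1 : (sideB I (s, t)).toFinset = (vt I \ {s, t}) \ (sideA I (s, t)).toFinset := by
    rw [hBdef]
    ext w
    simp only [List.mem_toFinset, c3_mem_sdf, c3_mem_del, Finset.mem_sdiff, Finset.mem_insert,
      Finset.mem_singleton]
    tauto
  have hBn : (sideB I (s, t)).Nodup := by
    rw [hBdef]; exact hW.filter _
  have hcl : Cl (rl I) (vt I \ {s, t}) (sideA I (s, t)).toFinset := by
    rw [hA1]; exact fwd_cl
  have hAY : ∀ v ∈ (sideA I (s, t)).toFinset, v ∉ I.2.2.2 := by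
    intro v hv
    rw [List.mem_toFinset] at hv
    have := List.all_eq_true.1 h2 v hv
    simpa using this
  have hst2 : ({s, t} : Finset ℕ).card = 2 := Finset.card_pair h1
  have hst3 : ({s, t} : Finset ℕ) ⊆ vt I := by
    intro x hx
    rw [Finset.mem_insert, Finset.mem_singleton] at hx
    rcases hx with rfl | rfl
    · exact List.mem_toFinset.2 hs
    · exact List.mem_toFinset.2 ht
  refine ⟨⟨List.mem_toFinset.2 hs, List.mem_toFinset.2 ht, h1, ?_, ?_, ?_, ?_, ?_, ?_, ?_⟩,
    hA2, hBn, h5, ?_⟩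
  · rw [List.toFinset_nonempty_iff]
    intro h6
    rw [h6] at h3
    simp at h3
  · obtain ⟨v, hv, hv2⟩ := List.any_eq_true.1 h4
    refine ⟨v, ?_⟩
    rw [hB1, Finset.mem_sdiff, ← c3_del2, List.mem_toFinset]
    exact ⟨hv, fun h6 => hAY v h6 (by simpa using hv2)⟩
  · rw [hB1]; exact Finset.disjoint_sdiff
  · rw [hB1]; exact Finset.union_sdiff_of_subset hAsub
  · intro a ha b hb hab
    rw [hB1, Finset.mem_sdiff] at hb
    exact hb.2 (hcl a ha b hb.1 hab)
  · intro x hx hxX hxB
    rw [hB1, Finset.mem_sdiff] at hxB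
    apply hxB.2
    rw [hA1]
    exact subset_fwd x hxB.1 (by
      rw [Finset.mem_inter, List.mem_toFinset (l := I.2.2.1)] at hxX
      exact hxX.2)
  · intro y hy hyY hyA
    rw [Finset.mem_inter, List.mem_toFinset (l := I.2.2.2)] at hyY
    exact hAY y hyA hyY.2
  · rw [← c3_card hA2, ← c3_card hBn, ← c3_card h.nodup, hB1, Finset.card_sdiff_of_subset hAsub,
      Finset.card_sdiff_of_subset hst3, hst2]
    have h6 := Finset.card_le_card hAsub
    rw [Finset.card_sdiff_of_subset hst3, hst2] at h6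
    have h7 := Finset.card_le_card hst3
    rw [hst2] at h7
    have h8 : (vt I).card = I.1.toFinset.card := rfl
    omega

theorem c3_truth (I : Inst) : Truth I ↔ HP (rl I) (vt I) ↑(vt I ∩ I.2.2.1.toFinset)
    ↑(vt I ∩ I.2.2.2.toFinset) := by
  constructor
  · intro h
    refine HP.mono h (fun x hx hxX => ?_) (fun x hx hxX => ?_)
    · rw [Finset.coe_inter]
      exact ⟨hx, by simpa using hxX⟩
    · rw [Finset.coe_inter]
      exact ⟨hx, by simpa using hxX⟩
  · intro h
    refine HP.mono h (fun x hx hxX => ?_) (fun x hx hxX => ?_)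
    · rw [Finset.coe_inter] at hxX
      simpa using hxX.2
    · rw [Finset.coe_inter] at hxX
      simpa using hxX.2

theorem c3_conn {I : Inst} (hc : Conn (rl I) (vt I) {x | x ∈ I.2.2.1} {y | y ∈ I.2.2.2} 2) :
    Conn (rl I) (vt I) ↑(vt I ∩ I.2.2.1.toFinset) ↑(vt I ∩ I.2.2.2.toFinset) 2 := by
  intro S hS hk U hU hX hcl
  obtain ⟨u, hu, huY⟩ := hc S hS hk U hU (fun x hx hxX => hX x hx (by
    rw [Finset.coe_inter]
    exact ⟨(Finset.mem_sdiff.1 hx).1, by simpa using hxX⟩)) hcl
  refine ⟨u, hu, ?_⟩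
  rw [Finset.coe_inter]
  exact ⟨(Finset.mem_sdiff.1 (hU hu)).1, by simpa using huY⟩

theorem c3_S.AV {I : Inst} {s t : ℕ} {A B : List ℕ} (h : c3_S I s t A B) :
    A.toFinset ⊆ vt I \ {s, t} := by
  rw [← h.sep.hu]; exact Finset.subset_union_left

theorem c3_S.BV {I : Inst} {s t : ℕ} {A B : List ℕ} (h : c3_S I s t A B) :
    B.toFinset ⊆ vt I \ {s, t} := by
  rw [← h.sep.hu]; exact Finset.subset_union_right

theorem c3_S.memA {I : Inst} {s t : ℕ} {A B : List ℕ} (h : c3_S I s t A B) {v : ℕ} (hv : v ∈ A) :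
    v ∈ I.1 ∧ v ≠ s ∧ v ≠ t := by
  have := h.AV (List.mem_toFinset.2 hv)
  simp only [Finset.mem_sdiff, List.mem_toFinset, Finset.mem_insert, Finset.mem_singleton] at this
  tauto

theorem c3_S.memB {I : Inst} {s t : ℕ} {A B : List ℕ} (h : c3_S I s t A B) {v : ℕ} (hv : v ∈ B) :
    v ∈ I.1 ∧ v ≠ s ∧ v ≠ t := by
  have := h.BV (List.mem_toFinset.2 hv)
  simp only [Finset.mem_sdiff, List.mem_toFinset, Finset.mem_insert, Finset.mem_singleton] at this
  tauto

theorem c3_S.ms {I : Inst} {s t : ℕ} {A B : List ℕ} (h : c3_S I s t A B) : s ∈ I.1 :=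
  List.mem_toFinset.1 h.sep.hs

theorem c3_S.mt {I : Inst} {s t : ℕ} {A B : List ℕ} (h : c3_S I s t A B) : t ∈ I.1 :=
  List.mem_toFinset.1 h.sep.ht

theorem c3_mk_fst (V : List ℕ) (E : List (ℕ × ℕ)) (X Y : List ℕ) : (mk V E X Y).1 = V := rfl

theorem c3_pot_mk (V : List ℕ) (E : List (ℕ × ℕ)) (X Y : List ℕ) :
    pot (mk V E X Y) = V.length ^ 4 := rfl

/-! the questions -/

theorem c3_lam {I : Inst} (h : WF I) {u f : ℕ} {A B : List ℕ} (hS : c3_S I u f A B) :
    (Truth (qLam I A u f) ↔ Lam (rl I) A.toFinset (vt I ∩ I.2.2.1.toFinset) u f) ∧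
      wfB (qLam I A u f) = true ∧ (∀ v ∈ (qLam I A u f).1, v ∈ I.1) ∧
      pot (qLam I A u f) = (A.length + 1) ^ 4 := by
  have hsub : (u :: A).toFinset ⊆ vt I := by
    intro x hx
    rw [List.mem_toFinset, List.mem_cons] at hx
    rcases hx with rfl | hx
    · exact hS.sep.hs
    · exact List.mem_toFinset.2 (hS.memA hx).1
  have hrel : ∀ a b, rel (I.2.1 ++ A.map (fun v => (u, v))) a b ↔ rl I a b ∨ (a = u ∧ b ∈ A) := by
    intro a b
    simp only [rel, List.mem_append, List.mem_map, Prod.mk.injEq]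
    constructor
    · rintro (h | ⟨v, hv, rfl, rfl⟩)
      · exact Or.inl h
      · exact Or.inr ⟨rfl, hv⟩
    · rintro (h | ⟨rfl, hb⟩)
      · exact Or.inl h
      · exact Or.inr ⟨b, hb, rfl, rfl⟩
  refine ⟨?_, ?_, ?_, ?_⟩
  · rw [qLam, truth_mk, Lam, ← List.toFinset_cons]
    constructor
    · intro h1
      refine HP.congr (HP.mono h1 (fun x hx hxX => ?_) (fun x hx hxX => ?_)) ?_
      · simp only [Set.mem_ofPred_eq] at hxX ⊢
        rw [Finset.mem_inter, List.mem_toFinset (l := I.2.2.1)]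
        exact ⟨hsub hx, hxX⟩
      · simp only [Set.mem_ofPred_eq, List.mem_filter, ar, decide_eq_true_eq] at hxX
        exact ⟨List.mem_toFinset.2 hxX.1, hxX.2⟩
      · intro a ha b hb hab h2
        rcases (hrel a b).1 h2 with h3 | h3
        · exact Or.inr h3
        · exact Or.inl h3.1
    · intro h1
      refine HP.congr (HP.mono h1 (fun x hx hxX => ?_) (fun x hx hxX => ?_)) ?_
      · simp only [Set.mem_ofPred_eq] at hxX ⊢
        rw [Finset.mem_inter, List.mem_toFinset (l := I.2.2.1)] at hxX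
        exact hxX.2
      · simp only [Set.mem_ofPred_eq, List.mem_filter, ar, decide_eq_true_eq]
        exact ⟨List.mem_toFinset.1 hxX.1, hxX.2⟩
      · intro a ha b hb hab h2
        rw [hrel]
        rcases h2 with rfl | h2
        · right
          rw [List.mem_toFinset, List.mem_cons] at hb
          exact ⟨rfl, hb.resolve_left (Ne.symm hab)⟩
        · exact Or.inl h2
  · refine wf_mk _ _ (by simp) ?_ ?_
    · rw [List.nodup_cons]
      exact ⟨fun h1 => (hS.memA h1).2.1 rfl, hS.nA⟩
    · intro a ha b hb hab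
      rcases h.semi a (hsub ha) b (hsub hb) hab with h1 | h1
      · left; rw [hrel]; exact Or.inl h1
      · right; rw [hrel]; exact Or.inl h1
  · intro v hv
    exact List.mem_toFinset.1 (hsub (List.mem_toFinset.2 hv))
  · rfl

theorem c3_qp {I : Inst} (h : WF I) {u f : ℕ} {A B : List ℕ} (hS : c3_S I u f A B) :
    (Truth (mk A I.2.1 I.2.2.1 (ins I.1 I.2.1 u)) ↔
      HP (rl I) A.toFinset ↑(vt I ∩ I.2.2.1.toFinset) {v | rl I v u}) ∧
      wfB (mk A I.2.1 I.2.2.1 (ins I.1 I.2.1 u)) = true := by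
  have hsub : A.toFinset ⊆ vt I := fun x hx => (Finset.mem_sdiff.1 (hS.AV hx)).1
  refine ⟨?_, ?_⟩
  · rw [truth_mk]
    constructor
    · intro h1
      refine HP.mono h1 (fun x hx hxX => ?_) (fun x hx hxX => ?_)
      · rw [Finset.coe_inter]
        exact ⟨hsub hx, by simpa using hxX⟩
      · simp only [Set.mem_ofPred_eq, ins, List.mem_filter, ar, decide_eq_true_eq] at hxX
        exact hxX.2
    · intro h1
      refine HP.mono h1 (fun x hx hxX => ?_) (fun x hx hxX => ?_)
      · rw [Finset.coe_inter] at hxX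
        simpa using hxX.2
      · simp only [Set.mem_ofPred_eq, ins, List.mem_filter, ar, decide_eq_true_eq]
        exact ⟨List.mem_toFinset.1 (hsub hx), hxX⟩
  · refine wf_mk _ _ ?_ hS.nA ?_
    · have := hS.sep.hA
      rwa [List.toFinset_nonempty_iff] at this
    · exact h.semi.mono hsub

theorem c3_qq {I : Inst} (h : WF I) {u f : ℕ} {A B : List ℕ} (hS : c3_S I u f A B) :
    (Truth (mk (f :: A) I.2.1 I.2.2.1 (ins I.1 I.2.1 u)) ↔
      HP (rl I) (insert f A.toFinset) ↑(vt I ∩ I.2.2.1.toFinset) {v | rl I v u}) ∧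
      wfB (mk (f :: A) I.2.1 I.2.2.1 (ins I.1 I.2.1 u)) = true := by
  have hsub : (f :: A).toFinset ⊆ vt I := by
    intro x hx
    rw [List.mem_toFinset, List.mem_cons] at hx
    rcases hx with rfl | hx
    · exact hS.sep.ht
    · exact List.mem_toFinset.2 (hS.memA hx).1
  refine ⟨?_, ?_⟩
  · rw [truth_mk, ← List.toFinset_cons]
    constructor
    · intro h1
      refine HP.mono h1 (fun x hx hxX => ?_) (fun x hx hxX => ?_)
      · rw [Finset.coe_inter]
        exact ⟨hsub hx, by simpa using hxX⟩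
      · simp only [Set.mem_ofPred_eq, ins, List.mem_filter, ar, decide_eq_true_eq] at hxX
        exact hxX.2
    · intro h1
      refine HP.mono h1 (fun x hx hxX => ?_) (fun x hx hxX => ?_)
      · rw [Finset.coe_inter] at hxX
        simpa using hxX.2
      · simp only [Set.mem_ofPred_eq, ins, List.mem_filter, ar, decide_eq_true_eq]
        exact ⟨List.mem_toFinset.1 (hsub hx), hxX⟩
  · refine wf_mk _ _ (by simp) ?_ ?_
    · rw [List.nodup_cons]
      exact ⟨fun h1 => (hS.memA h1).2.2 rfl, hS.nA⟩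
    · exact h.semi.mono hsub

theorem c3_relE' (E : List (ℕ × ℕ)) (B : List ℕ) (u f : ℕ) (c : Bool) (a b : ℕ) :
    rel (E.filter (fun e => decide (e.2 ≠ u)) ++ B.map (fun v => (v, u)) ++
      (if c then [(f, u)] else [])) a b ↔
      newr (rel E) B.toFinset u f (c = true) a b := by
  have h1 : (a, b) ∈ (if c then [(f, u)] else []) ↔ (c = true ∧ a = f ∧ b = u) := by
    cases c <;> simp
  simp only [rel, newr, List.mem_append, List.mem_filter, List.mem_map, Prod.mk.injEq,
    decide_eq_true_eq, List.mem_toFinset, h1]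
  constructor
  · rintro ((⟨h2, h3⟩ | ⟨v, hv, rfl, rfl⟩) | ⟨h2, rfl, rfl⟩)
    · exact Or.inr ⟨h3, h2⟩
    · exact Or.inl ⟨rfl, Or.inl hv⟩
    · exact Or.inl ⟨rfl, Or.inr ⟨rfl, h2⟩⟩
  · rintro (⟨rfl, h2 | ⟨rfl, h2⟩⟩ | ⟨h2, h3⟩)
    · exact Or.inl (Or.inr ⟨a, h2, rfl, rfl⟩)
    · exact Or.inr ⟨h2, rfl, rfl⟩
    · exact Or.inl (Or.inl ⟨h3, h2⟩)

theorem c3_newr_congr {r : ℕ → ℕ → Prop} {B : Finset ℕ} {u f : ℕ} {P Q : Prop} (h : P ↔ Q)
    {a b : ℕ} (hab : newr r B u f P a b) : newr r B u f Q a b := by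
  unfold newr at hab ⊢
  rw [← h]; exact hab

theorem c3_last {I : Inst} (h : WF I) (h2 : TwoStrong (rl I) (vt I))
    (hc : Conn (rl I) (vt I) ↑(vt I ∩ I.2.2.1.toFinset) ↑(vt I ∩ I.2.2.2.toFinset) 2)
    {u f : ℕ} {A B : List ℕ} (hS : c3_S I u f A B)
    (h1 : ¬ Lam (rl I) A.toFinset (vt I ∩ I.2.2.1.toFinset) u f)
    (h1' : Lam (rl I) A.toFinset (vt I ∩ I.2.2.1.toFinset) f u) {p q : Bool}
    (hp : p = true ↔ HP (rl I) A.toFinset ↑(vt I ∩ I.2.2.1.toFinset) {v | rl I v u})
    (hq : q = true ↔ HP (rl I) (insert f A.toFinset) ↑(vt I ∩ I.2.2.1.toFinset)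
      {v | rl I v u}) :
    (Truth (qLast I B u f p q) ↔ Truth I) ∧ wfB (qLast I B u f p q) = true ∧
      (∀ v ∈ (qLast I B u f p q).1, v ∈ I.1) ∧ pot (qLast I B u f p q) ≤ (B.length + 2) ^ 4 := by
  have huf : u ≠ f := hS.sep.hst
  have hsub : (u :: f :: B).toFinset ⊆ vt I := by
    intro x hx
    rw [List.mem_toFinset, List.mem_cons, List.mem_cons] at hx
    rcases hx with rfl | rfl | hx
    · exact hS.sep.hs
    · exact hS.sep.ht
    · exact List.mem_toFinset.2 (hS.memB hx).1
  have hsub' : (u :: B).toFinset ⊆ vt I := by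
    intro x hx
    rw [List.mem_toFinset, List.mem_cons] at hx
    rcases hx with rfl | hx
    · exact hS.sep.hs
    · exact List.mem_toFinset.2 (hS.memB hx).1
  rw [c3_truth I]
  cases p with
  | true =>
    have hP := hp.1 rfl
    have hdef : qLast I B u f true q = mk (u :: f :: B)
      (I.2.1.filter (fun e => decide (e.2 ≠ u)) ++ B.map (fun v => (v, u)) ++
        (if q then [(f, u)] else [])) [u, f] I.2.2.2 := by
      cases q <;> rfl
    rw [hdef]
    refine ⟨?_, ?_, ?_, ?_⟩
    · rw [truth_mk, rule5_pos h.semi h2 hc hS.sep h1 h1' hP, List.toFinset_cons,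
        List.toFinset_cons]
      constructor
      · intro h3
        refine HP.congr (HP.mono h3 (fun x hx hxX => ?_) (fun x hx hxX => ?_)) ?_
        · simpa using hxX
        · rw [Finset.coe_inter]
          rw [← List.toFinset_cons, ← List.toFinset_cons] at hx
          exact ⟨hsub hx, by simpa using hxX⟩
        · intro a ha b hb hab h4
          exact c3_newr_congr hq ((c3_relE' _ _ _ _ _ _ _).1 h4)
      · intro h3
        refine HP.congr (HP.mono h3 (fun x hx hxX => ?_) (fun x hx hxX => ?_)) ?_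
        · simpa using hxX
        · rw [Finset.coe_inter] at hxX
          simpa using hxX.2
        · intro a ha b hb hab h4
          exact (c3_relE' _ _ _ _ _ _ _).2 (c3_newr_congr hq.symm h4)
    · refine wf_mk _ _ (by simp) ?_ ?_
      · rw [List.nodup_cons, List.nodup_cons, List.mem_cons]
        refine ⟨?_, fun h3 => (hS.memB h3).2.2 rfl, hS.nB⟩
        rintro (h3 | h3)
        · exact huf h3
        · exact (hS.memB h3).2.1 rfl
      · have key : ∀ b ∈ (u :: f :: B).toFinset, b ≠ u →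
            rel (I.2.1.filter (fun e => decide (e.2 ≠ u)) ++ B.map (fun v => (v, u)) ++
              (if q then [(f, u)] else [])) u b ∨
            rel (I.2.1.filter (fun e => decide (e.2 ≠ u)) ++ B.map (fun v => (v, u)) ++
              (if q then [(f, u)] else [])) b u := by
          intro b hb hbu
          rw [c3_relE', c3_relE']
          rw [List.mem_toFinset, List.mem_cons, List.mem_cons] at hb
          rcases hb with rfl | rfl | hb
          · exact absurd rfl hbu
          · by_cases hqt : q = true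
            · right; left; exact ⟨rfl, Or.inr ⟨rfl, hqt⟩⟩
            · left; right
              refine ⟨hbu, ?_⟩
              exact rule5_mono h.semi hc hS.sep hP (fun h5 => hqt (hq.2 h5))
          · right; left; exact ⟨rfl, Or.inl (List.mem_toFinset.2 hb)⟩
        intro a ha b hb hab
        by_cases hau : a = u
        · subst hau
          exact key b hb (Ne.symm hab)
        · by_cases hbu : b = u
          · subst hbu
            exact (key a ha hau).symm
          · rw [c3_relE', c3_relE']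
            rcases h.semi a (hsub ha) b (hsub hb) hab with h3 | h3
            · left; right; exact ⟨hbu, h3⟩
            · right; right; exact ⟨hau, h3⟩
    · intro v hv
      exact List.mem_toFinset.1 (hsub (List.mem_toFinset.2 hv))
    · rw [c3_pot_mk]; simp
  | false =>
    have hP : ¬ HP (rl I) A.toFinset ↑(vt I ∩ I.2.2.1.toFinset) {v | rl I v u} := by
      intro h3
      have := hp.2 h3
      cases this
    have hdef : qLast I B u f false q = mk (u :: B)
      (I.2.1.filter (fun e => decide (e.2 ≠ u)) ++ B.map (fun v => (v, u)) ++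
        (if false then [(f, u)] else [])) (outs B I.2.1 f ++ (if q then [u] else [])) I.2.2.2 := by
      cases q <;> rfl
    have hst : ∀ x, x ∈ outs B I.2.1 f ++ (if q then [u] else []) ↔
        (x ∈ B.toFinset ∧ rl I f x) ∨ (x = u ∧ HP (rl I) (insert f A.toFinset)
          ↑(vt I ∩ I.2.2.1.toFinset) {v | rl I v u}) := by
      intro x
      rw [← hq, List.mem_append]
      have h3 : x ∈ outs B I.2.1 f ↔ (x ∈ B.toFinset ∧ rl I f x) := by
        simp only [outs, List.mem_filter, ar, decide_eq_true_eq, List.mem_toFinset]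
        rfl
      have h4 : x ∈ (if q then [u] else []) ↔ (x = u ∧ q = true) := by
        cases q <;> simp
      rw [h3, h4]
    rw [hdef]
    refine ⟨?_, ?_, ?_, ?_⟩
    · rw [truth_mk, rule5_neg h.semi h2 hc hS.sep h1 h1' hP, List.toFinset_cons]
      constructor
      · intro h3
        refine HP.congr (HP.mono h3 (fun x hx hxX => ?_) (fun x hx hxX => ?_)) ?_
        · exact (hst x).1 hxX
        · rw [Finset.coe_inter]
          rw [← List.toFinset_cons] at hx
          exact ⟨hsub' hx, by simpa using hxX⟩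
        · intro a ha b hb hab h4
          exact c3_newr_congr (by simp) ((c3_relE' _ _ _ _ _ _ _).1 h4)
      · intro h3
        refine HP.congr (HP.mono h3 (fun x hx hxX => ?_) (fun x hx hxX => ?_)) ?_
        · exact (hst x).2 hxX
        · rw [Finset.coe_inter] at hxX
          simpa using hxX.2
        · intro a ha b hb hab h4
          exact (c3_relE' _ _ _ _ _ _ _).2 (c3_newr_congr (by simp) h4)
    · refine wf_mk _ _ (by simp) ?_ ?_
      · rw [List.nodup_cons]
        exact ⟨fun h3 => (hS.memB h3).2.1 rfl, hS.nB⟩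
      · have key : ∀ b ∈ (u :: B).toFinset, b ≠ u →
            rel (I.2.1.filter (fun e => decide (e.2 ≠ u)) ++ B.map (fun v => (v, u)) ++
              (if false then [(f, u)] else [])) b u := by
          intro b hb hbu
          rw [c3_relE']
          rw [List.mem_toFinset, List.mem_cons] at hb
          left
          exact ⟨rfl, Or.inl (List.mem_toFinset.2 (hb.resolve_left hbu))⟩
        intro a ha b hb hab
        by_cases hau : a = u
        · subst hau
          exact Or.inr (key b hb (Ne.symm hab))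
        · by_cases hbu : b = u
          · subst hbu
            exact Or.inl (key a ha hau)
          · rw [c3_relE', c3_relE']
            rcases h.semi a (hsub' ha) b (hsub' hb) hab with h3 | h3
            · left; right; exact ⟨hbu, h3⟩
            · right; right; exact ⟨hau, h3⟩
    · intro v hv
      exact List.mem_toFinset.1 (hsub' (List.mem_toFinset.2 hv))
    · rw [c3_pot_mk]
      exact Nat.pow_le_pow_left (by simp) 4

theorem c3_arith {a b : ℕ} (ha : 1 ≤ a) (hab : a ≤ b) :
    (a + 1) ^ 4 + (a + 1) ^ 4 + a ^ 4 + (a + 1) ^ 4 + (b + 2) ^ 4 + 1 ≤ (a + b + 2) ^ 4 := by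
  obtain ⟨k, rfl⟩ := Nat.exists_eq_add_of_le hab
  obtain ⟨c, rfl⟩ := Nat.exists_eq_add_of_le ha
  refine Nat.le.intro (k := 125 + 304 * c + 276 * c * k + 60 * c * k ^ 2 + 4 * c * k ^ 3 +
    252 * c ^ 2 + 156 * c ^ 2 * k + 18 * c ^ 2 * k ^ 2 + 88 * c ^ 3 + 28 * c ^ 3 * k +
    11 * c ^ 4 + 148 * k + 42 * k ^ 2 + 4 * k ^ 3) ?_
  ring

theorem c3_pivot {I : Inst} (h : WF I) (h2 : TwoStrong (rl I) (vt I))
    (hc : Conn (rl I) (vt I) ↑(vt I ∩ I.2.2.1.toFinset) ↑(vt I ∩ I.2.2.2.toFinset) 2)
    {u f : ℕ} {A B : List ℕ} (hS : c3_S I u f A B)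
    (h1 : ¬ Lam (rl I) A.toFinset (vt I ∩ I.2.2.1.toFinset) u f)
    (h1' : Lam (rl I) A.toFinset (vt I ∩ I.2.2.1.toFinset) f u) {c : ℕ}
    (hcb : c ≤ (A.length + 1) ^ 4 + (A.length + 1) ^ 4) :
    c3_OK I (fun rs => alg5' I A B u f rs) c := by
  have hA1 : 1 ≤ A.length := by
    have := hS.sep.hA
    rw [List.toFinset_nonempty_iff] at this
    exact List.length_pos_of_ne_nil this
  have har := c3_arith hA1 hS.le
  have hpI : pot I = (A.length + B.length + 2) ^ 4 := by
    rw [hS.len]; rfl
  obtain ⟨hp1, hp2⟩ := c3_qp h hS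
  obtain ⟨hq1, hq2⟩ := c3_qq h hS
  refine c3_step (J := mk A I.2.1 I.2.2.1 (ins I.1 I.2.1 u)) rfl hp2
    (fun v hv => (hS.memA hv).1) ?_ fun p hp => ?_
  · rw [c3_pot_mk, hpI]; omega
  refine c3_step (J := mk (f :: A) I.2.1 I.2.2.1 (ins I.1 I.2.1 u)) rfl hq2
    (fun v hv => ?_) ?_ fun q hq => ?_
  · rw [c3_mk_fst, List.mem_cons] at hv
    rcases hv with rfl | hv
    · exact hS.mt
    · exact (hS.memA hv).1
  · rw [c3_pot_mk, c3_pot_mk, hpI, List.length_cons]; omega
  obtain ⟨hl1, hl2, hl3, hl4⟩ := c3_last h h2 hc hS h1 h1' (hp.trans hp1) (hq.trans hq1)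
  refine c3_step (J := qLast I B u f p q) rfl hl2 hl3 ?_ fun b hb => ?_
  · rw [c3_pot_mk, c3_pot_mk, hpI, List.length_cons]; omega
  exact c3_done (b := b) (fun rs => rfl) (hb.trans hl1)

theorem ok5 {I : Inst} (h : WF I) (hn : 7 ≤ I.1.length) (h2 : TwoStrong (rl I) (vt I))
    (hc : Conn (rl I) (vt I) {x | x ∈ I.2.2.1} {y | y ∈ I.2.2.2} 2)
    {g : List Bool → Bool ⊕ Inst} (hg : ∀ rs, alg5 I rs = some (g rs)) : RuleOK I g := by
  have hc' := c3_conn hc
  cases hh : ((prs I.1).filter (cond5 I)).head? with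
  | none =>
    have h3 := hg []
    rw [alg5, hh] at h3
    cases h3
  | some p =>
    have hmem : p ∈ (prs I.1).filter (cond5 I) := List.mem_of_mem_head? hh
    rw [List.mem_filter] at hmem
    have hS := c3_sep h hmem.1 hmem.2
    obtain ⟨s, t⟩ := p
    dsimp only at hS
    set A := sideA I (s, t) with hA
    set B := sideB I (s, t) with hB
    have hS' := hS.symm
    have hg' : ∀ rs, g rs = (match rs with
      | [] => Sum.inr (qLam I A s t)
      | l1 :: rs1 => match rs1 with
        | [] => Sum.inr (qLam I A t s)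
        | l2 :: rs2 =>
          if l1 && l2 then Sum.inl true
          else if l1 then alg5' I A B t s rs2
          else alg5' I A B s t rs2) := by
      intro rs
      have h3 := hg rs
      rw [alg5, hh] at h3
      exact (Option.some.inj h3).symm
    have hA1 : 1 ≤ A.length := by
      have := hS.sep.hA
      rw [List.toFinset_nonempty_iff] at this
      exact List.length_pos_of_ne_nil this
    have har := c3_arith hA1 hS.le
    have hpI : pot I = (A.length + B.length + 2) ^ 4 := by
      rw [hS.len]; rfl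
    obtain ⟨ha1, ha2, ha3, ha4⟩ := c3_lam h hS
    obtain ⟨hb1, hb2, hb3, hb4⟩ := c3_lam h hS'
    have key : c3_OK I g 0 := by
      refine c3_step (J := qLam I A s t) (hg' []) ha2 ha3 (by rw [ha4, hpI]; omega)
        fun l1 hl1 => ?_
      refine c3_step (J := qLam I A t s) (hg' [l1]) hb2 hb3 (by rw [ha4, hb4, hpI]; omega)
        fun l2 hl2 => ?_
      rw [ha1] at hl1
      rw [hb1] at hl2
      have hL := lemmaL h.semi h2 hc' hS.sep
      cases l1 with
      | true =>
        cases l2 with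
        | true =>
          refine c3_done (b := true) (fun rs => hg' (true :: true :: rs)) ?_
          refine ⟨fun _ => ?_, fun _ => rfl⟩
          rw [c3_truth]
          exact rule5_yes h.semi h2 hc' hS.sep (hl1.1 rfl) (hl2.1 rfl)
        | false =>
          have h3 : (fun rs => (fun rs => g (true :: rs)) (false :: rs)) =
              (fun rs => alg5' I A B t s rs) := by
            funext rs
            exact hg' (true :: false :: rs)
          rw [h3]
          refine c3_pivot h h2 hc' hS' (fun h4 => ?_) (hl1.1 rfl) (by rw [ha4, hb4]; omega)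
          have := hl2.2 h4
          cases this
      | false =>
        have hns : ¬ Lam (rl I) A.toFinset (vt I ∩ I.2.2.1.toFinset) s t := fun h4 => by
          have := hl1.2 h4
          cases this
        have h3 : (fun rs => (fun rs => g (false :: rs)) (l2 :: rs)) =
            (fun rs => alg5' I A B s t rs) := by
          funext rs
          have := hg' (false :: l2 :: rs)
          cases l2 <;> exact this
        rw [h3]
        exact c3_pivot h h2 hc' hS hns (hL.resolve_left hns) (by rw [ha4, hb4]; omega)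
    intro rs js hist
    obtain ⟨h5, h6⟩ := key rs js hist
    refine ⟨h5, fun J hJ => ?_⟩
    obtain ⟨h7, h8, h9⟩ := h6 J hJ
    exact ⟨h7, h8, by omega⟩

theorem c3_none {I : Inst} (h5 : alg5 I [] = none) {s t : ℕ} (hs : s ∈ I.1) (ht : t ∈ I.1)
    (hc : cond5 I (s, t) = true) : False := by
  cases hh : ((prs I.1).filter (cond5 I)).head? with
  | none =>
    rw [List.head?_eq_none_iff] at hh
    have : (s, t) ∈ (prs I.1).filter (cond5 I) := List.mem_filter.2 ⟨c3_mem_prs.2 ⟨hs, ht⟩, hc⟩
    rw [hh] at this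
    cases this
  | some p =>
    rw [alg5, hh] at h5
    cases h5

theorem c3_rel_rev (E : List (ℕ × ℕ)) (a b : ℕ) : rel (revE E) a b ↔ rel E b a := by
  simp only [rel, revE, List.mem_map, Prod.mk.injEq, Prod.exists]
  constructor
  · rintro ⟨x, y, h, rfl, rfl⟩; exact h
  · intro h; exact ⟨b, a, h, rfl, rfl⟩

/-- when the condition of rule R5 holds -/
theorem c3_cond {I : Inst} {s t : ℕ} (h1 : s ≠ t)
    (hAY : ∀ v ∈ sideA I (s, t), v ∉ I.2.2.2) (hA : ∃ v, v ∈ sideA I (s, t))
    (hY : ∃ v ∈ del (del I.1 s) t, v ∈ I.2.2.2)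
    (hle : (sideA I (s, t)).length ≤ (sideB I (s, t)).length) : cond5 I (s, t) = true := by
  simp only [cond5, Bool.and_eq_true, decide_eq_true_eq]
  refine ⟨⟨⟨⟨h1, ?_⟩, ?_⟩, ?_⟩, hle⟩
  · rw [List.all_eq_true]
    intro v hv
    simpa using hAY v hv
  · obtain ⟨v, hv⟩ := hA
    cases hq : sideA I (s, t) with
    | nil => rw [hq] at hv; cases hv
    | cons a l => rfl
  · obtain ⟨v, hv, hv2⟩ := hY
    rw [List.any_eq_true]
    exact ⟨v, hv, by simpa using hv2⟩

theorem c3_side {I : Inst} (h : I.1.Nodup) (s t : ℕ) :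
    (sideA I (s, t)).toFinset = fwd (rl I) (vt I \ {s, t}) {x | x ∈ I.2.2.1} ∧
      (sideB I (s, t)).toFinset = (vt I \ {s, t}) \ (sideA I (s, t)).toFinset ∧
      (sideA I (s, t)).Nodup ∧ (sideB I (s, t)).Nodup := by
  have hW := c3_del2_nodup h s t
  obtain ⟨hA1, hA2⟩ := reach_spec I.2.1 hW I.2.2.1
  have hAdef : sideA I (s, t) = reach I.2.1 (del (del I.1 s) t) I.2.2.1 := rfl
  have hBdef : sideB I (s, t) = sdf (del (del I.1 s) t) (sideA I (s, t)) := rfl
  rw [← hAdef] at hA1 hA2
  rw [c3_del2] at hA1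
  refine ⟨hA1, ?_, hA2, ?_⟩
  · rw [hBdef]
    ext w
    simp only [List.mem_toFinset, c3_mem_sdf, c3_mem_del, Finset.mem_sdiff, Finset.mem_insert,
      Finset.mem_singleton]
    tauto
  · rw [hBdef]; exact hW.filter _

theorem none5 {I : Inst} (h : WF I)
    (hc : Conn (rl I) (vt I) {x | x ∈ I.2.2.1} {y | y ∈ I.2.2.2} 2) (h5 : alg5 I [] = none)
    (h5' : alg5 (revI I) [] = none) :
    Triv (rl I) (vt I) (vt I ∩ I.2.2.1.toFinset) (vt I ∩ I.2.2.2.toFinset) := by
  intro S hSV hS2 hXS hYS U hU hXU hcl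
  by_contra hcon
  push Not at hcon
  obtain ⟨s, t, hst, rfl⟩ := Finset.card_eq_two.1 hS2
  have hs : s ∈ I.1 := List.mem_toFinset.1 (hSV (by simp))
  have ht : t ∈ I.1 := List.mem_toFinset.1 (hSV (by simp))
  obtain ⟨x, hx, hxS⟩ := Finset.not_subset.1 hXS
  obtain ⟨y, hy, hyS⟩ := Finset.not_subset.1 hYS
  rw [Finset.mem_inter, List.mem_toFinset (l := I.2.2.1)] at hx
  rw [Finset.mem_inter, List.mem_toFinset (l := I.2.2.2)] at hy
  have hxW : x ∈ vt I \ {s, t} := Finset.mem_sdiff.2 ⟨hx.1, hxS⟩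
  have hyW : y ∈ vt I \ {s, t} := Finset.mem_sdiff.2 ⟨hy.1, hyS⟩
  obtain ⟨hA, hB, nA, nB⟩ := c3_side h.nodup s t
  have hAU : (sideA I (s, t)).toFinset ⊆ U := by
    rw [hA]
    refine fwd_min hU (fun z hz hzX => hXU z hz ?_) hcl
    rw [Finset.mem_inter, List.mem_toFinset (l := I.2.2.1)]
    exact ⟨(Finset.mem_sdiff.1 hz).1, hzX⟩
  have hAY : ∀ v ∈ sideA I (s, t), v ∉ I.2.2.2 := by
    intro v hv hvY
    have h6 := hAU (List.mem_toFinset.2 hv)
    apply hcon v h6
    rw [Finset.mem_inter, List.mem_toFinset (l := I.2.2.2)]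
    exact ⟨(Finset.mem_sdiff.1 (hU h6)).1, hvY⟩
  have hxA : x ∈ sideA I (s, t) := by
    rw [← List.mem_toFinset, hA]
    exact subset_fwd x hxW hx.2
  rw [← c3_del2, List.mem_toFinset] at hxW hyW
  rcases le_or_gt (sideA I (s, t)).length (sideB I (s, t)).length with hle | hlt
  · exact c3_none h5 hs ht (c3_cond hst hAY ⟨x, hxA⟩ ⟨y, hyW, hy.2⟩ hle)
  · obtain ⟨hA', hB', nA', nB'⟩ := c3_side (I := revI I) h.nodup s t
    have hvt : vt (revI I) = vt I := rfl
    have hAsub : (sideA I (s, t)).toFinset ⊆ vt I \ {s, t} := by rw [hA]; exact fwd_subset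
    have hA'sub : (sideA (revI I) (s, t)).toFinset ⊆ vt I \ {s, t} := by
      rw [hA']; exact fwd_subset
    have h6 : (sideA (revI I) (s, t)).toFinset ⊆ (sideB I (s, t)).toFinset := by
      rw [hA', hB, hvt]
      refine fwd_min Finset.sdiff_subset (fun z hz hzY => ?_) ?_
      · refine Finset.mem_sdiff.2 ⟨hz, fun h7 => ?_⟩
        exact hAY z (List.mem_toFinset.1 h7) hzY
      · intro a ha b hb hab
        refine Finset.mem_sdiff.2 ⟨hb, fun h7 => ?_⟩
        have h8 : rl I b a := (c3_rel_rev _ _ _).1 hab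
        apply (Finset.mem_sdiff.1 ha).2
        rw [hA] at h7 ⊢
        exact fwd_cl b h7 a (Finset.mem_sdiff.1 ha).1 h8
    have h7 : (sideA I (s, t)).toFinset ⊆ (sideB (revI I) (s, t)).toFinset := by
      intro z hz
      rw [hB', hvt]
      refine Finset.mem_sdiff.2 ⟨hAsub hz, fun h8 => ?_⟩
      have h9 := h6 h8
      rw [hB] at h9
      exact (Finset.mem_sdiff.1 h9).2 hz
    have h8 := Finset.card_le_card h6
    have h9 := Finset.card_le_card h7
    rw [c3_card nA', c3_card nB] at h8
    rw [c3_card nA, c3_card nB'] at h9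
    refine c3_none h5' (s := s) (t := t) hs ht (c3_cond hst ?_ ?_ ?_ (by omega))
    · intro v hv hvX
      have h10 := h6 (List.mem_toFinset.2 hv)
      rw [hB, Finset.mem_sdiff] at h10
      apply h10.2
      rw [hA]
      exact subset_fwd v h10.1 hvX
    · refine ⟨y, ?_⟩
      rw [← List.mem_toFinset, hA']
      refine subset_fwd y ?_ hy.2
      rw [hvt, ← c3_del2, List.mem_toFinset]
      exact hyW
    · exact ⟨x, hxW, hx.2⟩

end Pool.Agent.Helper944_HC
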