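import Mathlib

/-!
# Hamiltonian paths in semicomplete digraphs: definitions

A digraph is a relation `r` on a type `α`; we always look at the subdigraph induced by a finite set.
-/

namespace Pool.Agent.Helper944_HC

variable {α : Type*} [DecidableEq α]

/-- `l` is a path of the digraph `r` through exactly the vertices of `W`. -/
structure Tr (r : α → α → Prop) (W : Finset α) (l : List α) : Prop where
  nodup : l.Nodup
  chain : l.IsChain r
  mem : ∀ v, v ∈ l ↔ v ∈ W

/-- The subdigraph induced by `W` has a Hamiltonian path starting in `S` and ending in `T`. -/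
def HP (r : α → α → Prop) (W : Finset α) (S T : Set α) : Prop :=
  ∃ l, Tr r W l ∧ (∃ x, l.head? = some x ∧ x ∈ S) ∧ (∃ y, l.getLast? = some y ∧ y ∈ T)

/-- Semicomplete on `W`. -/
def Semi (r : α → α → Prop) (W : Finset α) : Prop := ∀ u ∈ W, ∀ v ∈ W, u ≠ v → r u v ∨ r v u

/-- Strong: every proper nonempty subset of `W` is left by an arc. -/
def Strong (r : α → α → Prop) (W : Finset α) : Prop :=
  ∀ U ⊆ W, U.Nonempty → U ≠ W → ∃ a ∈ U, ∃ b ∈ W \ U, r a b

/-- 2-strong (for at least three vertices). -/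
def TwoStrong (r : α → α → Prop) (V : Finset α) : Prop :=
  Strong r V ∧ ∀ v ∈ V, Strong r (V.erase v)

/-- Every vertex of `W` is reachable inside `W` from a vertex in `S`. -/
def From (r : α → α → Prop) (W : Finset α) (S : Set α) : Prop :=
  ∀ U ⊆ W, U.Nonempty → (∀ u ∈ U, u ∉ S) → ∃ a ∈ W \ U, ∃ b ∈ U, r a b

/-- Every vertex of `W` reaches inside `W` a vertex in `T`. -/
def To (r : α → α → Prop) (W : Finset α) (T : Set α) : Prop :=
  ∀ U ⊆ W, U.Nonempty → (∀ u ∈ U, u ∉ T) → ∃ a ∈ U, ∃ b ∈ W \ U, r a b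

/-- `D` is closed under out-arcs in `W`. -/
def Cl (r : α → α → Prop) (W D : Finset α) : Prop := ∀ u ∈ D, ∀ v ∈ W, r u v → v ∈ D

open Classical in
/-- The set of the vertices of `W` reachable inside `W` from `L`. -/
noncomputable def fwd (r : α → α → Prop) (W : Finset α) (L : Set α) : Finset α :=
  W.filter (fun w => ∀ U ⊆ W, (∀ x ∈ W, x ∈ L → x ∈ U) → Cl r W U → w ∈ U)

/-- No set of fewer than `k` vertices separates `X` from `Y` in `V`. -/
def Conn (r : α → α → Prop) (V : Finset α) (X Y : Set α) (k : ℕ) : Prop :=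
  ∀ S ⊆ V, S.card < k → ∀ U ⊆ V \ S, (∀ x ∈ V \ S, x ∈ X → x ∈ U) → Cl r (V \ S) U →
    ∃ u ∈ U, u ∈ Y

/-- `P` is the vertex set of a path from `p` to `q`, and every vertex `w` of `W` which has an arc to
`P` has an arc to `p`, every vertex of `W` which has an arc from `P` has an arc from `q`. -/
structure PD (r : α → α → Prop) (W P : Finset α) (p q : α) : Prop where
  hp : HP r P {p} {q}
  hin : ∀ w ∈ W, (∃ x ∈ P, r w x) → r w p
  hout : ∀ w ∈ W, (∃ x ∈ P, r x w) → r q w

end Pool.Agent.Helper944_HC
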