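import Pool.Agent.Helper944_HC.Spec
import Pool.Agent.NPC.Dec
import Pool.Agent.NPC.Num

/-!
# The algorithm is polynomial
-/

namespace Pool.Agent.Helper944_HC

open Pool.Agent.NPC

/-! ### Sizes -/

theorem pa_sz_sublist {β : Type} [TEnc β] {l l' : List β} (h : l.Sublist l') : sz l ≤ sz l' := by
  induction h with
  | slnil => exact le_rfl
  | cons a _ ih =>
    rw [sz_list_cons]
    omega
  | cons_cons a _ ih =>
    rw [sz_list_cons, sz_list_cons]
    omega

theorem pa_sz_perm {β : Type} [TEnc β] {l l' : List β} (h : l.Perm l') : sz l = sz l' := by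
  induction h with
  | nil => rfl
  | cons a _ ih => rw [sz_list_cons, sz_list_cons, ih]
  | swap a b l =>
    simp only [sz_list_cons]
    omega
  | trans _ _ h1 h2 => rw [h1, h2]

theorem pa_sz_filter {β : Type} [TEnc β] (l : List β) (p : β → Bool) : sz (l.filter p) ≤ sz l :=
  pa_sz_sublist List.filter_sublist

theorem sz_sub {V V' : List ℕ} (h : V'.Nodup) (hs : ∀ v ∈ V', v ∈ V) : sz V' ≤ sz V := by
  obtain ⟨l, hp, hl⟩ := List.subperm_of_subset h hs
  rw [← pa_sz_perm hp]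
  exact pa_sz_sublist hl

/-! ### Basic functions -/

section

variable {α : Type} [TEnc α]

theorem pa_mem {β : Type} [TEnc β] [DecidableEq β] {f : α → β} {l : α → List β}
    {inst : ∀ a, Decidable (f a ∈ l a)} (hf : Poly f) (hl : Poly l) :
    Poly (fun a => @decide (f a ∈ l a) (inst a)) :=
  (NPC.Poly.decide_mem hf hl).congr fun _ => decide_eq_decide.2 Iff.rfl

theorem pa_nmem {β : Type} [TEnc β] [DecidableEq β] {f : α → β} {l : α → List β}
    {inst : ∀ a, Decidable (f a ∉ l a)} (hf : Poly f) (hl : Poly l) :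
    Poly (fun a => @decide (f a ∉ l a) (inst a)) :=
  (NPC.Poly.not (NPC.Poly.decide_mem hf hl)).congr fun a => by
    by_cases h : f a ∈ l a <;> simp [h]

theorem pa_ar {E : α → List (ℕ × ℕ)} {u v : α → ℕ} (hE : Poly E) (hu : Poly u) (hv : Poly v) :
    Poly (fun a => ar (E a) (u a) (v a)) := by
  unfold ar
  exact pa_mem (NPC.Poly.pair hu hv) hE

theorem pa_prs {V : α → List ℕ} (hV : Poly V) : Poly (fun a => prs (V a)) := by
  unfold prs
  refine NPC.Poly.flatMap (F := fun x a => (V x).map (fun b => (a, b))) hV ?_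
  exact NPC.Poly.map (F := fun (p : α × ℕ) b => (p.2, b)) (hV.comp (NPC.Poly.fst NPC.Poly.id))
    (NPC.Poly.pair (NPC.Poly.snd (NPC.Poly.fst NPC.Poly.id)) (NPC.Poly.snd NPC.Poly.id))

theorem pa_filter_mem {β : Type} [TEnc β] [DecidableEq β] {V X : α → List β}
    {inst : ∀ a v, Decidable (v ∈ X a)} (hV : Poly V) (hX : Poly X) :
    Poly (fun a => (V a).filter (fun v => @decide (v ∈ X a) (inst a v))) :=
  NPC.Poly.filter (p := fun a v => @decide (v ∈ X a) (inst a v)) hV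
    (pa_mem (NPC.Poly.snd NPC.Poly.id) (hX.comp (NPC.Poly.fst NPC.Poly.id)))

theorem pa_inE {V : α → List ℕ} {E : α → List (ℕ × ℕ)} (hV : Poly V) (hE : Poly E) :
    Poly (fun a => inE (V a) (E a)) := by
  unfold inE
  exact pa_filter_mem (pa_prs hV) hE

theorem pa_mk {V X Y : α → List ℕ} {E : α → List (ℕ × ℕ)} (hV : Poly V) (hE : Poly E)
    (hX : Poly X) (hY : Poly Y) : Poly (fun a => mk (V a) (E a) (X a) (Y a)) := by
  unfold mk
  exact NPC.Poly.pair hV (NPC.Poly.pair (pa_inE hV hE) (NPC.Poly.pair (pa_filter_mem hV hX)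
    (pa_filter_mem hV hY)))

theorem pa_outs {V : α → List ℕ} {E : α → List (ℕ × ℕ)} {v : α → ℕ} (hV : Poly V) (hE : Poly E)
    (hv : Poly v) : Poly (fun a => outs (V a) (E a) (v a)) := by
  unfold outs
  exact NPC.Poly.filter (p := fun a w => ar (E a) (v a) w) hV
    (pa_ar (hE.comp (NPC.Poly.fst NPC.Poly.id)) (hv.comp (NPC.Poly.fst NPC.Poly.id)) (NPC.Poly.snd NPC.Poly.id))

theorem pa_ins {V : α → List ℕ} {E : α → List (ℕ × ℕ)} {v : α → ℕ} (hV : Poly V) (hE : Poly E)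
    (hv : Poly v) : Poly (fun a => ins (V a) (E a) (v a)) := by
  unfold ins
  exact NPC.Poly.filter (p := fun a w => ar (E a) w (v a)) hV
    (pa_ar (hE.comp (NPC.Poly.fst NPC.Poly.id)) (NPC.Poly.snd NPC.Poly.id) (hv.comp (NPC.Poly.fst NPC.Poly.id)))

theorem pa_del {V : α → List ℕ} {v : α → ℕ} (hV : Poly V) (hv : Poly v) :
    Poly (fun a => del (V a) (v a)) := by
  unfold del
  refine NPC.Poly.filter (p := fun a w => decide (w ≠ v a)) hV ?_
  exact (NPC.Poly.not (NPC.Poly.decide_eq (NPC.Poly.snd NPC.Poly.id) (hv.comp (NPC.Poly.fst NPC.Poly.id)))).congr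
    fun p => by by_cases h : p.2 = v p.1 <;> simp [h]

theorem pa_sdf {V A : α → List ℕ} (hV : Poly V) (hA : Poly A) :
    Poly (fun a => sdf (V a) (A a)) := by
  unfold sdf
  exact NPC.Poly.filter (p := fun a w => decide (w ∉ A a)) hV
    (pa_nmem (NPC.Poly.snd NPC.Poly.id) (hA.comp (NPC.Poly.fst NPC.Poly.id)))

theorem pa_rstep {E : α → List (ℕ × ℕ)} {W R : α → List ℕ} (hE : Poly E) (hW : Poly W)
    (hR : Poly R) : Poly (fun a => rstep (E a) (W a) (R a)) := by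
  unfold rstep
  refine NPC.Poly.filter (p := fun a v => decide (v ∈ R a) || (R a).any (fun u => ar (E a) u v)) hW ?_
  refine NPC.Poly.or (pa_mem (NPC.Poly.snd NPC.Poly.id) (hR.comp (NPC.Poly.fst NPC.Poly.id))) ?_
  exact NPC.Poly.any (p := fun (q : α × ℕ) u => ar (E q.1) u q.2) (hR.comp (NPC.Poly.fst NPC.Poly.id))
    (pa_ar (hE.comp (NPC.Poly.fst (NPC.Poly.fst NPC.Poly.id))) (NPC.Poly.snd NPC.Poly.id)
      (NPC.Poly.snd (NPC.Poly.fst NPC.Poly.id)))

theorem pa_reach {E : α → List (ℕ × ℕ)} {W S : α → List ℕ} (hE : Poly E) (hW : Poly W)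
    (hS : Poly S) : Poly (fun a => reach (E a) (W a) (S a)) := by
  unfold reach
  obtain ⟨r, hr⟩ := hW.sz_le
  refine NPC.Poly.iterLen (F := fun a R => rstep (E a) (W a) R) hW (pa_filter_mem hW hS)
    (pa_rstep (hE.comp (NPC.Poly.fst NPC.Poly.id)) (hW.comp (NPC.Poly.fst NPC.Poly.id)) (NPC.Poly.snd NPC.Poly.id)) r ?_
  intro a k _
  cases k with
  | zero => exact (pa_sz_filter _ _).trans (hr a)
  | succ k =>
    rw [Function.iterate_succ_apply']
    exact (pa_sz_filter _ _).trans (hr a)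

theorem pa_src {E : α → List (ℕ × ℕ)} {W : α → List ℕ} {v : α → ℕ} (hE : Poly E) (hW : Poly W)
    (hv : Poly v) : Poly (fun a => src (E a) (W a) (v a)) := by
  unfold src
  refine NPC.Poly.all (p := fun a w => decide (w ∈ reach (E a) (W a) [v a])) hW ?_
  exact pa_mem (NPC.Poly.snd NPC.Poly.id) ((pa_reach hE hW (NPC.Poly.cons hv (NPC.Poly.const []))).comp
    (NPC.Poly.fst NPC.Poly.id))

theorem pa_strongB {E : α → List (ℕ × ℕ)} {W : α → List ℕ} (hE : Poly E) (hW : Poly W) :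
    Poly (fun a => strongB (E a) (W a)) := by
  unfold strongB
  exact NPC.Poly.all (p := fun a v => src (E a) (W a) v) hW
    (pa_src (hE.comp (NPC.Poly.fst NPC.Poly.id)) (hW.comp (NPC.Poly.fst NPC.Poly.id)) (NPC.Poly.snd NPC.Poly.id))

theorem pa_firstC {E : α → List (ℕ × ℕ)} {W : α → List ℕ} (hE : Poly E) (hW : Poly W) :
    Poly (fun a => firstC (E a) (W a)) := by
  unfold firstC
  exact NPC.Poly.filter (p := fun a v => src (E a) (W a) v) hW
    (pa_src (hE.comp (NPC.Poly.fst NPC.Poly.id)) (hW.comp (NPC.Poly.fst NPC.Poly.id)) (NPC.Poly.snd NPC.Poly.id))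

theorem pa_revE {E : α → List (ℕ × ℕ)} (hE : Poly E) : Poly (fun a => revE (E a)) := by
  unfold revE
  exact NPC.Poly.map (F := fun _ (e : ℕ × ℕ) => (e.2, e.1)) hE
    (NPC.Poly.pair (NPC.Poly.snd (NPC.Poly.snd NPC.Poly.id)) (NPC.Poly.fst (NPC.Poly.snd NPC.Poly.id)))

theorem pa_I1 {I : α → Inst} (hI : Poly I) : Poly (fun a => (I a).1) := NPC.Poly.fst hI

theorem pa_I2 {I : α → Inst} (hI : Poly I) : Poly (fun a => (I a).2.1) := NPC.Poly.fst (NPC.Poly.snd hI)

theorem pa_I3 {I : α → Inst} (hI : Poly I) : Poly (fun a => (I a).2.2.1) :=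
  NPC.Poly.fst (NPC.Poly.snd (NPC.Poly.snd hI))

theorem pa_I4 {I : α → Inst} (hI : Poly I) : Poly (fun a => (I a).2.2.2) :=
  NPC.Poly.snd (NPC.Poly.snd (NPC.Poly.snd hI))

theorem pa_revI {I : α → Inst} (hI : Poly I) : Poly (fun a => revI (I a)) := by
  unfold revI
  exact NPC.Poly.pair (pa_I1 hI) (NPC.Poly.pair (pa_revE (pa_I2 hI)) (NPC.Poly.pair (pa_I4 hI) (pa_I3 hI)))

/-! ### Brute force -/

theorem pa_headD {l : α → List ℕ} (hl : Poly l) : Poly (fun a => (l a).headD 0) :=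
  (NPC.Poly.head?_getD hl 0).congr fun a => by cases l a <;> rfl

theorem pa_ext {V : α → List ℕ} {E : α → List (ℕ × ℕ)} {L : α → List (List ℕ)} (hV : Poly V)
    (hE : Poly E) (hL : Poly L) : Poly (fun a => ext (V a) (E a) (L a)) := by
  unfold ext
  refine NPC.Poly.flatMap (F := fun a l => ((V a).filter
    (fun v => decide (v ∉ l) && ar (E a) (l.headD 0) v)).map (fun v => v :: l)) hL ?_
  refine NPC.Poly.map (F := fun (q : α × List ℕ) v => v :: q.2) ?_
    (NPC.Poly.cons (NPC.Poly.snd NPC.Poly.id) (NPC.Poly.snd (NPC.Poly.fst NPC.Poly.id)))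
  refine NPC.Poly.filter (p := fun (q : α × List ℕ) v =>
    decide (v ∉ q.2) && ar (E q.1) (q.2.headD 0) v) (hV.comp (NPC.Poly.fst NPC.Poly.id)) ?_
  exact NPC.Poly.and (pa_nmem (NPC.Poly.snd NPC.Poly.id) (NPC.Poly.snd (NPC.Poly.fst NPC.Poly.id)))
    (pa_ar (hE.comp (NPC.Poly.fst (NPC.Poly.fst NPC.Poly.id))) (pa_headD (NPC.Poly.snd (NPC.Poly.fst NPC.Poly.id)))
      (NPC.Poly.snd NPC.Poly.id))

theorem pa_small {I : α → Inst} (hI : Poly I) : Poly (fun a => small (I a)) := by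
  have h1 : Poly (fun a => ((I a).1.filter (fun v => decide (v ∈ (I a).2.2.1))).map
      (fun v => [v])) :=
    NPC.Poly.map (F := fun _ v => [v]) (pa_filter_mem (pa_I1 hI) (pa_I3 hI))
      (NPC.Poly.cons (NPC.Poly.snd NPC.Poly.id) (NPC.Poly.const []))
  have h2 := pa_ext (pa_I1 hI) (pa_I2 hI) h1
  have h3 := pa_ext (pa_I1 hI) (pa_I2 hI) h2
  have h4 := pa_ext (pa_I1 hI) (pa_I2 hI) h3
  have h5 := pa_ext (pa_I1 hI) (pa_I2 hI) h4
  have h6 := pa_ext (pa_I1 hI) (pa_I2 hI) h5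
  exact NPC.Poly.append h1 (NPC.Poly.append h2 (NPC.Poly.append h3 (NPC.Poly.append h4 (NPC.Poly.append h5 h6))))

theorem pa_brute {I : α → Inst} (hI : Poly I) : Poly (fun a => brute (I a)) := by
  unfold brute
  refine NPC.Poly.any (p := fun a l => decide (l.length = (I a).1.length) &&
    decide (l.headD 0 ∈ (I a).2.2.2)) (pa_small hI) ?_
  exact NPC.Poly.and (NPC.Poly.decide_eq (NPC.Poly.length (NPC.Poly.snd NPC.Poly.id))
    ((NPC.Poly.length (pa_I1 hI)).comp (NPC.Poly.fst NPC.Poly.id)))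
    (pa_mem (pa_headD (NPC.Poly.snd NPC.Poly.id)) ((pa_I4 hI).comp (NPC.Poly.fst NPC.Poly.id)))

/-! ### The rules -/

theorem pa_ifB {β : Type} [TEnc β] {b : α → Bool} {f g : α → β} (hb : Poly b) (hf : Poly f)
    (hg : Poly g) : Poly (fun a => if b a then f a else g a) :=
  NPC.Poly.ite (NPC.Poly.decide_bool hb) hf hg

theorem pa_inl {b : α → Bool} (hb : Poly b) : Poly (fun a => (Sum.inl (b a) : Bool ⊕ Inst)) :=
  NPC.Poly.inl hb

theorem pa_inr {b : α → Inst} (hb : Poly b) : Poly (fun a => (Sum.inr (b a) : Bool ⊕ Inst)) :=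
  NPC.Poly.inr hb

theorem pa_list {β : Type} [TEnc β] {rs : α → List Bool} {g : α → β}
    {h : α → Bool → List Bool → β} (hrs : Poly rs) (hg : Poly g)
    (hh : Poly (fun p : α × Bool × List Bool => h p.1 p.2.1 p.2.2)) {F : α → β}
    (h0 : ∀ a, rs a = [] → F a = g a) (h1 : ∀ a b t, rs a = b :: t → F a = h a b t) : Poly F :=
  (NPC.Poly.listCases hrs hg hh).congr fun a => by
    cases hr : rs a with
    | nil => exact (h0 a hr).symm
    | cons b t => exact (h1 a b t hr).symm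

theorem pa_opt {β γ : Type} [TEnc β] [TEnc γ] {o : α → Option γ} {g : α → β}
    {h : α → γ → β} (ho : Poly o) (hg : Poly g)
    (hh : Poly (fun p : α × γ => h p.1 p.2)) {F : α → β}
    (h0 : ∀ a, o a = none → F a = g a) (h1 : ∀ a b, o a = some b → F a = h a b) : Poly F :=
  (NPC.Poly.optCases ho hg hh).congr fun a => by
    cases hr : o a with
    | none => exact (h0 a hr).symm
    | some b => exact (h1 a b hr).symm

theorem pa_alg1 {I : α → Inst} (hI : Poly I) : Poly (fun a => alg1 (I a)) := by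
  unfold alg1
  refine pa_ifB (pa_strongB (pa_I2 hI) (pa_I1 hI)) (NPC.Poly.const none) (NPC.Poly.some (pa_inl ?_))
  refine NPC.Poly.and ?_ ?_
  · exact NPC.Poly.any (p := fun a v => decide (v ∈ (I a).2.2.1) && src (I a).2.1 (I a).1 v)
      (pa_I1 hI) (NPC.Poly.and (pa_mem (NPC.Poly.snd NPC.Poly.id) ((pa_I3 hI).comp (NPC.Poly.fst NPC.Poly.id)))
        (pa_src ((pa_I2 hI).comp (NPC.Poly.fst NPC.Poly.id)) ((pa_I1 hI).comp (NPC.Poly.fst NPC.Poly.id))
          (NPC.Poly.snd NPC.Poly.id)))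
  · exact NPC.Poly.any (p := fun a v => decide (v ∈ (I a).2.2.2) && src (revE (I a).2.1) (I a).1 v)
      (pa_I1 hI) (NPC.Poly.and (pa_mem (NPC.Poly.snd NPC.Poly.id) ((pa_I4 hI).comp (NPC.Poly.fst NPC.Poly.id)))
        (pa_src ((pa_revE (pa_I2 hI)).comp (NPC.Poly.fst NPC.Poly.id))
          ((pa_I1 hI).comp (NPC.Poly.fst NPC.Poly.id)) (NPC.Poly.snd NPC.Poly.id)))

theorem pa_cond2 {I : α → Inst} {s : α → ℕ} (hI : Poly I) (hs : Poly s) :
    Poly (fun a => cond2 (I a) (s a)) := by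
  unfold cond2
  exact NPC.Poly.all (p := fun a v => decide (v ∉ (I a).2.2.2))
    (pa_reach (pa_I2 hI) (pa_del (pa_I1 hI) hs) (pa_I3 hI))
    (pa_nmem (NPC.Poly.snd NPC.Poly.id) ((pa_I4 hI).comp (NPC.Poly.fst NPC.Poly.id)))

/-- The body of rule R2. -/
def pa_b2 (I : Inst) (rs : List Bool) (s : ℕ) : Bool ⊕ Inst :=
  let A := reach I.2.1 (del I.1 s) I.2.2.1
  let B := sdf (del I.1 s) A
  let qA := mk A I.2.1 I.2.2.1 (ins I.1 I.2.1 s)
  let qB := mk B I.2.1 (outs I.1 I.2.1 s) I.2.2.2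
  if A.isEmpty then
    (if s ∉ I.2.2.1 then Sum.inl false
    else if B.isEmpty then Sum.inl (decide (s ∈ I.2.2.2))
    else match rs with
      | [] => Sum.inr qB
      | b :: _ => Sum.inl b)
  else match rs with
    | [] => Sum.inr qA
    | a :: rs' =>
      if !a then Sum.inl false
      else if B.isEmpty then Sum.inl (decide (s ∈ I.2.2.2))
      else match rs' with
        | [] => Sum.inr qB
        | b :: _ => Sum.inl b

theorem pa_b2_poly {I : α → Inst} {rs : α → List Bool} {s : α → ℕ} (hI : Poly I) (hrs : Poly rs)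
    (hs : Poly s) : Poly (fun a => pa_b2 (I a) (rs a) (s a)) := by
  have hA := pa_reach (pa_I2 hI) (pa_del (pa_I1 hI) hs) (pa_I3 hI)
  have hB := pa_sdf (pa_del (pa_I1 hI) hs) hA
  have hqA := pa_mk hA (pa_I2 hI) (pa_I3 hI) (pa_ins (pa_I1 hI) (pa_I2 hI) hs)
  have hqB := pa_mk hB (pa_I2 hI) (pa_outs (pa_I1 hI) (pa_I2 hI) hs) (pa_I4 hI)
  have hlast : ∀ {α' : Type} [TEnc α'] {rs' : α' → List Bool} {f : α' → α} (_ : Poly rs')
      (_ : Poly f), Poly (fun a => (match rs' a with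
        | [] => Sum.inr (mk (sdf (del (I (f a)).1 (s (f a))) (reach (I (f a)).2.1
          (del (I (f a)).1 (s (f a))) (I (f a)).2.2.1)) (I (f a)).2.1
            (outs (I (f a)).1 (I (f a)).2.1 (s (f a))) (I (f a)).2.2.2)
        | b :: _ => Sum.inl b : Bool ⊕ Inst)) := by
    intro α' _ rs' f hrs' hf
    exact pa_list (h := fun _ b _ => Sum.inl b) hrs' (pa_inr (hqB.comp hf))
      (pa_inl (NPC.Poly.fst (NPC.Poly.snd NPC.Poly.id))) (fun a h => by rw [h])
      (fun a b t h => by rw [h])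
  unfold pa_b2
  refine pa_ifB (NPC.Poly.isEmpty hA) ?_ ?_
  · refine NPC.Poly.ite (pa_nmem hs (pa_I3 hI)) (pa_inl (NPC.Poly.const false)) ?_
    refine pa_ifB (NPC.Poly.isEmpty hB) (pa_inl (pa_mem hs (pa_I4 hI))) ?_
    exact hlast hrs NPC.Poly.id
  · refine pa_list (g := fun a => _) (h := fun a b t => _) hrs (pa_inr hqA) ?_
      (fun a h => by rw [h]) (fun a b t h => by rw [h])
    refine pa_ifB (NPC.Poly.not (NPC.Poly.fst (NPC.Poly.snd NPC.Poly.id))) (pa_inl (NPC.Poly.const false)) ?_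
    refine pa_ifB ((NPC.Poly.isEmpty hB).comp (NPC.Poly.fst NPC.Poly.id))
      (pa_inl ((pa_mem hs (pa_I4 hI)).comp (NPC.Poly.fst NPC.Poly.id))) ?_
    exact hlast (NPC.Poly.snd (NPC.Poly.snd NPC.Poly.id)) (NPC.Poly.fst NPC.Poly.id)

theorem pa_alg2 {I : α → Inst} {rs : α → List Bool} (hI : Poly I) (hrs : Poly rs) :
    Poly (fun a => alg2 (I a) (rs a)) := by
  refine pa_opt (o := fun a => ((I a).1.filter (cond2 (I a))).head?) (g := fun _ => none)
    (h := fun a s => some (pa_b2 (I a) (rs a) s)) ?_ (NPC.Poly.const none) ?_ ?_ ?_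
  · refine NPC.Poly.head? ?_
    exact NPC.Poly.filter (p := fun a s => cond2 (I a) s) (pa_I1 hI)
      (pa_cond2 (hI.comp (NPC.Poly.fst NPC.Poly.id)) (NPC.Poly.snd NPC.Poly.id))
  · exact NPC.Poly.some (pa_b2_poly (hI.comp (NPC.Poly.fst NPC.Poly.id))
      (hrs.comp (NPC.Poly.fst NPC.Poly.id)) (NPC.Poly.snd NPC.Poly.id))
  · intro a h
    unfold alg2
    rw [h]
  · intro a b h
    unfold alg2
    rw [h]
    rfl

theorem pa_cond3 {I : α → Inst} {s : α → ℕ} (hI : Poly I) (hs : Poly s) :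
    Poly (fun a => cond3 (I a) (s a)) := by
  unfold cond3
  refine NPC.Poly.and (NPC.Poly.not (pa_strongB (pa_I2 hI) (pa_del (pa_I1 hI) hs))) ?_
  exact NPC.Poly.all (p := fun a v => decide (v ∉ (I a).2.2.1))
    (pa_firstC (pa_I2 hI) (pa_del (pa_I1 hI) hs))
    (pa_nmem (NPC.Poly.snd NPC.Poly.id) ((pa_I3 hI).comp (NPC.Poly.fst NPC.Poly.id)))

/-- The body of rule R3. -/
def pa_b3 (I : Inst) (rs : List Bool) (z : ℕ) : Bool ⊕ Inst :=
  let C := firstC I.2.1 (del I.1 z)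
  let V' := sdf I.1 C
  match rs with
    | [] => Sum.inr (mk C I.2.1 (outs I.1 I.2.1 z) I.2.2.2)
    | h :: rs' => match rs' with
      | [] => Sum.inr (mk V' (I.2.1 ++ V'.map (fun v => (z, v))) I.2.2.1
          (if h then z :: I.2.2.2 else del I.2.2.2 z))
      | b :: _ => Sum.inl b

theorem pa_mapl {V : α → List ℕ} {z : α → ℕ} (hV : Poly V) (hz : Poly z) :
    Poly (fun a => (V a).map (fun v => (z a, v))) :=
  NPC.Poly.map (F := fun a v => (z a, v)) hV
    (NPC.Poly.pair (hz.comp (NPC.Poly.fst NPC.Poly.id)) (NPC.Poly.snd NPC.Poly.id))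

theorem pa_mapr {V : α → List ℕ} {z : α → ℕ} (hV : Poly V) (hz : Poly z) :
    Poly (fun a => (V a).map (fun v => (v, z a))) :=
  NPC.Poly.map (F := fun a v => (v, z a)) hV
    (NPC.Poly.pair (NPC.Poly.snd NPC.Poly.id) (hz.comp (NPC.Poly.fst NPC.Poly.id)))

theorem pa_b3_poly {I : α → Inst} {rs : α → List Bool} {z : α → ℕ} (hI : Poly I) (hrs : Poly rs)
    (hz : Poly z) : Poly (fun a => pa_b3 (I a) (rs a) (z a)) := by
  have hC := pa_firstC (pa_I2 hI) (pa_del (pa_I1 hI) hz)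
  have hV' := pa_sdf (pa_I1 hI) hC
  unfold pa_b3
  refine pa_list (g := fun a => _) (h := fun a b t => _) hrs
    (pa_inr (pa_mk hC (pa_I2 hI) (pa_outs (pa_I1 hI) (pa_I2 hI) hz) (pa_I4 hI))) ?_
    (fun a h => by rw [h]) (fun a b t h => by rw [h])
  refine pa_list (g := fun a => _) (h := fun _ b _ => Sum.inl b)
    (NPC.Poly.snd (NPC.Poly.snd NPC.Poly.id)) ?_
    (pa_inl (NPC.Poly.fst (NPC.Poly.snd NPC.Poly.id)))
    (fun a h => by rw [h]) (fun a b t h => by rw [h])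
  refine pa_inr (pa_mk (hV'.comp (NPC.Poly.fst NPC.Poly.id)) ?_
    ((pa_I3 hI).comp (NPC.Poly.fst NPC.Poly.id)) ?_)
  · exact (NPC.Poly.append (pa_I2 hI) (pa_mapl hV' hz)).comp (NPC.Poly.fst NPC.Poly.id)
  · exact pa_ifB (NPC.Poly.fst (NPC.Poly.snd NPC.Poly.id))
      ((NPC.Poly.cons hz (pa_I4 hI)).comp (NPC.Poly.fst NPC.Poly.id))
      ((pa_del (pa_I4 hI) hz).comp (NPC.Poly.fst NPC.Poly.id))

theorem pa_alg3 {I : α → Inst} {rs : α → List Bool} (hI : Poly I) (hrs : Poly rs) :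
    Poly (fun a => alg3 (I a) (rs a)) := by
  refine pa_opt (o := fun a => ((I a).1.filter (cond3 (I a))).head?) (g := fun _ => none)
    (h := fun a s => some (pa_b3 (I a) (rs a) s)) ?_ (NPC.Poly.const none) ?_ ?_ ?_
  · refine NPC.Poly.head? ?_
    exact NPC.Poly.filter (p := fun a s => cond3 (I a) s) (pa_I1 hI)
      (pa_cond3 (hI.comp (NPC.Poly.fst NPC.Poly.id)) (NPC.Poly.snd NPC.Poly.id))
  · exact NPC.Poly.some (pa_b3_poly (hI.comp (NPC.Poly.fst NPC.Poly.id))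
      (hrs.comp (NPC.Poly.fst NPC.Poly.id)) (NPC.Poly.snd NPC.Poly.id))
  · intro a h
    unfold alg3
    rw [h]
  · intro a b h
    unfold alg3
    rw [h]
    rfl

theorem pa_alg4 {I : α → Inst} (hI : Poly I) : Poly (fun a => alg4 (I a)) := by
  unfold alg4
  refine pa_ifB ?_ (NPC.Poly.const none) (NPC.Poly.const (some (Sum.inl true)))
  exact NPC.Poly.all (p := fun a z => strongB (I a).2.1 (del (I a).1 z)) (pa_I1 hI)
    (pa_strongB ((pa_I2 hI).comp (NPC.Poly.fst NPC.Poly.id))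
      (pa_del ((pa_I1 hI).comp (NPC.Poly.fst NPC.Poly.id)) (NPC.Poly.snd NPC.Poly.id)))

theorem pa_sideA {I : α → Inst} {p : α → ℕ × ℕ} (hI : Poly I) (hp : Poly p) :
    Poly (fun a => sideA (I a) (p a)) := by
  unfold sideA
  exact pa_reach (pa_I2 hI) (pa_del (pa_del (pa_I1 hI) (NPC.Poly.fst hp)) (NPC.Poly.snd hp))
    (pa_I3 hI)

theorem pa_sideB {I : α → Inst} {p : α → ℕ × ℕ} (hI : Poly I) (hp : Poly p) :
    Poly (fun a => sideB (I a) (p a)) := by
  unfold sideB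
  exact pa_sdf (pa_del (pa_del (pa_I1 hI) (NPC.Poly.fst hp)) (NPC.Poly.snd hp)) (pa_sideA hI hp)

theorem pa_cond5 {I : α → Inst} {p : α → ℕ × ℕ} (hI : Poly I) (hp : Poly p) :
    Poly (fun a => cond5 (I a) (p a)) := by
  unfold cond5
  refine NPC.Poly.and (NPC.Poly.and (NPC.Poly.and (NPC.Poly.and ?_ ?_) ?_) ?_) ?_
  · exact (NPC.Poly.not (NPC.Poly.decide_eq (NPC.Poly.fst hp) (NPC.Poly.snd hp))).congr
      fun a => by by_cases h : (p a).1 = (p a).2 <;> simp [h]
  · exact NPC.Poly.all (p := fun a v => decide (v ∉ (I a).2.2.2)) (pa_sideA hI hp)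
      (pa_nmem (NPC.Poly.snd NPC.Poly.id) ((pa_I4 hI).comp (NPC.Poly.fst NPC.Poly.id)))
  · exact NPC.Poly.not (NPC.Poly.isEmpty (pa_sideA hI hp))
  · exact NPC.Poly.any (p := fun a v => decide (v ∈ (I a).2.2.2))
      (pa_del (pa_del (pa_I1 hI) (NPC.Poly.fst hp)) (NPC.Poly.snd hp))
      (pa_mem (NPC.Poly.snd NPC.Poly.id) ((pa_I4 hI).comp (NPC.Poly.fst NPC.Poly.id)))
  · exact NPC.Poly.decide_le (NPC.Poly.length (pa_sideA hI hp))
      (NPC.Poly.length (pa_sideB hI hp))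

theorem pa_qLam {I : α → Inst} {A : α → List ℕ} {u f : α → ℕ} (hI : Poly I) (hA : Poly A)
    (hu : Poly u) (hf : Poly f) : Poly (fun a => qLam (I a) (A a) (u a) (f a)) := by
  unfold qLam
  refine pa_mk (NPC.Poly.cons hu hA) (NPC.Poly.append (pa_I2 hI) (pa_mapl hA hu)) (pa_I3 hI) ?_
  exact NPC.Poly.filter (p := fun a v => ar (I a).2.1 v (f a)) hA
    (pa_ar ((pa_I2 hI).comp (NPC.Poly.fst NPC.Poly.id)) (NPC.Poly.snd NPC.Poly.id)
      (hf.comp (NPC.Poly.fst NPC.Poly.id)))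

theorem pa_qLast {I : α → Inst} {B : α → List ℕ} {u f : α → ℕ} {p q : α → Bool} (hI : Poly I)
    (hB : Poly B) (hu : Poly u) (hf : Poly f) (hp : Poly p) (hq : Poly q) :
    Poly (fun a => qLast (I a) (B a) (u a) (f a) (p a) (q a)) := by
  have h1 : Poly (fun a => (I a).2.1.filter (fun e => decide (e.2 ≠ u a))) := by
    refine NPC.Poly.filter (p := fun a (e : ℕ × ℕ) => decide (e.2 ≠ u a)) (pa_I2 hI) ?_
    exact (NPC.Poly.not (NPC.Poly.decide_eq (NPC.Poly.snd (NPC.Poly.snd NPC.Poly.id))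
      (hu.comp (NPC.Poly.fst NPC.Poly.id)))).congr
      fun x => by by_cases h : x.2.2 = u x.1 <;> simp [h]
  have h2 : Poly (fun a => if p a && q a then [(f a, u a)] else []) :=
    pa_ifB (NPC.Poly.and hp hq) (NPC.Poly.cons (NPC.Poly.pair hf hu) (NPC.Poly.const []))
      (NPC.Poly.const [])
  have h3 := NPC.Poly.append (NPC.Poly.append h1 (pa_mapr hB hu)) h2
  unfold qLast
  refine pa_ifB hp ?_ ?_
  · exact pa_mk (NPC.Poly.cons hu (NPC.Poly.cons hf hB)) h3
      (NPC.Poly.cons hu (NPC.Poly.cons hf (NPC.Poly.const []))) (pa_I4 hI)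
  · exact pa_mk (NPC.Poly.cons hu hB) h3 (NPC.Poly.append (pa_outs hB (pa_I2 hI) hf)
      (pa_ifB hq (NPC.Poly.cons hu (NPC.Poly.const [])) (NPC.Poly.const []))) (pa_I4 hI)

theorem pa_alg5' {I : α → Inst} {A B : α → List ℕ} {u f : α → ℕ} {rs : α → List Bool}
    (hI : Poly I) (hA : Poly A) (hB : Poly B) (hu : Poly u) (hf : Poly f) (hrs : Poly rs) :
    Poly (fun a => alg5' (I a) (A a) (B a) (u a) (f a) (rs a)) := by
  unfold alg5'
  refine pa_list (g := fun a => _) (h := fun a b t => _) hrs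
    (pa_inr (pa_mk hA (pa_I2 hI) (pa_I3 hI) (pa_ins (pa_I1 hI) (pa_I2 hI) hu))) ?_
    (fun a h => by rw [h]) (fun a b t h => by rw [h])
  refine pa_list (g := fun a => _) (h := fun a b t => _)
    (NPC.Poly.snd (NPC.Poly.snd NPC.Poly.id)) (pa_inr ?_) ?_
    (fun a h => by rw [h]) (fun a b t h => by rw [h])
  · exact (pa_mk (NPC.Poly.cons hf hA) (pa_I2 hI) (pa_I3 hI)
      (pa_ins (pa_I1 hI) (pa_I2 hI) hu)).comp (NPC.Poly.fst NPC.Poly.id)
  refine pa_list (g := fun a => _) (h := fun _ b _ => Sum.inl b)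
    (NPC.Poly.snd (NPC.Poly.snd NPC.Poly.id)) (pa_inr ?_)
    (pa_inl (NPC.Poly.fst (NPC.Poly.snd NPC.Poly.id)))
    (fun a h => by rw [h]) (fun a b t h => by rw [h])
  have e : Poly (fun x : (α × Bool × List Bool) × Bool × List Bool => x.1.1) :=
    NPC.Poly.fst (NPC.Poly.fst NPC.Poly.id)
  exact pa_qLast (hI.comp e) (hB.comp e) (hu.comp e) (hf.comp e)
    (NPC.Poly.fst (NPC.Poly.snd (NPC.Poly.fst NPC.Poly.id)))
    (NPC.Poly.fst (NPC.Poly.snd NPC.Poly.id))

/-- The body of rule R5. -/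
def pa_b5 (I : Inst) (rs : List Bool) (p : ℕ × ℕ) : Bool ⊕ Inst :=
  let A := sideA I p
  let B := sideB I p
  match rs with
    | [] => Sum.inr (qLam I A p.1 p.2)
    | l1 :: rs1 => match rs1 with
      | [] => Sum.inr (qLam I A p.2 p.1)
      | l2 :: rs2 =>
        if l1 && l2 then Sum.inl true
        else if l1 then alg5' I A B p.2 p.1 rs2
        else alg5' I A B p.1 p.2 rs2

theorem pa_b5_poly {I : α → Inst} {rs : α → List Bool} {p : α → ℕ × ℕ} (hI : Poly I)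
    (hrs : Poly rs) (hp : Poly p) : Poly (fun a => pa_b5 (I a) (rs a) (p a)) := by
  have hA := pa_sideA hI hp
  have hB := pa_sideB hI hp
  have hp1 := NPC.Poly.fst hp
  have hp2 := NPC.Poly.snd hp
  unfold pa_b5
  refine pa_list (g := fun a => _) (h := fun a b t => _) hrs
    (pa_inr (pa_qLam hI hA hp1 hp2)) ?_
    (fun a h => by rw [h]) (fun a b t h => by rw [h])
  refine pa_list (g := fun a => _) (h := fun a b t => _)
    (NPC.Poly.snd (NPC.Poly.snd NPC.Poly.id))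
    (pa_inr ((pa_qLam hI hA hp2 hp1).comp (NPC.Poly.fst NPC.Poly.id))) ?_
    (fun a h => by rw [h]) (fun a b t h => by rw [h])
  have e : Poly (fun x : (α × Bool × List Bool) × Bool × List Bool => x.1.1) :=
    NPC.Poly.fst (NPC.Poly.fst NPC.Poly.id)
  have e1 : Poly (fun x : (α × Bool × List Bool) × Bool × List Bool => x.1.2.1) :=
    NPC.Poly.fst (NPC.Poly.snd (NPC.Poly.fst NPC.Poly.id))
  have e2 : Poly (fun x : (α × Bool × List Bool) × Bool × List Bool => x.2.1) :=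
    NPC.Poly.fst (NPC.Poly.snd NPC.Poly.id)
  have e3 : Poly (fun x : (α × Bool × List Bool) × Bool × List Bool => x.2.2) :=
    NPC.Poly.snd (NPC.Poly.snd NPC.Poly.id)
  refine pa_ifB (NPC.Poly.and e1 e2) (pa_inl (NPC.Poly.const true)) (pa_ifB e1 ?_ ?_)
  · exact pa_alg5' (hI.comp e) (hA.comp e) (hB.comp e) (hp2.comp e) (hp1.comp e) e3
  · exact pa_alg5' (hI.comp e) (hA.comp e) (hB.comp e) (hp1.comp e) (hp2.comp e) e3

theorem pa_alg5 {I : α → Inst} {rs : α → List Bool} (hI : Poly I) (hrs : Poly rs) :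
    Poly (fun a => alg5 (I a) (rs a)) := by
  refine pa_opt (o := fun a => ((prs (I a).1).filter (cond5 (I a))).head?) (g := fun _ => none)
    (h := fun a s => some (pa_b5 (I a) (rs a) s)) ?_ (NPC.Poly.const none) ?_ ?_ ?_
  · refine NPC.Poly.head? ?_
    exact NPC.Poly.filter (p := fun a s => cond5 (I a) s) (pa_prs (pa_I1 hI))
      (pa_cond5 (hI.comp (NPC.Poly.fst NPC.Poly.id)) (NPC.Poly.snd NPC.Poly.id))
  · exact NPC.Poly.some (pa_b5_poly (hI.comp (NPC.Poly.fst NPC.Poly.id))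
      (hrs.comp (NPC.Poly.fst NPC.Poly.id)) (NPC.Poly.snd NPC.Poly.id))
  · intro a h
    unfold alg5
    rw [h]
  · intro a b h
    unfold alg5
    rw [h]
    rfl

theorem pa_orElse {f g : α → Option (Bool ⊕ Inst)} (hf : Poly f) (hg : Poly g) :
    Poly (fun a => orElse (f a) (g a)) := by
  refine pa_opt (o := f) (g := g) (h := fun _ c => some c) hf hg
    (NPC.Poly.some (NPC.Poly.snd NPC.Poly.id)) ?_ ?_
  · intro a h
    rw [h]
    rfl
  · intro a b h
    rw [h]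
    rfl

end

theorem poly_next : Poly next := by
  have hI : Poly (fun c : Inst × List Bool => c.1) := NPC.Poly.fst NPC.Poly.id
  have hrs : Poly (fun c : Inst × List Bool => c.2) := NPC.Poly.snd NPC.Poly.id
  have hR := pa_revI hI
  have hO := pa_orElse (pa_alg1 hI) (pa_orElse (pa_alg2 hI hrs) (pa_orElse (pa_alg3 hI hrs)
    (pa_orElse (pa_alg3 hR hrs) (pa_orElse (pa_alg4 hI) (pa_orElse (pa_alg5 hI hrs)
    (pa_alg5 hR hrs))))))
  have h1 : Poly (fun c : Inst × List Bool => if c.1.1.length ≤ 6 then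
      (Sum.inl (brute c.1) : Bool ⊕ Inst)
    else (orElse (alg1 c.1) (orElse (alg2 c.1 c.2) (orElse (alg3 c.1 c.2)
      (orElse (alg3 (revI c.1) c.2) (orElse (alg4 c.1) (orElse (alg5 c.1 c.2)
      (alg5 (revI c.1) c.2))))))).getD (Sum.inl true)) := by
    refine NPC.Poly.ite (NPC.Poly.decide_le (NPC.Poly.length (pa_I1 hI)) (NPC.Poly.const 6))
      (pa_inl (pa_brute hI)) ?_
    refine pa_opt (g := fun _ => Sum.inl true) (h := fun _ c => c) hO
      (pa_inl (NPC.Poly.const true)) (NPC.Poly.snd NPC.Poly.id) ?_ ?_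
    · intro a h
      rw [h]
      rfl
    · intro a b h
      rw [h]
      rfl
  refine h1.congr fun c => ?_
  unfold next
  by_cases h6 : c.1.1.length ≤ 6
  · rw [if_pos h6, if_pos h6]
  · rw [if_neg h6, if_neg h6]
    cases orElse (alg1 c.1) (orElse (alg2 c.1 c.2) (orElse (alg3 c.1 c.2)
      (orElse (alg3 (revI c.1) c.2) (orElse (alg4 c.1) (orElse (alg5 c.1 c.2)
      (alg5 (revI c.1) c.2)))))) <;> rfl

theorem pa_nodupB {α : Type} [TEnc α] {V : α → List ℕ} (hV : Poly V) :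
    Poly (fun a => nodupB (V a)) := by
  unfold nodupB
  refine NPC.Poly.all (p := fun a v => decide (((V a).filter
    (fun w => decide (w = v))).length ≤ 1)) hV ?_
  refine NPC.Poly.decide_le (NPC.Poly.length ?_) (NPC.Poly.const 1)
  exact NPC.Poly.filter (p := fun (x : α × ℕ) w => decide (w = x.2))
    (hV.comp (NPC.Poly.fst NPC.Poly.id))
    (NPC.Poly.decide_eq (NPC.Poly.snd NPC.Poly.id) (NPC.Poly.snd (NPC.Poly.fst NPC.Poly.id)))

theorem pa_semB {α : Type} [TEnc α] {E : α → List (ℕ × ℕ)} {V : α → List ℕ} (hE : Poly E)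
    (hV : Poly V) : Poly (fun a => semB (E a) (V a)) := by
  unfold semB
  refine NPC.Poly.all (p := fun x a => (V x).all (fun b => decide (a = b) ||
    (ar (E x) a b || ar (E x) b a))) hV ?_
  refine NPC.Poly.all (p := fun (y : α × ℕ) b => decide (y.2 = b) ||
    (ar (E y.1) y.2 b || ar (E y.1) b y.2)) (hV.comp (NPC.Poly.fst NPC.Poly.id)) ?_
  have e1 : Poly (fun y : (α × ℕ) × ℕ => E y.1.1) :=
    hE.comp (NPC.Poly.fst (NPC.Poly.fst NPC.Poly.id))
  have e2 : Poly (fun y : (α × ℕ) × ℕ => y.1.2) := NPC.Poly.snd (NPC.Poly.fst NPC.Poly.id)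
  have e3 : Poly (fun y : (α × ℕ) × ℕ => y.2) := NPC.Poly.snd NPC.Poly.id
  exact NPC.Poly.or (NPC.Poly.decide_eq e2 e3) (NPC.Poly.or (pa_ar e1 e2 e3) (pa_ar e1 e3 e2))

theorem poly_wfB : Poly wfB := by
  have hI : Poly (fun c : Inst => c) := NPC.Poly.id
  unfold wfB
  refine NPC.Poly.and (NPC.Poly.not (NPC.Poly.isEmpty (pa_I1 hI)))
    (NPC.Poly.and (pa_nodupB (pa_I1 hI)) (NPC.Poly.and (pa_semB (pa_I2 hI) (pa_I1 hI)) ?_))
  exact NPC.Poly.decide_eq (pa_mk (pa_I1 hI) (pa_I2 hI) (pa_I3 hI) (pa_I4 hI)) hI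

/-- The size of a well-formed instance is bounded in terms of its list of vertices. -/
theorem sz_inst : ∃ q : Polynomial ℕ, ∀ V E X Y, sz (mk V E X Y) ≤ q.eval (sz V) := by
  obtain ⟨p, hp⟩ := (pa_prs (α := List ℕ) NPC.Poly.id).sz_le
  refine ⟨Polynomial.C 3 * Polynomial.X + p + Polynomial.C 3, ?_⟩
  intro V E X Y
  have h1 := hp V
  have h2 : sz (inE V E) ≤ sz (prs V) := pa_sz_filter _ _
  have h3 := pa_sz_filter V (fun v => decide (v ∈ X))
  have h4 := pa_sz_filter V (fun v => decide (v ∈ Y))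
  unfold mk
  simp only [sz_pair, Polynomial.eval_add, Polynomial.eval_mul, Polynomial.eval_C,
    Polynomial.eval_X]
  omega

end Pool.Agent.Helper944_HC
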