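import Pool.Agent.Helper944_HC.Correct
import Pool.Agent.Helper944_HC.PolyAlg

/-!
# The Hamiltonian `(X,Y)`-path problem in semicomplete digraphs is in `P`
-/

namespace Pool.Agent.Helper944_HC

open Pool.Agent.NPC

theorem alg2_uniform (I : Inst) :
    (∀ rs, alg2 I rs = none) ∨ ∃ g : List Bool → Bool ⊕ Inst, ∀ rs, alg2 I rs = some (g rs) := by
  unfold alg2
  cases h : (I.1.filter (cond2 I)).head? with
  | none => left; intro rs; rfl
  | some s => right; exact ⟨_, fun rs => rfl⟩

theorem alg3_uniform (I : Inst) :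
    (∀ rs, alg3 I rs = none) ∨ ∃ g : List Bool → Bool ⊕ Inst, ∀ rs, alg3 I rs = some (g rs) := by
  unfold alg3
  cases h : (I.1.filter (cond3 I)).head? with
  | none => left; intro rs; rfl
  | some s => right; exact ⟨_, fun rs => rfl⟩

theorem alg5_uniform (I : Inst) :
    (∀ rs, alg5 I rs = none) ∨ ∃ g : List Bool → Bool ⊕ Inst, ∀ rs, alg5 I rs = some (g rs) := by
  unfold alg5
  cases h : ((prs I.1).filter (cond5 I)).head? with
  | none => left; intro rs; rfl
  | some s => right; exact ⟨_, fun rs => rfl⟩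

theorem RuleOK.const {I : Inst} {b : Bool} (h : b = true ↔ Truth I) :
    RuleOK I (fun _ => Sum.inl b) := by
  intro rs js _
  refine ⟨fun b' hb => ?_, fun J hJ => ?_⟩
  · cases hb
    exact h
  · cases hJ

theorem RuleOK.congr {I : Inst} {g g' : List Bool → Bool ⊕ Inst} (h : RuleOK I g)
    (hg : ∀ rs, g' rs = g rs) : RuleOK I g' := by
  have : g' = g := funext hg
  rw [this]
  exact h

/-- The implemented procedure is correct. -/
theorem next_ok {I : Inst} (hI : wfB I = true) : RuleOK I (fun rs => next (I, rs)) := by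
  obtain ⟨h, -⟩ := wfB_iff.1 hI
  by_cases h6 : I.1.length ≤ 6
  · refine (RuleOK.const (brute_iff h h6)).congr fun rs => ?_
    simp [next, h6]
  have hnext : ∀ rs, next (I, rs) = (match orElse (alg1 I) (orElse (alg2 I rs) (orElse (alg3 I rs)
      (orElse (alg3 (revI I) rs) (orElse (alg4 I) (orElse (alg5 I rs)
      (alg5 (revI I) rs)))))) with
    | none => Sum.inl true
    | some x => x) := fun rs => if_neg h6
  rcases h1 : alg1 I with _ | x
  swap
  · refine (ok1 h h1).congr fun rs => ?_
    rw [hnext, h1]; rfl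
  have hst := none1 h h1
  rcases alg2_uniform I with h2 | ⟨g, hg⟩
  swap
  · refine (ok2 h (by omega) hg).congr fun rs => ?_
    rw [hnext, h1, hg]; rfl
  have hc := none2 h (h2 [])
  rcases alg3_uniform I with h3 | ⟨g, hg⟩
  swap
  · refine (ok3 h hst hg).congr fun rs => ?_
    rw [hnext, h1, h2, hg]; rfl
  have hrst : Strong (rl (revI I)) (vt (revI I)) := by
    have e1 : vt (revI I) = vt I := rfl
    have e2 : rl (revI I) = fun a b => rl I b a := by
      funext a b
      simp only [rl, rel, revI, revE, List.mem_map, Prod.mk.injEq, Prod.exists, eq_iff_iff]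
      constructor
      · rintro ⟨c, d, hcd, rfl, rfl⟩; exact hcd
      · intro hab; exact ⟨b, a, hab, rfl, rfl⟩
    rw [e1, e2]
    exact Strong.rev.2 hst
  rcases alg3_uniform (revI I) with h3' | ⟨g, hg⟩
  swap
  · refine (RuleOK.rev (ok3 h.rev hrst hg)).congr fun rs => ?_
    rw [hnext, h1, h2, h3, hg]; rfl
  rcases h4 : alg4 I with _ | x
  swap
  · obtain ⟨e, ht⟩ := ok4 h (by omega) hst hc (h3 []) (h3' []) h4
    refine (RuleOK.const (b := true) ⟨fun _ => ht, fun _ => rfl⟩).congr fun rs => ?_
    rw [hnext, h1, h2, h3, h3', h4, e]; rfl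
  have h2s := none4 h hst h4
  rcases alg5_uniform I with h5 | ⟨g, hg⟩
  swap
  · refine (ok5 h (by omega) h2s hc hg).congr fun rs => ?_
    rw [hnext, h1, h2, h3, h3', h4, hg]; rfl
  have e2 : rl (revI I) = fun a b => rl I b a := by
    funext a b
    simp only [rl, rel, revI, revE, List.mem_map, Prod.mk.injEq, Prod.exists, eq_iff_iff]
    constructor
    · rintro ⟨c, d, hcd, rfl, rfl⟩; exact hcd
    · intro hab; exact ⟨b, a, hab, rfl, rfl⟩
  rcases alg5_uniform (revI I) with h5' | ⟨g, hg⟩
  swap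
  · have h2s' : TwoStrong (rl (revI I)) (vt (revI I)) := by
      rw [e2]
      exact h2s.rev
    have hc' : Conn (rl (revI I)) (vt (revI I)) {x | x ∈ (revI I).2.2.1}
        {y | y ∈ (revI I).2.2.2} 2 := by
      rw [e2]
      exact hc.rev
    refine (RuleOK.rev (ok5 h.rev (by show 7 ≤ I.1.length; omega) h2s' hc' hg)).congr fun rs => ?_
    rw [hnext, h1, h2, h3, h3', h4, h5, hg]; rfl
  · have ht := none5 h hc (h5 []) (h5' [])
    have hcard : (vt I).card = I.1.length := List.toFinset_card_of_nodup h.nodup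
    have hcc : Conn (rl I) (vt I) ↑(vt I ∩ I.2.2.1.toFinset) ↑(vt I ∩ I.2.2.2.toFinset) 2 := by
      intro S hS hk U hU hX hcl
      obtain ⟨u, hu, huY⟩ := hc S hS hk U hU (fun x hx hxX => hX x hx (by
        have h7 := (Finset.mem_sdiff.1 hx).1
        simp only [Finset.coe_inter, Set.mem_inter_iff, Finset.mem_coe]
        exact ⟨h7, List.mem_toFinset.2 hxX⟩)) hcl
      refine ⟨u, hu, ?_⟩
      simp only [Finset.coe_inter, Set.mem_inter_iff, Finset.mem_coe]
      exact ⟨(Finset.mem_sdiff.1 (hU hu)).1, List.mem_toFinset.2 huY⟩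
    have key := rule6 h.semi h2s (by rw [hcard]; omega) Finset.inter_subset_left
      Finset.inter_subset_left hcc ht
    have htr : Truth I := by
      refine HP.mono key (fun x _ hx => ?_) (fun y _ hy => ?_)
      · simp only [Finset.coe_inter, Set.mem_inter_iff, Finset.mem_coe, List.mem_toFinset] at hx
        exact hx.2
      · simp only [Finset.coe_inter, Set.mem_inter_iff, Finset.mem_coe, List.mem_toFinset] at hy
        exact hy.2
    refine (RuleOK.const (b := true) ⟨fun _ => htr, fun _ => rfl⟩).congr fun rs => ?_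
    rw [hnext, h1, h2, h3, h3', h4, h5, h5']; rfl

/-- The Hamiltonian `(X,Y)`-path problem for semicomplete digraphs is solvable in polynomial
time. -/
theorem exists_decider : ∃ F : Inst → Bool, Poly F ∧ ∀ I, wfB I = true → (F I = true ↔ Truth I) := by
  obtain ⟨q, hq⟩ := sz_inst
  refine adaptive (next := next) poly_next (wf := wfB) poly_wfB (P := Truth) (φ := pot)
    (m := fun I => sz I.1) (p := Polynomial.X ^ 4) (q := q) ?_ ?_ ?_ ?_ ?_ ?_
  · intro I hI rs js b hh hb
    exact (next_ok hI rs js hh).1 b hb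
  · intro I hI rs js J hh hJ
    obtain ⟨h1, h2, h3⟩ := (next_ok hI rs js hh).2 J hJ
    obtain ⟨hw, -⟩ := wfB_iff.1 h1
    exact ⟨h1, sz_sub hw.nodup h2, h3⟩
  · intro I hI
    obtain ⟨-, he⟩ := wfB_iff.1 hI
    have := hq I.1 I.2.1 I.2.2.1 I.2.2.2
    rw [he] at this
    exact this
  · intro I
    obtain ⟨V, E, X, Y⟩ := I
    simp only [sz_pair]
    omega
  · intro I _
    have h1 := length_lt_sz I.1
    simp only [Polynomial.eval_pow, Polynomial.eval_X]
    exact Nat.pow_le_pow_left h1.le 4
  · intro I hI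
    obtain ⟨hw, -⟩ := wfB_iff.1 hI
    have : 0 < I.1.length := List.length_pos_iff.2 hw.ne
    exact Nat.one_le_pow _ _ this

end Pool.Agent.Helper944_HC
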