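import Pool.Agent.Helper944_HC.Defs

/-!
# Menger's theorem (directed, set version)
-/

namespace Pool.Agent.Helper944_HC

variable {α : Type*} [DecidableEq α] {r : α → α → Prop} {V : Finset α} {X Y : Set α}

/-- A path of `r` inside `V` from `X` to `Y`, as a list. -/
structure IsP (r : α → α → Prop) (V : Finset α) (X Y : Set α) (l : List α) : Prop where
  nodup : l.Nodup
  chain : l.IsChain r
  sub : ∀ v ∈ l, v ∈ V
  head : ∃ x, l.head? = some x ∧ x ∈ X
  last : ∃ y, l.getLast? = some y ∧ y ∈ Y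

/-- The list of a function on an initial segment. -/
def mg_list {β : Type*} (f : ℕ → β) (m : ℕ) : List β := (List.range m).map f

theorem mg_list_mem {β : Type*} (f : ℕ → β) (m : ℕ) (v : β) :
    v ∈ mg_list f m ↔ ∃ n < m, f n = v := by
  simp [mg_list]

theorem mg_list_chain {β : Type*} {s : β → β → Prop} (f : ℕ → β) (m : ℕ)
    (h : ∀ n, n + 1 < m → s (f n) (f (n + 1))) : (mg_list f m).IsChain s := by
  rw [List.isChain_iff_getElem]
  intro i hi
  simp only [mg_list, List.length_map, List.length_range] at hi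
  simp only [mg_list, List.getElem_map, List.getElem_range]
  exact h i hi

theorem mg_list_nodup {β : Type*} (f : ℕ → β) (m : ℕ)
    (h : ∀ a b, a < m → b < m → f a = f b → a = b) : (mg_list f m).Nodup := by
  refine List.Nodup.map_on ?_ List.nodup_range
  intro a ha b hb hab
  exact h a b (List.mem_range.1 ha) (List.mem_range.1 hb) hab

theorem mg_list_head {β : Type*} (f : ℕ → β) (m : ℕ) (hm : 0 < m) :
    (mg_list f m).head? = some (f 0) := by
  cases m with
  | zero => omega
  | succ m => simp [mg_list, List.range_succ_eq_map]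

theorem mg_list_last {β : Type*} (f : ℕ → β) (m : ℕ) (hm : 0 < m) :
    (mg_list f m).getLast? = some (f (m - 1)) := by
  cases m with
  | zero => omega
  | succ m => simp [mg_list, List.range_succ]

/-- Hall's condition. -/
theorem mg_hall {k : ℕ} (h : Conn r V X Y k) :
    ∃ τ : Equiv.Perm ({v // v ∈ V} ⊕ Fin k),
      (∀ i, ∃ u, τ (Sum.inr i) = Sum.inl u ∧ u.1 ∈ X) ∧
      (∀ u, (∃ w, τ (Sum.inl u) = Sum.inl w ∧ (w = u ∨ r u.1 w.1)) ∨
        (∃ j, τ (Sum.inl u) = Sum.inr j ∧ u.1 ∈ Y)) := by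
  classical
  let Z := {v // v ∈ V} ⊕ Fin k
  let t : Z → Finset Z := fun x => Finset.univ.filter fun y =>
    match x, y with
    | Sum.inl u, Sum.inl w => w = u ∨ r u.1 w.1
    | Sum.inl u, Sum.inr _ => u.1 ∈ Y
    | Sum.inr _, Sum.inl w => w.1 ∈ X
    | Sum.inr _, Sum.inr _ => False
  have hall : ∀ A : Finset Z, A.card ≤ (A.biUnion t).card := by
    intro A
    let f : Finset Z → Finset α := fun Q => Q.toLeft.map ⟨Subtype.val, Subtype.val_injective⟩
    have hf : ∀ (Q : Finset Z) (u : α), u ∈ f Q ↔ ∃ hu : u ∈ V, (Sum.inl ⟨u, hu⟩ : Z) ∈ Q := by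
      intro Q u
      simp only [f, Finset.mem_map, Finset.mem_toLeft, Function.Embedding.coeFn_mk,
        Subtype.exists, exists_and_right, exists_eq_right]
    have hcard : ∀ Q : Finset Z, Q.card = (f Q).card + Q.toRight.card := by
      intro Q
      rw [← Finset.card_toLeft_add_card_toRight, Finset.card_map]
    rw [hcard A, hcard (A.biUnion t)]
    have hsub : f A ⊆ f (A.biUnion t) := by
      intro u hu
      rw [hf] at hu ⊢
      obtain ⟨hu, huA⟩ := hu
      refine ⟨hu, Finset.mem_biUnion.2 ⟨_, huA, ?_⟩⟩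
      simp [t]
    have hle := Finset.card_le_card hsub
    by_cases hA2 : A.toRight = ∅
    · rw [hA2, Finset.card_empty]
      omega
    · obtain ⟨i0, hi0⟩ := Finset.nonempty_iff_ne_empty.2 hA2
      have hi0' : (Sum.inr i0 : Z) ∈ A := by simpa using hi0
      have hA2k : A.toRight.card ≤ k := by
        have := Finset.card_le_univ A.toRight
        simpa using this
      by_cases hR : ∃ u ∈ f A, u ∈ Y
      · obtain ⟨u, hu, huv⟩ := hR
        rw [hf] at hu
        obtain ⟨hu1, hu2⟩ := hu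
        have hB2 : (A.biUnion t).toRight = Finset.univ := by
          ext j
          simp only [Finset.mem_toRight, Finset.mem_univ, iff_true]
          refine Finset.mem_biUnion.2 ⟨_, hu2, ?_⟩
          simp [t, huv]
        rw [hB2]
        simp only [Finset.card_univ, Fintype.card_fin]
        omega
      · push Not at hR
        have hk : k ≤ (f (A.biUnion t) \ f A).card := by
          by_contra hlt
          push Not at hlt
          have hBV : f (A.biUnion t) ⊆ V := by
            intro u hu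
            rw [hf] at hu
            exact hu.1
          obtain ⟨u, hu, huY⟩ := h (f (A.biUnion t) \ f A) (Finset.sdiff_subset.trans hBV) hlt
            (f A) (by
              intro u hu
              rw [Finset.mem_sdiff, Finset.mem_sdiff]
              exact ⟨hBV (hsub hu), fun hc => hc.2 hu⟩) (by
              intro x hx hxX
              rw [Finset.mem_sdiff, Finset.mem_sdiff, not_and, not_not] at hx
              refine hx.2 ?_
              rw [hf]
              refine ⟨hx.1, Finset.mem_biUnion.2 ⟨_, hi0', ?_⟩⟩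
              simp [t, hxX]) (by
              intro u hu v hv huv
              rw [Finset.mem_sdiff, Finset.mem_sdiff, not_and, not_not] at hv
              refine hv.2 ?_
              rw [hf] at hu ⊢
              obtain ⟨hu1, hu2⟩ := hu
              refine ⟨hv.1, Finset.mem_biUnion.2 ⟨_, hu2, ?_⟩⟩
              simp [t, huv])
          exact hR u hu huY
        have := Finset.card_sdiff_add_card_eq_card hsub
        omega
  obtain ⟨σ, hσinj, hσ⟩ := (Finset.all_card_le_biUnion_card_iff_exists_injective t).1 hall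
  let τ : Equiv.Perm Z := Equiv.ofBijective σ (Finite.injective_iff_bijective.1 hσinj)
  have hτ : ∀ x, τ x ∈ t x := hσ
  refine ⟨τ, ?_, ?_⟩
  · intro i
    have := hτ (Sum.inr i)
    rcases hx : τ (Sum.inr i) with u | j
    · rw [hx] at this
      simp only [t, Finset.mem_filter, Finset.mem_univ, true_and] at this
      exact ⟨u, rfl, this⟩
    · rw [hx] at this
      simp [t] at this
  · intro u
    have := hτ (Sum.inl u)
    rcases hx : τ (Sum.inl u) with w | j
    · rw [hx] at this
      simp only [t, Finset.mem_filter, Finset.mem_univ, true_and] at this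
      exact Or.inl ⟨w, rfl, this⟩
    · rw [hx] at this
      simp only [t, Finset.mem_filter, Finset.mem_univ, true_and] at this
      exact Or.inr ⟨j, rfl, this⟩

/-- Following an orbit. -/
theorem mg_orbit {k : ℕ} (τ : Equiv.Perm ({v // v ∈ V} ⊕ Fin k))
    (h1 : ∀ i, ∃ u, τ (Sum.inr i) = Sum.inl u ∧ u.1 ∈ X)
    (h2 : ∀ u, (∃ w, τ (Sum.inl u) = Sum.inl w ∧ (w = u ∨ r u.1 w.1)) ∨
        (∃ j, τ (Sum.inl u) = Sum.inr j ∧ u.1 ∈ Y)) (i : Fin k) :
    ∃ M : ℕ, (∀ n, 1 ≤ n → n < M → ∃ u, (τ ^ n) (Sum.inr i) = Sum.inl u) ∧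
      ∃ l : List α, IsP r V X Y l ∧
        ∀ v ∈ l, ∃ n, 1 ≤ n ∧ n < M ∧ ∃ u, (τ ^ n) (Sum.inr i) = Sum.inl u ∧ u.1 = v := by
  classical
  set x : ℕ → ({v // v ∈ V} ⊕ Fin k) := fun n => (τ ^ n) (Sum.inr i) with hx
  have hx0 : x 0 = Sum.inr i := by simp [hx]
  have hxs : ∀ n, x (n + 1) = τ (x n) := by
    intro n
    simp only [hx]
    rw [pow_succ', Equiv.Perm.mul_apply]
  have hex : ∃ n, 1 ≤ n ∧ ∃ j, x n = Sum.inr j := by
    refine ⟨orderOf τ, orderOf_pos τ, i, ?_⟩
    simp [hx, pow_orderOf_eq_one]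
  obtain ⟨M, ⟨hM1, jM, hjM⟩, hmin⟩ : ∃ M, (1 ≤ M ∧ ∃ j, x M = Sum.inr j) ∧
      ∀ n < M, ¬ (1 ≤ n ∧ ∃ j, x n = Sum.inr j) :=
    ⟨Nat.find hex, Nat.find_spec hex, fun n hn => Nat.find_min hex hn⟩
  have hinl : ∀ n, 1 ≤ n → n < M → ∃ u, x n = Sum.inl u := by
    intro n hn hnM
    rcases hxn : x n with u | j
    · exact ⟨u, rfl⟩
    · exact absurd ⟨hn, j, hxn⟩ (hmin n hnM)
  obtain ⟨u0, hu0, hu0X⟩ := h1 i
  have hx1 : x 1 = Sum.inl u0 := by
    rw [show (1 : ℕ) = 0 + 1 from rfl, hxs, hx0, hu0]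
  have hM2 : 2 ≤ M := by
    by_contra hlt
    have : M = 1 := by omega
    rw [this, hx1] at hjM
    cases hjM
  have hdist : ∀ a b, b < a → a < M → x a ≠ x b := by
    intro a b hba haM hab
    have e1 : x (a - b) = Sum.inr i := by
      have : (τ ^ b) (x (a - b)) = (τ ^ b) (Sum.inr i) := by
        simp only [hx]
        rw [← Equiv.Perm.mul_apply, ← pow_add, show b + (a - b) = a by omega]
        exact hab
      exact (τ ^ b).injective this
    exact hmin (a - b) (by omega) ⟨by omega, i, e1⟩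
  let pr : ({v // v ∈ V} ⊕ Fin k) → α := Sum.elim Subtype.val (fun _ => u0.1)
  have hpr : ∀ n u, x n = Sum.inl u → pr (x n) = u.1 := by
    intro n u hu
    rw [hu]
    rfl
  refine ⟨M, hinl, mg_list (fun n => pr (x (n + 1))) (M - 1), ⟨?_, ?_, ?_, ?_, ?_⟩, ?_⟩
  · apply mg_list_nodup
    intro a b ha hb hab
    by_contra hne
    obtain ⟨u, hu⟩ := hinl (a + 1) (by omega) (by omega)
    obtain ⟨w, hw⟩ := hinl (b + 1) (by omega) (by omega)
    simp only [hpr _ _ hu, hpr _ _ hw] at hab
    have huw : x (a + 1) = x (b + 1) := by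
      rw [hu, hw, Subtype.ext hab]
    rcases lt_or_gt_of_ne hne with h | h
    · exact hdist (b + 1) (a + 1) (by omega) (by omega) huw.symm
    · exact hdist (a + 1) (b + 1) (by omega) (by omega) huw
  · apply mg_list_chain
    intro n hn
    obtain ⟨u, hu⟩ := hinl (n + 1) (by omega) (by omega)
    obtain ⟨w, hw⟩ := hinl (n + 1 + 1) (by omega) (by omega)
    show r (pr (x (n + 1))) (pr (x (n + 1 + 1)))
    rw [hpr _ _ hu, hpr _ _ hw]
    have h3 : τ (Sum.inl u) = Sum.inl w := by rw [← hu, ← hxs, hw]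
    rcases h2 u with ⟨w', hw', hc⟩ | ⟨j', hj', _⟩
    · rw [h3] at hw'
      have hww : w = w' := Sum.inl_injective hw'
      subst hww
      rcases hc with hc | hc
      · exfalso
        refine hdist (n + 1 + 1) (n + 1) (by omega) (by omega) ?_
        rw [hw, hu, hc]
      · exact hc
    · rw [h3] at hj'; cases hj'
  · intro v hv
    rw [mg_list_mem] at hv
    obtain ⟨n, hn, rfl⟩ := hv
    obtain ⟨u, hu⟩ := hinl (n + 1) (by omega) (by omega)
    show pr (x (n + 1)) ∈ V
    rw [hpr _ _ hu]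
    exact u.2
  · refine ⟨_, mg_list_head _ _ (by omega), ?_⟩
    show pr (x 1) ∈ X
    rw [hpr _ _ hx1]
    exact hu0X
  · refine ⟨_, mg_list_last _ _ (by omega), ?_⟩
    show pr (x (M - 1 - 1 + 1)) ∈ Y
    have hM' : M - 1 - 1 + 1 = M - 1 := by omega
    rw [hM']
    obtain ⟨u, hu⟩ := hinl (M - 1) (by omega) (by omega)
    rw [hpr _ _ hu]
    have h3 : τ (Sum.inl u) = Sum.inr jM := by
      rw [← hu, ← hxs, show M - 1 + 1 = M by omega, hjM]
    rcases h2 u with ⟨w, hw, _⟩ | ⟨j', _, hY⟩
    · rw [h3] at hw; cases hw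
    · exact hY
  · intro v hv
    rw [mg_list_mem] at hv
    obtain ⟨n, hn, rfl⟩ := hv
    obtain ⟨u, hu⟩ := hinl (n + 1) (by omega) (by omega)
    exact ⟨n + 1, by omega, by omega, u, hu, (hpr _ _ hu).symm⟩

/-- Menger's theorem. -/
theorem menger {k : ℕ} (h : Conn r V X Y k) :
    ∃ P : Fin k → List α, (∀ i, IsP r V X Y (P i)) ∧
      ∀ i j, i ≠ j → ∀ v ∈ P i, v ∉ P j := by
  obtain ⟨τ, h1, h2⟩ := mg_hall h
  choose M hM P hP hv using mg_orbit τ h1 h2
  refine ⟨P, hP, ?_⟩
  have key : ∀ i j, i ≠ j → ∀ a b, a < M i → b < M j → 1 ≤ b → b ≤ a →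
      (τ ^ a) (Sum.inr i) ≠ (τ ^ b) (Sum.inr j) := by
    intro i j hij a b ha hb hb1 hba hab
    have e1 : (τ ^ (a - b)) (Sum.inr i) = Sum.inr j := by
      have : (τ ^ b) ((τ ^ (a - b)) (Sum.inr i)) = (τ ^ b) (Sum.inr j) := by
        rw [← Equiv.Perm.mul_apply, ← pow_add, show b + (a - b) = a by omega]
        exact hab
      exact (τ ^ b).injective this
    by_cases h0 : a - b = 0
    · rw [h0] at e1
      simp only [pow_zero, Equiv.Perm.one_apply] at e1
      exact hij (Sum.inr_injective e1)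
    · obtain ⟨u, hu⟩ := hM i (a - b) (by omega) (by omega)
      rw [e1] at hu
      cases hu
  intro i j hij v hvi hvj
  obtain ⟨a, ha1, ha, u, hu, huv⟩ := hv i v hvi
  obtain ⟨b, hb1, hb, u', hu', huv'⟩ := hv j v hvj
  have heq : (τ ^ a) (Sum.inr i) = (τ ^ b) (Sum.inr j) := by
    rw [hu, hu', Subtype.ext (huv.trans huv'.symm)]
  rcases le_total b a with hab | hab
  · exact key i j hij a b ha hb hb1 hab heq
  · exact key j i hij.symm b a hb ha ha1 hab heq.symm

end Pool.Agent.Helper944_HC
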