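import Pool.Agent.Helper944_HC.Paths0

/-!
# Systems of disjoint paths with maximum coverage
-/

namespace Pool.Agent.Helper944_HC

variable {α : Type*} [DecidableEq α] {r : α → α → Prop} {V : Finset α} {X Y T : Set α}

theorem q1_semi (hs : Semi r V) {U : Finset α} {P : List α} (hV : ∀ v ∈ P, v ∈ V)
    (hU : ∀ v ∈ P, v ∈ U) : ∀ w ∈ V \ U, ∀ x ∈ P, r w x ∨ r x w := by
  intro w hw x hx
  have hw' := Finset.mem_sdiff.1 hw
  refine hs w hw'.1 x (hV x hx) ?_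
  rintro rfl
  exact hw'.2 (hU w hx)

theorem q1_union (P : Fin 3 → List α) :
    Finset.univ.biUnion (fun i => (P i).toFinset) =
      (P 0).toFinset ∪ (P 1).toFinset ∪ (P 2).toFinset := by
  ext v
  simp only [Finset.mem_biUnion, Finset.mem_univ, true_and, Finset.mem_union]
  constructor
  · rintro ⟨i, hi⟩
    fin_cases i
    · exact Or.inl (Or.inl hi)
    · exact Or.inl (Or.inr hi)
    · exact Or.inr hi
  · rintro ((h | h) | h)
    · exact ⟨0, h⟩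
    · exact ⟨1, h⟩
    · exact ⟨2, h⟩

theorem q1_sub (P : Fin 3 → List α) (i : Fin 3) :
    ∀ v ∈ P i, v ∈ (P 0).toFinset ∪ (P 1).toFinset ∪ (P 2).toFinset := by
  intro v hv
  rw [← q1_union]
  exact Finset.mem_biUnion.2 ⟨i, Finset.mem_univ _, List.mem_toFinset.2 hv⟩

theorem q1_disj {P : Fin 3 → List α} (hd : ∀ i j, i ≠ j → ∀ v ∈ P i, v ∉ P j) (i j : Fin 3)
    (hij : i ≠ j) : Disjoint (P i).toFinset (P j).toFinset := by
  rw [Finset.disjoint_left]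
  intro v hv hv'
  exact hd i j hij v (List.mem_toFinset.1 hv) (List.mem_toFinset.1 hv')

/-- Three disjoint `(X,Y)`-paths of maximum coverage. -/
theorem three_paths (hs : Semi r V) (h : Conn r V X Y 3) :
    ∃ (P : Fin 3 → Finset α) (p q : Fin 3 → α), (∀ i, P i ⊆ V) ∧
      (∀ i j, i ≠ j → Disjoint (P i) (P j)) ∧ (∀ i, p i ∈ X) ∧ (∀ i, q i ∈ Y) ∧
      ∀ i, PD r (V \ (P 0 ∪ P 1 ∪ P 2)) (P i) (p i) (q i) := by
  obtain ⟨P0, hP0, hd0⟩ := menger h
  obtain ⟨P, hP, hd, hNI, -⟩ := exists_max (h := fun _ => X) (t := fun _ => Y) hs hP0 hd0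
  choose p hp hpX using fun i => (hP i).head
  choose q hq hqY using fun i => (hP i).last
  rw [q1_union] at hNI
  refine ⟨fun i => (P i).toFinset, p, q, ?_, q1_disj hd, hpX, hqY, ?_⟩
  · intro i v hv
    exact (hP i).sub v (List.mem_toFinset.1 hv)
  · intro i
    exact (hNI i).pd (hP i).nodup (hP i).chain (hp i) (hq i)
      (q1_semi hs (hP i).sub (q1_sub P i))

/-- Three disjoint paths from `a`, `b`, `c` to `T` of maximum coverage. -/
theorem fork_paths (hs : Semi r V) {a b c : α} (hab : a ≠ b) (hac : a ≠ c) (hbc : b ≠ c)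
    (h : Conn r V {a, b, c} T 3) :
    ∃ A B C : Finset α, ∃ a' b' c' : α, A ⊆ V ∧ B ⊆ V ∧ C ⊆ V ∧ Disjoint A B ∧ Disjoint A C ∧
      Disjoint B C ∧ a' ∈ T ∧ b' ∈ T ∧ c' ∈ T ∧
      PD r (V \ (A ∪ B ∪ C)) A a a' ∧ PD r (V \ (A ∪ B ∪ C)) B b b' ∧
      PD r (V \ (A ∪ B ∪ C)) C c c' ∧
      (a ≠ a' → ∃ a2, r a a2 ∧ PD r (V \ (A ∪ B ∪ C)) (A.erase a) a2 a') ∧
      (∀ w ∈ V \ (A ∪ B ∪ C), w ∈ T → ∀ x ∈ A ∪ B ∪ C, ¬ r x w) := by
  obtain ⟨P0, hP0, hd0⟩ := menger h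
  choose p0 hp0 hp0X using fun i => (hP0 i).head
  have hmem0 : ∀ i, p0 i ∈ P0 i := fun i => List.mem_of_mem_head? (hp0 i)
  have hinj : Function.Injective p0 := by
    intro i j hij
    by_contra hne
    have h1 := hd0 i j hne (p0 i) (hmem0 i)
    rw [hij] at h1
    exact h1 (hmem0 j)
  have himg : Finset.univ.image p0 = {a, b, c} := by
    apply Finset.eq_of_subset_of_card_le
    · intro v hv
      obtain ⟨i, -, rfl⟩ := Finset.mem_image.1 hv
      have h1 := hp0X i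
      simpa using h1
    · rw [Finset.card_image_of_injective _ hinj, Finset.card_univ, Fintype.card_fin]
      exact Finset.card_le_three
  have hex : ∀ v ∈ ({a, b, c} : Finset α), ∃ i, p0 i = v := by
    intro v hv
    rw [← himg] at hv
    obtain ⟨i, -, hi⟩ := Finset.mem_image.1 hv
    exact ⟨i, hi⟩
  obtain ⟨ia, hia⟩ := hex a (by simp)
  obtain ⟨ib, hib⟩ := hex b (by simp)
  obtain ⟨ic, hic⟩ := hex c (by simp)
  have nab : ia ≠ ib := by rintro rfl; exact hab (hia.symm.trans hib)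
  have nac : ia ≠ ic := by rintro rfl; exact hac (hia.symm.trans hic)
  have nbc : ib ≠ ic := by rintro rfl; exact hbc (hib.symm.trans hic)
  have key : ∀ (i : Fin 3) (v : α), p0 i = v → IsP r V {v} T (P0 i) := by
    rintro i v rfl
    exact ⟨(hP0 i).nodup, (hP0 i).chain, (hP0 i).sub, ⟨p0 i, hp0 i, rfl⟩, (hP0 i).last⟩
  obtain ⟨P, hP, hd, hNI, hlast⟩ := exists_max (k := 3) (h := ![{a}, {b}, {c}])
    (t := fun _ => T) (P := ![P0 ia, P0 ib, P0 ic]) hs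
    (by
      intro i
      fin_cases i
      · exact key ia a hia
      · exact key ib b hib
      · exact key ic c hic)
    (by
      intro i j hij
      fin_cases i <;> fin_cases j
      · exact absurd rfl hij
      · exact hd0 ia ib nab
      · exact hd0 ia ic nac
      · exact hd0 ib ia nab.symm
      · exact absurd rfl hij
      · exact hd0 ib ic nbc
      · exact hd0 ic ia nac.symm
      · exact hd0 ic ib nbc.symm
      · exact absurd rfl hij)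
  rw [q1_union] at hNI hlast
  choose q hq hqT using fun i => (hP i).last
  have ha : (P 0).head? = some a := by
    obtain ⟨x, hx, hxa⟩ := (hP 0).head
    have : x = a := hxa
    rw [hx, this]
  have hb : (P 1).head? = some b := by
    obtain ⟨x, hx, hxa⟩ := (hP 1).head
    have : x = b := hxa
    rw [hx, this]
  have hc : (P 2).head? = some c := by
    obtain ⟨x, hx, hxa⟩ := (hP 2).head
    have : x = c := hxa
    rw [hx, this]
  have hsub : ∀ i, (P i).toFinset ⊆ V := fun i v hv => (hP i).sub v (List.mem_toFinset.1 hv)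
  refine ⟨(P 0).toFinset, (P 1).toFinset, (P 2).toFinset, q 0, q 1, q 2, hsub 0, hsub 1, hsub 2,
    q1_disj hd 0 1 (by decide), q1_disj hd 0 2 (by decide), q1_disj hd 1 2 (by decide),
    hqT 0, hqT 1, hqT 2, ?_, ?_, ?_, ?_, ?_⟩
  · exact (hNI 0).pd (hP 0).nodup (hP 0).chain ha (hq 0) (q1_semi hs (hP 0).sub (q1_sub P 0))
  · exact (hNI 1).pd (hP 1).nodup (hP 1).chain hb (hq 1) (q1_semi hs (hP 1).sub (q1_sub P 1))
  · exact (hNI 2).pd (hP 2).nodup (hP 2).chain hc (hq 2) (q1_semi hs (hP 2).sub (q1_sub P 2))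
  · intro haa
    exact (hNI 0).pd_tail (hP 0).nodup (hP 0).chain ha (hq 0) haa
      (q1_semi hs (hP 0).sub (q1_sub P 0))
  · intro w hw hwT x hx
    rw [← q1_union] at hx
    obtain ⟨i, -, hi⟩ := Finset.mem_biUnion.1 hx
    exact hlast i w hw hwT x (List.mem_toFinset.1 hi)

/-! auxiliary lemmas for `link_paths` and `sep_paths` -/

theorem q2_max {h0 h1 t0 t1 : Set α} (hs : Semi r V) {P0 P1 : List α} (hP0 : IsP r V h0 t0 P0)
    (hP1 : IsP r V h1 t1 P1) (hd : ∀ v ∈ P0, v ∉ P1) :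
    ∃ Q0 Q1 : List α, IsP r V h0 t0 Q0 ∧ IsP r V h1 t1 Q1 ∧ (∀ v ∈ Q0, v ∉ Q1) ∧
      NI r (V \ (Q0.toFinset ∪ Q1.toFinset)) Q0 ∧ NI r (V \ (Q0.toFinset ∪ Q1.toFinset)) Q1 := by
  obtain ⟨P', hP', hd', hn, -⟩ := exists_max (k := 2) (h := ![h0, h1]) (t := ![t0, t1]) hs
    (P := ![P0, P1]) (by
      intro i
      fin_cases i
      · exact hP0
      · exact hP1) (by
      intro i j hij v hv hv'
      fin_cases i <;> fin_cases j
      · exact hij rfl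
      · exact hd v hv hv'
      · exact hd v hv' hv
      · exact hij rfl)
  have e : (Finset.univ.biUnion fun i => (P' i).toFinset) =
      (P' 0).toFinset ∪ (P' 1).toFinset := by
    ext v
    simp only [Finset.mem_biUnion, Finset.mem_univ, true_and, Finset.mem_union, Fin.exists_fin_two]
  rw [e] at hn
  exact ⟨P' 0, P' 1, hP' 0, hP' 1, hd' 0 1 (by decide), hn 0, hn 1⟩

theorem q2_semi (hs : Semi r V) {Q R : List α} (hQ : ∀ v ∈ Q, v ∈ V) :
    (∀ w ∈ V \ (Q.toFinset ∪ R.toFinset), ∀ x ∈ Q, r w x ∨ r x w) ∧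
    (∀ w ∈ V \ (R.toFinset ∪ Q.toFinset), ∀ x ∈ Q, r w x ∨ r x w) := by
  constructor
  · intro w hw x hx
    rw [Finset.mem_sdiff, Finset.mem_union, not_or] at hw
    refine hs w hw.1 x (hQ x hx) ?_
    rintro rfl
    exact hw.2.1 (List.mem_toFinset.2 hx)
  · intro w hw x hx
    rw [Finset.mem_sdiff, Finset.mem_union, not_or] at hw
    refine hs w hw.1 x (hQ x hx) ?_
    rintro rfl
    exact hw.2.2 (List.mem_toFinset.2 hx)

theorem q2_link (hs : Semi r V) {a c e d : α} (hae : a ≠ e)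
    (had : a ≠ d) (hce : c ≠ e) {P Q : List α} {P1 Q1 : α} (hP : IsP r V {a} {P1} P)
    (hQ : IsP r V {c} {Q1} Q) (hd : ∀ v ∈ P, v ∉ Q)
    (h : (P1 = e ∧ Q1 = d) ∨ (P1 = d ∧ Q1 = e)) :
    ∃ A C : Finset α, A ⊆ V ∧ C ⊆ V ∧ Disjoint A C ∧
      ((PD r (V \ (A ∪ C)) A a e ∧ PD r (V \ (A ∪ C)) C c d ∧
        (∃ a2, r a a2 ∧ PD r (V \ (A ∪ C)) (A.erase a) a2 e) ∧
        (∃ e2, r e2 e ∧ PD r (V \ (A ∪ C)) (A.erase e) a e2)) ∨
      (PD r (V \ (A ∪ C)) A a d ∧ PD r (V \ (A ∪ C)) C c e ∧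
        (∃ a2, r a a2 ∧ PD r (V \ (A ∪ C)) (A.erase a) a2 d) ∧
        (∃ e2, r e2 e ∧ PD r (V \ (A ∪ C)) (C.erase e) c e2))) := by
  obtain ⟨P', Q', hP', hQ', hd', hnP, hnQ⟩ := q2_max hs hP hQ hd
  obtain ⟨x, hx, hx'⟩ := hP'.head
  obtain ⟨y, hy, hy'⟩ := hP'.last
  obtain ⟨z, hz, hz'⟩ := hQ'.head
  obtain ⟨w, hw, hw'⟩ := hQ'.last
  rw [Set.mem_singleton_iff] at hx' hy' hz' hw'
  subst hx' hy' hz' hw'
  have sP := (q2_semi (r := r) (R := Q') hs hP'.sub).1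
  have sQ := (q2_semi (r := r) (R := P') hs hQ'.sub).2
  refine ⟨P'.toFinset, Q'.toFinset, fun v hv => hP'.sub v (List.mem_toFinset.1 hv),
    fun v hv => hQ'.sub v (List.mem_toFinset.1 hv), ?_, ?_⟩
  · rw [Finset.disjoint_left]
    intro v hv hv'
    exact hd' v (List.mem_toFinset.1 hv) (List.mem_toFinset.1 hv')
  · rcases h with ⟨rfl, rfl⟩ | ⟨rfl, rfl⟩
    · left
      exact ⟨hnP.pd hP'.nodup hP'.chain hx hy sP, hnQ.pd hQ'.nodup hQ'.chain hz hw sQ,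
        hnP.pd_tail hP'.nodup hP'.chain hx hy hae sP,
        hnP.pd_dropLast hP'.nodup hP'.chain hx hy hae sP⟩
    · right
      exact ⟨hnP.pd hP'.nodup hP'.chain hx hy sP, hnQ.pd hQ'.nodup hQ'.chain hz hw sQ,
        hnP.pd_tail hP'.nodup hP'.chain hx hy had sP,
        hnQ.pd_dropLast hQ'.nodup hQ'.chain hz hw hce sQ⟩

theorem q2_split {A : Finset α} : ∀ (l : List α) {x y : α}, l.head? = some x → x ∈ A →
    l.getLast? = some y → y ∉ A → ∃ (l1 l2 : List α) (u v : α), l = l1 ++ v :: l2 ∧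
      (∀ z ∈ l1, z ∈ A) ∧ l1.head? = some x ∧ l1.getLast? = some u ∧ v ∉ A := by
  intro l
  induction l with
  | nil => intro x y hx; simp at hx
  | cons a l ih =>
    intro x y hx hxA hy hyA
    have hax : a = x := by simpa using hx
    subst hax
    cases l with
    | nil =>
      have : a = y := by simpa using hy
      subst this
      exact absurd hxA hyA
    | cons b l =>
      by_cases hb : b ∈ A
      · have hy2 : (b :: l).getLast? = some y := by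
          rw [← hy]; simp
        obtain ⟨l1, l2, u, v, e, h1, h2, h3, h4⟩ := ih (x := b) (y := y) rfl hb hy2 hyA
        refine ⟨a :: l1, l2, u, v, by rw [e]; rfl, ?_, rfl, ?_, h4⟩
        · intro z hz
          rcases List.mem_cons.1 hz with rfl | hz
          · exact hxA
          · exact h1 z hz
        · cases l1 with
          | nil => simp at h2
          | cons c l1 => rw [← h3]; simp
      · exact ⟨[a], l, a, b, rfl, by simpa using hxA, rfl, rfl, hb⟩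

theorem q2_side {s t : α} {A : Finset α} (hXA : ∀ x ∈ V, x ∈ X → x ∈ A)
    (hcl : Cl r (V \ {s, t}) A) (hAY : ∀ u ∈ A, u ∉ Y) {l : List α} (hl : IsP r V X Y l) :
    ∃ (l1 : List α) (v : α), (v = s ∨ v = t) ∧ v ∈ l ∧ (∀ z ∈ l1, z ∈ l) ∧
      IsP r A X {u | r u v} l1 := by
  obtain ⟨x, hx, hxX⟩ := hl.head
  obtain ⟨y, hy, hyY⟩ := hl.last
  have hxA := hXA x (hl.sub x (List.mem_of_mem_head? hx)) hxX
  have hyA : y ∉ A := fun h => hAY y h hyY
  obtain ⟨l1, l2, u, v, e, h1, h2, h3, h4⟩ := q2_split l hx hxA hy hyA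
  have hc := hl.chain
  rw [e, List.isChain_append] at hc
  have huv : r u v := hc.2.2 u (by rw [h3]; rfl) v (by simp)
  have hu : u ∈ A := h1 u (List.mem_of_mem_getLast? h3)
  have hvl : v ∈ l := by rw [e]; simp
  refine ⟨l1, v, ?_, hvl, ?_, ?_, ?_, ?_, ⟨x, h2, hxX⟩, ⟨u, h3, huv⟩⟩
  · by_contra hcon
    refine h4 (hcl u hu v ?_ huv)
    rw [Finset.mem_sdiff]
    refine ⟨hl.sub v hvl, ?_⟩
    simpa using hcon
  · intro z hz
    rw [e]
    exact List.mem_append_left _ hz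
  · have := hl.nodup
    rw [e, List.nodup_append] at this
    exact this.1
  · exact hc.1
  · exact h1

theorem q2_sep (hs : Semi r V) {s t : α} {A : Finset α} (hA : A ⊆ V) {P Q : List α}
    (hP : IsP r A X {u | r u s} P) (hQ : IsP r A X {u | r u t} Q) (hd : ∀ v ∈ P, v ∉ Q) :
    ∃ P Q : Finset α, ∃ p p' q q' : α, P ⊆ A ∧ Q ⊆ A ∧ Disjoint P Q ∧ p ∈ X ∧ q ∈ X ∧
      r p' s ∧ r q' t ∧ PD r (A \ (P ∪ Q)) P p p' ∧ PD r (A \ (P ∪ Q)) Q q q' := by
  obtain ⟨P', Q', hP', hQ', hd', hnP, hnQ⟩ := q2_max (hs.mono hA) hP hQ hd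
  obtain ⟨x, hx, hx'⟩ := hP'.head
  obtain ⟨y, hy, hy'⟩ := hP'.last
  obtain ⟨z, hz, hz'⟩ := hQ'.head
  obtain ⟨w, hw, hw'⟩ := hQ'.last
  have sP := (q2_semi (r := r) (R := Q') (hs.mono hA) hP'.sub).1
  have sQ := (q2_semi (r := r) (R := P') (hs.mono hA) hQ'.sub).2
  refine ⟨P'.toFinset, Q'.toFinset, x, y, z, w, fun v hv => hP'.sub v (List.mem_toFinset.1 hv),
    fun v hv => hQ'.sub v (List.mem_toFinset.1 hv), ?_, hx', hz', hy', hw',
    hnP.pd hP'.nodup hP'.chain hx hy sP, hnQ.pd hQ'.nodup hQ'.chain hz hw sQ⟩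
  rw [Finset.disjoint_left]
  intro v hv hv'
  exact hd' v (List.mem_toFinset.1 hv) (List.mem_toFinset.1 hv')

/-- Two disjoint paths linking `{a,c}` to `{e,d}`, of maximum coverage. -/
theorem link_paths (hs : Semi r V) {a c e d : α} (hac : a ≠ c) (hed : e ≠ d) (hae : a ≠ e)
    (had : a ≠ d) (hce : c ≠ e) (h : Conn r V {a, c} {e, d} 2) :
    ∃ A C : Finset α, A ⊆ V ∧ C ⊆ V ∧ Disjoint A C ∧
      ((PD r (V \ (A ∪ C)) A a e ∧ PD r (V \ (A ∪ C)) C c d ∧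
        (∃ a2, r a a2 ∧ PD r (V \ (A ∪ C)) (A.erase a) a2 e) ∧
        (∃ e2, r e2 e ∧ PD r (V \ (A ∪ C)) (A.erase e) a e2)) ∨
      (PD r (V \ (A ∪ C)) A a d ∧ PD r (V \ (A ∪ C)) C c e ∧
        (∃ a2, r a a2 ∧ PD r (V \ (A ∪ C)) (A.erase a) a2 d) ∧
        (∃ e2, r e2 e ∧ PD r (V \ (A ∪ C)) (C.erase e) c e2))) := by
  obtain ⟨P, hP, hd⟩ := menger h
  obtain ⟨x0, hx0, hx0'⟩ := (hP 0).head
  obtain ⟨x1, hx1, hx1'⟩ := (hP 1).head
  obtain ⟨y0, hy0, hy0'⟩ := (hP 0).last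
  obtain ⟨y1, hy1, hy1'⟩ := (hP 1).last
  have hx01 : x0 ≠ x1 := by
    rintro rfl
    exact hd 0 1 (by decide) x0 (List.mem_of_mem_head? hx0) (List.mem_of_mem_head? hx1)
  have hy01 : y0 ≠ y1 := by
    rintro rfl
    exact hd 0 1 (by decide) y0 (List.mem_of_mem_getLast? hy0) (List.mem_of_mem_getLast? hy1)
  have h0 : IsP r V {x0} {y0} (P 0) :=
    ⟨(hP 0).nodup, (hP 0).chain, (hP 0).sub, ⟨x0, hx0, rfl⟩, ⟨y0, hy0, rfl⟩⟩
  have h1 : IsP r V {x1} {y1} (P 1) :=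
    ⟨(hP 1).nodup, (hP 1).chain, (hP 1).sub, ⟨x1, hx1, rfl⟩, ⟨y1, hy1, rfl⟩⟩
  have hy : (y0 = e ∧ y1 = d) ∨ (y0 = d ∧ y1 = e) := by
    rcases hy0' with rfl | hy0' <;> rcases hy1' with rfl | hy1'
    · exact absurd rfl hy01
    · exact Or.inl ⟨rfl, hy1'⟩
    · exact Or.inr ⟨hy0', rfl⟩
    · exact absurd (hy0'.trans hy1'.symm) hy01
  have hx : (x0 = a ∧ x1 = c) ∨ (x0 = c ∧ x1 = a) := by
    rcases hx0' with rfl | hx0' <;> rcases hx1' with rfl | hx1'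
    · exact absurd rfl hx01
    · exact Or.inl ⟨rfl, hx1'⟩
    · exact Or.inr ⟨hx0', rfl⟩
    · exact absurd (hx0'.trans hx1'.symm) hx01
  rcases hx with ⟨rfl, rfl⟩ | ⟨rfl, rfl⟩
  · exact q2_link hs hae had hce h0 h1 (hd 0 1 (by decide)) hy
  · exact q2_link hs hae had hce h1 h0 (hd 1 0 (by decide))
      (hy.elim (fun h => Or.inr ⟨h.2, h.1⟩) (fun h => Or.inl ⟨h.2, h.1⟩))

/-- Two disjoint paths in the left side `A` of a separator `{s,t}`, from `X` to the in-neighbours of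
`s` and `t`, of maximum coverage. -/
theorem sep_paths (hs : Semi r V) {s t : α} (hst : s ≠ t) (hsV : s ∈ V) (htV : t ∈ V)
    (hsX : s ∉ X) (htX : t ∉ X) {A : Finset α} (hA : A ⊆ V \ {s, t})
    (hXA : ∀ x ∈ V, x ∈ X → x ∈ A) (hcl : Cl r (V \ {s, t}) A) (hAY : ∀ u ∈ A, u ∉ Y)
    (h : Conn r V X Y 2) :
    ∃ P Q : Finset α, ∃ p p' q q' : α, P ⊆ A ∧ Q ⊆ A ∧ Disjoint P Q ∧ p ∈ X ∧ q ∈ X ∧
      r p' s ∧ r q' t ∧ PD r (A \ (P ∪ Q)) P p p' ∧ PD r (A \ (P ∪ Q)) Q q q' := by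
  obtain ⟨P, hP, hd⟩ := menger h
  have hAV : A ⊆ V := hA.trans Finset.sdiff_subset
  obtain ⟨l0, v0, hv0, hm0, hs0, hl0⟩ := q2_side hXA hcl hAY (hP 0)
  obtain ⟨l1, v1, hv1, hm1, hs1, hl1⟩ := q2_side hXA hcl hAY (hP 1)
  have hv01 : v0 ≠ v1 := by
    rintro rfl
    exact hd 0 1 (by decide) v0 hm0 hm1
  have d01 : ∀ v ∈ l0, v ∉ l1 := fun v h0 h1 => hd 0 1 (by decide) v (hs0 v h0) (hs1 v h1)
  have d10 : ∀ v ∈ l1, v ∉ l0 := fun v h0 h1 => hd 1 0 (by decide) v (hs1 v h0) (hs0 v h1)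
  rcases hv0 with rfl | rfl <;> rcases hv1 with rfl | rfl
  · exact absurd rfl hv01
  · exact q2_sep hs hAV hl0 hl1 d01
  · exact q2_sep hs hAV hl1 hl0 d10
  · exact absurd rfl hv01

end Pool.Agent.Helper944_HC

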