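import Pool.Agent.Helper944_HC.Basic
import Pool.Agent.Helper944_HC.Menger

/-!
# Non-insertable vertices and systems of disjoint paths with maximum coverage
-/

namespace Pool.Agent.Helper944_HC

variable {α : Type*} [DecidableEq α] {r : α → α → Prop} {V W : Finset α}

/-- No vertex of `W` can be inserted in the list `P`. -/
def NI (r : α → α → Prop) (W : Finset α) (P : List α) : Prop :=
  ∀ w ∈ W, ∀ x y, [x, y].Sublist P → ¬ (r x w ∧ r w y)

omit [DecidableEq α] in
theorem p0_NI_sub {P Q : List α} (h : NI r W P) (hQ : Q.Sublist P) : NI r W Q :=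
  fun w hw x y hxy => h w hw x y (hxy.trans hQ)

theorem NI.pd {P : List α} {p q : α} (hn : P.Nodup) (hc : P.IsChain r) (h : NI r W P)
    (hp : P.head? = some p) (hq : P.getLast? = some q)
    (hs : ∀ w ∈ W, ∀ x ∈ P, r w x ∨ r x w) : PD r W P.toFinset p q := by
  have hpm : p ∈ P := List.mem_of_mem_head? hp
  have hqm : q ∈ P := List.mem_of_mem_getLast? hq
  refine ⟨⟨P, ⟨hn, hc, fun v => (List.mem_toFinset).symm⟩, ⟨p, hp, rfl⟩, ⟨q, hq, rfl⟩⟩, ?_, ?_⟩
  · rintro w hw ⟨x, hx, hwx⟩
    rw [List.mem_toFinset] at hx
    by_cases hxp : x = p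
    · rw [hxp] at hwx
      exact hwx
    · cases P with
      | nil => simp at hpm
      | cons a l =>
        have hap : a = p := by simpa using hp
        subst hap
        have hxl : x ∈ l := by
          rcases List.mem_cons.1 hx with h1 | h1
          · exact absurd h1 hxp
          · exact h1
        have h2 := h w hw a x (List.cons_sublist_cons.2 (List.singleton_sublist.2 hxl))
        rcases hs w hw a hpm with h3 | h3
        · exact h3
        · exact absurd ⟨h3, hwx⟩ h2
  · rintro w hw ⟨x, hx, hxw⟩
    rw [List.mem_toFinset] at hx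
    by_cases hxq : x = q
    · rw [hxq] at hxw
      exact hxw
    · obtain ⟨l, hl⟩ : ∃ l, P = l ++ [q] := by
        rw [List.getLast?_eq_some_iff] at hq
        exact hq
      have hxl : x ∈ l := by
        rw [hl, List.mem_append] at hx
        rcases hx with h1 | h1
        · exact h1
        · rw [List.mem_singleton] at h1
          exact absurd h1 hxq
      have h1 : [x, q].Sublist P := by
        rw [hl]
        exact List.Sublist.append (List.singleton_sublist.2 hxl) (List.Sublist.refl [q])
      have h2 := h w hw x q h1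
      rcases hs w hw q hqm with h3 | h3
      · exact absurd ⟨hxw, h3⟩ h2
      · exact h3

/-- Removing the first vertex. -/
theorem NI.pd_tail {P : List α} {p q : α} (hn : P.Nodup) (hc : P.IsChain r) (h : NI r W P)
    (hp : P.head? = some p) (hq : P.getLast? = some q) (hpq : p ≠ q)
    (hs : ∀ w ∈ W, ∀ x ∈ P, r w x ∨ r x w) :
    ∃ p2, r p p2 ∧ PD r W (P.toFinset.erase p) p2 q := by
  cases P with
  | nil => simp at hp
  | cons a l =>
    have hap : a = p := by simpa using hp
    subst hap
    cases l with
    | nil =>
      exfalso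
      apply hpq
      simpa using hq
    | cons b l =>
      obtain ⟨h1, h2⟩ := List.isChain_cons_cons.1 hc
      obtain ⟨n1, n2⟩ := List.nodup_cons.1 hn
      refine ⟨b, h1, ?_⟩
      have e1 : (a :: b :: l).toFinset.erase a = (b :: l).toFinset := by
        rw [List.toFinset_cons, Finset.erase_insert]
        rw [List.mem_toFinset]
        exact n1
      rw [e1]
      refine NI.pd n2 h2 (p0_NI_sub h (List.sublist_cons_self _ _)) rfl ?_
        (fun w hw x hx => hs w hw x (List.mem_cons_of_mem _ hx))
      rw [← hq, List.getLast?_cons_cons]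

/-- Removing the last vertex. -/
theorem NI.pd_dropLast {P : List α} {p q : α} (hn : P.Nodup) (hc : P.IsChain r) (h : NI r W P)
    (hp : P.head? = some p) (hq : P.getLast? = some q) (hpq : p ≠ q)
    (hs : ∀ w ∈ W, ∀ x ∈ P, r w x ∨ r x w) :
    ∃ q2, r q2 q ∧ PD r W (P.toFinset.erase q) p q2 := by
  obtain ⟨l, hl⟩ : ∃ l, P = l ++ [q] := by
    rw [List.getLast?_eq_some_iff] at hq
    exact hq
  subst hl
  cases l with
  | nil =>
    exfalso
    apply hpq
    have : q = p := by simpa using hp
    exact this.symm
  | cons a l =>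
    have hap : a = p := by simpa using hp
    subst hap
    obtain ⟨c1, -, c3⟩ := List.isChain_append.1 hc
    obtain ⟨q2, hq2⟩ : ∃ q2, (a :: l).getLast? = some q2 :=
      ⟨_, List.getLast?_eq_some_getLast (List.cons_ne_nil a l)⟩
    have hqn : q ∉ a :: l := by
      intro hm
      rw [List.nodup_append] at hn
      exact hn.2.2 q hm q (by simp) rfl
    refine ⟨q2, c3 q2 hq2 q rfl, ?_⟩
    have e1 : ((a :: l) ++ [q]).toFinset.erase q = (a :: l).toFinset := by
      ext v
      rw [Finset.mem_erase, List.mem_toFinset, List.mem_toFinset, List.mem_append,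
        List.mem_singleton]
      constructor
      · rintro ⟨h1, h2 | h2⟩
        · exact h2
        · exact absurd h2 h1
      · intro h1
        refine ⟨?_, Or.inl h1⟩
        rintro rfl
        exact hqn h1
    rw [e1]
    refine NI.pd (List.nodup_append.1 hn).1 c1 (p0_NI_sub h (List.sublist_append_left _ _)) rfl
      hq2 (fun w hw x hx => hs w hw x (List.mem_append_left _ hx))

omit [DecidableEq α] in
/-- A place to insert `w` after `z`. -/
theorem p0_mid1 {w y : α} (l : List α) (z : α) (hz : r z w) (hy : y ∈ l) (hwy : r w y)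
    (hs : ∀ u ∈ l, r u w ∨ r w u) :
    ∃ A B : List α, z :: l = A ++ B ∧ A ≠ [] ∧ B ≠ [] ∧ (∀ a, A.getLast? = some a → r a w) ∧
      ∀ b, B.head? = some b → r w b := by
  induction l generalizing z with
  | nil => simp at hy
  | cons u l ih =>
    by_cases hu : r w u
    · refine ⟨[z], u :: l, rfl, by simp, by simp, ?_, ?_⟩
      · intro a ha
        have : z = a := by simpa using ha
        rw [← this]
        exact hz
      · intro b hb
        have : u = b := by simpa using hb
        rw [← this]
        exact hu
    · have hu2 : r u w := by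
        rcases hs u (by simp) with h | h
        · exact h
        · exact absurd h hu
      have hy2 : y ∈ l := by
        rcases List.mem_cons.1 hy with h | h
        · rw [h] at hwy
          exact absurd hwy hu
        · exact h
      obtain ⟨A, B, h1, h2, h3, h4, h5⟩ := ih u hu2 hy2 (fun v hv => hs v (by simp [hv]))
      refine ⟨z :: A, B, by rw [h1]; rfl, by simp, h3, ?_, h5⟩
      intro a ha
      apply h4
      cases A with
      | nil => exact absurd rfl h2
      | cons c A => simpa using ha

omit [DecidableEq α] in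
/-- A place to insert `w` between `x` and `y`. -/
theorem p0_mid {w x y : α} (l : List α) (hxy : [x, y].Sublist l) (hx : r x w) (hy : r w y)
    (hs : ∀ u ∈ l, r u w ∨ r w u) :
    ∃ A B : List α, l = A ++ B ∧ A ≠ [] ∧ B ≠ [] ∧ (∀ a, A.getLast? = some a → r a w) ∧
      ∀ b, B.head? = some b → r w b := by
  induction l with
  | nil => simp at hxy
  | cons z l ih =>
    rcases List.sublist_cons_iff.1 hxy with h | ⟨r', h1, h2⟩
    · obtain ⟨A, B, h1, h2, h3, h4, h5⟩ := ih h (fun v hv => hs v (by simp [hv]))
      refine ⟨z :: A, B, by rw [h1]; rfl, by simp, h3, ?_, h5⟩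
      intro a ha
      apply h4
      cases A with
      | nil => exact absurd rfl h2
      | cons c A => simpa using ha
    · injection h1 with e1 e2
      subst e1
      subst e2
      exact p0_mid1 l x hx (List.singleton_sublist.1 h2) hy (fun v hv => hs v (by simp [hv]))

omit [DecidableEq α] in
/-- A place to insert `w` after some in-neighbour. -/
theorem p0_end {w x : α} (l : List α) (hxl : x ∈ l) (hx : r x w) (hs : ∀ u ∈ l, r u w ∨ r w u) :
    (∃ A B : List α, l = A ++ B ∧ A ≠ [] ∧ B ≠ [] ∧ (∀ a, A.getLast? = some a → r a w) ∧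
      ∀ b, B.head? = some b → r w b) ∨ ∀ a, l.getLast? = some a → r a w := by
  induction l generalizing x with
  | nil => simp at hxl
  | cons z l ih =>
    by_cases hex : ∃ x' ∈ l, r x' w
    · obtain ⟨x', hx'l, hx'⟩ := hex
      rcases ih hx'l hx' (fun v hv => hs v (by simp [hv])) with ⟨A, B, h1, h2, h3, h4, h5⟩ | h
      · left
        refine ⟨z :: A, B, by rw [h1]; rfl, by simp, h3, ?_, h5⟩
        intro a ha
        apply h4
        cases A with
        | nil => exact absurd rfl h2
        | cons c A => simpa using ha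
      · right
        intro a ha
        apply h
        cases l with
        | nil => simp at hx'l
        | cons c A => simpa using ha
    · push Not at hex
      have hxz : x = z := by
        rcases List.mem_cons.1 hxl with h | h
        · exact h
        · exact absurd hx (hex x h)
      subst hxz
      cases l with
      | nil =>
        right
        intro a ha
        have : x = a := by simpa using ha
        rw [← this]
        exact hx
      | cons u l =>
        left
        refine ⟨[x], u :: l, rfl, by simp, by simp, ?_, ?_⟩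
        · intro a ha
          have : x = a := by simpa using ha
          rw [← this]
          exact hx
        · intro b hb
          have : u = b := by simpa using hb
          rw [← this]
          rcases hs u (by simp) with h | h
          · exact absurd h (hex u (by simp))
          · exact h

omit [DecidableEq α] in
/-- Insertion in the middle of a path. -/
theorem p0_ins {H T : Set α} {w : α} {l A B : List α} (hl : IsP r V H T l) (hw : w ∈ V)
    (hwl : w ∉ l) (e : l = A ++ B) (hA : A ≠ []) (hB : B ≠ [])
    (h1 : ∀ a, A.getLast? = some a → r a w) (h2 : ∀ b, B.head? = some b → r w b) :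
    IsP r V H T (A ++ w :: B) := by
  subst e
  obtain ⟨hn, hc, hsub, ⟨x, hx, hxH⟩, ⟨y, hy, hyT⟩⟩ := hl
  obtain ⟨c1, c2, -⟩ := List.isChain_append.1 hc
  refine ⟨?_, ?_, ?_, ⟨x, ?_, hxH⟩, ⟨y, ?_, hyT⟩⟩
  · rw [List.nodup_middle, List.nodup_cons]
    exact ⟨hwl, hn⟩
  · rw [List.isChain_append]
    refine ⟨c1, ?_, ?_⟩
    · cases B with
      | nil => exact absurd rfl hB
      | cons b B => exact List.isChain_cons_cons.2 ⟨h2 b rfl, c2⟩
    · intro a ha b hb
      rw [Option.mem_def] at ha hb
      have : w = b := by simpa using hb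
      rw [← this]
      exact h1 a ha
  · intro v hv
    rcases List.mem_append.1 hv with h | h
    · exact hsub v (List.mem_append_left _ h)
    · rcases List.mem_cons.1 h with h | h
      · rw [h]; exact hw
      · exact hsub v (List.mem_append_right _ h)
  · cases A with
    | nil => exact absurd rfl hA
    | cons a A => simpa using hx
  · cases B with
    | nil => exact absurd rfl hB
    | cons b B =>
      rw [List.getLast?_append] at hy ⊢
      rw [List.getLast?_cons_cons]
      exact hy

omit [DecidableEq α] in
/-- Appending a vertex to a path. -/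
theorem p0_app {H T : Set α} {w : α} {l : List α} (hl : IsP r V H T l) (hw : w ∈ V)
    (hwl : w ∉ l) (hwT : w ∈ T) (h1 : ∀ a, l.getLast? = some a → r a w) :
    IsP r V H T (l ++ [w]) := by
  obtain ⟨hn, hc, hsub, ⟨x, hx, hxH⟩, -⟩ := hl
  refine ⟨?_, ?_, ?_, ⟨x, ?_, hxH⟩, ⟨w, by simp, hwT⟩⟩
  · rw [List.nodup_append]
    refine ⟨hn, by simp, ?_⟩
    rintro a ha b hb rfl
    rw [List.mem_singleton] at hb
    rw [hb] at ha
    exact hwl ha
  · rw [List.isChain_append]
    refine ⟨hc, by simp, ?_⟩
    intro a ha b hb
    rw [Option.mem_def] at ha hb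
    have : w = b := by simpa using hb
    rw [← this]
    exact h1 a ha
  · intro v hv
    rcases List.mem_append.1 hv with h | h
    · exact hsub v h
    · rw [List.mem_singleton] at h
      rw [h]; exact hw
  · cases l with
    | nil => simp at hx
    | cons a l => simpa using hx

/-- Replacing one path by a longer one. -/
theorem p0_step {k : ℕ} {h t : Fin k → Set α} {P : Fin k → List α}
    (hP : ∀ i, IsP r V (h i) (t i) (P i)) (hd : ∀ i j, i ≠ j → ∀ v ∈ P i, v ∉ P j)
    (i : Fin k) (w : α) (hw : w ∈ V \ Finset.univ.biUnion (fun i => (P i).toFinset))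
    (L : List α) (hL : IsP r V (h i) (t i) L) (hLm : ∀ v ∈ L, v = w ∨ v ∈ P i)
    (hlen : L.length = (P i).length + 1) :
    ∃ P' : Fin k → List α, (∀ i, IsP r V (h i) (t i) (P' i)) ∧
      (∀ i j, i ≠ j → ∀ v ∈ P' i, v ∉ P' j) ∧
      ∑ i, (P' i).length = ∑ i, (P i).length + 1 := by
  have hwn : ∀ j, w ∉ P j := by
    intro j hj
    rw [Finset.mem_sdiff] at hw
    apply hw.2
    rw [Finset.mem_biUnion]
    exact ⟨j, Finset.mem_univ _, List.mem_toFinset.2 hj⟩
  refine ⟨Function.update P i L, ?_, ?_, ?_⟩
  · intro j
    by_cases hj : j = i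
    · subst hj
      rw [Function.update_self]
      exact hL
    · rw [Function.update_of_ne hj]
      exact hP j
  · intro a b hab v hva hvb
    by_cases ha : a = i
    · subst ha
      rw [Function.update_self] at hva
      rw [Function.update_of_ne (Ne.symm hab)] at hvb
      rcases hLm v hva with h1 | h1
      · rw [h1] at hvb
        exact hwn b hvb
      · exact hd a b hab v h1 hvb
    · rw [Function.update_of_ne ha] at hva
      by_cases hb : b = i
      · subst hb
        rw [Function.update_self] at hvb
        rcases hLm v hvb with h1 | h1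
        · rw [h1] at hva
          exact hwn a hva
        · exact hd a b hab v hva h1
      · rw [Function.update_of_ne hb] at hvb
        exact hd a b hab v hva hvb
  · rw [← Finset.add_sum_erase _ _ (Finset.mem_univ i),
      ← Finset.add_sum_erase (s := Finset.univ) (f := fun i => (P i).length) (a := i)
        (Finset.mem_univ i), Function.update_self, hlen]
    have e : ∑ x ∈ Finset.univ.erase i, (Function.update P i L x).length =
        ∑ x ∈ Finset.univ.erase i, (P x).length := by
      refine Finset.sum_congr rfl fun x hx => ?_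
      rw [Function.update_of_ne (Finset.ne_of_mem_erase hx)]
    rw [e]
    ring

/-- A system of disjoint paths with given sets of allowed first and last vertices and of
maximum coverage. -/
theorem exists_max {k : ℕ} {h t : Fin k → Set α} (hs : Semi r V) {P : Fin k → List α}
    (hP : ∀ i, IsP r V (h i) (t i) (P i)) (hd : ∀ i j, i ≠ j → ∀ v ∈ P i, v ∉ P j) :
    ∃ P' : Fin k → List α, (∀ i, IsP r V (h i) (t i) (P' i)) ∧
      (∀ i j, i ≠ j → ∀ v ∈ P' i, v ∉ P' j) ∧
      (∀ i, NI r (V \ Finset.univ.biUnion (fun i => (P' i).toFinset)) (P' i)) ∧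
      ∀ i, ∀ w ∈ V \ Finset.univ.biUnion (fun i => (P' i).toFinset), w ∈ t i →
        ∀ x ∈ P' i, ¬ r x w := by
  by_contra hcon
  have hstep : ∀ Q : Fin k → List α, (∀ i, IsP r V (h i) (t i) (Q i)) →
      (∀ i j, i ≠ j → ∀ v ∈ Q i, v ∉ Q j) →
      ∃ P' : Fin k → List α, (∀ i, IsP r V (h i) (t i) (P' i)) ∧
      (∀ i j, i ≠ j → ∀ v ∈ P' i, v ∉ P' j) ∧
      ∑ i, (P' i).length = ∑ i, (Q i).length + 1 := by
    intro Q hQ hQd
    have hwn : ∀ w ∈ V \ Finset.univ.biUnion (fun i => (Q i).toFinset), ∀ j, w ∉ Q j := by
      intro w hw j hj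
      rw [Finset.mem_sdiff] at hw
      apply hw.2
      rw [Finset.mem_biUnion]
      exact ⟨j, Finset.mem_univ _, List.mem_toFinset.2 hj⟩
    have hsem : ∀ w ∈ V \ Finset.univ.biUnion (fun i => (Q i).toFinset), ∀ i, ∀ u ∈ Q i,
        r u w ∨ r w u := by
      intro w hw i u hu
      refine hs u ((hQ i).sub u hu) w (Finset.mem_sdiff.1 hw).1 ?_
      rintro rfl
      exact hwn u hw i hu
    by_cases h1 : ∀ i, NI r (V \ Finset.univ.biUnion (fun i => (Q i).toFinset)) (Q i)
    · by_cases h2 : ∀ i, ∀ w ∈ V \ Finset.univ.biUnion (fun i => (Q i).toFinset), w ∈ t i →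
        ∀ x ∈ Q i, ¬ r x w
      · exact absurd ⟨Q, hQ, hQd, h1, h2⟩ hcon
      · push Not at h2
        obtain ⟨i, w, hw, hwt, x, hx, hxw⟩ := h2
        rcases p0_end (Q i) hx hxw (hsem w hw i) with ⟨A, B, e1, e2, e3, e4, e5⟩ | e
        · refine p0_step hQ hQd i w hw (A ++ w :: B)
            (p0_ins (hQ i) (Finset.mem_sdiff.1 hw).1 (hwn w hw i) e1 e2 e3 e4 e5) ?_ ?_
          · intro v hv
            rw [e1, List.mem_append]
            rw [List.mem_append, List.mem_cons] at hv
            tauto
          · rw [e1]
            simp only [List.length_append, List.length_cons]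
            ring
        · refine p0_step hQ hQd i w hw (Q i ++ [w])
            (p0_app (hQ i) (Finset.mem_sdiff.1 hw).1 (hwn w hw i) hwt e) ?_ ?_
          · intro v hv
            rw [List.mem_append, List.mem_singleton] at hv
            tauto
          · simp
    · unfold NI at h1
      push Not at h1
      obtain ⟨i, w, hw, x, y, hxy, hxw, hwy⟩ := h1
      obtain ⟨A, B, e1, e2, e3, e4, e5⟩ := p0_mid (Q i) hxy hxw hwy (hsem w hw i)
      refine p0_step hQ hQd i w hw (A ++ w :: B)
        (p0_ins (hQ i) (Finset.mem_sdiff.1 hw).1 (hwn w hw i) e1 e2 e3 e4 e5) ?_ ?_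
      · intro v hv
        rw [e1, List.mem_append]
        rw [List.mem_append, List.mem_cons] at hv
        tauto
      · rw [e1]
        simp only [List.length_append, List.length_cons]
        ring
  have hbig : ∀ n : ℕ, ∃ Q : Fin k → List α, (∀ i, IsP r V (h i) (t i) (Q i)) ∧
      (∀ i j, i ≠ j → ∀ v ∈ Q i, v ∉ Q j) ∧ n ≤ ∑ i, (Q i).length := by
    intro n
    induction n with
    | zero => exact ⟨P, hP, hd, Nat.zero_le _⟩
    | succ n ih =>
      obtain ⟨Q, q1, q2, q3⟩ := ih
      obtain ⟨Q', q1', q2', q3'⟩ := hstep Q q1 q2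
      exact ⟨Q', q1', q2', by omega⟩
  obtain ⟨Q, q1, -, q3⟩ := hbig (k * V.card + 1)
  have hle : ∑ i, (Q i).length ≤ ∑ _i : Fin k, V.card := by
    refine Finset.sum_le_sum fun i _ => ?_
    rw [← List.toFinset_card_of_nodup (q1 i).nodup]
    refine Finset.card_le_card fun v hv => ?_
    exact (q1 i).sub v (List.mem_toFinset.1 hv)
  rw [Finset.sum_const, Finset.card_univ, Fintype.card_fin, smul_eq_mul] at hle
  omega

end Pool.Agent.Helper944_HC
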