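import Pool.Agent.Helper944_HC.Spec
import Pool.Agent.Helper944_HC.Basic

/-!
# Correctness of the elementary tests
-/

namespace Pool.Agent.Helper944_HC

theorem re_nodupB_iff {V : List ℕ} : nodupB V = true ↔ V.Nodup := by
  unfold nodupB
  rw [List.all_eq_true, List.nodup_iff_count_le_one]
  have key : ∀ v, (V.filter (fun w => decide (w = v))).length = V.count v := by
    intro v
    rw [List.count_eq_countP, List.countP_eq_length_filter]
    congr 1
  constructor
  · intro h a
    by_cases ha : a ∈ V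
    · have := h a ha
      rw [decide_eq_true_iff, key] at this
      exact this
    · rw [List.count_eq_zero.2 ha]
      exact Nat.zero_le _
  · intro h v _
    rw [decide_eq_true_iff, key]
    exact h v

theorem re_semB_iff {E : List (ℕ × ℕ)} {V : List ℕ} :
    semB E V = true ↔ Semi (rel E) V.toFinset := by
  unfold semB Semi
  simp only [List.all_eq_true, Bool.or_eq_true, decide_eq_true_iff, List.mem_toFinset, ar, rel]
  constructor
  · intro h u hu v hv huv
    rcases h u hu v hv with h1 | h1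
    · exact absurd h1 huv
    · exact h1
  · intro h u hu v hv
    by_cases huv : u = v
    · exact Or.inl huv
    · exact Or.inr (h u hu v hv huv)

theorem re_mem_revE {E : List (ℕ × ℕ)} {a b : ℕ} : (a, b) ∈ revE E ↔ (b, a) ∈ E := by
  unfold revE
  rw [List.mem_map]
  constructor
  · rintro ⟨⟨c, d⟩, h1, h2⟩
    simp only [Prod.mk.injEq] at h2
    obtain ⟨rfl, rfl⟩ := h2
    exact h1
  · intro h
    exact ⟨(b, a), h, rfl⟩

theorem re_rel_rev (E : List (ℕ × ℕ)) : rel (revE E) = fun a b => rel E b a := by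
  funext a b
  exact propext re_mem_revE

theorem re_mem_prs {V : List ℕ} {a b : ℕ} : (a, b) ∈ prs V ↔ a ∈ V ∧ b ∈ V := by
  unfold prs
  simp only [List.mem_flatMap, List.mem_map, Prod.mk.injEq]
  constructor
  · rintro ⟨c, hc, d, hd, rfl, rfl⟩
    exact ⟨hc, hd⟩
  · rintro ⟨ha, hb⟩
    exact ⟨a, ha, b, hb, rfl, rfl⟩

theorem re_mem_inE {V : List ℕ} {E : List (ℕ × ℕ)} {a b : ℕ} :
    (a, b) ∈ inE V E ↔ (a ∈ V ∧ b ∈ V) ∧ (a, b) ∈ E := by
  unfold inE
  rw [List.mem_filter, re_mem_prs, decide_eq_true_iff]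

theorem wfB_iff {I : Inst} : wfB I = true ↔ WF I ∧ mk I.1 I.2.1 I.2.2.1 I.2.2.2 = I := by
  unfold wfB
  rw [Bool.and_eq_true, Bool.and_eq_true, Bool.and_eq_true, re_nodupB_iff, re_semB_iff,
    decide_eq_true_iff]
  constructor
  · rintro ⟨h1, h2, h3, h4⟩
    refine ⟨⟨?_, h2, h3⟩, h4⟩
    intro h0
    rw [h0] at h1
    simp at h1
  · rintro ⟨⟨h1, h2, h3⟩, h4⟩
    refine ⟨?_, h2, h3, h4⟩
    simpa using h1

theorem WF.rev {I : Inst} (h : WF I) : WF (revI I) := by
  refine ⟨h.ne, h.nodup, ?_⟩
  show Semi (rel (revE I.2.1)) I.1.toFinset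
  rw [re_rel_rev]
  exact h.semi.rev

theorem truth_rev {I : Inst} : Truth (revI I) ↔ Truth I := by
  show HP (rel (revE I.2.1)) I.1.toFinset {x | x ∈ I.2.2.2} {y | y ∈ I.2.2.1} ↔
    HP (rel I.2.1) I.1.toFinset {x | x ∈ I.2.2.1} {y | y ∈ I.2.2.2}
  rw [re_rel_rev]
  exact HP_rev

/-- `mk` produces canonical instances. -/
theorem mk_mk (V : List ℕ) (E : List (ℕ × ℕ)) (X Y : List ℕ) :
    mk (mk V E X Y).1 (mk V E X Y).2.1 (mk V E X Y).2.2.1 (mk V E X Y).2.2.2 = mk V E X Y := by
  show mk V (inE V E) (V.filter (fun v => decide (v ∈ X))) (V.filter (fun v => decide (v ∈ Y))) =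
    mk V E X Y
  unfold mk
  have h1 : inE V (inE V E) = inE V E := by
    conv_lhs => unfold inE
    conv_rhs => unfold inE
    apply List.filter_congr
    rintro ⟨a, b⟩ hab
    have h2 : (a, b) ∈ List.filter (fun e => decide (e ∈ E)) (prs V) ↔ (a, b) ∈ E := by
      rw [List.mem_filter, decide_eq_true_iff]
      exact ⟨fun h => h.2, fun h => ⟨hab, h⟩⟩
    exact decide_eq_decide.2 h2
  have h2 : ∀ Z : List ℕ, V.filter (fun v => decide (v ∈ V.filter (fun v => decide (v ∈ Z)))) =
      V.filter (fun v => decide (v ∈ Z)) := by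
    intro Z
    apply List.filter_congr
    intro v hv
    apply decide_eq_decide.2
    rw [List.mem_filter, decide_eq_true_iff]
    exact ⟨fun h => h.2, fun h => ⟨hv, h⟩⟩
  rw [h1, h2, h2]

/-- The meaning of `mk`. -/
theorem truth_mk (V : List ℕ) (E : List (ℕ × ℕ)) (X Y : List ℕ) :
    Truth (mk V E X Y) ↔ HP (rel E) V.toFinset {x | x ∈ X} {y | y ∈ Y} := by
  show HP (rel (inE V E)) V.toFinset {x | x ∈ V.filter (fun v => decide (v ∈ X))}
    {y | y ∈ V.filter (fun v => decide (v ∈ Y))} ↔ _
  constructor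
  · intro h
    have h1 := h.congr (r' := rel E) (fun a _ b _ _ hab => (re_mem_inE.1 hab).2)
    refine h1.mono (fun x _ hx => ?_) (fun y _ hy => ?_)
    · have := (List.mem_filter.1 hx).2
      simpa using this
    · have := (List.mem_filter.1 hy).2
      simpa using this
  · intro h
    have h1 := h.congr (r' := rel (inE V E)) (fun a ha b hb _ hab =>
      re_mem_inE.2 ⟨⟨List.mem_toFinset.1 ha, List.mem_toFinset.1 hb⟩, hab⟩)
    refine h1.mono (fun x hx hx' => ?_) (fun y hy hy' => ?_)
    · exact List.mem_filter.2 ⟨List.mem_toFinset.1 hx, by simpa using hx'⟩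
    · exact List.mem_filter.2 ⟨List.mem_toFinset.1 hy, by simpa using hy'⟩

/-- Well-formedness of `mk`. -/
theorem wf_mk {V : List ℕ} {E : List (ℕ × ℕ)} (X Y : List ℕ) (h1 : V ≠ []) (h2 : V.Nodup)
    (h3 : Semi (rel E) V.toFinset) : wfB (mk V E X Y) = true := by
  rw [wfB_iff]
  refine ⟨⟨h1, h2, ?_⟩, mk_mk V E X Y⟩
  intro u hu v hv huv
  have hu' : u ∈ V := List.mem_toFinset.1 hu
  have hv' : v ∈ V := List.mem_toFinset.1 hv
  rcases h3 u hu v hv huv with h | h
  · exact Or.inl (re_mem_inE.2 ⟨⟨hu', hv'⟩, h⟩)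
  · exact Or.inr (re_mem_inE.2 ⟨⟨hv', hu'⟩, h⟩)

theorem re_mem_rstep {E : List (ℕ × ℕ)} {W R : List ℕ} {v : ℕ} :
    v ∈ rstep E W R ↔ v ∈ W ∧ (v ∈ R ∨ ∃ u ∈ R, rel E u v) := by
  unfold rstep
  rw [List.mem_filter, Bool.or_eq_true, decide_eq_true_iff, List.any_eq_true]
  simp only [ar, decide_eq_true_iff, rel]

/-- Reachable vertices. -/
theorem reach_spec (E : List (ℕ × ℕ)) {W : List ℕ} (hW : W.Nodup) (S : List ℕ) :
    (reach E W S).toFinset = fwd (rel E) W.toFinset {x | x ∈ S} ∧ (reach E W S).Nodup := by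
  classical
  have hmem : ∀ n, ∀ v ∈ (rstep E W)^[n] (W.filter (fun v => decide (v ∈ S))), v ∈ W := by
    intro n
    cases n with
    | zero => intro v hv; exact (List.mem_filter.1 hv).1
    | succ n =>
      intro v hv
      rw [Function.iterate_succ_apply'] at hv
      exact (re_mem_rstep.1 hv).1
  have hfwd : ∀ n, ∀ v ∈ (rstep E W)^[n] (W.filter (fun v => decide (v ∈ S))),
      v ∈ fwd (rel E) W.toFinset {x | x ∈ S} := by
    intro n
    induction n with
    | zero =>
      intro v hv
      have h1 := List.mem_filter.1 hv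
      exact subset_fwd v (List.mem_toFinset.2 h1.1) (by simpa using h1.2)
    | succ n ih =>
      intro v hv
      rw [Function.iterate_succ_apply'] at hv
      obtain ⟨h1, h2 | ⟨u, hu, huv⟩⟩ := re_mem_rstep.1 hv
      · exact ih v h2
      · exact fwd_cl u (ih u hu) v (List.mem_toFinset.2 h1) huv
  have hmono : ∀ n, ∀ v ∈ (rstep E W)^[n] (W.filter (fun v => decide (v ∈ S))),
      v ∈ (rstep E W)^[n + 1] (W.filter (fun v => decide (v ∈ S))) := by
    intro n v hv
    rw [Function.iterate_succ_apply']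
    exact re_mem_rstep.2 ⟨hmem n v hv, Or.inl hv⟩
  have hS : ∀ n, ∀ v ∈ W, v ∈ S → v ∈ (rstep E W)^[n] (W.filter (fun v => decide (v ∈ S))) := by
    intro n
    induction n with
    | zero => intro v hv hvS; exact List.mem_filter.2 ⟨hv, by simpa using hvS⟩
    | succ n ih => intro v hv hvS; exact hmono n v (ih v hv hvS)
  have hstat : ∀ n, Cl (rel E) W.toFinset
      ((rstep E W)^[n] (W.filter (fun v => decide (v ∈ S)))).toFinset ∨
      n ≤ ((rstep E W)^[n] (W.filter (fun v => decide (v ∈ S)))).toFinset.card := by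
    intro n
    induction n with
    | zero => exact Or.inr (Nat.zero_le _)
    | succ n ih =>
      by_cases hc : Cl (rel E) W.toFinset
          ((rstep E W)^[n] (W.filter (fun v => decide (v ∈ S)))).toFinset
      · left
        have heq : ((rstep E W)^[n + 1] (W.filter (fun v => decide (v ∈ S)))).toFinset =
            ((rstep E W)^[n] (W.filter (fun v => decide (v ∈ S)))).toFinset := by
          ext v
          rw [List.mem_toFinset, List.mem_toFinset]
          refine ⟨fun hv => ?_, hmono n v⟩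
          rw [Function.iterate_succ_apply'] at hv
          obtain ⟨h1, h2 | ⟨u, hu, huv⟩⟩ := re_mem_rstep.1 hv
          · exact h2
          · exact List.mem_toFinset.1 (hc u (List.mem_toFinset.2 hu) v
              (List.mem_toFinset.2 h1) huv)
        rw [heq]
        exact hc
      · right
        have h1 := ih.resolve_left hc
        have h2 : ((rstep E W)^[n] (W.filter (fun v => decide (v ∈ S)))).toFinset ⊂
            ((rstep E W)^[n + 1] (W.filter (fun v => decide (v ∈ S)))).toFinset := by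
          rw [Finset.ssubset_iff_of_subset (fun v hv =>
            List.mem_toFinset.2 (hmono n v (List.mem_toFinset.1 hv)))]
          unfold Cl at hc
          push Not at hc
          obtain ⟨u, hu, v, hv, huv, hvn⟩ := hc
          refine ⟨v, ?_, hvn⟩
          rw [List.mem_toFinset, Function.iterate_succ_apply']
          exact re_mem_rstep.2 ⟨List.mem_toFinset.1 hv, Or.inr ⟨u, List.mem_toFinset.1 hu, huv⟩⟩
        have h3 := Finset.card_lt_card h2
        omega
  have hnodup : ∀ n, ((rstep E W)^[n] (W.filter (fun v => decide (v ∈ S)))).Nodup := by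
    intro n
    cases n with
    | zero => exact hW.filter _
    | succ n =>
      rw [Function.iterate_succ_apply']
      exact hW.filter _
  refine ⟨?_, hnodup W.length⟩
  have hcl : Cl (rel E) W.toFinset (reach E W S).toFinset := by
    rcases hstat W.length with h | h
    · exact h
    · have h4 : (reach E W S).toFinset = W.toFinset := by
        apply Finset.eq_of_subset_of_card_le
        · intro v hv
          exact List.mem_toFinset.2 (hmem _ v (List.mem_toFinset.1 hv))
        · exact (List.toFinset_card_le W).trans h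
      rw [h4]
      intro u _ v hv _
      exact hv
  apply Finset.Subset.antisymm
  · intro v hv
    exact hfwd _ v (List.mem_toFinset.1 hv)
  · apply fwd_min
    · intro v hv
      exact List.mem_toFinset.2 (hmem _ v (List.mem_toFinset.1 hv))
    · intro v hv hvS
      exact List.mem_toFinset.2 (hS _ v (List.mem_toFinset.1 hv) hvS)
    · exact hcl

theorem re_src_iff (E : List (ℕ × ℕ)) {W : List ℕ} (hW : W.Nodup) {v : ℕ} (hv : v ∈ W) :
    src E W v = true ↔ ∀ U ⊆ W.toFinset, v ∈ U → Cl (rel E) W.toFinset U → U = W.toFinset := by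
  unfold src
  rw [List.all_eq_true]
  have hr := (reach_spec E hW [v]).1
  constructor
  · intro h U hU hvU hcl
    apply Finset.Subset.antisymm hU
    intro w hw
    have h1 : w ∈ (reach E W [v]).toFinset := by
      rw [List.mem_toFinset]
      have := h w (List.mem_toFinset.1 hw)
      simpa using this
    rw [hr] at h1
    refine fwd_min hU ?_ hcl h1
    intro x _ hx
    have : x = v := by simpa using hx
    rw [this]; exact hvU
  · intro h w hw
    rw [decide_eq_true_iff, ← List.mem_toFinset, hr,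
      h _ fwd_subset (subset_fwd v (List.mem_toFinset.2 hv) (by simp)) fwd_cl, List.mem_toFinset]
    exact hw

theorem strongB_iff (E : List (ℕ × ℕ)) {W : List ℕ} (hW : W.Nodup) :
    strongB E W = true ↔ Strong (rel E) W.toFinset := by
  unfold strongB
  rw [List.all_eq_true]
  constructor
  · intro h U hU hne hUW
    by_contra hcon
    push Not at hcon
    obtain ⟨v, hv⟩ := hne
    have hvW := List.mem_toFinset.1 (hU hv)
    refine hUW ((re_src_iff E hW hvW).1 (h v hvW) U hU hv ?_)
    intro a ha b hb hab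
    by_contra hbU
    exact hcon a ha b (Finset.mem_sdiff.2 ⟨hb, hbU⟩) hab
  · intro h v hv
    rw [re_src_iff E hW hv]
    intro U hU hvU hcl
    by_contra hUW
    obtain ⟨a, ha, b, hb, hab⟩ := h U hU ⟨v, hvU⟩ hUW
    rw [Finset.mem_sdiff] at hb
    exact hb.2 (hcl a ha b hb.1 hab)

/-- `v` reaches everything. -/
theorem src_iff (E : List (ℕ × ℕ)) {W : List ℕ} (hW : W.Nodup) {v : ℕ} (hv : v ∈ W) :
    src E W v = true ↔ ∀ U ⊆ W.toFinset, v ∈ U → Cl (rel E) W.toFinset U → U = W.toFinset := by
  exact re_src_iff E hW hv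

/-- The first strong component. -/
theorem firstC_spec (E : List (ℕ × ℕ)) {W : List ℕ} (hW : W.Nodup) (hne : W ≠ [])
    (hs : Semi (rel E) W.toFinset) :
    (firstC E W).Nodup ∧ firstC E W ≠ [] ∧ (∀ v ∈ firstC E W, v ∈ W) ∧
      Strong (rel E) (firstC E W).toFinset ∧
      Cl (fun a b => rel E b a) W.toFinset (firstC E W).toFinset ∧
      ∀ D ⊆ W.toFinset, D.Nonempty → Cl (fun a b => rel E b a) W.toFinset D →
        (firstC E W).toFinset ⊆ D := by
  have hWne : W.toFinset.Nonempty := by
    obtain ⟨w, hw⟩ := List.exists_mem_of_ne_nil W hne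
    exact ⟨w, List.mem_toFinset.2 hw⟩
  obtain ⟨K, hK1, hK2, hK3, hK4, hK5⟩ := exists_first hs hWne
  have hmem : ∀ v ∈ firstC E W, v ∈ W := fun v hv => (List.mem_filter.1 hv).1
  have hKeq : (firstC E W).toFinset = K := by
    ext v
    rw [List.mem_toFinset]
    constructor
    · intro hv
      by_contra hvK
      have hvW := hmem v hv
      have hsrc := (src_iff E hW hvW).1 (List.mem_filter.1 hv).2
      have h1 := hsrc (W.toFinset \ K) Finset.sdiff_subset
        (Finset.mem_sdiff.2 ⟨List.mem_toFinset.2 hvW, hvK⟩) (by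
          intro u hu x hx hux
          rw [Finset.mem_sdiff] at hu ⊢
          exact ⟨hx, fun hxK => hu.2 (hK3 x hxK u hu.1 hux)⟩)
      obtain ⟨k, hk⟩ := hK2
      have h2 : k ∈ W.toFinset \ K := by rw [h1]; exact hK1 hk
      exact (Finset.mem_sdiff.1 h2).2 hk
    · intro hvK
      have hvW : v ∈ W := List.mem_toFinset.1 (hK1 hvK)
      refine List.mem_filter.2 ⟨hvW, ?_⟩
      rw [src_iff E hW hvW]
      intro U hU hvU hcl
      by_contra hUW
      have h1 : (W.toFinset \ U).Nonempty := by
        rw [Finset.sdiff_nonempty]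
        intro h2
        exact hUW (Finset.Subset.antisymm hU h2)
      have h2 := hK5 (W.toFinset \ U) Finset.sdiff_subset h1 (by
        intro u hu x hx hux
        rw [Finset.mem_sdiff] at hu ⊢
        exact ⟨hx, fun hxU => hu.2 (hcl x hxU u hu.1 hux)⟩)
      exact (Finset.mem_sdiff.1 (h2 hvK)).2 hvU
  refine ⟨hW.filter _, ?_, hmem, ?_, ?_, ?_⟩
  · intro h0
    rw [h0] at hKeq
    rw [← hKeq] at hK2
    simp at hK2
  · rw [hKeq]; exact hK4
  · rw [hKeq]; exact hK3
  · rw [hKeq]; exact hK5

/-- Partial paths, written backwards. -/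
def br_Q (V : List ℕ) (E : List (ℕ × ℕ)) (X : List ℕ) (k : ℕ) (l : List ℕ) : Prop :=
  l.length = k ∧ l.Nodup ∧ (∀ v ∈ l, v ∈ V) ∧ (∃ x, l.getLast? = some x ∧ x ∈ X) ∧
    l.IsChain (fun a b => rel E b a)

theorem br_one (V : List ℕ) (E : List (ℕ × ℕ)) (X : List ℕ) (l : List ℕ) :
    l ∈ (V.filter (fun v => decide (v ∈ X))).map (fun v => [v]) ↔ br_Q V E X 1 l := by
  rw [List.mem_map]
  constructor
  · rintro ⟨v, hv, rfl⟩
    rw [List.mem_filter, decide_eq_true_iff] at hv
    refine ⟨rfl, List.nodup_singleton v, ?_, ⟨v, rfl, hv.2⟩, List.isChain_singleton v⟩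
    intro w hw
    rw [List.mem_singleton] at hw
    rw [hw]
    exact hv.1
  · rintro ⟨h1, -, h3, ⟨x, hx, hx'⟩, -⟩
    obtain ⟨v, rfl⟩ := List.length_eq_one_iff.1 h1
    refine ⟨v, ?_, rfl⟩
    rw [List.mem_filter, decide_eq_true_iff]
    refine ⟨h3 v (List.mem_singleton_self v), ?_⟩
    have : v = x := by simpa using hx
    rw [this]
    exact hx'

theorem br_ext (V : List ℕ) (E : List (ℕ × ℕ)) (X : List ℕ) (k : ℕ) (hk : 1 ≤ k)
    (L : List (List ℕ)) (hL : ∀ l, l ∈ L ↔ br_Q V E X k l) (l : List ℕ) :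
    l ∈ ext V E L ↔ br_Q V E X (k + 1) l := by
  unfold ext
  rw [List.mem_flatMap]
  constructor
  · rintro ⟨l', hl', hl⟩
    rw [List.mem_map] at hl
    obtain ⟨v, hv, rfl⟩ := hl
    rw [List.mem_filter, Bool.and_eq_true, decide_eq_true_iff] at hv
    obtain ⟨hvV, hvl, har⟩ := hv
    obtain ⟨h1, h2, h3, ⟨x, hx, hx'⟩, h5⟩ := (hL l').1 hl'
    cases l' with
    | nil => simp at h1; omega
    | cons w t =>
      refine ⟨by rw [List.length_cons, h1], List.nodup_cons.2 ⟨hvl, h2⟩, ?_, ⟨x, ?_, hx'⟩, ?_⟩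
      · intro z hz
        rcases List.mem_cons.1 hz with rfl | hz
        · exact hvV
        · exact h3 z hz
      · rw [List.getLast?_cons_cons]
        exact hx
      · rw [List.isChain_cons_cons]
        refine ⟨?_, h5⟩
        unfold ar at har
        rw [decide_eq_true_iff] at har
        exact har
  · rintro ⟨h1, h2, h3, ⟨x, hx, hx'⟩, h5⟩
    cases l with
    | nil => simp at h1
    | cons v l' =>
      cases l' with
      | nil => simp at h1; omega
      | cons w t =>
        rw [List.isChain_cons_cons] at h5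
        rw [List.nodup_cons] at h2
        refine ⟨w :: t, (hL _).2 ⟨?_, h2.2, fun z hz => h3 z (List.mem_cons_of_mem _ hz),
          ⟨x, ?_, hx'⟩, h5.2⟩, ?_⟩
        · rw [List.length_cons] at h1
          omega
        · rw [List.getLast?_cons_cons] at hx
          exact hx
        · rw [List.mem_map]
          refine ⟨v, ?_, rfl⟩
          rw [List.mem_filter, Bool.and_eq_true, decide_eq_true_iff]
          refine ⟨h3 v List.mem_cons_self, h2.1, ?_⟩
          unfold ar
          rw [decide_eq_true_iff]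
          exact h5.1

theorem br_small (I : Inst) (l : List ℕ) :
    l ∈ small I ↔ ∃ k, 1 ≤ k ∧ k ≤ 6 ∧ br_Q I.1 I.2.1 I.2.2.1 k l := by
  have e1 := br_one I.1 I.2.1 I.2.2.1
  have e2 := br_ext I.1 I.2.1 I.2.2.1 1 (by norm_num) _ e1
  have e3 := br_ext I.1 I.2.1 I.2.2.1 2 (by norm_num) _ e2
  have e4 := br_ext I.1 I.2.1 I.2.2.1 3 (by norm_num) _ e3
  have e5 := br_ext I.1 I.2.1 I.2.2.1 4 (by norm_num) _ e4
  have e6 := br_ext I.1 I.2.1 I.2.2.1 5 (by norm_num) _ e5
  unfold small
  simp only [List.mem_append]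
  rw [e1, e2, e3, e4, e5, e6]
  constructor
  · rintro (h | h | h | h | h | h)
    · exact ⟨1, by norm_num, by norm_num, h⟩
    · exact ⟨2, by norm_num, by norm_num, h⟩
    · exact ⟨3, by norm_num, by norm_num, h⟩
    · exact ⟨4, by norm_num, by norm_num, h⟩
    · exact ⟨5, by norm_num, by norm_num, h⟩
    · exact ⟨6, by norm_num, by norm_num, h⟩
  · rintro ⟨k, h1, h2, h⟩
    obtain rfl | rfl | rfl | rfl | rfl | rfl :
      k = 1 ∨ k = 2 ∨ k = 3 ∨ k = 4 ∨ k = 5 ∨ k = 6 := by omega
    · exact Or.inl h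
    · exact Or.inr (Or.inl h)
    · exact Or.inr (Or.inr (Or.inl h))
    · exact Or.inr (Or.inr (Or.inr (Or.inl h)))
    · exact Or.inr (Or.inr (Or.inr (Or.inr (Or.inl h))))
    · exact Or.inr (Or.inr (Or.inr (Or.inr (Or.inr h))))

theorem brute_iff {I : Inst} (h : WF I) (h6 : I.1.length ≤ 6) : brute I = true ↔ Truth I := by
  have hpos : 1 ≤ I.1.length := by
    have := List.length_pos_iff.2 h.ne
    omega
  unfold brute Truth HP
  rw [List.any_eq_true]
  constructor
  · rintro ⟨l, hl, hl'⟩
    rw [Bool.and_eq_true, decide_eq_true_iff, decide_eq_true_iff] at hl'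
    obtain ⟨hlen, hY⟩ := hl'
    obtain ⟨k, hk1, hk2, h1, h2, h3, ⟨x, hx, hx'⟩, h5⟩ := (br_small I l).1 hl
    refine ⟨l.reverse, ⟨List.nodup_reverse.2 h2, ?_, ?_⟩, ⟨x, ?_, hx'⟩, l.headD 0, ?_, hY⟩
    · rw [List.isChain_reverse]
      exact h5
    · intro v
      rw [List.mem_reverse, List.mem_toFinset]
      have hperm : l.Perm I.1 := (h2.subperm h3).perm_of_length_le (by omega)
      exact hperm.mem_iff
    · rw [List.head?_reverse]
      exact hx
    · rw [List.getLast?_reverse]
      cases l with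
      | nil => simp at h1; omega
      | cons a t => rfl
  · rintro ⟨l, hTr, ⟨x, hx, hx'⟩, y, hy, hy'⟩
    have hperm : l.Perm I.1 := (List.perm_ext_iff_of_nodup hTr.nodup h.nodup).2 fun v => by
      rw [hTr.mem, List.mem_toFinset]
    refine ⟨l.reverse, (br_small I _).2 ⟨I.1.length, hpos, h6, ?_, List.nodup_reverse.2 hTr.nodup,
      ?_, ⟨x, ?_, hx'⟩, ?_⟩, ?_⟩
    · rw [List.length_reverse, hperm.length_eq]
    · intro v hv
      rw [List.mem_reverse] at hv
      exact hperm.mem_iff.1 hv
    · rw [List.getLast?_reverse]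
      exact hx
    · rw [List.isChain_reverse]
      exact hTr.chain
    · rw [Bool.and_eq_true, decide_eq_true_iff, decide_eq_true_iff]
      refine ⟨by rw [List.length_reverse, hperm.length_eq], ?_⟩
      have : l.reverse.headD 0 = y := by
        rw [List.headD_eq_head?_getD, List.head?_reverse, hy]
        rfl
      rw [this]
      exact hy'

end Pool.Agent.Helper944_HC
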