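import Pool.Agent.Helper944_HC.Defs
import Pool.Agent.Helper944_HC.Alg

/-!
# Specification of the algorithm
-/

namespace Pool.Agent.Helper944_HC

/-- The arc relation given by a list of arcs, as a proposition. -/
def rel (E : List (ℕ × ℕ)) : ℕ → ℕ → Prop := fun a b => (a, b) ∈ E

/-- The meaning of an instance. -/
def Truth (I : Inst) : Prop :=
  HP (rel I.2.1) I.1.toFinset {x | x ∈ I.2.2.1} {y | y ∈ I.2.2.2}

/-- Weak well-formedness (this is all that is needed for the correctness of the rules). -/
structure WF (I : Inst) : Prop where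
  ne : I.1 ≠ []
  nodup : I.1.Nodup
  semi : Semi (rel I.2.1) I.1.toFinset

/-- No duplicates. -/
def nodupB (V : List ℕ) : Bool :=
  V.all (fun v => decide ((V.filter (fun w => decide (w = v))).length ≤ 1))

/-- Semicomplete. -/
def semB (E : List (ℕ × ℕ)) (V : List ℕ) : Bool :=
  V.all (fun a => V.all (fun b => decide (a = b) || (ar E a b || ar E b a)))

/-- Well-formed instances, as a test. -/
def wfB (I : Inst) : Bool :=
  !(I.1.isEmpty) && (nodupB I.1 && (semB I.2.1 I.1 &&
    decide (mk I.1 I.2.1 I.2.2.1 I.2.2.2 = I)))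

/-- The potential. -/
def pot (I : Inst) : ℕ := I.1.length ^ 4

end Pool.Agent.Helper944_HC
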