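import Pool.Agent.Helper944_HC.Paths

/-!
# Theorem A: strong and no separator with at most two vertices
-/

namespace Pool.Agent.Helper944_HC

variable {α : Type*} [DecidableEq α] {r : α → α → Prop} {V : Finset α} {X Y : Set α}

theorem ta_pd_rev {W P : Finset α} {p q : α} (h : PD r W P p q) :
    PD (fun a b => r b a) W P q p :=
  ⟨HP_rev.2 h.hp, fun w hw hx => h.hout w hw hx, fun w hw hx => h.hin w hw hx⟩

omit [DecidableEq α] in
theorem ta_left {P : Finset α} {p q : α} (h : HP r P {p} {q}) : p ∈ P := by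
  obtain ⟨l, hl, ⟨x, hx, hx'⟩, -⟩ := h
  rw [Set.mem_singleton_iff] at hx'
  rw [← hx', ← hl.mem]
  exact List.mem_of_mem_head? hx

omit [DecidableEq α] in
theorem ta_right {P : Finset α} {p q : α} (h : HP r P {p} {q}) : q ∈ P := by
  obtain ⟨l, hl, -, ⟨x, hx, hx'⟩⟩ := h
  rw [Set.mem_singleton_iff] at hx'
  rw [← hx', ← hl.mem]
  exact List.mem_of_mem_getLast? hx

/-- the data of the three paths -/
structure TA (r : α → α → Prop) (V : Finset α) (P : Fin 3 → Finset α) (p q : Fin 3 → α)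
    (W : Finset α) : Prop where
  semi : Semi r V
  strong : Strong r V
  sub : ∀ i, P i ⊆ V
  dis : ∀ i j, i ≠ j → Disjoint (P i) (P j)
  W_eq : W = V \ (P 0 ∪ P 1 ∪ P 2)
  pd : ∀ i, PD r W (P i) (p i) (q i)

variable {P : Fin 3 → Finset α} {p q : Fin 3 → α} {W : Finset α}

theorem TA.rev (h : TA r V P p q W) : TA (fun a b => r b a) V P q p W :=
  ⟨h.semi.rev, Strong.rev.2 h.strong, h.sub, h.dis, h.W_eq, fun i => ta_pd_rev (h.pd i)⟩

theorem TA.WV (h : TA r V P p q W) : W ⊆ V := by
  rw [h.W_eq]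
  exact Finset.sdiff_subset

theorem TA.semiW (h : TA r V P p q W) : Semi r W := h.semi.mono h.WV

theorem TA.notW (h : TA r V P p q W) (i : Fin 3) {x : α} (hx : x ∈ P i) : x ∉ W := by
  rw [h.W_eq, Finset.mem_sdiff]
  rintro ⟨-, h2⟩
  apply h2
  simp only [Finset.mem_union]
  fin_cases i
  · exact Or.inl (Or.inl hx)
  · exact Or.inl (Or.inr hx)
  · exact Or.inr hx

theorem TA.cases (h : TA r V P p q W) {x : α} (hx : x ∈ V) : x ∈ W ∨ ∃ i, x ∈ P i := by
  by_cases hW : x ∈ W
  · exact Or.inl hW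
  · right
    rw [h.W_eq, Finset.mem_sdiff] at hW
    push Not at hW
    have := hW hx
    simp only [Finset.mem_union] at this
    rcases this with (h0 | h1) | h2
    · exact ⟨0, h0⟩
    · exact ⟨1, h1⟩
    · exact ⟨2, h2⟩

theorem TA.disW (h : TA r V P p q W) (i : Fin 3) : Disjoint (P i) W :=
  Finset.disjoint_left.2 fun _ hx => h.notW i hx

theorem TA.arc (h : TA r V P p q W) (i : Fin 3) {w x : α} (hw : w ∈ W) (hx : x ∈ P i) :
    r w x ∨ r x w := h.semi w (h.WV hw) x (h.sub i hx) (by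
      rintro rfl
      exact h.notW i hx hw)

theorem TA.pm (h : TA r V P p q W) (i : Fin 3) : p i ∈ P i := ta_left (h.pd i).hp

theorem TA.qm (h : TA r V P p q W) (i : Fin 3) : q i ∈ P i := ta_right (h.pd i).hp

theorem TA.dich (h : TA r V P p q W) (i : Fin 3) {w : α} (hw : w ∈ W) (hn : ¬ r w (p i)) :
    r (q i) w := by
  rcases h.arc i hw (h.qm i) with h1 | h1
  · exact absurd ((h.pd i).hin w hw ⟨_, h.qm i, h1⟩) hn
  · exact h1

theorem TA.outL (h : TA r V P p q W) (i : Fin 3) {w x : α} (hw : w ∈ W) (hx : x ∈ P i)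
    (hn : ¬ r (q i) w) : r w x := by
  rcases h.arc i hw hx with h1 | h1
  · exact h1
  · exact absurd ((h.pd i).hout w hw ⟨_, hx, h1⟩) hn

theorem ta_fin3 {i j k : Fin 3} (hij : i ≠ j) (hik : i ≠ k) (hjk : j ≠ k) (m : Fin 3) :
    m = i ∨ m = j ∨ m = k := by
  revert i j k m
  decide

theorem ta_other (i : Fin 3) : ∃ j : Fin 3, i ≠ j := by
  revert i
  decide

theorem TA.union (h : TA r V P p q W) {i j k : Fin 3} (hij : i ≠ j) (hik : i ≠ k) (hjk : j ≠ k) :
    P i ∪ W ∪ P j ∪ P k = V := by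
  ext x
  simp only [Finset.mem_union]
  constructor
  · rintro (((h1 | h1) | h1) | h1)
    · exact h.sub _ h1
    · exact h.WV h1
    · exact h.sub _ h1
    · exact h.sub _ h1
  · intro hx
    rcases h.cases hx with h1 | ⟨m, hm⟩
    · exact Or.inl (Or.inl (Or.inr h1))
    · rcases ta_fin3 hij hik hjk m with rfl | rfl | rfl
      · exact Or.inl (Or.inl (Or.inl hm))
      · exact Or.inl (Or.inr hm)
      · exact Or.inr hm

theorem ta_third {i j : Fin 3} (hij : i ≠ j) : ∃ k : Fin 3, i ≠ k ∧ j ≠ k := by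
  revert i j
  decide

/-- two of the paths and `W` in one path -/
theorem TA.two (h : TA r V P p q W) (hX : ∀ i, p i ∈ X) (hY : ∀ i, q i ∈ Y) {i j : Fin 3}
    (hij : i ≠ j) (hW : HP r W {w | r (q i) w} {w | r w (p j)}) : HP r V X Y := by
  obtain ⟨k, hik, hjk⟩ := ta_third hij
  have h1 : HP r (P i ∪ W) {p i} {w | r w (p j)} :=
    (h.pd i).hp.join hW (h.disW i) (by
      rintro t _ rfl s _ hs
      exact hs)
  have h2 : HP r (P i ∪ W ∪ P j) {p i} {q j} :=
    h1.join (h.pd j).hp (by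
      rw [Finset.disjoint_union_left]
      exact ⟨h.dis i j hij, (h.disW j).symm⟩) (by
      rintro t _ ht s _ rfl
      exact ht)
  have h3 : HP r (P i ∪ W ∪ P j) X Y := h2.mono (by
      rintro x _ rfl
      exact hX i) (by
      rintro x _ rfl
      exact hY j)
  have h4 : HP r (P k) X Y := (h.pd k).hp.mono (by
      rintro x _ rfl
      exact hX k) (by
      rintro x _ rfl
      exact hY k)
  have hU := h.union hij hik hjk
  have h5 := h3.merge h4 (by
      rw [Finset.disjoint_union_left, Finset.disjoint_union_left]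
      exact ⟨⟨h.dis i k hik, (h.disW k).symm⟩, h.dis j k hjk⟩) (by
      rw [hU]
      exact h.semi)
  rw [hU, Set.union_self, Set.union_self] at h5
  exact h5

/-- nothing left -/
theorem TA.zero (h : TA r V P p q W) (hX : ∀ i, p i ∈ X) (hY : ∀ i, q i ∈ Y) (hW : W = ∅) :
    HP r V X Y := by
  have hp : ∀ i, HP r (P i) X Y := fun i => (h.pd i).hp.mono (by
      rintro x _ rfl
      exact hX i) (by
      rintro x _ rfl
      exact hY i)
  have hU := h.union (i := 0) (j := 1) (k := 2) (by decide) (by decide) (by decide)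
  rw [hW, Finset.union_empty] at hU
  have h1 := (hp 0).merge (hp 1) (h.dis 0 1 (by decide)) (h.semi.mono (by
    rw [← hU]
    exact Finset.subset_union_left))
  rw [Set.union_self, Set.union_self] at h1
  have h2 := h1.merge (hp 2) (by
    rw [Finset.disjoint_union_left]
    exact ⟨h.dis 0 2 (by decide), h.dis 1 2 (by decide)⟩) (by
    rw [hU]
    exact h.semi)
  rw [hU, Set.union_self, Set.union_self] at h2
  exact h2

theorem TA.Vne (h : TA r V P p q W) : W ≠ V := by
  intro hW
  have h1 := h.pm 0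
  have h2 := h.sub 0 h1
  rw [← hW] at h2
  exact h.notW 0 h1 h2

/-- some arc enters `W` -/
theorem TA.enter (h : TA r V P p q W) (hW : W.Nonempty) : ∃ i, ∃ w ∈ W, r (q i) w := by
  obtain ⟨a, ha, b, hb, hab⟩ := h.strong (V \ W) Finset.sdiff_subset
    ⟨p 0, Finset.mem_sdiff.2 ⟨h.sub 0 (h.pm 0), h.notW 0 (h.pm 0)⟩⟩ (by
      intro h1
      obtain ⟨w, hw⟩ := hW
      have := h.WV hw
      rw [← h1] at this
      exact (Finset.mem_sdiff.1 this).2 hw)
  rw [Finset.sdiff_sdiff_eq_self h.WV] at hb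
  rw [Finset.mem_sdiff] at ha
  rcases h.cases ha.1 with h1 | ⟨i, hi⟩
  · exact absurd h1 ha.2
  · exact ⟨i, b, hb, (h.pd i).hout b hb ⟨a, hi, hab⟩⟩

omit [DecidableEq α] in
theorem ta_nested {D : Fin 3 → Finset α} (hn : ∀ i j, D i ⊆ D j ∨ D j ⊆ D i) :
    ∃ i, ∀ j, D j ⊆ D i := by
  have key : ∀ i j k : Fin 3, (∀ m : Fin 3, m = i ∨ m = j ∨ m = k) → D j ⊆ D i → D k ⊆ D i →
      ∃ i, ∀ j, D j ⊆ D i := by
    intro i j k hm h1 h2
    refine ⟨i, fun m => ?_⟩
    rcases hm m with rfl | rfl | rfl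
    · exact Finset.Subset.refl _
    · exact h1
    · exact h2
  rcases hn 0 1 with h01 | h01
  · rcases hn 1 2 with h12 | h12
    · exact key 2 0 1 (by decide) (h01.trans h12) h12
    · exact key 1 0 2 (by decide) h01 h12
  · rcases hn 0 2 with h02 | h02
    · exact key 2 0 1 (by decide) h02 (h01.trans h02)
    · exact key 0 1 2 (by decide) h01 h02

/-- some `D i` is everything -/
theorem TA.D_all (h : TA r V P p q W) : ∃ i, fwd r W {w | r (q i) w} = W := by
  obtain ⟨i, hi⟩ := ta_nested (D := fun i => fwd r W {w | r (q i) w}) (fun i j =>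
    Cl.total h.semiW fwd_subset fwd_subset fwd_cl fwd_cl)
  refine ⟨i, ?_⟩
  by_contra hne
  set D := fwd r W {w | r (q i) w} with hD
  have hDW : D ⊆ W := fwd_subset
  obtain ⟨a, ha, b, hb, hab⟩ := h.strong (V \ (W \ D)) Finset.sdiff_subset
    ⟨p 0, Finset.mem_sdiff.2 ⟨h.sub 0 (h.pm 0), fun h1 =>
      h.notW 0 (h.pm 0) (Finset.mem_sdiff.1 h1).1⟩⟩ (by
      intro h1
      have h2 : ¬ W ⊆ D := fun h3 => hne (Finset.Subset.antisymm hDW h3)
      rw [Finset.not_subset] at h2
      obtain ⟨w, hw, hwD⟩ := h2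
      have := h.WV hw
      rw [← h1] at this
      exact (Finset.mem_sdiff.1 this).2 (Finset.mem_sdiff.2 ⟨hw, hwD⟩))
  rw [Finset.sdiff_sdiff_eq_self (Finset.sdiff_subset.trans h.WV)] at hb
  rw [Finset.mem_sdiff] at ha hb
  rcases h.cases ha.1 with h1 | ⟨j, hj⟩
  · have haD : a ∈ D := by
      by_contra h2
      exact ha.2 (Finset.mem_sdiff.2 ⟨h1, h2⟩)
    exact hb.2 (fwd_cl a haD b hb.1 hab)
  · have h2 : r (q j) b := (h.pd j).hout b hb.1 ⟨a, hj, hab⟩
    exact hb.2 (hi j (subset_fwd b hb.1 h2))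

/-- case (a): `W` strong -/
theorem TA.case_a (h : TA r V P p q W) (hX : ∀ i, p i ∈ X) (hY : ∀ i, q i ∈ Y) (hW : W.Nonempty)
    (hst : Strong r W) : HP r V X Y := by
  classical
  obtain ⟨σ, hσW, hσ, -, hσU⟩ := ham_succ h.semiW hst hW
  by_cases hex : ∃ i j : Fin 3, i ≠ j ∧ ∃ v ∈ W, r v (p j) ∧ r (q i) (σ v)
  · obtain ⟨i, j, hij, v, hv, h1, h2⟩ := hex
    refine h.two hX hY hij ((hσ v hv).mono ?_ ?_)
    · rintro x _ rfl
      exact h2
    · rintro x _ rfl
      exact h1
  · exfalso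
    push Not at hex
    let Fs : Fin 3 → Finset α := fun j => W.filter (fun v => r v (p j))
    let Ns : Fin 3 → Finset α := fun i => W.filter (fun v => ¬ r (q i) v)
    have hNF : ∀ i, Ns i ⊆ Fs i := by
      intro i v hv
      simp only [Ns, Fs, Finset.mem_filter] at hv ⊢
      exact ⟨hv.1, h.outL i hv.1 (h.pm i) hv.2⟩
    have himg : ∀ i j, i ≠ j → (Fs j).image σ ⊆ Ns i := by
      intro i j hij x hx
      rw [Finset.mem_image] at hx
      obtain ⟨v, hv, rfl⟩ := hx
      simp only [Fs, Finset.mem_filter] at hv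
      simp only [Ns, Finset.mem_filter]
      exact ⟨(hσW v).1 hv.1, hex i j hij v hv.1 hv.2⟩
    have hci : ∀ j, ((Fs j).image σ).card = (Fs j).card := fun j =>
      Finset.card_image_of_injective _ σ.injective
    have hle : ∀ i j, i ≠ j → (Fs j).card ≤ (Ns i).card := fun i j hij => by
      rw [← hci j]
      exact Finset.card_le_card (himg i j hij)
    have hle2 : ∀ i, (Ns i).card ≤ (Fs i).card := fun i => Finset.card_le_card (hNF i)
    have hex2 : ∀ i : Fin 3, ∃ j : Fin 3, i ≠ j := by decide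
    have hNeqF : ∀ i, Ns i = Fs i := by
      intro i
      obtain ⟨j, hij⟩ := hex2 i
      refine Finset.eq_of_subset_of_card_le (hNF i) ?_
      exact (hle j i hij.symm).trans ((hle2 j).trans (hle i j hij))
    have himgeq : ∀ i j, i ≠ j → (Fs j).image σ = Fs i := by
      intro i j hij
      rw [← hNeqF i]
      refine Finset.eq_of_subset_of_card_le (himg i j hij) ?_
      rw [hci]
      exact (hle2 i).trans ((hle j i hij.symm).trans (hle2 j))
    have e12 : Fs 1 = Fs 2 := by
      rw [← himgeq 1 0 (by decide), ← himgeq 2 0 (by decide)]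
    have e02 : Fs 0 = Fs 2 := by
      rw [← himgeq 0 1 (by decide), ← himgeq 2 1 (by decide)]
    have e01 : Fs 0 = Fs 1 := e02.trans e12.symm
    have hinv : ∀ v ∈ Fs 0, σ v ∈ Fs 0 := by
      intro v hv
      have : σ v ∈ (Fs 0).image σ := Finset.mem_image_of_mem _ hv
      rw [himgeq 1 0 (by decide)] at this
      rw [e01]
      exact this
    have hall : ∀ i, Fs i = Fs 0 := by
      intro i
      fin_cases i
      · rfl
      · exact e01.symm
      · exact e02.symm
    by_cases hF : (Fs 0).Nonempty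
    · have hF0 : Fs 0 = W := hσU (Fs 0) (Finset.filter_subset _ _) hF hinv
      obtain ⟨i, w, hw, hqw⟩ := h.enter hW
      have hwN : w ∈ Ns i := by
        rw [hNeqF i, hall i, hF0]
        exact hw
      simp only [Ns, Finset.mem_filter] at hwN
      exact hwN.2 hqw
    · obtain ⟨i, w, hw, hqw⟩ := h.rev.enter hW
      apply hF
      refine ⟨w, ?_⟩
      rw [← hall i]
      simp only [Fs, Finset.mem_filter]
      exact ⟨hw, hqw⟩

/-- case (b), last part -/
theorem TA.case_b (h : TA r V P p q W) (hX : ∀ i, p i ∈ X) (hY : ∀ i, q i ∈ Y) {i j k : Fin 3}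
    (hij : i ≠ j) (hik : i ≠ k) (hjk : j ≠ k) (hDi : fwd r W {w | r (q i) w} = W)
    (hEi : fwd (fun a b => r b a) W {w | r w (p i)} = W)
    (hDj : fwd r W {w | r (q j) w} ≠ W)
    (hEj : fwd (fun a b => r b a) W {w | r w (p j)} ≠ W)
    (hkj : fwd r W {w | r (q k) w} ⊆ fwd r W {w | r (q j) w}) : HP r V X Y := by
  have hFrom : From r W {w | r (q i) w} := by
    have := fwd_from (r := r) (W := W) (L := {w | r (q i) w})
    rwa [hDi] at this
  have hTo : To r W {w | r w (p i)} := by
    have := (fwd_from (r := fun a b => r b a) (W := W) (L := {w | r w (p i)})).rev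
    rwa [hEi] at this
  set D := fwd r W {w | r (q j) w} with hD
  set E := fwd (fun a b => r b a) W {w | r w (p j)} with hE
  have hDW : D ⊆ W := fwd_subset
  have hEW : E ⊆ W := fwd_subset
  have hZc : Cl r W (W \ E) := by
    intro u hu v hv huv
    rw [Finset.mem_sdiff] at hu ⊢
    refine ⟨hv, fun hvE => hu.2 ?_⟩
    exact fwd_cl (r := fun a b => r b a) v hvE u hu.1 huv
  have hZL : ∀ u ∈ W \ E, r (q j) u := by
    intro u hu
    rw [Finset.mem_sdiff] at hu
    refine h.dich j hu.1 fun hup => hu.2 ?_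
    exact subset_fwd (r := fun a b => r b a) u hu.1 hup
  have hZD : W \ E ⊆ D := fun u hu => subset_fwd u (Finset.mem_sdiff.1 hu).1 (hZL u hu)
  have hZne : (W \ E).Nonempty := by
    rw [Finset.sdiff_nonempty]
    exact fun h1 => hEj (Finset.Subset.antisymm hEW h1)
  have h1 : HP r D {w | r (q j) w} {w | r w (p i)} := by
    refine HP_fwd h.semiW (hZne.mono hZD) hTo fun hstr v hv => ?_
    by_cases hZ : W \ E = D
    · exact hZL v (by rw [hZ]; exact hv)
    · obtain ⟨a, ha, b, hb, hab⟩ := hstr (W \ E) hZD hZne hZ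
      rw [Finset.mem_sdiff] at hb
      exact absurd (hZc a ha b (hDW hb.1) hab) hb.2
  have hcne : (W \ D).Nonempty := by
    rw [Finset.sdiff_nonempty]
    exact fun h1 => hDj (Finset.Subset.antisymm hDW h1)
  have h2 : HP r (W \ D) {w | r (q i) w} Set.univ :=
    HP_start (h.semiW.mono Finset.sdiff_subset) hcne (hFrom.compl hDW fwd_cl)
  have hdP : ∀ m, Disjoint (P m) D := fun m => (h.disW m).mono_right hDW
  have hdP' : ∀ m, Disjoint (P m) (W \ D) := fun m => (h.disW m).mono_right Finset.sdiff_subset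
  have g1 : HP r (P j ∪ D) {p j} {w | r w (p i)} :=
    (h.pd j).hp.join h1 (hdP j) (by
      rintro t _ rfl s _ hs
      exact hs)
  have g2 : HP r (P j ∪ D ∪ P i) {p j} {q i} :=
    g1.join (h.pd i).hp (by
      rw [Finset.disjoint_union_left]
      exact ⟨h.dis j i hij.symm, (hdP i).symm⟩) (by
      rintro t _ ht s _ rfl
      exact ht)
  have g3 : HP r (P j ∪ D ∪ P i ∪ (W \ D)) {p j} Set.univ :=
    g2.join h2 (by
      rw [Finset.disjoint_union_left, Finset.disjoint_union_left]
      exact ⟨⟨hdP' j, Finset.disjoint_sdiff⟩, hdP' i⟩) (by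
      rintro t _ rfl s _ hs
      exact hs)
  have g4 : HP r (P j ∪ D ∪ P i ∪ (W \ D) ∪ P k) {p j} {q k} := by
    -- the last vertex lies in `W \ D`
    have g3' : HP r (P j ∪ D ∪ P i ∪ (W \ D)) {p j} {w | r w (p k)} := by
      refine g2.join (h2.mono (fun x _ hx => hx) (T' := {w | r w (p k)}) ?_) (by
        rw [Finset.disjoint_union_left, Finset.disjoint_union_left]
        exact ⟨⟨hdP' j, Finset.disjoint_sdiff⟩, hdP' i⟩) (by
        rintro t _ rfl s _ hs
        exact hs)
      intro t ht _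
      rw [Finset.mem_sdiff] at ht
      refine h.outL k ht.1 (h.pm k) fun hq => ht.2 (hkj (subset_fwd t ht.1 hq))
    refine g3'.join (h.pd k).hp ?_ (by
      rintro t _ ht s _ rfl
      exact ht)
    rw [Finset.disjoint_union_left, Finset.disjoint_union_left, Finset.disjoint_union_left]
    exact ⟨⟨⟨h.dis j k hjk, (hdP k).symm⟩, h.dis i k hik⟩, (hdP' k).symm⟩
  have hset : P j ∪ D ∪ P i ∪ (W \ D) ∪ P k = V := by
    have e1 : P j ∪ D ∪ P i ∪ (W \ D) ∪ P k = P i ∪ (D ∪ (W \ D)) ∪ P j ∪ P k := by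
      clear_value D
      ext x
      simp only [Finset.mem_union]
      constructor
      · rintro ((((h1 | h1) | h1) | h1) | h1)
        · exact Or.inl (Or.inr h1)
        · exact Or.inl (Or.inl (Or.inr (Or.inl h1)))
        · exact Or.inl (Or.inl (Or.inl h1))
        · exact Or.inl (Or.inl (Or.inr (Or.inr h1)))
        · exact Or.inr h1
      · rintro (((h1 | (h1 | h1)) | h1) | h1)
        · exact Or.inl (Or.inl (Or.inr h1))
        · exact Or.inl (Or.inl (Or.inl (Or.inr h1)))
        · exact Or.inl (Or.inr h1)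
        · exact Or.inl (Or.inl (Or.inl (Or.inl h1)))
        · exact Or.inr h1
    rw [e1, Finset.union_sdiff_of_subset hDW, h.union hij hik hjk]
  rw [hset] at g4
  exact g4.mono (by
      rintro x _ rfl
      exact hX j) (by
      rintro x _ rfl
      exact hY k)

theorem thmA (hs : Semi r V) (hst : Strong r V) (hc : Conn r V X Y 3) : HP r V X Y := by
  obtain ⟨P, p, q, h1, h2, hX, hY, h5⟩ := three_paths hs hc
  have h : TA r V P p q (V \ (P 0 ∪ P 1 ∪ P 2)) := ⟨hs, hst, h1, h2, rfl, h5⟩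
  generalize V \ (P 0 ∪ P 1 ∪ P 2) = W at h
  rcases W.eq_empty_or_nonempty with hW | hW
  · exact h.zero hX hY hW
  by_cases hWs : Strong r W
  · exact h.case_a hX hY hW hWs
  obtain ⟨i, hi⟩ := h.D_all
  obtain ⟨i', hi'⟩ := h.rev.D_all
  have hpair : ∀ a b : Fin 3, fwd r W {w | r (q a) w} = W →
      fwd (fun a b => r b a) W {w | r w (p b)} = W → a ≠ b → HP r V X Y := by
    intro a b ha hb hab
    have hFrom : From r W {w | r (q a) w} := by
      have := fwd_from (r := r) (W := W) (L := {w | r (q a) w})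
      rwa [ha] at this
    have hTo : To r W {w | r w (p b)} := by
      have := (fwd_from (r := fun a b => r b a) (W := W) (L := {w | r w (p b)})).rev
      rwa [hb] at this
    exact h.two hX hY hab (HP_nonstrong h.semiW hWs hFrom hTo)
  by_cases hii : i = i'
  · subst hii
    by_cases hD : ∃ a, a ≠ i ∧ fwd r W {w | r (q a) w} = W
    · obtain ⟨a, ha, haW⟩ := hD
      exact hpair a i haW hi' ha
    by_cases hE : ∃ b, b ≠ i ∧ fwd (fun a b => r b a) W {w | r w (p b)} = W
    · obtain ⟨b, hb, hbW⟩ := hE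
      exact hpair i b hi hbW hb.symm
    push Not at hD hE
    obtain ⟨j, hij⟩ := ta_other i
    obtain ⟨k, hik, hjk⟩ := ta_third hij
    rcases Cl.total h.semiW (U1 := fwd r W {w | r (q k) w}) (U2 := fwd r W {w | r (q j) w})
      fwd_subset fwd_subset fwd_cl fwd_cl with hkj | hkj
    · exact h.case_b hX hY hij hik hjk hi hi' (hD j hij.symm) (hE j hij.symm) hkj
    · exact h.case_b hX hY hik hij hjk.symm hi hi' (hD k hik.symm) (hE k hik.symm) hkj
  · exact hpair i i' hi hi' hii

end Pool.Agent.Helper944_HC
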