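import Pool.Agent.Helper944_HC.Final
import Pool.Agent.Helper944_LP.Main

/-!
# Hamiltonian `(x,y)`-paths in tournaments in polynomial time
-/

namespace Pool.Agent.Helper944_HC

open Pool.Agent.NPC
open Pool.Agent.Helper944_LP (Mat arc IsTour IsPath vs HamP CorrectAll poly_arc poly_vs)

/-- Test for tournaments. -/
def tourB (M : Mat) : Bool :=
  M.all (fun r => decide (r.length = M.length)) &&
    (vs M).all (fun u => (vs M).all (fun v =>
      decide (arc M u v = (!(decide (u = v)) && !(arc M v u)))))

theorem tourB_iff {M : Mat} : tourB M = true ↔ IsTour M := by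
  unfold tourB IsTour vs
  rw [Bool.and_eq_true, List.all_eq_true, List.all_eq_true]
  refine and_congr ?_ ?_
  · simp
  · simp only [List.mem_range, List.all_eq_true, decide_eq_true_eq]
    refine forall_congr' fun u => forall_congr' fun hu => forall_congr' fun v =>
      forall_congr' fun hv => ?_
    by_cases h : u = v <;> cases arc M u v <;> cases arc M v u <;> simp [h]

/-- The vertices other than `x`, `y`. -/
def inner (M : Mat) (x y : ℕ) : List ℕ :=
  (vs M).filter (fun v => !(decide (v = x)) && !(decide (v = y)))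

/-- The list of all arcs. -/
def arcsL (M : Mat) : List (ℕ × ℕ) :=
  (vs M).flatMap (fun a => ((vs M).filter (fun b => arc M a b)).map (fun b => (a, b)))

/-- The instance for the pair `x`, `y`. -/
def toInst (M : Mat) (x y : ℕ) : Inst :=
  mk (inner M x y) (arcsL M) ((vs M).filter (fun v => arc M x v))
    ((vs M).filter (fun v => arc M v y))

/-- The decision procedure. -/
def hamB (F : Inst → Bool) (I : Mat × ℕ × ℕ) : Bool :=
  tourB I.1 && (decide (I.2.1 < I.1.length) && (decide (I.2.2 < I.1.length) &&
    (!(decide (I.2.1 = I.2.2)) && (if (inner I.1 I.2.1 I.2.2).isEmpty then arc I.1 I.2.1 I.2.2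
      else F (toInst I.1 I.2.1 I.2.2)))))

theorem mem_inner {M : Mat} {x y v : ℕ} : v ∈ inner M x y ↔ v < M.length ∧ v ≠ x ∧ v ≠ y := by
  simp [inner, vs]

theorem mem_arcsL {M : Mat} {a b : ℕ} :
    (a, b) ∈ arcsL M ↔ a < M.length ∧ b < M.length ∧ arc M a b = true := by
  simp only [arcsL, vs, List.mem_flatMap, List.mem_range, List.mem_map, List.mem_filter,
    Prod.mk.injEq]
  constructor
  · rintro ⟨c, hc, d, ⟨hd, h⟩, rfl, rfl⟩
    exact ⟨hc, hd, h⟩
  · rintro ⟨h1, h2, h3⟩
    exact ⟨a, h1, b, ⟨h2, h3⟩, rfl, rfl⟩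

/-- Splitting a path between two distinct vertices. -/
theorem path_split {x y : ℕ} {l : List ℕ} (hx : l.head? = some x) (hy : l.getLast? = some y)
    (hne : x ≠ y) : ∃ m, l = x :: (m ++ [y]) := by
  cases l with
  | nil => simp at hx
  | cons a t =>
    simp only [List.head?_cons, Option.some.injEq] at hx
    subst hx
    rcases List.eq_nil_or_concat t with rfl | ⟨m, b, rfl⟩
    · simp at hy
      exact absurd hy hne
    · rw [List.concat_eq_append] at hy ⊢
      rw [← List.cons_append, List.getLast?_concat] at hy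
      cases hy
      exact ⟨m, rfl⟩

theorem path_iff {M : Mat} (hM : IsTour M) {x y : ℕ} (hx : x < M.length) (hy : y < M.length)
    (hne : x ≠ y) {m : List ℕ} :
    (IsPath M x y (x :: (m ++ [y])) ∧ (x :: (m ++ [y])).length = M.length) ↔
      (m = [] ∧ arc M x y = true ∧ M.length = 2) ∨
      (m ≠ [] ∧ Tr (rel (arcsL M)) (inner M x y).toFinset m ∧
        (∃ u, m.head? = some u ∧ arc M x u = true) ∧
        (∃ v, m.getLast? = some v ∧ arc M v y = true)) := by
  have hcount : ∀ {l : List ℕ}, l.Nodup → (∀ v ∈ l, v < M.length) → l.length = M.length →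
      ∀ v < M.length, v ∈ l := by
    intro l hl hlt hlen v hv
    have hs : l ⊆ List.range M.length := fun z hz => List.mem_range.2 (hlt z hz)
    have hp : l.Perm (List.range M.length) :=
      (hl.subperm hs).perm_of_length_le (by simp [hlen])
    exact hp.mem_iff.2 (List.mem_range.2 hv)
  constructor
  · rintro ⟨⟨h1, h2, h3, h4, h5⟩, hlen⟩
    by_cases hm : m = []
    · left
      subst hm
      simp at h3 hlen
      exact ⟨rfl, h3, hlen.symm⟩
    · right
      have hall := hcount h1 h2 hlen
      obtain ⟨h6, h7⟩ := List.nodup_cons.1 h1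
      rw [List.nodup_append] at h7
      obtain ⟨h8, -, h9⟩ := h7
      have hmx : ∀ v ∈ m, v ≠ x := fun v hv h => h6 (by rw [← h]; simp [hv])
      have hmy : ∀ v ∈ m, v ≠ y := fun v hv h => h9 v hv y (by simp) h
      have hlt : ∀ v ∈ m, v < M.length := fun v hv => h2 v (by simp [hv])
      have hch : (m ++ [y]).IsChain (fun u v => arc M u v = true) := by
        have := List.IsChain.tail h3
        simpa using this
      rw [List.isChain_append] at hch
      obtain ⟨hc1, -, hc2⟩ := hch
      refine ⟨hm, ⟨h8, ?_, fun v => ?_⟩, ?_, ?_⟩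
      · rw [List.isChain_iff_getElem] at hc1 ⊢
        intro i hi
        exact mem_arcsL.2 ⟨hlt _ (List.getElem_mem _), hlt _ (List.getElem_mem _), hc1 i hi⟩
      · rw [List.mem_toFinset, mem_inner]
        constructor
        · intro hv
          exact ⟨hlt v hv, hmx v hv, hmy v hv⟩
        · rintro ⟨h10, h11, h12⟩
          have := hall v h10
          simp only [List.mem_cons, List.mem_append, List.not_mem_nil, or_false] at this
          tauto
      · cases m with
        | nil => exact absurd rfl hm
        | cons u t =>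
          refine ⟨u, rfl, ?_⟩
          rw [List.cons_append, List.isChain_cons_cons] at h3
          exact h3.1
      · rcases List.eq_nil_or_concat m with h | ⟨t, v, h⟩
        · exact absurd h hm
        · rw [List.concat_eq_append] at h
          refine ⟨v, by rw [h, List.getLast?_concat], ?_⟩
          exact hc2 v (by rw [h, List.getLast?_concat]; rfl) y rfl
  · rintro (⟨rfl, h1, h2⟩ | ⟨hm, ⟨h1, h2, h3⟩, ⟨u, hu, hxu⟩, ⟨v, hv, hvy⟩⟩)
    · refine ⟨⟨by simp [hne], ?_, by simp [h1], rfl, by simp⟩, by simp [h2]⟩
      intro v hv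
      simp only [List.nil_append, List.mem_cons, List.not_mem_nil, or_false] at hv
      rcases hv with rfl | rfl
      · exact hx
      · exact hy
    · have hmem : ∀ z, z ∈ m ↔ z < M.length ∧ z ≠ x ∧ z ≠ y := fun z => by
        rw [h3, List.mem_toFinset, mem_inner]
      have hnd : (x :: (m ++ [y])).Nodup := by
        rw [List.nodup_cons, List.nodup_append]
        refine ⟨?_, h1, by simp, ?_⟩
        · simp only [List.mem_append, List.mem_cons, List.not_mem_nil, or_false, not_or]
          exact ⟨fun h => ((hmem x).1 h).2.1 rfl, hne⟩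
        · intro a ha b hb
          simp only [List.mem_cons, List.not_mem_nil, or_false] at hb
          subst hb
          exact ((hmem a).1 ha).2.2
      refine ⟨⟨hnd, ?_, ?_, rfl, ?_⟩, ?_⟩
      · intro z hz
        simp only [List.mem_cons, List.mem_append, List.not_mem_nil, or_false] at hz
        rcases hz with rfl | hz | rfl
        · exact hx
        · exact ((hmem z).1 hz).1
        · exact hy
      · have hch : m.IsChain (fun u v => arc M u v = true) := by
          rw [List.isChain_iff_getElem] at h2 ⊢
          intro i hi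
          exact (mem_arcsL.1 (h2 i hi)).2.2
        cases m with
        | nil => exact absurd rfl hm
        | cons w t =>
          simp only [List.head?_cons, Option.some.injEq] at hu
          subst hu
          rw [List.cons_append, List.isChain_cons_cons]
          refine ⟨hxu, ?_⟩
          rw [← List.cons_append, List.isChain_append]
          refine ⟨hch, by simp, ?_⟩
          intro a ha b hb
          rw [Option.mem_def, hv] at ha
          simp only [List.head?_cons, Option.mem_def, Option.some.injEq] at ha hb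
          subst ha
          subst hb
          exact hvy
      · rw [← List.cons_append, List.getLast?_concat]
      · have hp : (x :: (m ++ [y])).Perm (List.range M.length) := by
          refine (List.perm_ext_iff_of_nodup hnd List.nodup_range).2 fun z => ?_
          simp only [List.mem_cons, List.mem_append, List.not_mem_nil, or_false, List.mem_range,
            hmem]
          constructor
          · rintro (rfl | h | rfl)
            · exact hx
            · exact h.1
            · exact hy
          · intro h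
            by_cases h1 : z = x
            · exact Or.inl h1
            · by_cases h2 : z = y
              · exact Or.inr (Or.inr h2)
              · exact Or.inr (Or.inl ⟨h, h1, h2⟩)
        rw [hp.length_eq, List.length_range]

theorem hamB_correct {F : Inst → Bool} (hF : ∀ I, wfB I = true → (F I = true ↔ Truth I)) :
    CorrectAll (hamB F) := by
  rintro ⟨M, x, y⟩
  unfold hamB HamP
  simp only [Bool.and_eq_true, decide_eq_true_eq, Bool.not_eq_true', decide_eq_false_iff_not,
    tourB_iff]
  refine and_congr_right fun hM => and_congr_right fun hx => and_congr_right fun hy =>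
    and_congr_right fun hne => ?_
  have key : (∃ l, IsPath M x y l ∧ l.length = M.length) ↔
      ∃ m : List ℕ, (m = [] ∧ arc M x y = true ∧ M.length = 2) ∨
      (m ≠ [] ∧ Tr (rel (arcsL M)) (inner M x y).toFinset m ∧
        (∃ u, m.head? = some u ∧ arc M x u = true) ∧
        (∃ v, m.getLast? = some v ∧ arc M v y = true)) := by
    constructor
    · rintro ⟨l, hl, hlen⟩
      obtain ⟨m, rfl⟩ := path_split hl.head hl.last hne
      exact ⟨m, (path_iff hM hx hy hne).1 ⟨hl, hlen⟩⟩
    · rintro ⟨m, hm⟩
      exact ⟨_, (path_iff hM hx hy hne).2 hm⟩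
  rw [key]
  clear key
  by_cases hi : inner M x y = []
  · have hn2 : M.length = 2 := by
      have h1 : ∀ v < M.length, v = x ∨ v = y := by
        intro v hv
        by_contra hc
        push Not at hc
        have := mem_inner.2 ⟨hv, hc.1, hc.2⟩
        rw [hi] at this
        simp at this
      have a0 := h1 0 (by omega)
      have a1 : 1 < M.length := by omega
      have a2 := h1 1 a1
      by_contra hc
      have a3 := h1 2 (by omega)
      omega
    rw [hi]
    simp only [List.isEmpty_nil, if_true]
    constructor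
    · intro h
      exact ⟨[], Or.inl ⟨rfl, h, hn2⟩⟩
    · rintro ⟨m, ⟨-, h, -⟩ | ⟨hm, ⟨h1, h2, h3⟩, -⟩⟩
      · exact h
      · exfalso
        cases m with
        | nil => exact hm rfl
        | cons a t => simpa using (h3 a).1 (by simp)
  · have he : (inner M x y).isEmpty = false := by
      cases h : inner M x y with
      | nil => exact absurd h hi
      | cons a t => rfl
    rw [he]
    simp only [Bool.false_eq_true, if_false]
    have hsemi : Semi (rel (arcsL M)) (inner M x y).toFinset := by
      intro u hu v hv huv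
      rw [List.mem_toFinset, mem_inner] at hu hv
      have h1 := hM.2 u hu.1 v hv.1
      show (u, v) ∈ arcsL M ∨ (v, u) ∈ arcsL M
      rw [mem_arcsL, mem_arcsL]
      cases h2 : arc M v u with
      | true => exact Or.inr ⟨hv.1, hu.1, rfl⟩
      | false => exact Or.inl ⟨hu.1, hv.1, h1.2 ⟨huv, h2⟩⟩
    have hwf : wfB (toInst M x y) = true :=
      wf_mk _ _ hi (List.nodup_range.filter _) hsemi
    rw [hF _ hwf, toInst, truth_mk]
    have hmemX : ∀ u ∈ (inner M x y).toFinset, u ∈ {v | v ∈ (vs M).filter (fun v => arc M x v)} ↔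
        arc M x u = true := by
      intro u hu
      rw [List.mem_toFinset, mem_inner] at hu
      simp [vs, hu.1]
    have hmemY : ∀ u ∈ (inner M x y).toFinset, u ∈ {v | v ∈ (vs M).filter (fun v => arc M v y)} ↔
        arc M u y = true := by
      intro u hu
      rw [List.mem_toFinset, mem_inner] at hu
      simp [vs, hu.1]
    constructor
    · rintro ⟨m, hm, ⟨u, hu, huX⟩, ⟨v, hv, hvY⟩⟩
      refine ⟨m, Or.inr ⟨?_, hm, ⟨u, hu, ?_⟩, ⟨v, hv, ?_⟩⟩⟩
      · rintro rfl
        simp at hu
      · exact (hmemX u ((hm.mem u).1 (List.mem_of_mem_head? hu))).1 huX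
      · exact (hmemY v ((hm.mem v).1 (List.mem_of_mem_getLast? hv))).1 hvY
    · rintro ⟨m, ⟨-, -, h⟩ | ⟨hm', hm, ⟨u, hu, huX⟩, ⟨v, hv, hvY⟩⟩⟩
      · exfalso
        obtain ⟨z, hz⟩ := List.exists_mem_of_ne_nil _ hi
        have := mem_inner.1 hz
        omega
      · exact ⟨m, hm, ⟨u, hu, (hmemX u ((hm.mem u).1 (List.mem_of_mem_head? hu))).2 huX⟩,
          ⟨v, hv, (hmemY v ((hm.mem v).1 (List.mem_of_mem_getLast? hv))).2 hvY⟩⟩

section poly

variable {α : Type} [TEnc α]

theorem poly_tourB : Poly tourB := by
  have h1 : Poly (fun M : Mat => M.all (fun r => decide (r.length = M.length))) :=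
    Poly.all (p := fun (M : Mat) r => decide (r.length = M.length)) Poly.id
      (Poly.decide_eq (Poly.length (Poly.snd Poly.id)) (Poly.length (Poly.fst Poly.id)))
  have h2 : Poly (fun M : Mat => (vs M).all (fun u => (vs M).all (fun v =>
      decide (arc M u v = (!(decide (u = v)) && !(arc M v u)))))) := by
    refine Poly.all (p := fun (M : Mat) u => (vs M).all (fun v =>
      decide (arc M u v = (!(decide (u = v)) && !(arc M v u))))) (poly_vs Poly.id) ?_
    refine Poly.all (p := fun (q : Mat × ℕ) v =>
      decide (arc q.1 q.2 v = (!(decide (q.2 = v)) && !(arc q.1 v q.2))))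
      (poly_vs (Poly.fst Poly.id)) ?_
    have g1 : Poly (fun p : (Mat × ℕ) × ℕ => p.1.1) := Poly.fst (Poly.fst Poly.id)
    have g2 : Poly (fun p : (Mat × ℕ) × ℕ => p.1.2) := Poly.snd (Poly.fst Poly.id)
    have g3 : Poly (fun p : (Mat × ℕ) × ℕ => p.2) := Poly.snd Poly.id
    exact Poly.decide_eq (poly_arc g1 g2 g3)
      (Poly.and (Poly.not (Poly.decide_eq g2 g3)) (Poly.not (poly_arc g1 g3 g2)))
  exact Poly.and h1 h2

theorem poly_inner : Poly (fun I : Mat × ℕ × ℕ => inner I.1 I.2.1 I.2.2) := by
  refine Poly.filter (p := fun (I : Mat × ℕ × ℕ) v => !(decide (v = I.2.1)) && !(decide (v = I.2.2)))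
    (poly_vs (Poly.fst Poly.id)) ?_
  have g1 : Poly (fun p : (Mat × ℕ × ℕ) × ℕ => p.1.2.1) := Poly.fst (Poly.snd (Poly.fst Poly.id))
  have g2 : Poly (fun p : (Mat × ℕ × ℕ) × ℕ => p.1.2.2) := Poly.snd (Poly.snd (Poly.fst Poly.id))
  have g3 : Poly (fun p : (Mat × ℕ × ℕ) × ℕ => p.2) := Poly.snd Poly.id
  exact Poly.and (Poly.not (Poly.decide_eq g3 g1)) (Poly.not (Poly.decide_eq g3 g2))

theorem poly_arcsL : Poly arcsL := by
  refine Poly.flatMap (F := fun (M : Mat) a => ((vs M).filter (fun b => arc M a b)).map
    (fun b => (a, b))) (poly_vs Poly.id) ?_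
  refine NPC.Poly.map (F := fun (q : Mat × ℕ) b => (q.2, b)) ?_
    (Poly.pair (Poly.snd (Poly.fst Poly.id)) (Poly.snd Poly.id))
  exact Poly.filter (p := fun (q : Mat × ℕ) b => arc q.1 q.2 b) (poly_vs (Poly.fst Poly.id))
    (poly_arc (Poly.fst (Poly.fst Poly.id)) (Poly.snd (Poly.fst Poly.id)) (Poly.snd Poly.id))

theorem poly_mk {V X Y : α → List ℕ} {E : α → List (ℕ × ℕ)} (hV : Poly V) (hE : Poly E)
    (hX : Poly X) (hY : Poly Y) : Poly (fun a => mk (V a) (E a) (X a) (Y a)) := by
  have hf : ∀ {Z : α → List ℕ}, Poly Z → Poly (fun a => (V a).filter (fun v => decide (v ∈ Z a))) := by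
    intro Z hZ
    exact Poly.filter (p := fun a v => decide (v ∈ Z a)) hV
      (Poly.decide_mem (Poly.snd Poly.id) (hZ.comp (Poly.fst Poly.id)))
  have hp : Poly (fun a => prs (V a)) := by
    refine Poly.flatMap (F := fun a u => (V a).map (fun b => (u, b))) hV ?_
    exact NPC.Poly.map (F := fun (q : α × ℕ) b => (q.2, b)) (hV.comp (Poly.fst Poly.id))
      (Poly.pair (Poly.snd (Poly.fst Poly.id)) (Poly.snd Poly.id))
  have he : Poly (fun a => inE (V a) (E a)) :=
    Poly.filter (p := fun a e => decide (e ∈ E a)) hp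
      ((Poly.decide_mem (Poly.snd Poly.id) (hE.comp (Poly.fst Poly.id))).congr
        fun a => by congr)
  exact Poly.pair hV (Poly.pair he (Poly.pair (hf hX) (hf hY)))

theorem poly_hamB {F : Inst → Bool} (hF : Poly F) : Poly (hamB F) := by
  have hM : Poly (fun I : Mat × ℕ × ℕ => I.1) := Poly.fst Poly.id
  have hx : Poly (fun I : Mat × ℕ × ℕ => I.2.1) := Poly.fst (Poly.snd Poly.id)
  have hy : Poly (fun I : Mat × ℕ × ℕ => I.2.2) := Poly.snd (Poly.snd Poly.id)
  have f1 : Poly (fun p : (Mat × ℕ × ℕ) × ℕ => p.1) := Poly.fst Poly.id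
  have hX : Poly (fun I : Mat × ℕ × ℕ => (vs I.1).filter (fun v => arc I.1 I.2.1 v)) :=
    Poly.filter (p := fun (I : Mat × ℕ × ℕ) v => arc I.1 I.2.1 v) (poly_vs hM)
      (poly_arc (hM.comp f1) (hx.comp f1) (Poly.snd Poly.id))
  have hY : Poly (fun I : Mat × ℕ × ℕ => (vs I.1).filter (fun v => arc I.1 v I.2.2)) :=
    Poly.filter (p := fun (I : Mat × ℕ × ℕ) v => arc I.1 v I.2.2) (poly_vs hM)
      (poly_arc (hM.comp f1) (Poly.snd Poly.id) (hy.comp f1))
  have hT : Poly (fun I : Mat × ℕ × ℕ => toInst I.1 I.2.1 I.2.2) :=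
    poly_mk poly_inner (poly_arcsL.comp hM) hX hY
  have hE : Poly (fun I : Mat × ℕ × ℕ => (inner I.1 I.2.1 I.2.2).isEmpty) := Poly.isEmpty poly_inner
  refine Poly.and (poly_tourB.comp hM) (Poly.and (Poly.decide_lt hx (Poly.length hM))
    (Poly.and (Poly.decide_lt hy (Poly.length hM)) (Poly.and (Poly.not (Poly.decide_eq hx hy))
      (Poly.ite (Poly.decide_bool hE) (poly_arc hM hx hy) (hF.comp hT)))))

end poly

/-- The Hamiltonian `(x,y)`-path problem in tournaments is solvable in polynomial time. -/
theorem ham_poly : ∃ H : Mat × ℕ × ℕ → Bool, Poly H ∧ CorrectAll H := by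
  obtain ⟨F, hF, hF'⟩ := exists_decider
  exact ⟨hamB F, poly_hamB hF, hamB_correct hF'⟩

/-- The longest `(x,y)`-path problem in tournaments is solvable in polynomial time. -/
theorem longest_poly : ∃ F : Mat × ℕ × ℕ → Option (List ℕ), Poly F ∧
    ∀ (M : Mat) (x y : ℕ), IsTour M → x < M.length → y < M.length →
      match F (M, x, y) with
      | none => ¬ ∃ l, IsPath M x y l
      | some l => IsPath M x y l ∧ ∀ l', IsPath M x y l' → l'.length ≤ l.length := by
  obtain ⟨H, hp, hH⟩ := ham_poly
  exact Pool.Agent.Helper944_LP.longest_of_ham hp hH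

end Pool.Agent.Helper944_HC
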